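import Pool.Agent.MP_39a890_nt.kt.Spec

/-! Project KT, row ASM: the telescoped estimate, the main term and the singular series. -/

set_option autoImplicit false

noncomputable section

namespace Pool.Agent.MP_39a890_nt.KT

open Finset
open scoped ArithmeticFunction.vonMangoldt
open Pool.Agent.MP_678834_nt Pool.Agent.MP_678834_nt.HL9 Pool.Agent.MP_39a890_nt.MS

namespace ASM

theorem big (T : ℝ) (D : ℕ) : ∃ N₂ : ℝ, ∀ N : ℝ, N₂ ≤ N →
    T ≤ Real.log N ∧ 8 * Real.log N ^ D ≤ N ∧ 1 ≤ N := by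
  have h1 := Real.tendsto_log_atTop.eventually_ge_atTop T
  have h2 := (Real.isLittleO_pow_log_id_atTop (n := D)).bound (by norm_num : (0 : ℝ) < 1 / 8)
  obtain ⟨N₂, h⟩ := Filter.eventually_atTop.1 (h1.and (h2.and (Filter.eventually_ge_atTop 1)))
  refine ⟨N₂, fun N hN => ?_⟩
  obtain ⟨a, b, c⟩ := h N hN
  refine ⟨a, ?_, c⟩
  rw [Real.norm_eq_abs, Real.norm_eq_abs, id, abs_of_nonneg (by linarith : (0 : ℝ) ≤ N)] at b
  have := le_abs_self (Real.log N ^ D)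
  linarith

theorem third {c L N : ℝ} (K : ℕ) (hL : 0 < L) (hN : 0 ≤ N) (h : 3 * c ≤ L) :
    c * N / L ^ (K + 1) ≤ N / L ^ K / 3 := by
  have hp : 0 < L ^ K := pow_pos hL K
  rw [div_div, div_le_div_iff₀ (by positivity) (by positivity), pow_succ]
  have : 0 ≤ N * L ^ K * (L - 3 * c) := mul_nonneg (by positivity) (by linarith)
  nlinarith

theorem cut (N M : ℕ) (hM : M ≤ 2 * N) (f g : ℕ → ℂ) :
    ∑ n ∈ Ioc N (2 * N), (if n ≤ M then f n else 0) * g n = ∑ n ∈ Ioc N M, f n * g n := by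
  have : Ioc N M = (Ioc N (2 * N)).filter fun n => n ≤ M := by
    ext n
    simp only [mem_Ioc, mem_filter]
    omega
  rw [this, sum_filter]
  refine sum_congr rfl fun n _ => ?_
  split_ifs <;> simp

end ASM

open Classical in
theorem asm : MTKStmt → SERStmt → ∀ F, Fam F → TELFor F → KTFor F := by
  intro mtk ser F hF tel k K
  obtain ⟨B, C₀, C, N₀, hC, hB, htel⟩ := tel k 2 (K + 1) (2 * K + 4)
  refine ⟨C₀, fun D => ?_⟩
  obtain ⟨C₁, N₁, hm⟩ := mtk k (K + 1) (1 + ∑ i, B i)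
  obtain ⟨C₂, hs⟩ := ser k (D + 1)
  obtain ⟨N₂, hb⟩ := ASM.big (3 + 3 * k + 3 * |C₁| + 3 * |C₂|) D
  refine ⟨C, max N₀ (max N₁ N₂), hC, fun N M A H hN h1 h2 hA hH hD => ?_⟩
  obtain ⟨b1, b2, b3⟩ := hb N ((le_max_right _ _).trans ((le_max_right _ _).trans hN))
  set L := Real.log N with hLdef
  have k0 : (0 : ℝ) ≤ k := Nat.cast_nonneg k
  have a1 := abs_nonneg C₁
  have a2 := abs_nonneg C₂
  have a3 := le_abs_self C₁
  have a4 := le_abs_self C₂
  have L3 : 3 ≤ L := by linarith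
  have L1 : 1 ≤ L := by linarith
  have L0 : 0 < L := by linarith
  have N0 : (0 : ℝ) ≤ N := Nat.cast_nonneg N
  have H8 : 8 * H ≤ N := by
    have : (8 : ℝ) * H ≤ N := by linarith
    exact_mod_cast this
  have p0 : 1 ≤ L ^ C₀ := one_le_pow₀ L1
  have A1 : 1 ≤ A := by
    have : (1 : ℝ) ≤ A := p0.trans hA
    exact_mod_cast this
  have AH : A ≤ H := by
    have : (A : ℝ) ≤ H := (le_mul_of_one_le_right (Nat.cast_nonneg A) p0).trans hH
    exact_mod_cast this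
  let Q : Fin k → ℕ := fun i => ⌈L ^ B i⌉₊
  have hQ : ∀ i, L ^ B i ≤ Q i ∧ (Q i : ℝ) ≤ L ^ (B i + 1) := fun i => by
    have e1 : 1 ≤ L ^ B i := one_le_pow₀ L1
    have e2 := Nat.ceil_lt_add_one (a := L ^ B i) (by linarith)
    refine ⟨Nat.le_ceil _, ?_⟩
    rw [pow_succ]
    show ((⌈L ^ B i⌉₊ : ℕ) : ℝ) ≤ _
    nlinarith
  let β : ℕ → ℂ := fun n => if n ≤ M then ((Λ n : ℝ) : ℂ) else 0
  have hβ : ∀ n ∈ Ioc N (2 * N), ‖β n‖ ≤ L ^ 2 := fun n hn => by
    rw [mem_Ioc] at hn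
    have e1 : Λ n ≤ Real.log n := ArithmeticFunction.vonMangoldt_le_log
    have e2 : Real.log n ≤ Real.log (2 * N) :=
      Real.log_le_log (by exact_mod_cast (Nat.zero_le N).trans_lt hn.1) (by exact_mod_cast hn.2)
    rw [Real.log_mul (by norm_num) (by linarith)] at e2
    have e3 := Real.log_two_lt_d9
    show ‖if n ≤ M then ((Λ n : ℝ) : ℂ) else 0‖ ≤ _
    split_ifs
    · rw [Complex.norm_real, Real.norm_eq_abs, abs_of_nonneg ArithmeticFunction.vonMangoldt_nonneg]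
      nlinarith
    · rw [norm_zero]; positivity
  refine ⟨_, (htel N A H Q β ((le_max_left _ _).trans hN) hQ hA hH H8 hβ).trans ?_,
    fun x hi hx hEx => ?_⟩
  · exact div_le_div_of_nonneg_left (by positivity) (pow_pos L0 K)
      (pow_le_pow_right₀ L1 (Nat.le_succ K))
  have hx1 : ∀ i, 2 ≤ (x i).1 ∧ (x i).1 ≤ 2 * H := fun i => by
    have := mem_Ioc.1 (hF.sub _ _ _ (hx i).1)
    omega
  have hP : x ∈ Fintype.piFinset fun _ : Fin k => PP (F C₀ N A) H := by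
    refine Fintype.mem_piFinset.2 fun i => mem_product.2 ⟨(hx i).1, mem_erase.2 ⟨fun e => ?_,
      mem_Icc.2 (abs_le.1 (hx i).2.1)⟩⟩
    have c := (hx i).2.2
    rw [e, isCoprime_zero_right, Int.isUnit_iff] at c
    have := (hx1 i).1
    omega
  have t1 := not_lt.1 fun h => hEx (mem_filter.2 ⟨hP, h⟩)
  rw [ASM.cut N M h2 (fun n => ((Λ n : ℝ) : ℂ)), ← mul_div_assoc] at t1
  have t1' := t1.trans (ASM.third K L0 N0 (by linarith))
  let y := 1 + ⌈L ^ (2 * K + 4)⌉₊ + ∑ i, Q i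
  have t2 := (hm N M y Q x ((le_max_left _ _).trans ((le_max_right _ _).trans hN)) h1 h2
    (fun i => ⟨(hQ i).2.trans (pow_le_pow_right₀ L1 (by
        have := single_le_sum (f := B) (fun _ _ => Nat.zero_le _) (mem_univ i)
        omega)), by
      have := single_le_sum (f := Q) (fun _ _ => Nat.zero_le _) (mem_univ i)
      omega⟩)
    (fun i => ⟨by have := (hx1 i).1; omega, (hx i).2.1.trans (by omega)⟩)).trans
      (ASM.third K L0 N0 (by linarith))
  have t3 := hs L (L ^ (2 * K + 4)) (2 * H) y Q x L3 (pow_pos L0 _)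
    ((Nat.le_ceil _).trans (by exact_mod_cast (by omega : ⌈L ^ (2 * K + 4)⌉₊ ≤ y)))
    (by
      have : 0 ≤ L ^ D := by positivity
      rw [pow_succ]; push_cast; nlinarith)
    (fun i => (pow_le_pow_right₀ L1 (hB i)).trans (hQ i).1) hi
    (fun i => ⟨(hx1 i).1, (hx1 i).2, (hx i).2.1.trans (by push_cast; omega), (hx i).2.2⟩)
  have sq : Real.sqrt (L ^ (2 * K + 4)) = L ^ (K + 1) * L := by
    rw [← pow_succ, show 2 * K + 4 = (K + 1 + 1) * 2 by ring, pow_mul,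
      Real.sqrt_sq (by positivity)]
  rw [sq, mul_div_mul_right _ _ L0.ne'] at t3
  have MN : (0 : ℝ) ≤ (M : ℝ) - N ∧ (M : ℝ) - N ≤ N := by
    have e1 : (N : ℝ) ≤ M := by exact_mod_cast h1
    have e2 : (M : ℝ) ≤ 2 * N := by exact_mod_cast h2
    constructor <;> linarith
  have t4 : |(singSeries x - box (tp x) y.primesBelow Q) * ((M : ℝ) - N)| ≤ N / L ^ K / 3 := by
    rw [abs_mul, abs_of_nonneg MN.1]
    refine (mul_le_mul t3 MN.2 MN.1 ((abs_nonneg _).trans t3)).trans ?_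
    rw [div_mul_eq_mul_div]
    exact ASM.third K L0 N0 (by linarith)
  have key : (((∑ n ∈ Ioc N M, Λ n * ∏ i, Λ (fv (x i) n) -
      box (tp x) y.primesBelow Q * ((M : ℝ) - N) : ℝ)) : ℂ) =
      ∑ n ∈ Ioc N M, ((Λ n : ℝ) : ℂ) *
        (∏ i, ((Λ (fv (x i) n) : ℝ) : ℂ) - ∏ i, lamS (Q i) (fv (x i) n)) +
      (∑ n ∈ Ioc N M, ((Λ n : ℝ) : ℂ) * ∏ i, lamS (Q i) (fv (x i) n) -
        ((box (tp x) y.primesBelow Q * ((M : ℝ) - N) : ℝ) : ℂ)) := by
    simp only [mul_sub, sum_sub_distrib]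
    push_cast
    ring
  have t5 : |∑ n ∈ Ioc N M, Λ n * ∏ i, Λ (fv (x i) n) -
      box (tp x) y.primesBelow Q * ((M : ℝ) - N)| ≤ N / L ^ K / 3 + N / L ^ K / 3 := by
    rw [← Real.norm_eq_abs, ← Complex.norm_real, key]
    exact (norm_add_le _ _).trans (add_le_add t1' t2)
  rw [abs_le] at t4 t5 ⊢
  constructor <;> nlinarith [t4.1, t4.2, t5.1, t5.2]

end Pool.Agent.MP_39a890_nt.KT
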