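import Pool.Agent.MP_39a890_nt.kt.Spec3

/-! Project KT, row ASM3: the assembly in the full range of heights. -/

set_option autoImplicit false

noncomputable section

namespace Pool.Agent.MP_39a890_nt.KT

open Finset
open scoped ArithmeticFunction.vonMangoldt
open Pool.Agent.MP_678834_nt Pool.Agent.MP_678834_nt.HL9 Pool.Agent.MP_39a890_nt.MS

theorem ASM3.cheb {ι : Type} (s : Finset ι) (f : ι → ℝ) (hf : ∀ x, 0 ≤ f x) {t : ℝ} (ht : 0 < t)
    [DecidablePred fun x => t < f x] :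
    ((s.filter fun x => t < f x).card : ℝ) ≤ (∑ x ∈ s, f x) / t := by
  rw [le_div_iff₀ ht, ← nsmul_eq_mul]
  exact (card_nsmul_le_sum _ f t fun x hx => (mem_filter.1 hx).2.le).trans
    (sum_le_sum_of_subset_of_nonneg (filter_subset _ _) fun x _ _ => hf x)

open Classical in
theorem asm3 : MTKStmt → SER3Stmt → DVAStmt → ∀ F, Fam2 F → TELFor F → KT3For F := by
  intro mtk ser dva F hF tel k K
  obtain ⟨K₀, C₃, hC₃, hd⟩ := dva k
  obtain ⟨B, C₀, C, N₀, hC, hB, htel⟩ := tel k 2 (K + 1) ((K + 1 + (K + K₀)) * 2)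
  obtain ⟨C₁, N₁, hm⟩ := mtk k (K + 1) (1 + ∑ i, B i)
  obtain ⟨C₂, hC₂, hs⟩ := ser k
  obtain ⟨N₂, hb⟩ := ASM.big (3 + 3 * k + 3 * |C₁| + 3 * |C₂|) 0
  refine ⟨C₀, C + C₃ * 4 ^ K₀, max N₀ (max N₁ N₂), by positivity,
    fun N M A H hN h1 h2 hA hH H8 => ?_⟩
  obtain ⟨b1, -, b3⟩ := hb N ((le_max_right _ _).trans ((le_max_right _ _).trans hN))
  set L := Real.log N with hLdef
  have k0 : (0 : ℝ) ≤ k := Nat.cast_nonneg k
  have a1 := abs_nonneg C₁
  have a2 := abs_nonneg C₂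
  have a3 := le_abs_self C₁
  have a4 := le_abs_self C₂
  have L3 : 3 ≤ L := by linarith
  have L1 : 1 ≤ L := by linarith
  have L0 : 0 < L := by linarith
  have N0 : (0 : ℝ) ≤ N := Nat.cast_nonneg N
  have p0 : 1 ≤ L ^ C₀ := one_le_pow₀ L1
  have A1 : 1 ≤ A := by
    have : (1 : ℝ) ≤ A := p0.trans hA
    exact_mod_cast this
  have AH : A ≤ H := by
    have : (A : ℝ) ≤ H := (le_mul_of_one_le_right (Nat.cast_nonneg A) p0).trans hH
    exact_mod_cast this
  let Q : Fin k → ℕ := fun i => ⌈L ^ B i⌉₊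
  have hQ : ∀ i, L ^ B i ≤ Q i ∧ (Q i : ℝ) ≤ L ^ (B i + 1) := fun i => by
    have e1 : 1 ≤ L ^ B i := one_le_pow₀ L1
    have e2 := Nat.ceil_lt_add_one (a := L ^ B i) (by linarith)
    refine ⟨Nat.le_ceil _, ?_⟩
    rw [pow_succ]
    show ((⌈L ^ B i⌉₊ : ℕ) : ℝ) ≤ _
    nlinarith
  let β : ℕ → ℂ := fun n => if n ≤ M then ((Λ n : ℝ) : ℂ) else 0
  have hβ : ∀ n ∈ Ioc N (2 * N), ‖β n‖ ≤ L ^ 2 := fun n hn => by
    rw [mem_Ioc] at hn
    have e1 : Λ n ≤ Real.log n := ArithmeticFunction.vonMangoldt_le_log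
    have e2 : Real.log n ≤ Real.log (2 * N) :=
      Real.log_le_log (by exact_mod_cast (Nat.zero_le N).trans_lt hn.1) (by exact_mod_cast hn.2)
    rw [Real.log_mul (by norm_num) (by linarith)] at e2
    have e3 := Real.log_two_lt_d9
    show ‖if n ≤ M then ((Λ n : ℝ) : ℂ) else 0‖ ≤ _
    split_ifs
    · rw [Complex.norm_real, Real.norm_eq_abs, abs_of_nonneg ArithmeticFunction.vonMangoldt_nonneg]
      nlinarith
    · rw [norm_zero]; positivity
  have c1 := (htel N A H Q β ((le_max_left _ _).trans hN) hQ hA hH H8 hβ).trans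
    (div_le_div_of_nonneg_left (by positivity) (pow_pos L0 K)
      (pow_le_pow_right₀ L1 (Nat.le_succ K)))
  have l4 : 1 + Real.log (2 * A * H) ≤ 4 * L := by
    have e1 : (1 : ℝ) ≤ A := by exact_mod_cast A1
    have e2 : (A : ℝ) ≤ H := by exact_mod_cast AH
    have e3 : (8 : ℝ) * H ≤ N := by exact_mod_cast H8
    have e4 : Real.log (2 * A * H) ≤ Real.log ((N : ℝ) ^ 2) :=
      Real.log_le_log (by nlinarith) (by nlinarith)
    rw [Real.log_pow] at e4
    push_cast at e4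
    linarith
  have l0 : 0 ≤ 1 + Real.log (2 * A * H) := by
    have := Real.log_natCast_nonneg (2 * A * H)
    push_cast at this
    linarith
  have c2 : (((Fintype.piFinset fun _ : Fin k => PP (Ioc 1 A) H).filter fun x =>
      L ^ (K + K₀) < dv (dl x)).card : ℝ) ≤ C₃ * 4 ^ K₀ * ((A : ℝ) * H) ^ k / L ^ K := by
    refine (ASM3.cheb _ (fun x => dv (dl x)) (fun _ => Nat.cast_nonneg _) (pow_pos L0 _)).trans ?_
    rw [div_le_div_iff₀ (by positivity) (by positivity)]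
    calc _ ≤ C₃ * ((A : ℝ) * H) ^ k * (4 * L) ^ K₀ * L ^ K :=
          mul_le_mul_of_nonneg_right ((hd A H A1 (A1.trans AH)).trans (by gcongr)) (by positivity)
      _ = _ := by rw [mul_pow 4, pow_add]; ring
  refine ⟨_ ∪ _, (Nat.cast_le.2 (card_union_le _ _)).trans
    ((Nat.cast_add _ _).trans_le ((add_le_add c1 c2).trans_eq (by ring))), fun x hi hx hEx => ?_⟩
  rw [mem_union, not_or] at hEx
  have hx1 : ∀ i, 2 ≤ (x i).1 ∧ (x i).1 ≤ 2 * H := fun i => by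
    have := mem_Ioc.1 (hF.sub _ _ _ (hx i).1)
    omega
  have hP : x ∈ Fintype.piFinset fun _ : Fin k => PP (F C₀ N A) H := by
    refine Fintype.mem_piFinset.2 fun i => mem_product.2 ⟨(hx i).1, mem_erase.2 ⟨fun e => ?_,
      mem_Icc.2 (abs_le.1 (hx i).2.1)⟩⟩
    have c := (hx i).2.2
    rw [e, isCoprime_zero_right, Int.isUnit_iff] at c
    have := (hx1 i).1
    omega
  have hP' : x ∈ Fintype.piFinset fun _ : Fin k => PP (Ioc 1 A) H :=
    Fintype.piFinset_subset _ _ (fun _ => product_subset_product_left (hF.sub _ _ _)) hP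
  have t0 := not_lt.1 fun h => hEx.2 (mem_filter.2 ⟨hP', h⟩)
  have t1 := not_lt.1 fun h => hEx.1 (mem_filter.2 ⟨hP, h⟩)
  rw [ASM.cut N M h2 (fun n => ((Λ n : ℝ) : ℂ)), ← mul_div_assoc] at t1
  have t1' := t1.trans (ASM.third K L0 N0 (by linarith))
  let y := 1 + ⌈L ^ ((K + 1 + (K + K₀)) * 2)⌉₊ + ∑ i, Q i
  have t2 := (hm N M y Q x ((le_max_left _ _).trans ((le_max_right _ _).trans hN)) h1 h2
    (fun i => ⟨(hQ i).2.trans (pow_le_pow_right₀ L1 (by
        have := single_le_sum (f := B) (fun _ _ => Nat.zero_le _) (mem_univ i)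
        omega)), by
      have := single_le_sum (f := Q) (fun _ _ => Nat.zero_le _) (mem_univ i)
      omega⟩)
    (fun i => ⟨by have := (hx1 i).1; omega, (hx i).2.1.trans (by omega)⟩)).trans
      (ASM.third K L0 N0 (by linarith))
  have t3 := hs (L ^ ((K + 1 + (K + K₀)) * 2)) y Q x (pow_pos L0 _)
    ((Nat.le_ceil _).trans (by exact_mod_cast (by omega : ⌈L ^ ((K + 1 + (K + K₀)) * 2)⌉₊ ≤ y)))
    (fun i => (pow_le_pow_right₀ L1 (hB i)).trans (hQ i).1) hi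
    (fun i => ⟨(hx1 i).1, (hx i).2.2⟩)
  rw [pow_mul, Real.sqrt_sq (by positivity)] at t3
  replace t3 := t3.trans (div_le_div_of_nonneg_right (mul_le_mul_of_nonneg_left t0 hC₂)
    (by positivity))
  rw [pow_add L (K + 1), mul_div_mul_right _ _ (pow_pos L0 _).ne'] at t3
  have MN : (0 : ℝ) ≤ (M : ℝ) - N ∧ (M : ℝ) - N ≤ N := by
    have e1 : (N : ℝ) ≤ M := by exact_mod_cast h1
    have e2 : (M : ℝ) ≤ 2 * N := by exact_mod_cast h2
    constructor <;> linarith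
  have t4 : |(singSeries x - box (tp x) y.primesBelow Q) * ((M : ℝ) - N)| ≤ N / L ^ K / 3 := by
    rw [abs_mul, abs_of_nonneg MN.1]
    refine (mul_le_mul t3 MN.2 MN.1 ((abs_nonneg _).trans t3)).trans ?_
    rw [div_mul_eq_mul_div]
    exact ASM.third K L0 N0 (by linarith)
  have key : (((∑ n ∈ Ioc N M, Λ n * ∏ i, Λ (fv (x i) n) -
      box (tp x) y.primesBelow Q * ((M : ℝ) - N) : ℝ)) : ℂ) =
      ∑ n ∈ Ioc N M, ((Λ n : ℝ) : ℂ) *
        (∏ i, ((Λ (fv (x i) n) : ℝ) : ℂ) - ∏ i, lamS (Q i) (fv (x i) n)) +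
      (∑ n ∈ Ioc N M, ((Λ n : ℝ) : ℂ) * ∏ i, lamS (Q i) (fv (x i) n) -
        ((box (tp x) y.primesBelow Q * ((M : ℝ) - N) : ℝ) : ℂ)) := by
    simp only [mul_sub, sum_sub_distrib]
    push_cast
    ring
  have t5 : |∑ n ∈ Ioc N M, Λ n * ∏ i, Λ (fv (x i) n) -
      box (tp x) y.primesBelow Q * ((M : ℝ) - N)| ≤ N / L ^ K / 3 + N / L ^ K / 3 := by
    rw [← Real.norm_eq_abs, ← Complex.norm_real, key]
    exact (norm_add_le _ _).trans (add_le_add t1' t2)
  rw [abs_le] at t4 t5 ⊢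
  constructor <;> nlinarith [t4.1, t4.2, t5.1, t5.2]

end Pool.Agent.MP_39a890_nt.KT
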