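import Pool.Agent.MP_39a890_nt.kt.Spec4

/-! Project KS, row ASM4: the assembly for tuples of shifts. -/

set_option autoImplicit false

noncomputable section

namespace Pool.Agent.MP_39a890_nt.KT

open Finset
open scoped ArithmeticFunction.vonMangoldt
open Pool.Agent.MP_678834_nt Pool.Agent.MP_678834_nt.HL9 Pool.Agent.MP_39a890_nt.MS

theorem ASM4.dl_le {k : ℕ} (d : Fin k → ℤ) (N : ℕ) (hN : 1 ≤ N) (h : ∀ i, 4 * |d i| ≤ N) :
    Real.log (dl (sh d)).natAbs ≤ ((k + k * k : ℕ) : ℝ) * Real.log N := by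
  have h0 : (0 : ℤ) ≤ N := Int.natCast_nonneg N
  have e1 : |∏ i, (((sh d i).1 : ℕ) : ℤ) * (sh d i).2| ≤ (N : ℤ) ^ k := by
    rw [Finset.abs_prod]
    refine (prod_le_prod (g := fun _ => (N : ℤ)) (fun _ _ => abs_nonneg _)
      fun i _ => ?_).trans_eq (by simp)
    have := h i
    have := abs_nonneg (d i)
    simp only [sh, Nat.cast_one, one_mul]
    omega
  have e2 : |∏ ij ∈ (univ : Finset (Fin k)).offDiag, dt (sh d ij.1) (sh d ij.2)| ≤
      (N : ℤ) ^ (k * k) := by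
    rw [Finset.abs_prod]
    refine (prod_le_prod (g := fun _ => (N : ℤ)) (fun _ _ => abs_nonneg _)
      fun ij _ => ?_).trans ?_
    · have := h ij.1
      have := h ij.2
      have := abs_sub (d ij.2) (d ij.1)
      have := abs_nonneg (d ij.1)
      have := abs_nonneg (d ij.2)
      simp only [sh, dt, Nat.cast_one, one_mul]
      omega
    · rw [prod_const, offDiag_card, card_univ, Fintype.card_fin]
      exact pow_le_pow_right₀ (by exact_mod_cast hN) (Nat.sub_le _ _)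
  have e3 : (dl (sh d)).natAbs ≤ N ^ (k + k * k) := by
    have : |dl (sh d)| ≤ (N : ℤ) ^ (k + k * k) := by
      rw [dl, abs_mul, pow_add]
      exact mul_le_mul e1 e2 (abs_nonneg _) (by positivity)
    rw [← Int.natCast_natAbs] at this
    exact_mod_cast this
  rw [← Real.log_pow]
  rcases Nat.eq_zero_or_pos (dl (sh d)).natAbs with e | e
  · rw [e, Nat.cast_zero, Real.log_zero]
    exact Real.log_nonneg (one_le_pow₀ (by exact_mod_cast hN))
  · exact Real.log_le_log (by exact_mod_cast e) (by exact_mod_cast e3)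

open Classical in
theorem asm4 : MTKStmt → TLSStmt → SER4Stmt → OMTStmt → KSStmt := by
  intro mtk tls ser omt ε hε k K
  obtain ⟨J, C₃, N₃, hC₃, hd⟩ := omt k K
  obtain ⟨B, C, N₀, hC, hB, htel⟩ := tls ε hε k 2 (K + 1) ((K + 1 + J) * 2)
  obtain ⟨C₁, N₁, hm⟩ := mtk k (K + 1) (1 + ∑ i, B i)
  obtain ⟨C₂, hC₂, hs⟩ := ser k (k + k * k)
  obtain ⟨N₂, hb⟩ := ASM.big (3 + 3 * k + 3 * |C₁| + 3 * |C₂|) 0
  refine ⟨C + C₃, max (max N₀ N₃) (max N₁ N₂), by positivity,
    fun N M H u hN h1 h2 hH hu => ?_⟩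
  obtain ⟨b1, -, b3⟩ := hb N ((le_max_right _ _).trans ((le_max_right _ _).trans hN))
  have c2 := hd N H u ((le_max_right _ _).trans ((le_max_left _ _).trans hN))
    ((Real.rpow_le_rpow_of_exponent_le b3 (by linarith)).trans hH)
  set L := Real.log N with hLdef
  have k0 : (0 : ℝ) ≤ k := Nat.cast_nonneg k
  have a1 := abs_nonneg C₁
  have a2 := abs_nonneg C₂
  have a3 := le_abs_self C₁
  have a4 := le_abs_self C₂
  have L3 : 3 ≤ L := by linarith
  have L1 : 1 ≤ L := by linarith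
  have L0 : 0 < L := by linarith
  have N0 : (0 : ℝ) ≤ N := Nat.cast_nonneg N
  let Q : Fin k → ℕ := fun i => ⌈L ^ B i⌉₊
  have hQ : ∀ i, L ^ B i ≤ Q i ∧ (Q i : ℝ) ≤ 2 * L ^ B i := fun i => by
    have e1 : 1 ≤ L ^ B i := one_le_pow₀ L1
    have e2 := Nat.ceil_lt_add_one (a := L ^ B i) (by linarith)
    refine ⟨Nat.le_ceil _, ?_⟩
    show ((⌈L ^ B i⌉₊ : ℕ) : ℝ) ≤ _
    linarith
  have hQ' : ∀ i, (Q i : ℝ) ≤ L ^ (B i + 1) := fun i => by
    have e1 : 1 ≤ L ^ B i := one_le_pow₀ L1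
    refine (hQ i).2.trans ?_
    rw [pow_succ]
    nlinarith
  let β : ℕ → ℂ := fun n => if n ≤ M then ((Λ n : ℝ) : ℂ) else 0
  have hβ : ∀ n ∈ Ioc N (2 * N), ‖β n‖ ≤ L ^ 2 := fun n hn => by
    rw [mem_Ioc] at hn
    have e1 : Λ n ≤ Real.log n := ArithmeticFunction.vonMangoldt_le_log
    have e2 : Real.log n ≤ Real.log (2 * N) :=
      Real.log_le_log (by exact_mod_cast (Nat.zero_le N).trans_lt hn.1) (by exact_mod_cast hn.2)
    rw [Real.log_mul (by norm_num) (by linarith)] at e2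
    have e3 := Real.log_two_lt_d9
    show ‖if n ≤ M then ((Λ n : ℝ) : ℂ) else 0‖ ≤ _
    split_ifs
    · rw [Complex.norm_real, Real.norm_eq_abs, abs_of_nonneg ArithmeticFunction.vonMangoldt_nonneg]
      nlinarith
    · rw [norm_zero]; positivity
  have c1 := (htel N H Q u β ((le_max_left _ _).trans ((le_max_left _ _).trans hN)) hQ hH hu
    hβ).trans (div_le_div_of_nonneg_left (by positivity) (pow_pos L0 K)
      (pow_le_pow_right₀ L1 (Nat.le_succ K)))
  refine ⟨_ ∪ _, (Nat.cast_le.2 (card_union_le _ _)).trans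
    ((Nat.cast_add _ _).trans_le ((add_le_add c1 c2).trans_eq (by ring))), fun d hP hEx => ?_⟩
  rw [mem_union, not_or] at hEx
  have hx1 : ∀ i, 4 * |d i| ≤ N := fun i => by
    have e1 := mem_Ioc.1 (Fintype.mem_piFinset.1 hP i)
    have e2 := hu i
    have e3 := le_abs_self (u i)
    have e4 := neg_abs_le (u i)
    have e5 : |d i| ≤ |u i| + H := abs_le.2 ⟨by omega, by omega⟩
    omega
  obtain ⟨hi, hz, t0⟩ := not_not.1 fun h => hEx.2 (mem_filter.2 ⟨hP, h⟩)
  have t1 := not_lt.1 fun h => hEx.1 (mem_filter.2 ⟨hP, h⟩)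
  rw [ASM.cut N M h2 (fun n => ((Λ n : ℝ) : ℂ)), ← mul_div_assoc] at t1
  have t1' := t1.trans (ASM.third K L0 N0 (by linarith))
  let y := 1 + ⌈L ^ ((K + 1 + J) * 2)⌉₊ + ∑ i, Q i
  have t2 := (hm N M y Q (sh d) ((le_max_left _ _).trans ((le_max_right _ _).trans hN)) h1 h2
    (fun i => ⟨(hQ' i).trans (pow_le_pow_right₀ L1 (by
        have := single_le_sum (f := B) (fun _ _ => Nat.zero_le _) (mem_univ i)
        omega)), by
      have := single_le_sum (f := Q) (fun _ _ => Nat.zero_le _) (mem_univ i)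
      omega⟩)
    (fun i => ⟨le_rfl, by
      have := hx1 i
      have := abs_nonneg (d i)
      show |d i| ≤ N
      omega⟩)).trans (ASM.third K L0 N0 (by linarith))
  have t3 := hs L (L ^ ((K + 1 + J) * 2)) y Q d L1 (pow_pos L0 _)
    ((Nat.le_ceil _).trans (by exact_mod_cast (by omega : ⌈L ^ ((K + 1 + J) * 2)⌉₊ ≤ y)))
    (fun i => (pow_le_pow_right₀ L1 (hB i)).trans (hQ i).1) hi hz
    (ASM4.dl_le d N (by exact_mod_cast b3) hx1)
  rw [pow_mul, Real.sqrt_sq (by positivity)] at t3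
  replace t3 := t3.trans (div_le_div_of_nonneg_right (mul_le_mul_of_nonneg_left t0 hC₂)
    (by positivity))
  rw [pow_add L (K + 1), mul_div_mul_right _ _ (pow_pos L0 _).ne'] at t3
  generalize sh d = x at *
  have MN : (0 : ℝ) ≤ (M : ℝ) - N ∧ (M : ℝ) - N ≤ N := by
    have e1 : (N : ℝ) ≤ M := by exact_mod_cast h1
    have e2 : (M : ℝ) ≤ 2 * N := by exact_mod_cast h2
    constructor <;> linarith
  have t4 : |(singSeries x - box (tp x) y.primesBelow Q) * ((M : ℝ) - N)| ≤ N / L ^ K / 3 := by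
    rw [abs_mul, abs_of_nonneg MN.1]
    refine (mul_le_mul t3 MN.2 MN.1 ((abs_nonneg _).trans t3)).trans ?_
    rw [div_mul_eq_mul_div]
    exact ASM.third K L0 N0 (by linarith)
  have key : (((∑ n ∈ Ioc N M, Λ n * ∏ i, Λ (fv (x i) n) -
      box (tp x) y.primesBelow Q * ((M : ℝ) - N) : ℝ)) : ℂ) =
      ∑ n ∈ Ioc N M, ((Λ n : ℝ) : ℂ) *
        (∏ i, ((Λ (fv (x i) n) : ℝ) : ℂ) - ∏ i, lamS (Q i) (fv (x i) n)) +
      (∑ n ∈ Ioc N M, ((Λ n : ℝ) : ℂ) * ∏ i, lamS (Q i) (fv (x i) n) -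
        ((box (tp x) y.primesBelow Q * ((M : ℝ) - N) : ℝ) : ℂ)) := by
    simp only [mul_sub, sum_sub_distrib]
    push_cast
    ring
  have t5 : |∑ n ∈ Ioc N M, Λ n * ∏ i, Λ (fv (x i) n) -
      box (tp x) y.primesBelow Q * ((M : ℝ) - N)| ≤ N / L ^ K / 3 + N / L ^ K / 3 := by
    rw [← Real.norm_eq_abs, ← Complex.norm_real, key]
    exact (norm_add_le _ _).trans (add_le_add t1' t2)
  rw [abs_le] at t4 t5 ⊢
  constructor <;> nlinarith [t4.1, t4.2, t5.1, t5.2]

end Pool.Agent.MP_39a890_nt.KT
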