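import Pool.Agent.MP_39a890_nt.kt.TEL
import Pool.Agent.MP_39a890_nt.kt.ASM
import Pool.Agent.MP_39a890_nt.ms.Refl

/-! Project KT: multipliers in a box instead of a dyadic range. -/

set_option autoImplicit false

noncomputable section

namespace Pool.Agent.MP_39a890_nt.KT

open Finset Filter
open scoped ArithmeticFunction.vonMangoldt
open Pool.Agent.MP_678834_nt Pool.Agent.MP_678834_nt.HL9 Pool.Agent.MP_39a890_nt.MS

/-- families of multipliers in a box -/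
structure Fam2 (F : ℕ → ℕ → ℕ → Finset ℕ) : Prop where
  sub : ∀ C N A, F C N A ⊆ Ioc 1 A
  anti : ∀ C C' N A, C ≤ C' → 3 ≤ N → F C' N A ⊆ F C N A

/-- multipliers up to `A` with a large prime factor -/
def bx (C N A : ℕ) : Finset ℕ :=
  (Ioc 1 A).filter fun a => ∃ p ∈ a.primeFactors, Real.log N ^ C < (p : ℝ)

theorem fam_bx : Fam2 bx := ⟨fun _ _ _ => filter_subset _ _, fun C C' N A h hN a ha => by
  obtain ⟨h3, p, h4, h5⟩ := mem_filter.1 ha
  exact mem_filter.2 ⟨h3, p, h4, (pow_le_pow_right₀ (one_le_log hN) h).trans_lt h5⟩⟩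

theorem mono_bx : Mono bx := fun C N N' A hN h a ha => by
  obtain ⟨h3, p, h4, h5⟩ := mem_filter.1 ha
  have h1 := one_le_log hN
  have h2 : Real.log N ≤ Real.log N' :=
    Real.log_le_log (by exact_mod_cast (by omega : 0 < N)) (by exact_mod_cast h)
  exact mem_filter.2 ⟨h3, p, h4, (pow_le_pow_left₀ (by linarith) h2 C).trans_lt h5⟩

theorem sum_two_pow (A : ℕ) : ∑ i ∈ (range A).filter (fun i => 2 ^ i ≤ A), 2 ^ i ≤ 2 * A := by
  rcases Nat.eq_zero_or_pos A with rfl | hA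
  · simp
  have h1 : (range A).filter (fun i => 2 ^ i ≤ A) ⊆ range (Nat.log 2 A + 1) := fun i hi =>
    mem_range.2 (Nat.lt_succ_of_le (Nat.le_log_of_pow_le one_lt_two (mem_filter.1 hi).2))
  refine (sum_le_sum_of_subset h1).trans ?_
  have h2 := Nat.geomSum_lt (m := 2) le_rfl (s := range (Nat.log 2 A + 1)) (n := Nat.log 2 A + 1)
    fun _ hk => mem_range.1 hk
  have h3 := Nat.pow_log_le_self 2 hA.ne'
  rw [pow_succ] at h2
  omega

theorem chb_bx (h : CHBFor gd) : CHBFor bx := by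
  classical
  intro J K
  obtain ⟨B₁, h⟩ := h J K
  refine ⟨B₁, fun B hB => ?_⟩
  obtain ⟨C₀, C, N₀, hC, h⟩ := h B hB
  obtain ⟨N₁, hN₁⟩ := eventually_atTop.1 ((ev_log 2).and (eventually_ge_atTop N₀))
  refine ⟨C₀ + 1, 2 * C, N₁, by positivity, fun N A H Q β hN hQ1 hQ2 _ hH h8 hβ => ?_⟩
  obtain ⟨hL, n0⟩ := hN₁ N hN
  set L := Real.log N with hLdef
  have p0 : 0 < L ^ C₀ := by positivity
  have p1 : L ^ C₀ * 2 ≤ L ^ (C₀ + 1) := by rw [pow_succ]; gcongr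
  set I := ((range A).filter fun i => 2 ^ i ≤ A).filter fun i => L ^ C₀ ≤ ((2 ^ i : ℕ) : ℝ) with hI
  set bad : ℕ × ℤ → Prop := fun z => N / L ^ K <
      ‖∑ n ∈ Ioc N (2 * N), β n * (((Λ (fv z n) : ℝ) : ℂ) - lamS Q (fv z n))‖ with hbad
  have h1 : (PP (bx (C₀ + 1) N A) H).filter bad ⊆
      I.biUnion fun i => (PP (gd C₀ N (2 ^ i)) H).filter bad := by
    intro z hz
    obtain ⟨h2, h3⟩ := mem_filter.1 hz
    obtain ⟨h4, h5⟩ := mem_product.1 h2
    obtain ⟨h6, p, h7, h9⟩ := mem_filter.1 h4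
    obtain ⟨a1, a2⟩ := mem_Ioc.1 h6
    have i1 : 2 ^ Nat.log 2 (z.1 - 1) ≤ z.1 - 1 := Nat.pow_log_le_self 2 (by omega)
    have i2 : z.1 - 1 < 2 ^ (Nat.log 2 (z.1 - 1) + 1) := Nat.lt_pow_succ_log_self one_lt_two _
    have i3 : Nat.log 2 (z.1 - 1) < 2 ^ Nat.log 2 (z.1 - 1) := Nat.lt_two_pow_self
    rw [pow_succ] at i2
    generalize Nat.log 2 (z.1 - 1) = i at i1 i2 i3
    have i4 : p ≤ 2 * 2 ^ i := (Nat.le_of_mem_primeFactors h7).trans (by omega)
    have i5 : (p : ℝ) ≤ 2 * ((2 ^ i : ℕ) : ℝ) := by exact_mod_cast i4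
    refine mem_biUnion.2 ⟨i, mem_filter.2 ⟨mem_filter.2 ⟨mem_range.2 (by omega), by omega⟩,
      by linarith⟩, mem_filter.2 ⟨mem_product.2 ⟨mem_filter.2 ⟨mem_Ioc.2 ⟨by omega, by omega⟩,
        p, h7, by linarith⟩, h5⟩, h3⟩⟩
  have h2 : (((PP (bx (C₀ + 1) N A) H).filter bad).card : ℝ) ≤
      ∑ i ∈ I, (((PP (gd C₀ N (2 ^ i)) H).filter bad).card : ℝ) := by
    exact_mod_cast (card_le_card h1).trans card_biUnion_le
  refine h2.trans ((sum_le_sum fun i hi => h N (2 ^ i) H Q β n0 hQ1 hQ2 (mem_filter.1 hi).2 ?_ h8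
    hβ).trans ?_)
  · have h3 : ((2 ^ i : ℕ) : ℝ) ≤ A := by exact_mod_cast (mem_filter.1 (mem_filter.1 hi).1).2
    refine le_trans ?_ hH
    exact mul_le_mul h3 (by linarith) p0.le (Nat.cast_nonneg _)
  · have h3 : ∑ i ∈ I, ((2 ^ i : ℕ) : ℝ) ≤ 2 * A := by
      exact_mod_cast (sum_le_sum_of_subset (filter_subset _ _)).trans (sum_two_pow A)
    calc ∑ i ∈ I, C * (((2 ^ i : ℕ) : ℝ) * H) / L ^ K
        = (∑ i ∈ I, ((2 ^ i : ℕ) : ℝ)) * (C * H / L ^ K) := by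
          rw [sum_mul]; exact sum_congr rfl fun i _ => by ring
      _ ≤ 2 * A * (C * H / L ^ K) := by gcongr
      _ = _ := by ring

namespace TEL

theorem card_PP2 {𝒜 : Finset ℕ} {A : ℕ} (h : 𝒜 ⊆ Ioc 1 A) (H : ℕ) :
    ((PP 𝒜 H).card : ℝ) ≤ 2 * (A * H) := by
  have h1 : 𝒜.card ≤ A := (card_le_card h).trans (by rw [Nat.card_Ioc]; omega)
  have h2 : ((Icc (-(H : ℤ)) H).erase 0).card = 2 * H := by
    rw [card_erase_of_mem (by simp), Int.card_Icc]
    omega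
  have h3 : (PP 𝒜 H).card ≤ 2 * (A * H) := by
    rw [PP, card_product, h2]
    nlinarith
  exact_mod_cast h3

theorem lam_le2 {𝒜 : Finset ℕ} {N A H n : ℕ} (h : 𝒜 ⊆ Ioc 1 A) (hA : A ≤ H) (hH : 8 * H ≤ N)
    (hL : 3 ≤ Real.log N) {z : ℕ × ℤ} (hz : z ∈ PP 𝒜 H) (hn : n ∈ Ioc N (2 * N)) :
    ‖((Λ (fv z n) : ℝ) : ℂ)‖ ≤ Real.log N ^ 2 := by
  obtain ⟨h1, h2⟩ := mem_product.1 hz
  have h3 : z.1 ≤ 2 * A := by have := (mem_Ioc.1 (h h1)).2; omega
  have h4 := (mem_Icc.1 (mem_of_mem_erase h2)).2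
  obtain ⟨h5, h6⟩ := mem_Ioc.1 hn
  have h7 : fv z n ≤ N ^ 2 := by
    have h8 : z.1 * n ≤ 2 * A * (2 * N) := Nat.mul_le_mul h3 h6
    have h9 : ((z.1 : ℤ) * n + z.2) ≤ ((N ^ 2 : ℕ) : ℤ) := by
      have a1 : (z.1 : ℤ) * n ≤ 2 * A * (2 * N) := by exact_mod_cast h8
      have a2 : (A : ℤ) ≤ H := by exact_mod_cast hA
      have a3 : 8 * (H : ℤ) ≤ N := by exact_mod_cast hH
      have a4 : (0 : ℤ) ≤ H := Int.natCast_nonneg _
      have a5 : (0 : ℤ) ≤ A := Int.natCast_nonneg _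
      have a6 : (1 : ℤ) ≤ N := by
        have : 1 ≤ N := by
          rcases Nat.eq_zero_or_pos N with rfl | h0
          · norm_num at hL
          · exact h0
        exact_mod_cast this
      push_cast
      nlinarith
    unfold fv
    omega
  rw [Complex.norm_real, Real.norm_of_nonneg ArithmeticFunction.vonMangoldt_nonneg]
  refine ArithmeticFunction.vonMangoldt_le_log.trans ?_
  have h10 : Real.log (fv z n) ≤ 2 * Real.log N := by
    rcases Nat.eq_zero_or_pos (fv z n) with h0 | h0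
    · rw [h0]; simp; linarith
    · rw [show 2 * Real.log N = Real.log ((N : ℝ) ^ 2) by rw [Real.log_pow]; norm_num]
      exact Real.log_le_log (by exact_mod_cast h0) (by exact_mod_cast h7)
  nlinarith

end TEL

open TEL in
theorem tel2 : LAMStmt → ∀ F, Fam2 F → CHBFor F → TELFor F := by
  classical
  intro lam F hF chb k
  induction k with
  | zero =>
    intro J K B₀
    refine ⟨fun i => i.elim0, 0, 0, 0, le_rfl, fun i => i.elim0,
      fun N A H Q β _ _ _ _ _ _ => ?_⟩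
    simp
  | succ k ih =>
    intro J K B₀
    obtain ⟨B, C₁, D₁, N₁, hD₁, hB, ih⟩ := ih (J + 2) K B₀
    obtain ⟨B₁, chb⟩ := chb (J + ∑ i, (B i + 1)) K
    obtain ⟨C₂, D₂, N₂, hD₂, chb⟩ := chb (max B₁ B₀) (le_max_left _ _)
    obtain ⟨N₀, hN₀⟩ := eventually_atTop.1 ((ev_log 3).and ((eventually_ge_atTop N₁).and
      ((eventually_ge_atTop N₂).and (eventually_ge_atTop (3 : ℝ)))))
    refine ⟨Fin.cons (max B₁ B₀) B, max C₁ C₂, 2 * D₁ + 2 ^ k * D₂, N₀, by positivity,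
      fun i => Fin.cases (le_max_right _ _) (fun j => hB j) i,
      fun N A H Q β hN hQ hA hH h8 hβ => ?_⟩
    obtain ⟨hL, n1, n2, n3⟩ := hN₀ N hN
    have N3 : 3 ≤ N := by exact_mod_cast n3
    set L := Real.log N with hLdef
    have L1 : 1 ≤ L := by linarith
    have m : ∀ c ≤ max C₁ C₂, L ^ c ≤ A ∧ A * L ^ c ≤ H := fun c hc =>
      ⟨(pow_le_pow_right₀ L1 hc).trans hA, (mul_le_mul_of_nonneg_left (pow_le_pow_right₀ L1 hc)
        (Nat.cast_nonneg _)).trans hH⟩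
    have AH : A ≤ H := by
      have := (m 0 (Nat.zero_le _)).2
      rw [pow_zero, mul_one] at this
      exact_mod_cast this
    have s0 := hF.sub (max C₁ C₂) N A
    have s1 := PP_mono (hF.anti _ _ N A (le_max_left C₁ C₂) N3) H
    have s2 := PP_mono (hF.anti _ _ N A (le_max_right C₁ C₂) N3) H
    set P := PP (F (max C₁ C₂) N A) H with hP
    have cP : (P.card : ℝ) ≤ 2 * (A * H) := card_PP2 s0 H
    have key := count P (fun x : Fin (k + 1) → ℕ × ℤ =>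
        ((k + 1 : ℕ) : ℝ) * (N / L ^ K) < ‖∑ n ∈ Ioc N (2 * N), β n *
          (∏ i, ((Λ (fv (x i) n) : ℝ) : ℂ) - ∏ i, lamS (Q i) (fv (x i) n))‖)
      (fun z w => k * (N / L ^ K) < ‖∑ n ∈ Ioc N (2 * N), β n * ((Λ (fv z n) : ℝ) : ℂ) *
          (∏ i, ((Λ (fv (w i) n) : ℝ) : ℂ) - ∏ i, lamS (Q i.succ) (fv (w i) n))‖)
      (fun z w => N / L ^ K < ‖∑ n ∈ Ioc N (2 * N), β n * (∏ i, lamS (Q i.succ) (fv (w i) n)) *
          (((Λ (fv z n) : ℝ) : ℂ) - lamS (Q 0) (fv z n))‖)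
      (u := D₁ * ((A : ℝ) * H) ^ k / L ^ K) (v := D₂ * (A * H) / L ^ K)
      (fun z _ w hb => by
        by_contra hc
        rw [not_or, not_lt, not_lt] at hc
        refine absurd hb (not_lt.2 ?_)
        refine le_trans (le_of_eq ?_) ((norm_add_le _ _).trans ((add_le_add hc.1 hc.2).trans
          (le_of_eq (by push_cast; ring))))
        rw [← sum_add_distrib]
        refine congrArg _ (sum_congr rfl fun n _ => ?_)
        simp only [Fin.prod_univ_succ, Fin.cons_zero, Fin.cons_succ]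
        ring)
      (fun z hz => by
        refine le_trans ?_ (ih N A H (fun i => Q i.succ) (fun n => β n * ((Λ (fv z n) : ℝ) : ℂ)) n1
          (fun i => hQ i.succ) (m _ (le_max_left _ _)).1 (m _ (le_max_left _ _)).2 h8
          fun n hn => ?_)
        · exact_mod_cast card_le_card (filter_subset_filter _
            (Fintype.piFinset_subset _ _ fun _ => s1))
        · rw [norm_mul, pow_add]
          exact mul_le_mul (hβ n hn) (lam_le2 s0 AH h8 hL hz hn) (norm_nonneg _) (by positivity))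
      (fun w _ => by
        refine le_trans ?_ (chb N A H (Q 0) (fun n => β n * ∏ i, lamS (Q i.succ) (fv (w i) n)) n2
          (hQ 0).1 (hQ 0).2 (m _ (le_max_right _ _)).1 (m _ (le_max_right _ _)).2 h8
          fun n hn => ?_)
        · exact_mod_cast card_le_card (filter_subset_filter _ s2)
        · rw [norm_mul, pow_add, norm_prod, ← prod_pow_eq_pow_sum]
          refine mul_le_mul (hβ n hn) (prod_le_prod (fun _ _ => norm_nonneg _) fun i _ => ?_)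
            (by positivity) (by positivity)
          exact (lam _ _ _ (Nat.lt_succ_self _)).2.2.trans (hQ i.succ).2)
    refine key.trans ?_
    calc (P.card : ℝ) * (D₁ * ((A : ℝ) * H) ^ k / L ^ K) + (P.card : ℝ) ^ k * (D₂ * (A * H) / L ^ K)
        ≤ 2 * (A * H) * (D₁ * ((A : ℝ) * H) ^ k / L ^ K) +
          (2 * (A * H)) ^ k * (D₂ * (A * H) / L ^ K) := by gcongr
      _ = _ := by rw [mul_pow 2]; ring

open Classical in
theorem asm2 : MTKStmt → SERStmt → ∀ F, Fam2 F → TELFor F → KTFor F := by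
  intro mtk ser F hF tel k K
  obtain ⟨B, C₀, C, N₀, hC, hB, htel⟩ := tel k 2 (K + 1) (2 * K + 4)
  refine ⟨C₀, fun D => ?_⟩
  obtain ⟨C₁, N₁, hm⟩ := mtk k (K + 1) (1 + ∑ i, B i)
  obtain ⟨C₂, hs⟩ := ser k (D + 1)
  obtain ⟨N₂, hb⟩ := ASM.big (3 + 3 * k + 3 * |C₁| + 3 * |C₂|) D
  refine ⟨C, max N₀ (max N₁ N₂), hC, fun N M A H hN h1 h2 hA hH hD => ?_⟩
  obtain ⟨b1, b2, b3⟩ := hb N ((le_max_right _ _).trans ((le_max_right _ _).trans hN))
  set L := Real.log N with hLdef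
  have k0 : (0 : ℝ) ≤ k := Nat.cast_nonneg k
  have a1 := abs_nonneg C₁
  have a2 := abs_nonneg C₂
  have a3 := le_abs_self C₁
  have a4 := le_abs_self C₂
  have L3 : 3 ≤ L := by linarith
  have L1 : 1 ≤ L := by linarith
  have L0 : 0 < L := by linarith
  have N0 : (0 : ℝ) ≤ N := Nat.cast_nonneg N
  have H8 : 8 * H ≤ N := by
    have : (8 : ℝ) * H ≤ N := by linarith
    exact_mod_cast this
  have p0 : 1 ≤ L ^ C₀ := one_le_pow₀ L1
  have A1 : 1 ≤ A := by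
    have : (1 : ℝ) ≤ A := p0.trans hA
    exact_mod_cast this
  have AH : A ≤ H := by
    have : (A : ℝ) ≤ H := (le_mul_of_one_le_right (Nat.cast_nonneg A) p0).trans hH
    exact_mod_cast this
  let Q : Fin k → ℕ := fun i => ⌈L ^ B i⌉₊
  have hQ : ∀ i, L ^ B i ≤ Q i ∧ (Q i : ℝ) ≤ L ^ (B i + 1) := fun i => by
    have e1 : 1 ≤ L ^ B i := one_le_pow₀ L1
    have e2 := Nat.ceil_lt_add_one (a := L ^ B i) (by linarith)
    refine ⟨Nat.le_ceil _, ?_⟩
    rw [pow_succ]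
    show ((⌈L ^ B i⌉₊ : ℕ) : ℝ) ≤ _
    nlinarith
  let β : ℕ → ℂ := fun n => if n ≤ M then ((Λ n : ℝ) : ℂ) else 0
  have hβ : ∀ n ∈ Ioc N (2 * N), ‖β n‖ ≤ L ^ 2 := fun n hn => by
    rw [mem_Ioc] at hn
    have e1 : Λ n ≤ Real.log n := ArithmeticFunction.vonMangoldt_le_log
    have e2 : Real.log n ≤ Real.log (2 * N) :=
      Real.log_le_log (by exact_mod_cast (Nat.zero_le N).trans_lt hn.1) (by exact_mod_cast hn.2)
    rw [Real.log_mul (by norm_num) (by linarith)] at e2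
    have e3 := Real.log_two_lt_d9
    show ‖if n ≤ M then ((Λ n : ℝ) : ℂ) else 0‖ ≤ _
    split_ifs
    · rw [Complex.norm_real, Real.norm_eq_abs, abs_of_nonneg ArithmeticFunction.vonMangoldt_nonneg]
      nlinarith
    · rw [norm_zero]; positivity
  refine ⟨_, (htel N A H Q β ((le_max_left _ _).trans hN) hQ hA hH H8 hβ).trans ?_,
    fun x hi hx hEx => ?_⟩
  · exact div_le_div_of_nonneg_left (by positivity) (pow_pos L0 K)
      (pow_le_pow_right₀ L1 (Nat.le_succ K))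
  have hx1 : ∀ i, 2 ≤ (x i).1 ∧ (x i).1 ≤ 2 * H := fun i => by
    have := mem_Ioc.1 (hF.sub _ _ _ (hx i).1)
    omega
  have hP : x ∈ Fintype.piFinset fun _ : Fin k => PP (F C₀ N A) H := by
    refine Fintype.mem_piFinset.2 fun i => mem_product.2 ⟨(hx i).1, mem_erase.2 ⟨fun e => ?_,
      mem_Icc.2 (abs_le.1 (hx i).2.1)⟩⟩
    have c := (hx i).2.2
    rw [e, isCoprime_zero_right, Int.isUnit_iff] at c
    have := (hx1 i).1
    omega
  have t1 := not_lt.1 fun h => hEx (mem_filter.2 ⟨hP, h⟩)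
  rw [ASM.cut N M h2 (fun n => ((Λ n : ℝ) : ℂ)), ← mul_div_assoc] at t1
  have t1' := t1.trans (ASM.third K L0 N0 (by linarith))
  let y := 1 + ⌈L ^ (2 * K + 4)⌉₊ + ∑ i, Q i
  have t2 := (hm N M y Q x ((le_max_left _ _).trans ((le_max_right _ _).trans hN)) h1 h2
    (fun i => ⟨(hQ i).2.trans (pow_le_pow_right₀ L1 (by
        have := single_le_sum (f := B) (fun _ _ => Nat.zero_le _) (mem_univ i)
        omega)), by
      have := single_le_sum (f := Q) (fun _ _ => Nat.zero_le _) (mem_univ i)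
      omega⟩)
    (fun i => ⟨by have := (hx1 i).1; omega, (hx i).2.1.trans (by omega)⟩)).trans
      (ASM.third K L0 N0 (by linarith))
  have t3 := hs L (L ^ (2 * K + 4)) (2 * H) y Q x L3 (pow_pos L0 _)
    ((Nat.le_ceil _).trans (by exact_mod_cast (by omega : ⌈L ^ (2 * K + 4)⌉₊ ≤ y)))
    (by
      have : 0 ≤ L ^ D := by positivity
      rw [pow_succ]; push_cast; nlinarith)
    (fun i => (pow_le_pow_right₀ L1 (hB i)).trans (hQ i).1) hi
    (fun i => ⟨(hx1 i).1, (hx1 i).2, (hx i).2.1.trans (by push_cast; omega), (hx i).2.2⟩)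
  have sq : Real.sqrt (L ^ (2 * K + 4)) = L ^ (K + 1) * L := by
    rw [← pow_succ, show 2 * K + 4 = (K + 1 + 1) * 2 by ring, pow_mul,
      Real.sqrt_sq (by positivity)]
  rw [sq, mul_div_mul_right _ _ L0.ne'] at t3
  have MN : (0 : ℝ) ≤ (M : ℝ) - N ∧ (M : ℝ) - N ≤ N := by
    have e1 : (N : ℝ) ≤ M := by exact_mod_cast h1
    have e2 : (M : ℝ) ≤ 2 * N := by exact_mod_cast h2
    constructor <;> linarith
  have t4 : |(singSeries x - box (tp x) y.primesBelow Q) * ((M : ℝ) - N)| ≤ N / L ^ K / 3 := by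
    rw [abs_mul, abs_of_nonneg MN.1]
    refine (mul_le_mul t3 MN.2 MN.1 ((abs_nonneg _).trans t3)).trans ?_
    rw [div_mul_eq_mul_div]
    exact ASM.third K L0 N0 (by linarith)
  have key : (((∑ n ∈ Ioc N M, Λ n * ∏ i, Λ (fv (x i) n) -
      box (tp x) y.primesBelow Q * ((M : ℝ) - N) : ℝ)) : ℂ) =
      ∑ n ∈ Ioc N M, ((Λ n : ℝ) : ℂ) *
        (∏ i, ((Λ (fv (x i) n) : ℝ) : ℂ) - ∏ i, lamS (Q i) (fv (x i) n)) +
      (∑ n ∈ Ioc N M, ((Λ n : ℝ) : ℂ) * ∏ i, lamS (Q i) (fv (x i) n) -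
        ((box (tp x) y.primesBelow Q * ((M : ℝ) - N) : ℝ) : ℂ)) := by
    simp only [mul_sub, sum_sub_distrib]
    push_cast
    ring
  have t5 : |∑ n ∈ Ioc N M, Λ n * ∏ i, Λ (fv (x i) n) -
      box (tp x) y.primesBelow Q * ((M : ℝ) - N)| ≤ N / L ^ K / 3 + N / L ^ K / 3 := by
    rw [← Real.norm_eq_abs, ← Complex.norm_real, key]
    exact (norm_add_le _ _).trans (add_le_add t1' t2)
  rw [abs_le] at t4 t5 ⊢
  constructor <;> nlinarith [t4.1, t4.2, t5.1, t5.2]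

theorem fnk2 : LOWStmt → CNKStmt → ∀ F, Fam2 F → UNKFor F → FNKFor F := by
  intro low cnk F hF unk k K
  obtain ⟨C0, h0⟩ := unk k K
  refine ⟨C0 + 1, fun D => ?_⟩
  obtain ⟨C1, N1, hC1, h1⟩ := h0 D
  obtain ⟨c, hc, hlow⟩ := (low k).2
  obtain ⟨C2, N2, h2⟩ := cnk k D C1 c hc
  refine ⟨max C1 C2, max (max N1 N2) (Real.exp 2 + 3), fun N A H hN hA hH hD => ?_⟩
  have e0 := Real.exp_pos 2
  have n3 : Real.exp 2 + 3 ≤ N := (le_max_right _ _).trans hN
  have n12 : max N1 N2 ≤ N := (le_max_left _ _).trans hN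
  have hL : 2 ≤ Real.log N := (Real.le_log_iff_exp_le (by linarith)).2 (by linarith)
  have p1 : Real.log N ^ C0 ≤ Real.log N ^ (C0 + 1) :=
    pow_le_pow_right₀ (by linarith) (Nat.le_succ _)
  have p2 : 2 ≤ Real.log N ^ (C0 + 1) :=
    hL.trans (le_self_pow₀ (by linarith) (Nat.succ_ne_zero _))
  have a0 : (0 : ℝ) ≤ A := Nat.cast_nonneg _
  obtain ⟨Ex, e1, e2⟩ := h1 N A H ((le_max_left _ _).trans n12) (p1.trans hA)
    ((mul_le_mul_of_nonneg_left p1 a0).trans hH) hD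
  refine ⟨Ex, e1.trans (by gcongr; exact le_max_left _ _), fun x hx hi hp hE y y1 y2 => ?_⟩
  have hN3 : 3 ≤ N := by exact_mod_cast (by linarith : (3 : ℝ) ≤ N)
  have l0 : 0 ≤ Real.log (Real.log N) := Real.log_nonneg (by linarith)
  refine (h2 N y x _ ((le_max_right _ _).trans n12) (hlow x (fun i => (hi i).2.2) hp) y1 y2
    (fun i => ?_) (e2 x hx (fun i => ⟨hF.anti _ _ _ _ (Nat.le_succ _) hN3 (hi i).1, (hi i).2⟩)
      hE y y1 y2)).trans (by gcongr; exact le_max_right _ _)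
  obtain ⟨b1, b2⟩ := mem_Ioc.1 (hF.sub _ _ _ (hi i).1)
  have b3 : ((x i).1 : ℝ) ≤ 2 * A := by exact_mod_cast (by omega : (x i).1 ≤ 2 * A)
  have b4 : |((x i).2 : ℝ)| ≤ H := by exact_mod_cast (hi i).2.1
  exact ⟨by omega, by nlinarith [mul_le_mul_of_nonneg_left p2 a0], b4.trans hD⟩

end Pool.Agent.MP_39a890_nt.KT
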