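import Pool.Agent.MP_39a890_nt.kt.Spec

/-! Project KT, row CHB: few pairs of coefficients have a large bilinear sum. -/

set_option autoImplicit false

noncomputable section

namespace Pool.Agent.MP_39a890_nt.KT

open Finset
open scoped ArithmeticFunction.vonMangoldt
open Pool.Agent.MP_678834_nt Pool.Agent.MP_678834_nt.HL9 Pool.Agent.MP_39a890_nt.MS

namespace CHB

theorem fv_pos (a b n : ℕ) : fv (a, (b : ℤ)) n = sh true (a * n) b := by
  have : ((a : ℤ) * n + b) = ((a * n + b : ℕ) : ℤ) := by push_cast; ring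
  simp only [fv, sh_true, this, Int.toNat_natCast]

theorem fv_neg (a b n : ℕ) : fv (a, -(b : ℤ)) n = sh false (a * n) b := by
  have : ((a : ℤ) * n + -(b : ℤ)) = ((a * n : ℕ) : ℤ) - b := by push_cast; ring
  simp only [fv, sh_false, this, Int.toNat_sub]

theorem split (H : ℕ) (g : ℤ → ℝ) (hg : ∀ b, 0 ≤ g b) :
    ∑ b ∈ (Icc (-(H : ℤ)) H).erase 0, g b ≤
      ∑ b ∈ Icc 1 H, g (b : ℕ) + ∑ b ∈ Icc 1 H, g (-(b : ℕ)) := by
  have hsub : (Icc (-(H : ℤ)) H).erase 0 ⊆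
      (Icc 1 H).image (fun b : ℕ => (b : ℤ)) ∪ (Icc 1 H).image (fun b : ℕ => -(b : ℤ)) := by
    intro b hb
    simp only [mem_erase, mem_Icc] at hb
    simp only [mem_union, mem_image, mem_Icc]
    rcases le_total 0 b with h | h
    · exact Or.inl ⟨b.natAbs, ⟨by omega, by omega⟩, by omega⟩
    · exact Or.inr ⟨b.natAbs, ⟨by omega, by omega⟩, by omega⟩
  refine (sum_le_sum_of_subset_of_nonneg hsub fun b _ _ => hg b).trans ?_
  have h1 := sum_union_inter (s₁ := (Icc 1 H).image (fun b : ℕ => (b : ℤ)))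
    (s₂ := (Icc 1 H).image (fun b : ℕ => -(b : ℤ))) (f := g)
  have h2 : 0 ≤ ∑ b ∈ (Icc 1 H).image (fun b : ℕ => (b : ℤ)) ∩
      (Icc 1 H).image (fun b : ℕ => -(b : ℤ)), g b := sum_nonneg fun b _ => hg b
  rw [sum_image (fun a _ b _ h => by exact_mod_cast h),
    sum_image (fun a _ b _ h => by simpa using h)] at h1
  linarith

theorem cheb {ι : Type} (s : Finset ι) (g : ι → ℝ) (t M : ℝ) (ht : 0 ≤ t)
    [DecidablePred fun z => t < g z] (h : ∑ z ∈ s, g z ^ 2 ≤ M) :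
    ((s.filter fun z => t < g z).card : ℝ) * t ^ 2 ≤ M := by
  refine le_trans ?_ ((sum_le_sum_of_subset_of_nonneg (filter_subset (fun z => t < g z) s)
    fun z _ _ => sq_nonneg (g z)).trans h)
  rw [← nsmul_eq_mul]
  exact card_nsmul_le_sum _ _ _ fun z hz => pow_le_pow_left₀ ht (mem_filter.1 hz).2.le 2

end CHB

theorem chb : ∀ F, Fam F → TII2For F → CHBFor F := by
  intro F _ h J K
  refine ⟨3 * K + 2 * J + 2, fun B hB => ?_⟩
  obtain ⟨C₀, C, N₀, h⟩ := h (3 * K + 2 * J) B hB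
  refine ⟨C₀, 2 * |C|, max N₀ 3, by positivity, fun N A H Q β hN h1 h2 h3 h4 h5 hβ => ?_⟩
  have hN3 : (3 : ℝ) ≤ N := (le_max_right _ _).trans hN
  have hN0 : (0 : ℝ) < N := by linarith
  have hL : 0 < Real.log N := Real.log_pos (by linarith)
  set L := Real.log N with hLdef
  have hb : ∑ n ∈ Ioc N (2 * N), ‖β n‖ ^ 2 ≤ N * L ^ (2 * J) := by
    have := sum_le_card_nsmul (Ioc N (2 * N)) (fun n => ‖β n‖ ^ 2) (L ^ (2 * J)) fun n hn => by
      rw [mul_comm 2 J, pow_mul]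
      exact pow_le_pow_left₀ (norm_nonneg _) (hβ n hn) 2
    rw [Nat.card_Ioc, show 2 * N - N = N by omega, nsmul_eq_mul] at this
    exact this
  have hs : ∀ s : Bool, ∑ a ∈ F C₀ N A, ∑ b ∈ Icc 1 H, ‖∑ n ∈ Ioc N (2 * N), β n *
      (((Λ (sh s (a * n) b) : ℝ) : ℂ) - lamS Q (sh s (a * n) b))‖ ^ 2 ≤
        |C| * A * H * N / L ^ (3 * K + 2 * J) * (N * L ^ (2 * J)) := fun s => by
    refine (h s N A H Q β ((le_max_left _ _).trans hN) h1 h2 h3 h4 h5).trans ?_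
    have h0 : 0 ≤ ∑ n ∈ Ioc N (2 * N), ‖β n‖ ^ 2 := sum_nonneg fun _ _ => sq_nonneg _
    have hC := le_abs_self C
    gcongr
  have hall : ∑ z ∈ PP (F C₀ N A) H, ‖∑ n ∈ Ioc N (2 * N), β n *
      (((Λ (fv z n) : ℝ) : ℂ) - lamS Q (fv z n))‖ ^ 2 ≤
        2 * (|C| * A * H * N / L ^ (3 * K + 2 * J) * (N * L ^ (2 * J))) := by
    rw [PP, sum_product]
    refine (sum_le_sum fun a _ => CHB.split H (fun b => ‖∑ n ∈ Ioc N (2 * N), β n *
      (((Λ (fv (a, b) n) : ℝ) : ℂ) - lamS Q (fv (a, b) n))‖ ^ 2) fun _ => sq_nonneg _).trans ?_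
    simp only [CHB.fv_pos, CHB.fv_neg]
    rw [sum_add_distrib]
    linarith [hs true, hs false]
  have hc := CHB.cheb (PP (F C₀ N A) H) (fun z => ‖∑ n ∈ Ioc N (2 * N), β n *
    (((Λ (fv z n) : ℝ) : ℂ) - lamS Q (fv z n))‖) (N / L ^ K) _ (by positivity) hall
  have he : 2 * (|C| * A * H * N / L ^ (3 * K + 2 * J) * (N * L ^ (2 * J))) =
      2 * |C| * (A * H) / L ^ K * (N / L ^ K) ^ 2 := by
    field_simp
    ring
  rw [he] at hc
  exact le_of_mul_le_mul_right hc (by positivity)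

end Pool.Agent.MP_39a890_nt.KT
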