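import Pool.Agent.MP_39a890_nt.kt.Spec4
import Pool.Agent.MP_39a890_nt.kt.CHB

/-! Project KS, row CHS: few shifts in a short window have a large correlation. -/

set_option autoImplicit false

noncomputable section

namespace Pool.Agent.MP_39a890_nt.KT

open Finset Filter
open scoped ArithmeticFunction.vonMangoldt
open Pool.Agent.MP_678834_nt Pool.Agent.MP_678834_nt.HL9
open Pool.Agent.MP_db1c88_nt.z94 (wide mem_wide)

theorem chs : CHSStmt := by
  intro ε hε J K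
  obtain ⟨C1, h1⟩ := win
  set ε' := min ε (1 / 10) with hε'
  have e0 : 0 < ε' := lt_min hε (by norm_num)
  have e1 : ε' ≤ 1 / 10 := min_le_right _ _
  have e2 : ε' ≤ ε := min_le_left _ _
  obtain ⟨B₀, h2⟩ := arc ε' e0 e1 (2 * J + 3 * K)
  refine ⟨B₀, fun B hB => ?_⟩
  obtain ⟨C2, X2, h2⟩ := h2 B hB
  obtain ⟨X0, hX0⟩ := eventually_atTop.1 ((ev_log (2 ^ (B + 1))).and
    ((ev_rpow (δ := 11 / 90) (by norm_num) 2).and
    ((eventually_ge_atTop X2).and (eventually_ge_atTop (2 : ℝ)))))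
  refine ⟨2 * (|C1| * |C2| * 2 ^ (2 * J + 3 * K)), 2 * |X0|, by positivity,
    fun N H Q u β a1 a2 a3 a4 a5 hβ => ?_⟩
  set X : ℝ := 3 * N / 4 with hX
  have hN0 : (0 : ℝ) ≤ N := Nat.cast_nonneg N
  obtain ⟨b1, b2, b3, b5⟩ := hX0 X (by linarith [le_abs_self X0, abs_nonneg X0])
  have hX1 : (1 : ℝ) ≤ X := by linarith
  have hX0' : (0 : ℝ) < X := by linarith
  have hXN : X ≤ N := by linarith
  have hN1 : (1 : ℝ) ≤ N := by linarith
  set L := Real.log N with hL
  set Y := Real.log X with hY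
  have hY2 : 2 ≤ Y := le_trans (by
    calc (2 : ℝ) = 2 ^ 1 := by norm_num
      _ ≤ 2 ^ (B + 1) := pow_le_pow_right₀ (by norm_num) (by omega)) b1
  have hYL : Y ≤ L := Real.log_le_log hX0' hXN
  have hLY : L ≤ 2 * Y := by
    have s1 : (N : ℝ) ≤ X ^ 2 := by nlinarith
    have s2 := Real.log_le_log (by linarith) s1
    rw [Real.log_pow] at s2
    exact_mod_cast s2
  have hL0 : 0 < L := by linarith
  have hY0 : 0 < Y := by linarith
  have q1 : Y ^ B ≤ Q := (pow_le_pow_left₀ hY0.le hYL B).trans a2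
  have q2 : (Q : ℝ) ≤ Y ^ (B + 1) := by
    calc (Q : ℝ) ≤ 2 * (2 * Y) ^ B := a3.trans (by gcongr)
      _ = 2 ^ (B + 1) * Y ^ B := by ring
      _ ≤ Y * Y ^ B := by gcongr
      _ = _ := by ring
  set H1 := ⌈X ^ (1 / 9 + ε')⌉₊ with hH1
  have r0 : 1 ≤ X ^ (1 / 9 + ε') := Real.one_le_rpow hX1 (by positivity)
  have r1 : X ^ (1 / 9 + ε') ≤ H1 := Nat.le_ceil _
  have r2 : H1 ≤ H := Nat.ceil_le.2 ((Real.rpow_le_rpow hX0'.le hXN (by positivity)).trans
    ((Real.rpow_le_rpow_of_exponent_le hN1 (by linarith)).trans a4))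
  have r3 : (H1 : ℝ) ≤ X ^ (1 / 3 : ℝ) := by
    have s1 := (Nat.ceil_lt_add_one (a := X ^ (1 / 9 + ε')) (by positivity)).le
    have s2 : X ^ (1 / 9 + ε') ≤ X ^ (19 / 90 : ℝ) :=
      Real.rpow_le_rpow_of_exponent_le hX1 (by linarith)
    have s3 : X ^ (1 / 3 : ℝ) = X ^ (11 / 90 : ℝ) * X ^ (19 / 90 : ℝ) := by
      rw [← Real.rpow_add hX0']; norm_num
    rw [s3]
    nlinarith
  have r4 : 1 ≤ H1 := by exact_mod_cast r0.trans r1
  set g : ℕ → ℂ := fun n => ((Λ n : ℂ) - lamS Q n) * (w2 (Real.log n - Real.log X) : ℝ) with hg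
  have hb : ∑ m ∈ Ioc 0 N, ‖β (m + N)‖ ^ 2 ≤ N * L ^ (2 * J) := by
    have := sum_le_card_nsmul (Ioc 0 N) (fun m => ‖β (m + N)‖ ^ 2) (L ^ (2 * J)) fun m hm => by
      rw [mul_comm 2 J, pow_mul]
      refine pow_le_pow_left₀ (norm_nonneg _) (hβ _ ?_) 2
      have := mem_Ioc.1 hm
      exact mem_Ioc.2 ⟨by omega, by omega⟩
    rw [Nat.card_Ioc, Nat.sub_zero, nsmul_eq_mul] at this
    exact this
  have hblock : ∀ k : ℕ, k + H1 ≤ 2 * N →
      ∑ h ∈ Ioc k (k + H1), ‖∑ m ∈ Ioc 0 N, β (m + N) * g (m + h)‖ ^ 2 ≤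
        |C1| * |C2| * 2 ^ (2 * J + 3 * K) / L ^ K * (N / L ^ K) ^ 2 * H1 := by
    intro k hk
    have pa := h1 (fun m => β (m + N)) g (Ioc 0 N) (wide X 4) k H1
      (|C2| * X / Y ^ (2 * J + 3 * K)) r4
      (fun b => (h2 X H1 b Q b3 r1 r3 q1 q2).trans (by gcongr; exact le_abs_self _))
      (fun m hm h hh => (mem_wide hX0'.le (by norm_num)).2
        ⟨by have := (mem_Ioc.1 hh).1; omega, by
          have s1 := (mem_Ioc.1 hm).2
          have s2 := (mem_Ioc.1 hh).2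
          have s3 : ((m + h : ℕ) : ℝ) ≤ (3 * N : ℕ) := by exact_mod_cast (by omega)
          push_cast at s3 ⊢
          linarith⟩)
    refine pa.trans ?_
    have s2 : |C2| * X / Y ^ (2 * J + 3 * K) ≤ |C2| * N / (L / 2) ^ (2 * J + 3 * K) := by
      gcongr
      linarith
    calc _ ≤ |C1| * H1 * (|C2| * N / (L / 2) ^ (2 * J + 3 * K)) * (N * L ^ (2 * J)) := by
          refine mul_le_mul ?_ hb (sum_nonneg fun _ _ => by positivity) (by positivity)
          exact mul_le_mul (by gcongr; exact le_abs_self _) s2 (by positivity) (by positivity)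
      _ = _ := by
          rw [div_pow L 2]
          field_simp
          ring
  have u1 := le_abs_self u
  have u2 := neg_abs_le u
  have u3 := abs_nonneg u
  have hcov := MainOf.cover _ (fun h => sq_nonneg _) (2 * N) H1 r4 hblock (u + N).toNat H r2
    (by omega)
  have hsum : ∑ d ∈ Ioc u (u + H), ‖∑ n ∈ Ioc N (2 * N), β n *
      (((Λ (fv (1, d) n) : ℝ) : ℂ) - lamS Q (fv (1, d) n))‖ ^ 2 =
      ∑ h ∈ Ioc (u + N).toNat ((u + N).toNat + H),
        ‖∑ m ∈ Ioc 0 N, β (m + N) * g (m + h)‖ ^ 2 := by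
    refine sum_nbij' (fun d => (d + N).toNat) (fun h => (h : ℤ) - N) (fun d hd => ?_)
      (fun h hh => ?_) (fun d hd => ?_) (fun h hh => ?_) (fun d hd => ?_)
    · have := mem_Ioc.1 hd
      exact mem_Ioc.2 ⟨by omega, by omega⟩
    · have := mem_Ioc.1 hh
      exact mem_Ioc.2 ⟨by omega, by omega⟩
    · have := mem_Ioc.1 hd
      omega
    · omega
    · have hd' := mem_Ioc.1 hd
      have e : Ioc N (2 * N) = (Ioc 0 N).map (addRightEmbedding N) := by
        rw [map_add_right_Ioc]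
        congr 1 <;> omega
      rw [e, sum_map]
      congr 2
      refine sum_congr rfl fun m hm => ?_
      have hm' := mem_Ioc.1 hm
      have e3 : fv (1, d) (m + N) = m + (d + N).toNat := by
        simp only [fv]
        omega
      have s1 : 3 * N ≤ 4 * (m + (d + N).toNat) := by omega
      have s2 : m + (d + N).toNat ≤ 3 * N := by omega
      have s3 : (3 * N : ℝ) ≤ 4 * (m + (d + N).toNat : ℕ) := by exact_mod_cast s1
      have s4 : ((m + (d + N).toNat : ℕ) : ℝ) ≤ 3 * N := by exact_mod_cast s2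
      have s5 := w1_eq_one (y := (m + (d + N).toNat : ℕ)) hX0' (by linarith) (by linarith)
      simp only [addRightEmbedding_apply, e3, hg, w2]
      rw [s5]
      simp
  have s1 : (H1 : ℝ) ≤ H := by exact_mod_cast r2
  have hall : ∑ d ∈ Ioc u (u + H), ‖∑ n ∈ Ioc N (2 * N), β n *
      (((Λ (fv (1, d) n) : ℝ) : ℂ) - lamS Q (fv (1, d) n))‖ ^ 2 ≤
      2 * (|C1| * |C2| * 2 ^ (2 * J + 3 * K)) * H / L ^ K * (N / L ^ K) ^ 2 := by
    rw [hsum]
    refine hcov.trans ?_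
    calc _ ≤ |C1| * |C2| * 2 ^ (2 * J + 3 * K) / L ^ K * (N / L ^ K) ^ 2 * (H + H) := by gcongr
      _ = _ := by ring
  have hc := CHB.cheb (Ioc u (u + H)) (fun d : ℤ => ‖∑ n ∈ Ioc N (2 * N), β n *
    (((Λ (fv (1, d) n) : ℝ) : ℂ) - lamS Q (fv (1, d) n))‖) (N / L ^ K) _ (by positivity) hall
  exact le_of_mul_le_mul_right hc (by positivity)

end Pool.Agent.MP_39a890_nt.KT
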