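import Pool.Agent.MP_39a890_nt.kt.Spec
import Pool.Agent.MP_39a890_nt.h21.SG2

/-! From von Mangoldt weights to the number of prime tuples. -/

set_option autoImplicit false

noncomputable section

namespace Pool.Agent.MP_39a890_nt.KT

open Finset Filter
open scoped ArithmeticFunction.vonMangoldt
open Pool.Agent.MP_678834_nt Pool.Agent.MP_678834_nt.HL9 Pool.Agent.MP_39a890_nt.MS
open Pool.Agent.MP_678834_nt.HL9.Final (np np_nonneg)

namespace CNK

theorem prod_near {ι : Type} (s : Finset ι) {u : ι → ℝ} {L ρ : ℝ} (L0 : 0 ≤ L) (r0 : 0 ≤ ρ)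
    (h0 : ∀ i, 0 ≤ u i) (h1 : ∀ i, u i ≤ 2 * L) (h2 : ∀ i, |L - u i| ≤ ρ * L) :
    |L ^ s.card - ∏ i ∈ s, u i| ≤ s.card * ρ * (2 * L) ^ s.card := by
  classical
  induction s using Finset.induction_on with
  | empty => simp
  | insert a s ha ih =>
    rw [card_insert_of_notMem ha, prod_insert ha, show L ^ (s.card + 1) - u a * ∏ i ∈ s, u i =
      (L - u a) * L ^ s.card + u a * (L ^ s.card - ∏ i ∈ s, u i) by ring]
    refine (abs_add_le _ _).trans ?_
    rw [abs_mul, abs_mul, abs_of_nonneg (h0 a), abs_of_nonneg (pow_nonneg L0 _)]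
    calc _ ≤ ρ * (2 * L) * (2 * L) ^ s.card + 2 * L * (s.card * ρ * (2 * L) ^ s.card) := by
          gcongr
          exacts [(h2 a).trans (by nlinarith), by linarith, h1 a]
      _ = _ := by push_cast; ring

theorem lam_le {k : ℕ} {m : Fin k → ℕ} {L : ℝ} (h : ∀ i, Real.log (m i) ≤ 2 * L)
    (s : Finset (Fin k)) : 0 ≤ ∏ i ∈ s, Λ (m i) ∧ ∏ i ∈ s, Λ (m i) ≤ (2 * L) ^ s.card :=
  ⟨prod_nonneg fun _ _ => ArithmeticFunction.vonMangoldt_nonneg, by
    rw [← prod_const]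
    exact prod_le_prod (fun _ _ => ArithmeticFunction.vonMangoldt_nonneg)
      fun i _ => ArithmeticFunction.vonMangoldt_le_log.trans (h i)⟩

theorem point {k : ℕ} {m : Fin (k + 1) → ℕ} {L ρ : ℝ} (L0 : 0 ≤ L) (r0 : 0 ≤ ρ)
    (h1 : ∀ i, Real.log (m i) ≤ 2 * L) (h2 : ∀ i, |L - Real.log (m i)| ≤ ρ * L) :
    |L ^ (k + 1) * (if ∀ i, (m i).Prime then 1 else 0) - ∏ i, Λ (m i)| ≤
      (k + 1) * ρ * (2 * L) ^ (k + 1) * (if ∀ i, (m i).Prime then 1 else 0) +
        (2 * L) ^ k * ∑ i, np (m i) := by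
  have n0 : 0 ≤ ∑ i, np (m i) := sum_nonneg fun i _ => np_nonneg _
  split_ifs with hp
  · have := prod_near univ L0 r0 (fun i => Real.log_natCast_nonneg (m i)) h1 h2
    simp only [card_univ, Fintype.card_fin, Nat.cast_add, Nat.cast_one] at this
    simp only [fun i => ArithmeticFunction.vonMangoldt_apply_prime (hp i), mul_one]
    exact this.trans (le_add_of_nonneg_right (by positivity))
  · obtain ⟨i, hi⟩ := not_forall.1 hp
    have a := (lam_le h1 (univ.erase i)).2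
    rw [card_erase_of_mem (mem_univ i), card_univ, Fintype.card_fin, Nat.add_sub_cancel] at a
    rw [mul_zero, mul_zero, zero_add, zero_sub, abs_neg, abs_of_nonneg (lam_le h1 _).1,
      ← prod_erase_mul _ _ (mem_univ i)]
    refine mul_le_mul a ?_ ArithmeticFunction.vonMangoldt_nonneg (by positivity)
    rw [show Λ (m i) = np (m i) from (if_neg hi).symm]
    exact single_le_sum (f := fun i => np (m i)) (fun _ _ => np_nonneg _) (mem_univ i)

theorem small {k : ℕ} {m : Fin k → ℕ} {L : ℝ} (L0 : 0 ≤ L) (h1 : ∀ i, Real.log (m i) ≤ 2 * L) :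
    |L ^ k * (if ∀ i, (m i).Prime then 1 else 0) - ∏ i, Λ (m i)| ≤ (2 * L) ^ k := by
  obtain ⟨a, b⟩ := lam_le h1 univ
  rw [card_univ, Fintype.card_fin] at b
  have c : L ^ k ≤ (2 * L) ^ k := pow_le_pow_left₀ L0 (by linarith) k
  have d := pow_nonneg L0 k
  rw [abs_le]
  split_ifs <;> constructor <;> linarith

theorem fv_ge (x : ℕ × ℤ) (n : ℕ) : (x.1 : ℝ) * n + x.2 ≤ fv x n := by
  exact_mod_cast Int.self_le_toNat ((x.1 : ℤ) * n + x.2)

theorem fv_le (x : ℕ × ℤ) (n : ℕ) : (fv x n : ℝ) ≤ (x.1 : ℝ) * n + |(x.2 : ℝ)| := by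
  have : (fv x n : ℤ) ≤ (x.1 : ℤ) * n + |x.2| := by
    have := le_abs_self x.2
    have := abs_nonneg x.2
    have : (0 : ℤ) ≤ (x.1 : ℤ) * n := by positivity
    unfold fv; omega
  exact_mod_cast this

theorem fv_inj {x : ℕ × ℤ} (h : 1 ≤ x.1) {u v : ℕ} (h0 : 0 < fv x u) (e : fv x u = fv x v) :
    u = v := by
  have : (x.1 : ℤ) * u = x.1 * v := by unfold fv at h0 e; omega
  exact_mod_cast mul_left_cancel₀ (by omega : (x.1 : ℤ) ≠ 0) this

theorem main (k D : ℕ) (C₁ c : ℝ) (hc : 0 < c) : ∃ C N₀ : ℝ,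
    ∀ (N y : ℕ) (x : Fin (k + 1) → ℕ × ℤ) (s : ℝ), N₀ ≤ (N : ℝ) → c ≤ s →
    N / Real.log N ^ (D + 1) ≤ (y : ℝ) → y ≤ N →
    (∀ i, 1 ≤ (x i).1 ∧ ((x i).1 : ℝ) ≤ Real.log N ^ D ∧ |((x i).2 : ℝ)| ≤ Real.log N ^ D) →
    |∑ n ∈ Icc 1 y, ∏ i, Λ (fv (x i) n) - s * y| ≤ C₁ * (1 + s) * y / Real.log N ^ 2 →
    |(((Icc 1 y).filter fun q : ℕ => ∀ i, (fv (x i) q).Prime).card : ℝ) *
      Real.log N ^ (k + 1) / (s * y) - 1| ≤ C * Real.log (Real.log N) / Real.log N := by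
  obtain ⟨E, hE⟩ : ∃ E : ℝ, E = D + k + 5 := ⟨_, rfl⟩
  obtain ⟨A, hA⟩ : ∃ A : ℝ, A = (k + 1) * 2 ^ (k + 1) := ⟨_, rfl⟩
  obtain ⟨K, hK⟩ : ∃ K : ℝ, K = (2 ^ (k + 1) + 1) / c + |C₁| * (1 / c + 1) := ⟨_, rfl⟩
  have k0 : (0 : ℝ) ≤ k := k.cast_nonneg
  have D0 : (0 : ℝ) ≤ D := D.cast_nonneg
  have A1 : 1 ≤ A := hA ▸ one_le_mul_of_one_le_of_one_le (by linarith) (one_le_pow₀ one_le_two)
  have E5 : 5 ≤ E := by linarith
  obtain ⟨x₀, hx₀⟩ := eventually_atTop.1 ((ev_log 1).and ((eventually_ge_atTop (1 : ℝ)).and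
    ((Real.tendsto_log_atTop.eventually (ev_log_pow one_pos 1 (2 * (A * E)))).and
      ((Real.tendsto_log_atTop.eventually (ev_log 1)).and
        (ev_log_pow (δ := 1 / 2) (by norm_num) (2 * D + k + 4) (4 * A))))))
  refine ⟨(4 + 5 * K) * (A * E) / 2, x₀, fun N y x s hN hs hy yN hx h => ?_⟩
  obtain ⟨L1, N1, l3, l1, l5⟩ := hx₀ N hN
  rw [pow_one, Real.rpow_one] at l3
  rw [← Real.sqrt_eq_rpow] at l5
  set L := Real.log N with hL
  set l := Real.log L with hl
  have L0 : 0 < L := by linarith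
  have N0 : (0 : ℝ) < N := by linarith
  have s0 : 0 < s := hc.trans_le hs
  have y0 : (0 : ℝ) < y := lt_of_lt_of_le (by positivity) hy
  have yN' : (y : ℝ) ≤ N := by exact_mod_cast yN
  have two := Real.log_two_lt_d9
  have LD : 1 ≤ L ^ D := one_le_pow₀ L1
  have El0 : 0 ≤ E * l := mul_nonneg (by linarith) (by linarith)
  have El : E * l ≤ L := by linarith [mul_le_mul_of_nonneg_right A1 El0]
  have kl : 0 ≤ k * l := mul_nonneg k0 (by linarith)
  have eE : E * l = D * l + k * l + 5 * l := by rw [hE]; ring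
  have NL : 1 ≤ N * L ^ D := one_le_mul_of_one_le_of_one_le N1 LD
  have sq := Real.mul_self_sqrt N0.le
  have sq1 : 1 ≤ √(N : ℝ) := Real.one_le_sqrt.2 N1
  have lz : Real.log (2 * (N * L ^ D)) ≤ L + E * l := by
    rw [Real.log_mul two_ne_zero (by positivity), Real.log_mul N0.ne' (by positivity), Real.log_pow]
    linarith
  have g0 : ∀ n ∈ Icc 1 y, ∀ i, (fv (x i) n : ℝ) ≤ 2 * (N * L ^ D) := fun n hn i => by
    have n1 : (n : ℝ) ≤ N := by exact_mod_cast (mem_Icc.1 hn).2.trans yN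
    have := mul_le_mul (hx i).2.1 n1 n.cast_nonneg (by positivity)
    linarith [fv_le (x i) n, (hx i).2.2, mul_le_mul_of_nonneg_right N1 (pow_pos L0 D).le]
  have g1 : ∀ m : ℕ, (m : ℝ) ≤ 2 * (N * L ^ D) → Real.log m ≤ L + E * l := fun m hm => by
    rcases Nat.eq_zero_or_pos m with e | e
    · rw [e, Nat.cast_zero, Real.log_zero]; linarith
    · exact (Real.log_le_log (by exact_mod_cast e) hm).trans lz
  have g2 : ∀ n : ℕ, ¬ (n : ℝ) ≤ y / L ^ (k + 3) → ∀ i,
      N / L ^ (D + k + 4) / 2 ≤ fv (x i) n := fun n hn i => by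
    have e1 : N / L ^ (D + k + 4) ≤ n := by
      refine le_trans ?_ (not_le.1 hn).le
      rw [show D + k + 4 = D + 1 + (k + 3) by ring, pow_add, ← div_div]
      gcongr
    have e2 : 2 * L ^ D ≤ N / L ^ (D + k + 4) := by
      rw [le_div_iff₀ (by positivity), mul_assoc, ← pow_add, show D + (D + k + 4) = 2 * D + k + 4 by
        ring]
      linarith [mul_le_mul_of_nonneg_right A1 (pow_pos L0 (2 * D + k + 4)).le,
        mul_le_mul_of_nonneg_left sq1 (Real.sqrt_nonneg N), pow_pos L0 (2 * D + k + 4)]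
    have e3 : (1 : ℝ) ≤ (x i).1 := by exact_mod_cast (hx i).1
    linarith [fv_ge (x i) n, neg_abs_le ((x i).2 : ℝ), (hx i).2.2,
      mul_le_mul_of_nonneg_right e3 n.cast_nonneg]
  have g3 : ∀ n : ℕ, ¬ (n : ℝ) ≤ y / L ^ (k + 3) → ∀ i, 0 < fv (x i) n := fun n hn i =>
    Nat.cast_pos.1 (lt_of_lt_of_le (by positivity) (g2 n hn i))
  have w1 := sum_le_card_nsmul ((Icc 1 y).filter fun n : ℕ => (n : ℝ) ≤ y / L ^ (k + 3)) _ _
    fun n hn => small (m := fun i => fv (x i) n) L0.le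
      fun i => by linarith [g1 _ (g0 n (mem_filter.1 hn).1 i)]
  have w2 := sum_le_sum (s := (Icc 1 y).filter fun n : ℕ => ¬ (n : ℝ) ≤ y / L ^ (k + 3))
    fun n hn => point (m := fun i => fv (x i) n) (ρ := E * l / L) L0.le (by positivity)
      (fun i => by linarith [g1 _ (g0 n (mem_filter.1 hn).1 i)]) fun i => by
        have := Real.log_le_log (by positivity) (g2 n (mem_filter.1 hn).2 i)
        rw [Real.log_div (by positivity) two_ne_zero, Real.log_div N0.ne' (by positivity),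
          Real.log_pow] at this
        push_cast at this
        rw [div_mul_cancel₀ _ L0.ne', abs_le]
        constructor <;> linarith [g1 _ (g0 n (mem_filter.1 hn).1 i)]
  have w := (abs_sum_le_sum_abs _ _).trans
    ((sum_filter_add_sum_filter_not _ _ _).ge.trans (add_le_add w1 w2))
  rw [sum_sub_distrib, sum_add_distrib, ← mul_sum, ← mul_sum, ← mul_sum,
    sum_boole, sum_boole, nsmul_eq_mul, sum_comm] at w
  have z3 := Nat.floor_le (show 0 ≤ 2 * (N * L ^ D) by positivity)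
  have p1 : ∀ i, ∑ n ∈ (Icc 1 y).filter fun n : ℕ => ¬ (n : ℝ) ≤ y / L ^ (k + 3),
      np (fv (x i) n) ≤ 2 * (√(N : ℝ) * (2 * L ^ D)) * (2 * L) := fun i => by
    refine (SG.sum_np_le _ (fun n => fv (x i) n) ⌊2 * (N * L ^ D)⌋₊
      (Nat.le_floor (by push_cast; linarith))
      (fun u hu v _ e => fv_inj (hx i).1 (g3 u (mem_filter.1 hu).2 i) e) fun n hn =>
      mem_Ioc.2 ⟨g3 n (mem_filter.1 hn).2 i, Nat.le_floor (g0 n (mem_filter.1 hn).1 i)⟩).trans ?_
    refine mul_le_mul (mul_le_mul_of_nonneg_left ?_ zero_le_two) (by linarith [g1 _ z3])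
      (Real.log_natCast_nonneg _) (by positivity)
    rw [Real.sqrt_le_iff, mul_pow, Real.sq_sqrt N0.le]
    exact ⟨by positivity, by linarith [mul_le_mul_of_nonneg_left LD (zero_le_one.trans NL)]⟩
  have q5 : (2 * L) ^ k * ∑ i, ∑ n ∈ (Icc 1 y).filter fun n : ℕ => ¬ (n : ℝ) ≤ y / L ^ (k + 3),
      np (fv (x i) n) ≤ y / L :=
    calc _ ≤ (2 * L) ^ k * ((k + 1) * (2 * (√(N : ℝ) * (2 * L ^ D)) * (2 * L))) := by
          gcongr
          simpa using sum_le_card_nsmul univ _ _ fun i _ => p1 i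
      _ = 4 * A * L ^ (2 * D + k + 4) * √(N : ℝ) / L ^ (D + 1) / L / L := by
          rw [hA]; field_simp; ring
      _ ≤ √(N : ℝ) * √(N : ℝ) / L ^ (D + 1) / L / 1 := by gcongr
      _ ≤ _ := by rw [sq, div_one]; gcongr
  have q6 : (((Icc 1 y).filter fun n : ℕ => (n : ℝ) ≤ y / L ^ (k + 3)).card : ℝ) *
      (2 * L) ^ (k + 1) ≤ 2 ^ (k + 1) * (y / L) := by
    have : ((Icc 1 y).filter fun n : ℕ => (n : ℝ) ≤ y / L ^ (k + 3)).card ≤ ⌊y / L ^ (k + 3)⌋₊ :=
      (card_le_card fun n hn => mem_Icc.2 ⟨(mem_Icc.1 (mem_filter.1 hn).1).1,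
        Nat.le_floor (mem_filter.1 hn).2⟩).trans (by simp)
    calc _ ≤ y / L ^ (k + 3) * (2 * L) ^ (k + 1) := by
          gcongr
          exact (Nat.cast_le.2 this).trans (Nat.floor_le (by positivity))
      _ = 2 ^ (k + 1) * (y / L / L) := by field_simp; ring
      _ ≤ _ := by gcongr; exact div_le_self (by positivity) L1
  set Y : ℝ := (((Icc 1 y).filter fun q : ℕ => ∀ i, (fv (x i) q).Prime).card : ℝ)
  have Y0 : 0 ≤ Y := Nat.cast_nonneg _
  have q7 : (k + 1) * (E * l / L) * (2 * L) ^ (k + 1) *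
      ((((Icc 1 y).filter fun n : ℕ => ¬ (n : ℝ) ≤ y / L ^ (k + 3)).filter
      fun q : ℕ => ∀ i, (fv (x i) q).Prime).card : ℝ) ≤
      2 / (2 * L / (A * E * l)) * (L ^ (k + 1) * Y) :=
    calc _ ≤ (k + 1) * (E * l / L) * (2 * L) ^ (k + 1) * Y := mul_le_mul_of_nonneg_left
          (Nat.cast_le.2 (card_le_card (filter_subset_filter _ (filter_subset _ _))))
          (by positivity)
      _ = _ := by rw [hA]; field_simp; ring
  have t2 : y / L ≤ 1 / c * (s * (y / L)) :=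
    calc _ = 1 / c * (c * (y / L)) := by field_simp
      _ ≤ _ := by gcongr
  have t3 : C₁ * (1 + s) * y / L ^ 2 ≤ |C₁| * (1 / c + 1) * (s * (y / L)) :=
    calc _ = C₁ * ((1 + s) * (y / L) / L) := by field_simp
      _ ≤ |C₁| * ((1 + s) * (y / L)) := mul_le_mul (le_abs_self _)
          (div_le_self (by positivity) L1) (by positivity) (abs_nonneg _)
      _ ≤ _ := by
          rw [mul_assoc]
          exact mul_le_mul_of_nonneg_left (by linarith) (abs_nonneg _)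
  have K0 : 0 ≤ K := by rw [hK]; positivity
  have AE : 2 ≤ A * E * l := by
    linarith [mul_le_mul_of_nonneg_right A1 El0, mul_le_mul_of_nonneg_left l1 (by linarith : 0 ≤ E)]
  have t4 : K * (s * (y / L)) ≤ K * (s * y) / (2 * L / (A * E * l)) :=
    calc _ = K * (s * y) / L := by ring
      _ ≤ _ := by
          gcongr
          rw [div_le_iff₀ (by linarith)]
          linarith [mul_le_mul_of_nonneg_left AE L0.le]
  have t5 : K * (s * (y / L)) = (2 ^ (k + 1) + 1) * (1 / c * (s * (y / L))) +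
      |C₁| * (1 / c + 1) * (s * (y / L)) := by rw [hK]; ring
  have t6 := mul_le_mul_of_nonneg_left t2 (show (0 : ℝ) ≤ 2 ^ (k + 1) + 1 by positivity)
  rw [mul_comm Y]
  refine (SG.scal (K := K) (L := 2 * L / (A * E * l)) (by positivity) K0
    ((le_div_iff₀ (by linarith)).2 (by linarith)) (by positivity) ?_).trans
    (le_of_eq (by field_simp))
  have a1 := abs_le.1 w
  have a2 := abs_le.1 h
  rw [abs_le]
  constructor <;> linarith [a1.1, a1.2, a2.1, a2.2]

end CNK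

theorem cnk : CNKStmt := by
  intro k D C₁ c hc
  obtain ⟨C, N₀, h⟩ := CNK.main k D C₁ c hc
  obtain ⟨x₀, hx₀⟩ := eventually_atTop.1 (ev_log 1)
  refine ⟨C, max N₀ x₀, fun N y x s hN hs hy yN hx he => ?_⟩
  have L1 := one_le_pow₀ (n := D) (hx₀ N ((le_max_right _ _).trans hN))
  have e : ∀ n, fv (1, 0) n = n := fun n => by simp [fv]
  have := h N y (Fin.cons (1, 0) x) s ((le_max_left _ _).trans hN) hs hy yN
    (Fin.forall_fin_succ.2 ⟨by simpa using ⟨L1, zero_le_one.trans L1⟩, hx⟩)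
    (by simpa only [Fin.prod_univ_succ, Fin.cons_zero, Fin.cons_succ, e] using he)
  simpa only [Fin.forall_fin_succ, Fin.cons_zero, Fin.cons_succ, e] using this

end Pool.Agent.MP_39a890_nt.KT

end
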