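import Pool.Agent.MP_39a890_nt.kt.Spec3
import Pool.Agent.MP_39a890_nt.kt.CNK

/-! From von Mangoldt weights to the number of prime tuples, for large coefficients. -/

set_option autoImplicit false

noncomputable section

namespace Pool.Agent.MP_39a890_nt.KT

open Finset Filter
open scoped ArithmeticFunction.vonMangoldt
open Pool.Agent.MP_678834_nt Pool.Agent.MP_678834_nt.HL9 Pool.Agent.MP_39a890_nt.MS
open Pool.Agent.MP_678834_nt.HL9.Final (np np_nonneg)

namespace CNK3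

open CNK (lam_le fv_ge fv_le fv_inj)

theorem prod_bd {ι : Type} (s : Finset ι) {t : ι → ℝ} {L : ℝ} (h0 : ∀ i, 0 ≤ t i)
    (h1 : ∀ i, t i ≤ L) : 0 ≤ ∏ i ∈ s, t i ∧ ∏ i ∈ s, t i ≤ L ^ s.card :=
  ⟨prod_nonneg fun i _ => h0 i, by
    rw [← prod_const]
    exact prod_le_prod (fun i _ => h0 i) fun i _ => h1 i⟩

theorem prod_near {ι : Type} (s : Finset ι) {t u : ι → ℝ} {L ρ : ℝ} (L0 : 0 ≤ L) (r0 : 0 ≤ ρ)
    (t0 : ∀ i, 0 ≤ t i) (t1 : ∀ i, t i ≤ 2 * L)
    (h0 : ∀ i, 0 ≤ u i) (h1 : ∀ i, u i ≤ 2 * L) (h2 : ∀ i, |t i - u i| ≤ ρ * L) :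
    |∏ i ∈ s, t i - ∏ i ∈ s, u i| ≤ s.card * ρ * (2 * L) ^ s.card := by
  classical
  induction s using Finset.induction_on with
  | empty => simp
  | insert a s ha ih =>
    obtain ⟨b0, b1⟩ := prod_bd s t0 t1
    rw [card_insert_of_notMem ha, prod_insert ha, prod_insert ha,
      show t a * ∏ i ∈ s, t i - u a * ∏ i ∈ s, u i =
        (t a - u a) * ∏ i ∈ s, t i + u a * (∏ i ∈ s, t i - ∏ i ∈ s, u i) by ring]
    refine (abs_add_le _ _).trans ?_
    rw [abs_mul, abs_mul, abs_of_nonneg (h0 a), abs_of_nonneg b0]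
    calc _ ≤ ρ * (2 * L) * (2 * L) ^ s.card + 2 * L * (s.card * ρ * (2 * L) ^ s.card) := by
          gcongr
          exacts [(h2 a).trans (by nlinarith), h1 a]
      _ = _ := by push_cast; ring

theorem point {k : ℕ} {m : Fin (k + 1) → ℕ} {t : Fin (k + 1) → ℝ} {L ρ : ℝ} (L0 : 0 ≤ L)
    (r0 : 0 ≤ ρ) (t0 : ∀ i, 0 ≤ t i) (t1 : ∀ i, t i ≤ 2 * L)
    (h1 : ∀ i, Real.log (m i) ≤ 2 * L) (h2 : ∀ i, |t i - Real.log (m i)| ≤ ρ * L) :
    |(∏ i, t i) * (if ∀ i, (m i).Prime then 1 else 0) - ∏ i, Λ (m i)| ≤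
      (k + 1) * ρ * (2 * L) ^ (k + 1) * (if ∀ i, (m i).Prime then 1 else 0) +
        (2 * L) ^ k * ∑ i, np (m i) := by
  have n0 : 0 ≤ ∑ i, np (m i) := sum_nonneg fun i _ => np_nonneg _
  split_ifs with hp
  · have := prod_near univ L0 r0 t0 t1 (fun i => Real.log_natCast_nonneg (m i)) h1 h2
    simp only [card_univ, Fintype.card_fin, Nat.cast_add, Nat.cast_one] at this
    simp only [fun i => ArithmeticFunction.vonMangoldt_apply_prime (hp i), mul_one]
    exact this.trans (le_add_of_nonneg_right (by positivity))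
  · obtain ⟨i, hi⟩ := not_forall.1 hp
    have a := (lam_le h1 (univ.erase i)).2
    rw [card_erase_of_mem (mem_univ i), card_univ, Fintype.card_fin, Nat.add_sub_cancel] at a
    rw [mul_zero, mul_zero, zero_add, zero_sub, abs_neg, abs_of_nonneg (lam_le h1 _).1,
      ← prod_erase_mul _ _ (mem_univ i)]
    refine mul_le_mul a ?_ ArithmeticFunction.vonMangoldt_nonneg (by positivity)
    rw [show Λ (m i) = np (m i) from (if_neg hi).symm]
    exact single_le_sum (f := fun i => np (m i)) (fun _ _ => np_nonneg _) (mem_univ i)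

theorem small {k : ℕ} {m : Fin k → ℕ} {t : Fin k → ℝ} {L : ℝ} (t0 : ∀ i, 0 ≤ t i)
    (t1 : ∀ i, t i ≤ 2 * L) (h1 : ∀ i, Real.log (m i) ≤ 2 * L) :
    |(∏ i, t i) * (if ∀ i, (m i).Prime then 1 else 0) - ∏ i, Λ (m i)| ≤ (2 * L) ^ k := by
  obtain ⟨a, b⟩ := lam_le h1 univ
  obtain ⟨d, c⟩ := prod_bd univ t0 t1
  rw [card_univ, Fintype.card_fin] at b c
  rw [abs_le]
  split_ifs <;> constructor <;> linarith

theorem main (k D : ℕ) (C₁ c : ℝ) (hc : 0 < c) : ∃ C N₀ : ℝ,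
    ∀ (N y : ℕ) (x : Fin (k + 1) → ℕ × ℤ) (s : ℝ), N₀ ≤ (N : ℝ) → c ≤ s →
    N / Real.log N ^ D ≤ (y : ℝ) → y ≤ N →
    (∀ i, 1 ≤ (x i).1 ∧ ((x i).1 : ℝ) * Real.log N ^ (2 * (k + D) + 12) ≤ N ∧
      |((x i).2 : ℝ)| * Real.log N ^ (k + D + 6) ≤ N) →
    |∑ n ∈ Icc 1 y, ∏ i, Λ (fv (x i) n) - s * y| ≤ C₁ * (1 + s) * y / Real.log N ^ 2 →
    |(((Icc 1 y).filter fun q : ℕ => ∀ i, (fv (x i) q).Prime).card : ℝ) *
      (∏ i, Real.log ((x i).1 * N)) / (s * y) - 1| ≤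
      C * Real.log (Real.log N) / Real.log N := by
  obtain ⟨E, hE⟩ : ∃ E : ℝ, E = D + k + 5 := ⟨_, rfl⟩
  obtain ⟨A, hA⟩ : ∃ A : ℝ, A = (k + 1) * 2 ^ (k + 1) := ⟨_, rfl⟩
  obtain ⟨K, hK⟩ : ∃ K : ℝ, K = (2 ^ (k + 1) + 1) / c + |C₁| * (1 / c + 1) := ⟨_, rfl⟩
  have k0 : (0 : ℝ) ≤ k := k.cast_nonneg
  have D0 : (0 : ℝ) ≤ D := D.cast_nonneg
  have A1 : 1 ≤ A := hA ▸ one_le_mul_of_one_le_of_one_le (by linarith) (one_le_pow₀ one_le_two)
  have E5 : 5 ≤ E := by linarith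
  obtain ⟨x₀, hx₀⟩ := eventually_atTop.1 ((ev_log (4 * A)).and ((eventually_ge_atTop (1 : ℝ)).and
    ((Real.tendsto_log_atTop.eventually (ev_log_pow one_pos 1 (2 * (A * E)))).and
      (Real.tendsto_log_atTop.eventually (ev_log 1)))))
  refine ⟨(4 + 5 * K) * (A * E) / 2, x₀, fun N y x s hN hs hy yN hx h => ?_⟩
  obtain ⟨l5, N1, l3, l1⟩ := hx₀ N hN
  rw [pow_one, Real.rpow_one] at l3
  set L := Real.log N with hL
  set l := Real.log L with hl
  have L1 : 1 ≤ L := by linarith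
  have L0 : 0 < L := by linarith
  have N0 : (0 : ℝ) < N := by linarith
  have s0 : 0 < s := hc.trans_le hs
  have y0 : (0 : ℝ) < y := lt_of_lt_of_le (by positivity) hy
  have two := Real.log_two_lt_d9
  have two' := Real.log_nonneg (one_le_two (α := ℝ))
  have El0 : 0 ≤ E * l := mul_nonneg (by linarith) (by linarith)
  have eE : E * l = D * l + k * l + 5 * l := by rw [hE]; ring
  have kl : 0 ≤ k * l := mul_nonneg k0 (by linarith)
  have Dl : 0 ≤ D * l := mul_nonneg D0 (by linarith)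
  have L2 : ∀ j : ℕ, 2 ≤ L ^ (j + 1) := fun j =>
    le_trans (by linarith) (le_self_pow₀ L1 j.succ_ne_zero)
  have a1 : ∀ i, (1 : ℝ) ≤ (x i).1 := fun i => by exact_mod_cast (hx i).1
  have a2 : ∀ i, 2 * ((x i).1 * N : ℝ) ≤ N * N := fun i => by
    have := mul_le_mul_of_nonneg_left (L2 (2 * (k + D) + 11)) (zero_le_one.trans (a1 i))
    nlinarith [(hx i).2.1]
  have a3 : ∀ i, (N : ℝ) ≤ (x i).1 * N := fun i => le_mul_of_one_le_left N0.le (a1 i)
  have lN : Real.log (N * N) = 2 * L := by rw [Real.log_mul N0.ne' N0.ne']; ring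
  have t0 : ∀ i, L ≤ Real.log ((x i).1 * N) := fun i => Real.log_le_log N0 (a3 i)
  have t0' : ∀ i, 0 ≤ Real.log ((x i).1 * N) := fun i => L0.le.trans (t0 i)
  have t1 : ∀ i, Real.log ((x i).1 * N) ≤ 2 * L := fun i =>
    lN ▸ Real.log_le_log (N0.trans_le (a3 i)) (by linarith [a2 i, a3 i])
  have b1 : ∀ i, 2 * |((x i).2 : ℝ)| ≤ N / L ^ (D + k + 3) := fun i => by
    rw [le_div_iff₀ (by positivity)]
    refine le_trans ?_ (hx i).2.2
    rw [show k + D + 6 = 2 + 1 + (D + k + 3) by ring, pow_add L (2 + 1), ← mul_assoc,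
      mul_comm 2]
    exact mul_le_mul_of_nonneg_right (mul_le_mul_of_nonneg_left (L2 2) (abs_nonneg _))
      (by positivity)
  have g0 : ∀ n ∈ Icc 1 y, ∀ i, (fv (x i) n : ℝ) ≤ 2 * ((x i).1 * N) := fun n hn i => by
    have n1 : (n : ℝ) ≤ N := by exact_mod_cast (mem_Icc.1 hn).2.trans yN
    linarith [fv_le (x i) n, mul_le_mul_of_nonneg_left n1 (zero_le_one.trans (a1 i)), a3 i,
      (b1 i).trans (div_le_self N0.le (one_le_pow₀ L1)), abs_nonneg ((x i).2 : ℝ)]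
  have g1 : ∀ (m : ℕ) (i : Fin (k + 1)), (m : ℝ) ≤ 2 * ((x i).1 * N) → Real.log m ≤ 2 * L ∧
      Real.log m ≤ Real.log 2 + Real.log ((x i).1 * N) := fun m i hm => by
    rcases Nat.eq_zero_or_pos m with e | e
    · rw [e, Nat.cast_zero, Real.log_zero]
      exact ⟨by linarith, by linarith [t0' i]⟩
    · have e' : (0 : ℝ) < m := by exact_mod_cast e
      exact ⟨lN ▸ Real.log_le_log e' (hm.trans (a2 i)), (Real.log_le_log e' hm).trans_eq
        (Real.log_mul two_ne_zero (N0.trans_le (a3 i)).ne')⟩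
  have g2 : ∀ n : ℕ, ¬ (n : ℝ) ≤ y / L ^ (k + 3) → ∀ i,
      (x i).1 * N / L ^ (D + k + 3) / 2 ≤ fv (x i) n := fun n hn i => by
    have e1 : N / L ^ (D + k + 3) ≤ n := by
      refine le_trans ?_ (not_le.1 hn).le
      rw [show D + k + 3 = D + (k + 3) by ring, pow_add, ← div_div]
      gcongr
    rw [mul_div_assoc]
    linarith [fv_ge (x i) n, neg_abs_le ((x i).2 : ℝ), b1 i,
      mul_le_mul_of_nonneg_right (a1 i) n.cast_nonneg,
      mul_le_mul_of_nonneg_left e1 (zero_le_one.trans (a1 i))]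
  have g4 : ∀ i, 0 < (x i).1 * N / L ^ (D + k + 3) / 2 := fun i =>
    half_pos (div_pos (N0.trans_le (a3 i)) (by positivity))
  have g3 : ∀ n : ℕ, ¬ (n : ℝ) ≤ y / L ^ (k + 3) → ∀ i, 0 < fv (x i) n := fun n hn i =>
    Nat.cast_pos.1 (lt_of_lt_of_le (g4 i) (g2 n hn i))
  have w1 := sum_le_card_nsmul ((Icc 1 y).filter fun n : ℕ => (n : ℝ) ≤ y / L ^ (k + 3)) _ _
    fun n hn => small (m := fun i => fv (x i) n) t0' t1
      fun i => (g1 _ i (g0 n (mem_filter.1 hn).1 i)).1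
  have w2 := sum_le_sum (s := (Icc 1 y).filter fun n : ℕ => ¬ (n : ℝ) ≤ y / L ^ (k + 3))
    fun n hn => point (m := fun i => fv (x i) n) (ρ := E * l / L) L0.le (by positivity) t0' t1
      (fun i => (g1 _ i (g0 n (mem_filter.1 hn).1 i)).1) fun i => by
        have := Real.log_le_log (g4 i) (g2 n (mem_filter.1 hn).2 i)
        rw [Real.log_div (div_pos (N0.trans_le (a3 i)) (by positivity)).ne' two_ne_zero,
          Real.log_div (N0.trans_le (a3 i)).ne' (by positivity), Real.log_pow] at this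
        push_cast at this
        rw [div_mul_cancel₀ _ L0.ne', abs_le]
        constructor <;> linarith [(g1 _ i (g0 n (mem_filter.1 hn).1 i)).2]
  have w := (abs_sum_le_sum_abs _ _).trans
    ((sum_filter_add_sum_filter_not _ _ _).ge.trans (add_le_add w1 w2))
  rw [sum_sub_distrib, sum_add_distrib, ← mul_sum, ← mul_sum, ← mul_sum,
    sum_boole, sum_boole, nsmul_eq_mul, sum_comm] at w
  have p1 : ∀ i, ∑ n ∈ (Icc 1 y).filter fun n : ℕ => ¬ (n : ℝ) ≤ y / L ^ (k + 3),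
      np (fv (x i) n) ≤ 2 * (2 * (N / L ^ (k + D + 6))) * (2 * L) := fun i => by
    have z3 : ((2 * ((x i).1 * N) : ℕ) : ℝ) = 2 * ((x i).1 * N) := by push_cast; rfl
    refine (SG.sum_np_le _ (fun n => fv (x i) n) (2 * ((x i).1 * N))
      (Nat.cast_le (α := ℝ).1 (by rw [z3, Nat.cast_one]; linarith [a3 i]))
      (fun u hu v _ e => fv_inj (hx i).1 (g3 u (mem_filter.1 hu).2 i) e) fun n hn =>
      mem_Ioc.2 ⟨g3 n (mem_filter.1 hn).2 i, (Nat.cast_le (α := ℝ)).1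
        ((g0 n (mem_filter.1 hn).1 i).trans z3.ge)⟩).trans ?_
    refine mul_le_mul (mul_le_mul_of_nonneg_left ?_ zero_le_two) (g1 _ i z3.le).1
      (Real.log_natCast_nonneg _) (by positivity)
    refine Real.sqrt_le_iff.2 ⟨by positivity, ?_⟩
    rw [z3, mul_pow, div_pow, ← pow_mul, ← mul_div_assoc, le_div_iff₀ (by positivity),
      show (k + D + 6) * 2 = 2 * (k + D) + 12 by ring]
    linarith [mul_le_mul_of_nonneg_left (hx i).2.1 N0.le, mul_pos N0 N0]
  have q5 : (2 * L) ^ k * ∑ i, ∑ n ∈ (Icc 1 y).filter fun n : ℕ => ¬ (n : ℝ) ≤ y / L ^ (k + 3),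
      np (fv (x i) n) ≤ y / L :=
    calc _ ≤ (2 * L) ^ k * ((k + 1) * (2 * (2 * (N / L ^ (k + D + 6))) * (2 * L))) := by
          gcongr
          simpa using sum_le_card_nsmul univ _ _ fun i _ => p1 i
      _ = 4 * A * (N / L ^ D) / L / L / L ^ 3 := by
          rw [hA]; field_simp; ring
      _ ≤ L * y / L / L / 1 := by
          gcongr
          exact one_le_pow₀ L1
      _ = _ := by field_simp
  have q6 : (((Icc 1 y).filter fun n : ℕ => (n : ℝ) ≤ y / L ^ (k + 3)).card : ℝ) *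
      (2 * L) ^ (k + 1) ≤ 2 ^ (k + 1) * (y / L) := by
    have : ((Icc 1 y).filter fun n : ℕ => (n : ℝ) ≤ y / L ^ (k + 3)).card ≤ ⌊y / L ^ (k + 3)⌋₊ :=
      (card_le_card fun n hn => mem_Icc.2 ⟨(mem_Icc.1 (mem_filter.1 hn).1).1,
        Nat.le_floor (mem_filter.1 hn).2⟩).trans (by simp)
    calc _ ≤ y / L ^ (k + 3) * (2 * L) ^ (k + 1) := by
          gcongr
          exact (Nat.cast_le.2 this).trans (Nat.floor_le (by positivity))
      _ = 2 ^ (k + 1) * (y / L / L) := by field_simp; ring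
      _ ≤ _ := by gcongr; exact div_le_self (by positivity) L1
  set Y : ℝ := (((Icc 1 y).filter fun q : ℕ => ∀ i, (fv (x i) q).Prime).card : ℝ)
  have Y0 : 0 ≤ Y := Nat.cast_nonneg _
  set T : ℝ := ∏ i, Real.log ((x i).1 * N)
  have T1 : L ^ (k + 1) ≤ T := by
    have := prod_le_prod (s := univ) (fun _ _ => L0.le) fun i _ => t0 i
    rwa [prod_const, card_univ, Fintype.card_fin] at this
  have T0 : 0 ≤ T := (pow_pos L0 _).le.trans T1
  have q7 : (k + 1) * (E * l / L) * (2 * L) ^ (k + 1) *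
      ((((Icc 1 y).filter fun n : ℕ => ¬ (n : ℝ) ≤ y / L ^ (k + 3)).filter
      fun q : ℕ => ∀ i, (fv (x i) q).Prime).card : ℝ) ≤
      2 / (2 * L / (A * E * l)) * (T * Y) :=
    calc _ ≤ (k + 1) * (E * l / L) * (2 * L) ^ (k + 1) * Y := mul_le_mul_of_nonneg_left
          (Nat.cast_le.2 (card_le_card (filter_subset_filter _ (filter_subset _ _))))
          (by positivity)
      _ = 2 / (2 * L / (A * E * l)) * (L ^ (k + 1) * Y) := by rw [hA]; field_simp; ring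
      _ ≤ _ := by gcongr
  have t2 : y / L ≤ 1 / c * (s * (y / L)) :=
    calc _ = 1 / c * (c * (y / L)) := by field_simp
      _ ≤ _ := by gcongr
  have t3 : C₁ * (1 + s) * y / L ^ 2 ≤ |C₁| * (1 / c + 1) * (s * (y / L)) :=
    calc _ = C₁ * ((1 + s) * (y / L) / L) := by field_simp
      _ ≤ |C₁| * ((1 + s) * (y / L)) := mul_le_mul (le_abs_self _)
          (div_le_self (by positivity) L1) (by positivity) (abs_nonneg _)
      _ ≤ _ := by
          rw [mul_assoc]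
          exact mul_le_mul_of_nonneg_left (by linarith) (abs_nonneg _)
  have K0 : 0 ≤ K := by rw [hK]; positivity
  have AE : 2 ≤ A * E * l := by
    linarith [mul_le_mul_of_nonneg_right A1 El0, mul_le_mul_of_nonneg_left l1 (by linarith : 0 ≤ E)]
  have t4 : K * (s * (y / L)) ≤ K * (s * y) / (2 * L / (A * E * l)) :=
    calc _ = K * (s * y) / L := by ring
      _ ≤ _ := by
          gcongr
          rw [div_le_iff₀ (by linarith)]
          linarith [mul_le_mul_of_nonneg_left AE L0.le]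
  have t5 : K * (s * (y / L)) = (2 ^ (k + 1) + 1) * (1 / c * (s * (y / L))) +
      |C₁| * (1 / c + 1) * (s * (y / L)) := by rw [hK]; ring
  have t6 := mul_le_mul_of_nonneg_left t2 (show (0 : ℝ) ≤ 2 ^ (k + 1) + 1 by positivity)
  rw [mul_comm Y]
  refine (SG.scal (K := K) (L := 2 * L / (A * E * l)) (by positivity) K0
    ((le_div_iff₀ (by linarith)).2 (by linarith)) (by positivity) ?_).trans
    (le_of_eq (by field_simp))
  have a1 := abs_le.1 w
  have a2 := abs_le.1 h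
  rw [abs_le]
  constructor <;> linarith [a1.1, a1.2, a2.1, a2.2]

end CNK3

theorem cnk3 : CNK3Stmt := by
  intro k D C₁ c hc
  obtain ⟨C, N₀, h⟩ := CNK3.main k D C₁ c hc
  obtain ⟨x₀, hx₀⟩ := eventually_atTop.1 (ev_log_pow one_pos (2 * (k + D) + 12) 1)
  refine ⟨C, max N₀ x₀, fun N y x s hN hs hy yN hx he => ?_⟩
  have L1 := hx₀ N ((le_max_right _ _).trans hN)
  rw [Real.rpow_one, one_mul] at L1
  have e : ∀ n, fv (1, 0) n = n := fun n => by simp [fv]
  have := h N y (Fin.cons (1, 0) x) s ((le_max_left _ _).trans hN) hs hy yN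
    (Fin.forall_fin_succ.2 ⟨by simpa using L1, hx⟩)
    (by simpa only [Fin.prod_univ_succ, Fin.cons_zero, Fin.cons_succ, e] using he)
  simpa only [Fin.forall_fin_succ, Fin.prod_univ_succ, Fin.cons_zero, Fin.cons_succ, e,
    Nat.cast_one, one_mul] using this

end Pool.Agent.MP_39a890_nt.KT

end
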