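import Pool.Agent.MP_39a890_nt.kt.Spec4
import Pool.Agent.MP_39a890_nt.kt.CNK3

/-! From von Mangoldt weights to the number of prime tuples, by Abel summation. -/

set_option autoImplicit false

noncomputable section

namespace Pool.Agent.MP_39a890_nt.KT

open Finset Filter
open scoped ArithmeticFunction.vonMangoldt
open Pool.Agent.MP_678834_nt Pool.Agent.MP_678834_nt.HL9 Pool.Agent.MP_39a890_nt.MS
open Pool.Agent.MP_678834_nt.HL9.Final (np np_nonneg)

namespace CNT4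

open CNK (fv_ge fv_le fv_inj)

theorem abel (a w : ℕ → ℝ) {E : ℝ} {T N : ℕ} (hw : ∀ n, T ≤ n → w (n + 1) ≤ w n)
    (hA : ∀ y ≤ N, |∑ n ∈ Icc 1 y, a n| ≤ E) (M : ℕ) (h : T ≤ M) : M ≤ N →
    |∑ n ∈ Ioc T M, a n * w n - (∑ n ∈ Icc 1 M, a n) * w M + (∑ n ∈ Icc 1 T, a n) * w T| ≤
      E * (w T - w M) := by
  induction M, h using Nat.le_induction with
  | base => simp
  | succ M h ih =>
    intro k
    have h1 := sub_nonneg.2 (hw M h)
    have h2 : |(∑ n ∈ Icc 1 M, a n) * (w M - w (M + 1))| ≤ E * (w M - w (M + 1)) := by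
      rw [abs_mul, abs_of_nonneg h1]
      exact mul_le_mul_of_nonneg_right (hA M (by omega)) h1
    have h3 := (abs_add_le _ _).trans (add_le_add (ih (by omega)) h2)
    rw [sum_Ioc_succ_top h, sum_Icc_succ_top (by omega)]
    refine le_trans (le_of_eq ?_) (h3.trans (le_of_eq (by ring)))
    congr 1
    ring

theorem abel2 (a w : ℕ → ℝ) {E : ℝ} {T N : ℕ} (hw : ∀ n, T ≤ n → w (n + 1) ≤ w n)
    (hA : ∀ y ≤ N, |∑ n ∈ Icc 1 y, a n| ≤ E) (h : T ≤ N) (w0 : 0 ≤ w N) (w1 : 0 ≤ w T)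
    (w2 : w T ≤ 1) : |∑ n ∈ Ioc T N, a n * w n| ≤ 2 * E := by
  have h1 := abs_le.1 (abel a w hw hA N h le_rfl)
  have h2 := abs_le.1 (hA N le_rfl)
  have h3 := abs_le.1 (hA T h)
  have E0 : 0 ≤ E := by linarith [h2.1, h2.2]
  have h4 := mul_le_mul_of_nonneg_left w2 E0
  rw [abs_le]
  constructor <;> nlinarith [mul_le_mul_of_nonneg_right h2.1 w0, mul_le_mul_of_nonneg_right h2.2 w0,
    mul_le_mul_of_nonneg_right h3.1 w1, mul_le_mul_of_nonneg_right h3.2 w1]

theorem anti (m : ℕ) : AntitoneOn (fun t : ℝ => 1 / Real.log t ^ m) (Set.Ici 2) :=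
  fun a ha b _ h => by
    have h1 : (1 : ℝ) < a := one_lt_two.trans_le ha
    have := Real.log_pos h1
    beta_reduce
    gcongr

theorem intg (m : ℕ) {a b : ℝ} (ha : 2 ≤ a) (h : a ≤ b) :
    IntervalIntegrable (fun t : ℝ => 1 / Real.log t ^ m) MeasureTheory.volume a b :=
  AntitoneOn.intervalIntegrable ((anti m).mono (by
    rw [Set.uIcc_of_le h]; exact fun x hx => ha.trans hx.1))

theorem one_le {x : ℝ} (h : 3 ≤ x) : 1 ≤ Real.log x :=
  (Real.le_log_iff_exp_le (by linarith)).2 (by linarith [Real.exp_one_lt_d9])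

theorem cmp (m : ℕ) {T N : ℕ} (hT : 3 ≤ T) (h : T ≤ N) :
    |∑ n ∈ Ioc T N, 1 / Real.log n ^ m - ∫ t in (2 : ℝ)..N, 1 / Real.log t ^ m| ≤
      T * 2 ^ m + 1 := by
  have T3 : (3 : ℝ) ≤ T := by exact_mod_cast hT
  have TN : (T : ℝ) ≤ N := by exact_mod_cast h
  have a := (anti m).mono (fun x hx => le_trans (by linarith) hx.1 :
    Set.Icc (T : ℝ) N ⊆ Set.Ici 2)
  have h1 := a.sum_le_integral_Ico h
  have h2 := a.integral_le_sum_Ico h
  have h3 : ∑ n ∈ Ico T N, 1 / Real.log (n + 1 : ℕ) ^ m = ∑ n ∈ Ioc T N, 1 / Real.log n ^ m := by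
    rw [sum_Ico_add' (fun n : ℕ => 1 / Real.log n ^ m) T N 1, Ico_add_one_add_one_eq_Ioc]
  have h4 : ∑ n ∈ Ico T N, 1 / Real.log n ^ m + 1 / Real.log N ^ m =
      ∑ n ∈ Ioc T N, 1 / Real.log n ^ m + 1 / Real.log T ^ m := by
    rw [sum_Ico_add_eq_sum_Icc (f := fun n : ℕ => 1 / Real.log n ^ m) h,
      sum_Ioc_add_eq_sum_Icc (f := fun n : ℕ => 1 / Real.log n ^ m) h]
  have h5 : 1 / Real.log T ^ m ≤ 1 := (div_le_one (pow_pos (one_pos.trans_le (one_le T3)) m)).2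
    (one_le_pow₀ (one_le T3))
  have h6 : 0 ≤ 1 / Real.log N ^ m := by positivity
  have h7 : |∫ t in (2 : ℝ)..T, 1 / Real.log t ^ m| ≤ T * 2 ^ m := by
    rw [← Real.norm_eq_abs]
    refine (intervalIntegral.norm_integral_le_of_norm_le_const (C := 2 ^ m) fun t ht => ?_).trans ?_
    · rw [Set.uIoc_of_le (by linarith)] at ht
      have h1 : 1 / 2 ≤ Real.log t :=
        le_trans (by linarith [Real.log_two_gt_d9]) (Real.log_le_log two_pos ht.1.le)
      rw [Real.norm_of_nonneg (by positivity), div_le_iff₀ (by positivity), ← mul_pow]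
      exact one_le_pow₀ (by linarith)
    · rw [abs_of_nonneg (by linarith), mul_comm]
      gcongr
      linarith
  rw [← intervalIntegral.integral_add_adjacent_intervals (intg m le_rfl (by linarith))
    (intg m (by linarith) TN)]
  have h8 := abs_le.1 h7
  rw [abs_le]
  constructor <;> linarith [h8.1, h8.2]

theorem logd {a b c ρ : ℝ} (ha : 0 < a) (hb : 0 < b) (h : a ≤ b + c) (k : c ≤ ρ * b) :
    Real.log a - Real.log b ≤ ρ := by
  rw [← Real.log_div ha.ne' hb.ne']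
  refine (Real.log_le_sub_one_of_pos (by positivity)).trans ?_
  rw [sub_le_iff_le_add, div_le_iff₀ hb]
  linarith

theorem core {k N T : ℕ} (e : Fin (k + 1) → ℤ) {s E ρ : ℝ} (hT : 3 ≤ T) (hN : T ≤ N) (s0 : 0 ≤ s)
    (r0 : 0 ≤ ρ) (r1 : ρ ≤ 1) (he : ∀ i, 2 * |(e i : ℝ)| ≤ ρ * T)
    (hA : ∀ y ≤ N, |∑ n ∈ Icc 1 y, ∏ i, Λ (fv (1, e i) n) - s * y| ≤ E) :
    |(((Icc 1 N).filter fun n : ℕ => ∀ i, (fv (1, e i) n).Prime).card : ℝ) -
      s * ∫ t in (2 : ℝ)..N, 1 / Real.log t ^ (k + 1)| ≤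
      T + N * ((k + 1) * ρ * (2 * Real.log N) ^ (k + 1)) +
        (2 * Real.log N) ^ k * ((k + 1) * (2 * (2 * √N) * (2 * Real.log N))) + 2 * E +
        s * (T * 2 ^ (k + 1) + 1) := by
  have T3 : (3 : ℝ) ≤ T := by exact_mod_cast hT
  have TN : (T : ℝ) ≤ N := by exact_mod_cast hN
  set L := Real.log N with hL
  have L1 : 1 ≤ L := one_le (T3.trans TN)
  have g1 : ∀ x : ℝ, 0 < x → x ≤ 2 * N → Real.log x ≤ 2 * L := fun x h0 h => by
    refine (Real.log_le_log h0 (h.trans (by nlinarith : _ ≤ (N : ℝ) ^ 2))).trans ?_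
    rw [Real.log_pow]
    exact le_rfl
  have g2 : ∀ n ∈ Ioc T N, ∀ i, (n : ℝ) ≤ fv (1, e i) n + |(e i : ℝ)| ∧
      (fv (1, e i) n : ℝ) ≤ n + |(e i : ℝ)| ∧ (T : ℝ) ≤ n ∧ (n : ℝ) ≤ N ∧
      (T : ℝ) / 2 ≤ fv (1, e i) n ∧ (fv (1, e i) n : ℝ) ≤ 2 * N := fun n hn i => by
    have a1 := fv_ge (1, e i) n
    have a2 := fv_le (1, e i) n
    have a3 : (T : ℝ) ≤ n := by exact_mod_cast (mem_Ioc.1 hn).1.le
    have a4 : (n : ℝ) ≤ N := by exact_mod_cast (mem_Ioc.1 hn).2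
    have a5 := neg_abs_le (e i : ℝ)
    have a6 := (he i).trans (mul_le_of_le_one_left (by linarith) r1)
    simp only [Nat.cast_one, one_mul] at a1 a2
    exact ⟨by linarith, a2, a3, a4, by linarith, by linarith⟩
  have p : ∀ n ∈ Ioc T N, |(if ∀ i, (fv (1, e i) n).Prime then (1 : ℝ) else 0) -
      (∏ i, Λ (fv (1, e i) n)) * (1 / Real.log n ^ (k + 1))| ≤
      (k + 1) * ρ * (2 * L) ^ (k + 1) + (2 * L) ^ k * ∑ i, np (fv (1, e i) n) := fun n hn => by
    obtain ⟨-, -, a3, a4, -⟩ := g2 n hn 0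
    have l1 := one_le (T3.trans a3)
    have l2 : 1 ≤ Real.log n ^ (k + 1) := one_le_pow₀ l1
    have q := CNK3.point (m := fun i => fv (1, e i) n) (t := fun _ => Real.log n) (L := L) (ρ := ρ)
      (by linarith) r0 (fun _ => by linarith) (fun _ => g1 _ (by linarith) (by linarith))
      (fun i => g1 _ (by linarith [(g2 n hn i).2.2.2.2.1]) (g2 n hn i).2.2.2.2.2) fun i => by
        obtain ⟨b1, b2, -, -, b5, -⟩ := g2 n hn i
        refine le_trans (abs_sub_le_iff.2 ⟨logd (by linarith) (by linarith) b1 ?_,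
          logd (by linarith) (by linarith) b2 ?_⟩) (le_mul_of_one_le_right r0 L1)
        · linarith [he i, mul_le_mul_of_nonneg_left b5 r0]
        · linarith [he i, mul_le_mul_of_nonneg_left a3 r0, abs_nonneg (e i : ℝ)]
    rw [prod_const, card_univ, Fintype.card_fin] at q
    generalize (∏ i, Λ (fv (1, e i) n)) = g at *
    have c : (if ∀ i, (fv (1, e i) n).Prime then (1 : ℝ) else 0) ≤ 1 := by
      split_ifs <;> norm_num
    generalize (if ∀ i, (fv (1, e i) n).Prime then (1 : ℝ) else 0) = χ at *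
    rw [show χ - g * (1 / Real.log n ^ (k + 1)) =
      (Real.log n ^ (k + 1) * χ - g) / Real.log n ^ (k + 1) by field_simp, abs_div,
      abs_of_nonneg (zero_le_one.trans l2)]
    exact (div_le_self (abs_nonneg _) l2).trans (q.trans (add_le_add
      (mul_le_of_le_one_right (by positivity) c) le_rfl))
  have p1 : ∀ i, ∑ n ∈ Ioc T N, np (fv (1, e i) n) ≤ 2 * (2 * √N) * (2 * L) := fun i => by
    have z : ∀ n ∈ Ioc T N, 0 < fv (1, e i) n := fun n hn =>
      Nat.cast_pos.1 (lt_of_lt_of_le (by linarith) (g2 n hn i).2.2.2.2.1)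
    refine (SG.sum_np_le _ (fun n => fv (1, e i) n) (2 * N) (by omega)
      (fun u hu v _ h => fv_inj (x := (1, e i)) le_rfl (z u hu) h) fun n hn =>
      mem_Ioc.2 ⟨z n hn, by exact_mod_cast (g2 n hn i).2.2.2.2.2⟩).trans ?_
    push_cast
    refine mul_le_mul (mul_le_mul_of_nonneg_left ?_ zero_le_two) (g1 _ (by linarith) le_rfl)
      (Real.log_nonneg (by linarith)) (by positivity)
    rw [Real.sqrt_le_iff, mul_pow, Real.sq_sqrt (by linarith)]
    exact ⟨by positivity, by linarith⟩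
  have w := (abs_sum_le_sum_abs _ _).trans (sum_le_sum p)
  rw [sum_sub_distrib, sum_add_distrib, sum_const, ← mul_sum, sum_comm, nsmul_eq_mul] at w
  have w1 : ((Ioc T N).card : ℝ) * ((k + 1) * ρ * (2 * L) ^ (k + 1)) ≤
      N * ((k + 1) * ρ * (2 * L) ^ (k + 1)) := by
    gcongr
    simp
  have w2 : (2 * L) ^ k * ∑ i, ∑ n ∈ Ioc T N, np (fv (1, e i) n) ≤
      (2 * L) ^ k * ((k + 1) * (2 * (2 * √N) * (2 * L))) := by
    gcongr
    simpa using sum_le_card_nsmul univ _ _ fun i _ => p1 i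
  have w3 := abel2 (fun n => ∏ i, Λ (fv (1, e i) n) - s) (fun n => 1 / Real.log n ^ (k + 1))
    (E := E) (fun n hn => anti _ (show (2 : ℝ) ≤ n by exact_mod_cast (by omega : 2 ≤ n))
      (show (2 : ℝ) ≤ (n + 1 : ℕ) by exact_mod_cast (by omega : 2 ≤ n + 1)) (by simp))
    (fun y hy => by simpa [mul_comm s] using hA y hy) hN (by positivity) (by positivity)
    ((div_le_one (pow_pos (one_pos.trans_le (one_le T3)) _)).2 (one_le_pow₀ (one_le T3)))
  simp only [sub_mul, sum_sub_distrib, ← mul_sum] at w3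
  have w4 := mul_le_mul_of_nonneg_left (cmp (k + 1) hT hN) s0
  rw [← abs_of_nonneg s0, ← abs_mul, abs_of_nonneg s0, mul_sub] at w4
  have w5 : ∑ n ∈ Ioc 0 T, (if ∀ i, (fv (1, e i) n).Prime then (1 : ℝ) else 0) ≤ T :=
    (sum_le_card_nsmul _ _ 1 fun n _ => by split_ifs <;> norm_num).trans (by simp)
  have w6 : 0 ≤ ∑ n ∈ Ioc 0 T, (if ∀ i, (fv (1, e i) n).Prime then (1 : ℝ) else 0) :=
    sum_nonneg fun n _ => by split_ifs <;> norm_num
  rw [← sum_boole, show Icc 1 N = Ioc 0 N from rfl, ← sum_Ioc_consecutive _ (Nat.zero_le T) hN]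
  have a := abs_le.1 w
  have a3 := abs_le.1 w3
  have a4 := abs_le.1 w4
  rw [abs_le]
  constructor <;> linarith [a.1, a.2, a3.1, a3.2, a4.1, a4.2]

end CNT4

theorem cnt4 : CNT4Stmt := by
  intro ε hε k K
  obtain ⟨A, hA⟩ : ∃ A : ℝ, A = (k + 1) * 2 ^ (k + 3) := ⟨_, rfl⟩
  have k0 : (0 : ℝ) ≤ k := k.cast_nonneg
  have A1 : 2 ^ (k + 3) ≤ A := hA ▸ le_mul_of_one_le_left (by positivity) (by linarith)
  have A8 : 8 ≤ A :=
    le_trans (by rw [pow_add]; linarith [one_le_pow₀ (n := k) (one_le_two (α := ℝ))]) A1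
  obtain ⟨x₀, hx₀⟩ := eventually_atTop.1 ((ev_log A).and ((eventually_ge_atTop (1 : ℝ)).and
    ((ev_log_pow hε (2 * (K + k) + 7) 1).and ((ev_log_pow one_half_pos (K + k + 3) 1).and
      (ev_log_pow one_pos (K + k + 4) 3)))))
  refine ⟨K + 1, x₀, fun N d s hN s0 s1 hd h => ?_⟩
  obtain ⟨l1, N1, l2, l3, l4⟩ := hx₀ N hN
  rw [Real.rpow_one] at l4
  rw [one_mul, ← Real.sqrt_eq_rpow] at l3
  rw [one_mul] at l2
  have e : ∀ n, fv (1, 0) n = n := fun n => by simp [fv]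
  have e' : ∀ (n : ℕ) i, fv (1, d i) n = ((n : ℤ) + d i).toNat := fun n i => by simp [fv]
  set L := Real.log N with hL
  have L1 : 1 ≤ L := by linarith
  have L0 : 0 < L := by linarith
  have N0 : (0 : ℝ) < N := by linarith
  have t0 : 3 ≤ N / L ^ (K + k + 4) := (le_div_iff₀ (by positivity)).2 l4
  have t1 := Nat.le_ceil (N / L ^ (K + k + 4))
  have t2 : (⌈N / L ^ (K + k + 4)⌉₊ : ℝ) ≤ 2 * (N / L ^ (K + k + 4)) := by
    linarith [Nat.ceil_lt_add_one (zero_le_three.trans t0)]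
  have t3 : ⌈N / L ^ (K + k + 4)⌉₊ ≤ N :=
    Nat.ceil_le.2 (div_le_self N0.le (one_le_pow₀ L1))
  generalize ⌈N / L ^ (K + k + 4)⌉₊ = T at *
  have D1 : (N : ℝ) ^ (1 - ε) ≤ N / L ^ (2 * (K + k) + 7) := by
    rw [Real.rpow_sub N0, Real.rpow_one]
    gcongr
  have c := CNT4.core (N := N) (T := T) (Fin.cons 0 d) (s := s) (E := N / L ^ (K + 1))
    (ρ := 2 / L ^ (K + k + 3)) (by exact_mod_cast t0.trans t1) t3 s0 (by positivity)
    ((div_le_one (by positivity)).2 (le_trans (by linarith) (le_self_pow₀ L1 (by omega))))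
    (fun i => by
      have : |((Fin.cons 0 d : Fin (k + 1) → ℤ) i : ℝ)| ≤ N / L ^ (2 * (K + k) + 7) := by
        refine Fin.cases (by simp; positivity) (fun i => ?_) i
        simpa using (hd i).trans D1
      refine (mul_le_mul_of_nonneg_left this zero_le_two).trans (le_trans (le_of_eq ?_)
        (mul_le_mul_of_nonneg_left t1 (by positivity)))
      field_simp
      ring)
    fun y hy => by simpa only [Fin.prod_univ_succ, Fin.cons_zero, Fin.cons_succ, e, sh] using h y hy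
  simp only [Fin.forall_fin_succ, Fin.cons_zero, Fin.cons_succ, e, e'] at c
  refine c.trans ?_
  have u0 : 0 < N / L ^ (K + 1) := by positivity
  have u1 : (T : ℝ) ≤ N / L ^ (K + 1) :=
    calc _ ≤ 2 * (N / L ^ (K + k + 4)) := t2
      _ = 2 / L ^ (k + 3) * (N / L ^ (K + 1)) := by field_simp; ring
      _ ≤ _ := mul_le_of_le_one_left u0.le ((div_le_one (by positivity)).2
          (le_trans (by linarith) (le_self_pow₀ L1 (by omega))))
  have u2 : N * ((k + 1) * (2 / L ^ (K + k + 3)) * (2 * L) ^ (k + 1)) ≤ N / L ^ (K + 1) :=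
    calc _ = A / 2 / L * (N / L ^ (K + 1)) := by rw [hA]; field_simp; ring
      _ ≤ _ := mul_le_of_le_one_left u0.le ((div_le_one L0).2 (by linarith))
  have u3 : (2 * L) ^ k * ((k + 1) * (2 * (2 * √N) * (2 * L))) ≤ N / L ^ (K + 1) :=
    calc _ = A / L * (L ^ (K + k + 3) * √N / L ^ (K + 1)) := by rw [hA]; field_simp; ring
      _ ≤ 1 * (√N * √N / L ^ (K + 1)) := by
          gcongr
          exact (div_le_one L0).2 l1
      _ = _ := by rw [one_mul, Real.mul_self_sqrt N0.le]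
  have u4 : s * (T * 2 ^ (k + 1) + 1) ≤ N / L ^ (K + 1) :=
    calc _ ≤ L ^ (k + 2) * (2 * (N / L ^ (K + k + 4)) * 2 ^ (k + 1) +
          N / L ^ (K + k + 4) * 2 ^ (k + 1)) := by
          gcongr
          exact one_le_mul_of_one_le_of_one_le (by linarith) (one_le_pow₀ one_le_two)
      _ = 3 / 4 * 2 ^ (k + 3) / L * (N / L ^ (K + 1)) := by field_simp; ring
      _ ≤ _ := mul_le_of_le_one_left u0.le ((div_le_one L0).2 (by
          linarith [pow_pos (two_pos (α := ℝ)) (k + 3)]))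
  have u5 : N / L ^ K = L * (N / L ^ (K + 1)) := by field_simp; ring
  rw [u5]
  nlinarith [mul_le_mul_of_nonneg_right (A8.trans l1) u0.le]

end Pool.Agent.MP_39a890_nt.KT

end
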