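import Pool.Agent.MP_39a890_nt.kt.Spec

/-! Project KT, row CRT: averages over reduced residues are multiplicative. -/

set_option autoImplicit false

namespace Pool.Agent.MP_39a890_nt.KT

open Finset

namespace CRT

theorem per {f : ℕ → ℝ} {p : ℕ} (h : ∀ n, f (n + p) = f n) {a b : ℕ} (e : a ≡ b [MOD p]) :
    f a = f b := by
  have key : ∀ n, f (n % p) = f n := fun n => Function.Periodic.map_mod_nat h n
  rw [← key a, ← key b, e]

theorem two {a b : ℕ} (hab : a.Coprime b) (ha : 0 < a) (hb : 0 < b) {f g : ℕ → ℝ}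
    (hf : ∀ n, f (n + a) = f n) (hg : ∀ n, g (n + b) = g n) :
    ∑ c ∈ (range (a * b)).filter (fun c => c.Coprime (a * b)), f c * g c =
      (∑ c ∈ (range a).filter (fun c => c.Coprime a), f c) *
        ∑ c ∈ (range b).filter (fun c => c.Coprime b), g c := by
  rw [sum_mul_sum, ← sum_product']
  have cop : ∀ {m c d : ℕ}, c ≡ d [MOD m] → (c.Coprime m ↔ d.Coprime m) := fun h => by
    rw [Nat.Coprime, Nat.Coprime, h.gcd_eq]
  refine sum_nbij' (fun c => (c % a, c % b)) (fun q => Nat.chineseRemainder hab q.1 q.2)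
    (fun c hc => ?_) (fun q hq => ?_) (fun c hc => ?_) (fun q hq => ?_) fun c _ => ?_
  · simp only [mem_product, mem_filter, mem_range, Nat.coprime_mul_iff_right] at hc ⊢
    exact ⟨⟨Nat.mod_lt _ ha, (cop (Nat.mod_modEq c a)).2 hc.2.1⟩,
      Nat.mod_lt _ hb, (cop (Nat.mod_modEq c b)).2 hc.2.2⟩
  · simp only [mem_product, mem_filter, mem_range, Nat.coprime_mul_iff_right] at hq ⊢
    exact ⟨Nat.chineseRemainder_lt_mul hab _ _ ha.ne' hb.ne',
      (cop (Nat.chineseRemainder hab q.1 q.2).2.1).2 hq.1.2,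
      (cop (Nat.chineseRemainder hab q.1 q.2).2.2).2 hq.2.2⟩
  · simp only [mem_filter, mem_range] at hc
    refine Nat.ModEq.eq_of_lt_of_lt ((Nat.modEq_and_modEq_iff_modEq_mul hab).1
      ⟨(Nat.chineseRemainder hab _ _).2.1.trans (Nat.mod_modEq c a),
        (Nat.chineseRemainder hab _ _).2.2.trans (Nat.mod_modEq c b)⟩)
      (Nat.chineseRemainder_lt_mul hab _ _ ha.ne' hb.ne') hc.1
  · simp only [mem_product, mem_filter, mem_range] at hq
    exact Prod.ext (Eq.trans (Nat.chineseRemainder hab q.1 q.2).2.1 (Nat.mod_eq_of_lt hq.1.1))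
      (Eq.trans (Nat.chineseRemainder hab q.1 q.2).2.2 (Nat.mod_eq_of_lt hq.2.1))
  · rw [per hf (Nat.mod_modEq c a), per hg (Nat.mod_modEq c b)]

theorem prime {p : ℕ} (hp : p.Prime) : (range p).filter (fun c => c.Coprime p) = Ico 1 p := by
  ext c
  simp only [mem_filter, mem_range, mem_Ico]
  refine ⟨fun h => ⟨Nat.pos_of_ne_zero fun e => hp.ne_one (by simpa [e] using h.2), h.1⟩,
    fun h => ⟨h.2, (Nat.coprime_of_lt_prime (by omega) h.2 hp).symm⟩⟩

end CRT

theorem crt : CRTStmt := by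
  intro U f hU hf
  induction U using Finset.induction_on with
  | empty => simp
  | insert p U hp ih =>
    have h1 := hU p (mem_insert_self _ _)
    have h2 : ∀ q ∈ U, q.Prime := fun q hq => hU q (mem_insert_of_mem hq)
    have h3 : ∀ q ∈ U, ∀ n, f q (n + q) = f q n := fun q hq => hf q (mem_insert_of_mem hq)
    have h4 : p.Coprime (∏ q ∈ U, q) := Nat.Coprime.prod_right fun q hq =>
      (Nat.coprime_primes h1 (h2 q hq)).2 fun e => hp (e ▸ hq)
    simp only [prod_insert hp]
    rw [CRT.two h4 h1.pos (prod_pos fun q hq => (h2 q hq).pos) (hf p (mem_insert_self _ _))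
      (g := fun c => ∏ q ∈ U, f q c) fun n => prod_congr rfl fun q hq => CRT.per (h3 q hq)
        ((Nat.modEq_iff_dvd' (Nat.le_add_right _ _)).2
          (by simpa using dvd_prod_of_mem _ hq)).symm,
      ← ih h2 h3, Nat.totient_mul h4, Nat.totient_prime h1, CRT.prime h1, Nat.cast_mul,
      Nat.cast_pred h1.pos, mul_div_mul_comm]

end Pool.Agent.MP_39a890_nt.KT
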