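import Pool.Agent.MP_39a890_nt.kt.Spec4

/-! Project KS: the singular series of a pair. -/

set_option autoImplicit false

noncomputable section

namespace Pool.Agent.MP_39a890_nt.KT

open Finset
open Pool.Agent.MP_678834_nt

theorem sg1_root (d : ℤ) {p : ℕ} (hp : p.Prime) :
    rootCount (sh fun _ : Fin 1 => d) p = if (p : ℤ) ∣ d then 1 else 2 := by
  have hp' : Prime (p : ℤ) := Nat.prime_iff_prime_int.1 hp
  have hp0 : (0 : ℤ) < p := by exact_mod_cast hp.pos
  have h0 : ∀ n : ℕ, n < p → ((p : ℤ) ∣ n ↔ n = 0) := fun n hn =>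
    ⟨fun h => Nat.eq_zero_of_dvd_of_lt (Int.natCast_dvd_natCast.1 h) hn, fun h => by simp [h]⟩
  have h1 : rootCount (sh fun _ : Fin 1 => d) p =
      ((range p).filter fun n : ℕ => n = 0 ∨ (p : ℤ) ∣ n + d).card := by
    unfold rootCount
    congr 1
    refine filter_congr fun n hn => ?_
    rw [Fin.prod_univ_one, hp'.dvd_mul, h0 n (mem_range.1 hn)]
    simp [sh]
  rw [h1]
  split_ifs with h
  · rw [card_eq_one]
    refine ⟨0, ?_⟩
    ext n
    simp only [mem_filter, mem_range, mem_singleton]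
    constructor
    · rintro ⟨hn, h2 | h2⟩
      · exact h2
      · exact (h0 n hn).1 ((dvd_add_left h).1 h2)
    · rintro rfl
      exact ⟨hp.pos, Or.inl rfl⟩
  · obtain ⟨r, hr⟩ := Int.eq_ofNat_of_zero_le (Int.emod_nonneg (-d) hp0.ne')
    have hr1 : r < p := by
      have := Int.emod_lt_of_pos (-d) hp0
      omega
    have hr2 : (p : ℤ) ∣ r + d := by
      have := Int.emod_add_mul_ediv (-d) p
      exact ⟨-(-d / p), by rw [← hr]; linarith⟩
    rw [card_eq_two]
    refine ⟨0, r, ?_, ?_⟩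
    · rintro rfl
      exact h (by simpa using hr2)
    · ext n
      simp only [mem_filter, mem_range, mem_insert, mem_singleton]
      constructor
      · rintro ⟨hn, h2 | h2⟩
        · exact Or.inl h2
        · have h3 : (p : ℤ) ∣ (n : ℤ) - r := by
            have := dvd_sub h2 hr2
            rwa [add_sub_add_right_eq_sub] at this
          have h4 := Int.eq_zero_of_abs_lt_dvd h3 (by rw [abs_lt]; constructor <;> omega)
          omega
      · rintro (rfl | rfl)
        · exact ⟨hp.pos, Or.inl rfl⟩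
        · exact ⟨hr1, Or.inr hr2⟩

theorem sg1_twin : HasProd (fun p : Nat.Primes =>
    if 2 < (p : ℕ) then 1 - 1 / (((p : ℕ) : ℝ) - 1) ^ 2 else 1) twinConst := by
  have h1 : Summable fun n : ℕ => -(1 / ((n : ℝ) - 1) ^ 2) := by
    refine Summable.neg ?_
    rw [← summable_nat_add_iff 1]
    simp
  have h2 : Multipliable fun p : {p : ℕ // p.Prime ∧ 2 < p} =>
      1 - 1 / (((p.1 : ℕ) : ℝ) - 1) ^ 2 := by
    simpa only [sub_eq_add_neg, Function.comp_def] using
      Real.multipliable_one_add_of_summable (h1.subtype fun p : ℕ => p.Prime ∧ 2 < p)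
  let ι : {p : ℕ // p.Prime ∧ 2 < p} → Nat.Primes := fun p => ⟨p.1, p.2.1⟩
  have hι : Function.Injective ι := fun a b h => Subtype.ext (congrArg (fun x : Nat.Primes => x.1) h)
  refine (hι.hasProd_iff fun x hx => if_neg fun h => hx ⟨⟨x.1, x.2, h⟩, rfl⟩).1 ?_
  have h3 : ((fun p : Nat.Primes =>
      if 2 < (p : ℕ) then 1 - 1 / (((p : ℕ) : ℝ) - 1) ^ 2 else 1) ∘ ι) =
      fun p : {p : ℕ // p.Prime ∧ 2 < p} => 1 - 1 / (((p.1 : ℕ) : ℝ) - 1) ^ 2 :=
    funext fun p => if_pos p.2.2
  rw [h3]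
  exact h2.hasProd

theorem sg1_fin {m : ℕ} (hm : m ≠ 0) : HasProd (fun p : Nat.Primes =>
    if 2 < (p : ℕ) then (if (p : ℕ) ∣ m then (((p : ℕ) : ℝ) - 1) / (((p : ℕ) : ℝ) - 2) else 1)
      else 2)
    (2 * ∏ p ∈ m.primeFactors.filter (fun p : ℕ => 2 < p), (((p : ℝ) - 1) / ((p : ℝ) - 2))) := by
  let h : ℕ → ℝ := fun p => if 2 < p then (if p ∣ m then ((p : ℝ) - 1) / ((p : ℝ) - 2) else 1) else 2
  let s : Finset ℕ := insert 2 (m.primeFactors.filter fun p : ℕ => 2 < p)
  have hs : ∀ p ∈ s, p.Prime := fun p hp => by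
    rcases mem_insert.1 hp with rfl | hp
    · exact Nat.prime_two
    · exact Nat.prime_of_mem_primeFactors (mem_filter.1 hp).1
  have h1 : ∏ p ∈ s.subtype Nat.Prime, h p =
      2 * ∏ p ∈ m.primeFactors.filter (fun p : ℕ => 2 < p), (((p : ℝ) - 1) / ((p : ℝ) - 2)) := by
    rw [prod_subtype_of_mem h hs, prod_insert (by simp)]
    congr 1
    refine prod_congr rfl fun p hp => ?_
    obtain ⟨h2, h3⟩ := mem_filter.1 hp
    simp only [h, if_pos h3, if_pos (Nat.dvd_of_mem_primeFactors h2)]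
  rw [← h1]
  have h4 : HasProd (fun p : Subtype Nat.Prime => h p) (∏ p ∈ s.subtype Nat.Prime, h p) := by
    refine hasProd_prod_of_ne_finset_one fun p hp => ?_
    rw [mem_subtype, mem_insert, not_or, mem_filter, Nat.mem_primeFactors] at hp
    have h2 : 2 < p.1 := lt_of_le_of_ne p.2.two_le (Ne.symm hp.1)
    simp only [h]
    rw [if_pos h2, if_neg fun h3 => hp.2 ⟨⟨p.2, h3, hm⟩, h2⟩]
  exact h4

theorem sg1 : SG1Stmt := by
  intro d hd
  have h2 : ((2 : ℕ) : ℤ) ∣ d ↔ Even d := by
    rw [even_iff_two_dvd]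
    rfl
  constructor
  · unfold singSeries sing
    split_ifs with he
    · rw [Int.natAbs_even] at he
      have h3 := (sg1_twin.mul (sg1_fin (Int.natAbs_ne_zero.2 hd))).tprod_eq
      rw [mul_comm 2, mul_assoc, ← h3]
      refine tprod_congr fun p => ?_
      rw [sg1_root d p.2]
      rcases p.2.two_le.eq_or_lt with h4 | h4
      · rw [← h4, if_pos (h2.2 he)]
        norm_num
      · have h5 : (2 : ℝ) < ((p : ℕ) : ℝ) := by exact_mod_cast h4
        have h6 : ((p : ℕ) : ℝ) - 1 ≠ 0 := by linarith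
        have h7 : ((p : ℕ) : ℝ) - 2 ≠ 0 := by linarith
        have h8 : ((p : ℕ) : ℝ) ≠ 0 := by linarith
        rw [if_pos h4, if_pos h4]
        by_cases h9 : ((p : ℕ) : ℤ) ∣ d
        · rw [if_pos h9, if_pos (Int.natCast_dvd.1 h9)]
          push_cast
          field_simp
          ring
        · rw [if_neg h9, if_neg fun h => h9 (Int.natCast_dvd.2 h)]
          push_cast
          field_simp
          ring
    · rw [Int.natAbs_even] at he
      refine tprod_of_exists_eq_zero ⟨⟨2, Nat.prime_two⟩, ?_⟩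
      rw [sg1_root d Nat.prime_two, if_neg fun h => he (h2.1 h)]
      norm_num
  · constructor
    · intro h
      have h3 := h 2 Nat.prime_two
      rw [sg1_root d Nat.prime_two] at h3
      by_contra he
      rw [if_neg fun h => he (h2.1 h)] at h3
      exact lt_irrefl _ h3
    · intro he p hp
      rw [sg1_root d hp]
      split_ifs with h3
      · exact hp.one_lt
      · refine lt_of_le_of_ne hp.two_le ?_
        rintro rfl
        exact h3 (h2.2 he)

end Pool.Agent.MP_39a890_nt.KT
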