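import Pool.Agent.MP_39a890_nt.kt.Top4
import Pool.Agent.MP_39a890_nt.kt.SG1

/-! Project KS: the theorem on tuples contains the earlier theorem on pairs word for word. -/

set_option autoImplicit false

namespace Pool.Agent.MP_39a890_nt.KT

open Pool.Agent.MP_678834_nt

theorem contain : ∀ ε : ℝ, 0 < ε → ∀ A : ℕ, ∃ C x₀ : ℝ, ∀ (x : ℝ) (h₀ H : ℕ), x₀ ≤ x →
    x ^ (1 / 9 + ε) ≤ (H : ℝ) → ((h₀ + H : ℕ) : ℝ) ≤ x ^ (1 - ε) →
    ∃ Ex : Finset ℕ, (Ex.card : ℝ) ≤ C * H / Real.log x ^ A ∧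
      ∀ d ∈ Finset.Ioc h₀ (h₀ + H), d ∉ Ex →
        |(((Finset.Icc 1 ⌊x⌋₊).filter fun p : ℕ => p.Prime ∧ (p - d).Prime).card : ℝ) -
            sing d * ∫ t in (2 : ℝ)..x, 1 / Real.log t ^ 2| ≤ x / Real.log x ^ A ∧
        (Even d →
          |(((Finset.Icc 1 ⌊x⌋₊).filter fun p : ℕ => p.Prime ∧ (p - d).Prime).card : ℝ) *
            Real.log x ^ 2 / (sing d * x) - 1| ≤ C / Real.log x) :=
  pairs fin5 sg1

end Pool.Agent.MP_39a890_nt.KT
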