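import Pool.Agent.MP_39a890_nt.kt.Spec

/-! Project KT: a positive integer divisible by every prime that is not generic. -/

set_option autoImplicit false

noncomputable section

namespace Pool.Agent.MP_39a890_nt.KT

open Finset

namespace DEL

theorem b_ne {a : ℕ} {b : ℤ} (ha : 2 ≤ a) (h : IsCoprime (a : ℤ) b) : b ≠ 0 := by
  rintro rfl
  have := Int.isUnit_iff.1 (isCoprime_zero_right.1 h)
  omega

theorem det_ne {a c : ℕ} {b d : ℤ} (ha : 2 ≤ a) (h : IsCoprime (a : ℤ) b)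
    (h' : IsCoprime (c : ℤ) d) (e : (a : ℤ) * d - c * b = 0) : (a, b) = (c, d) := by
  have e' : (a : ℤ) * d = c * b := by linarith
  have h1 : (a : ℤ) ∣ c := h.dvd_of_dvd_mul_right ⟨d, e'.symm⟩
  have h2 : (c : ℤ) ∣ a := h'.dvd_of_dvd_mul_right ⟨b, e'⟩
  have h3 : a = c := Nat.dvd_antisymm (Int.natCast_dvd_natCast.1 h1) (Int.natCast_dvd_natCast.1 h2)
  subst h3
  have h4 : d = b := mul_left_cancel₀ (by omega : (a : ℤ) ≠ 0) e'
  rw [h4]

theorem ab_le {a Z : ℕ} {b : ℤ} (ha : a ≤ Z) (hb : |b| ≤ Z) : ((a : ℤ) * b).natAbs ≤ Z ^ 2 := by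
  have h : b.natAbs ≤ Z := by
    rw [← Int.natCast_natAbs] at hb
    exact_mod_cast hb
  rw [Int.natAbs_mul, Int.natAbs_natCast, sq]
  exact Nat.mul_le_mul ha h

end DEL

theorem del : DELStmt := by
  intro k Z x hx h
  let f : Fin k → ℕ := fun i => (((x i).1 : ℤ) * (x i).2).natAbs
  let g : Fin k × Fin k → ℕ := fun e => if e.1 = e.2 then f e.1 else
    (((x e.1).1 : ℤ) * (x e.2).2 - ((x e.2).1 : ℤ) * (x e.1).2).natAbs
  have f0 : ∀ i, 0 < f i := fun i => Int.natAbs_pos.2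
    (mul_ne_zero (by have := (h i).1; omega) (DEL.b_ne (h i).1 (h i).2.2.2))
  have f1 : ∀ i, f i ≤ 2 * Z ^ 2 := fun i =>
    (DEL.ab_le (h i).2.1 (h i).2.2.1).trans (by omega)
  have g0 : ∀ e, 0 < g e := fun e => by
    simp only [g]
    split_ifs with c
    · exact f0 _
    · exact Int.natAbs_pos.2 fun z => c (hx (DEL.det_ne (h e.1).1 (h e.1).2.2.2 (h e.2).2.2.2 z))
  have g1 : ∀ e, g e ≤ 2 * Z ^ 2 := fun e => by
    simp only [g]
    split_ifs with c
    · exact f1 _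
    · refine (Int.natAbs_sub_le _ _).trans ?_
      have a1 := DEL.ab_le (h e.1).2.1 (h e.2).2.2.1
      have a2 := DEL.ab_le (h e.2).2.1 (h e.1).2.2.1
      omega
  refine ⟨(∏ i, f i) * ∏ e, g e, Nat.mul_pos (prod_pos fun i _ => f0 i) (prod_pos fun e _ => g0 e),
    ?_, fun p _ hp => ⟨fun i => ?_, fun i j hij hd => ?_⟩⟩
  · rw [pow_add]
    refine Nat.mul_le_mul ((prod_le_pow_card _ _ _ fun i _ => f1 i).trans (by simp))
      ((prod_le_pow_card _ _ _ fun e _ => g1 e).trans (by simp [sq]))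
  · have a : ¬ p ∣ f i := fun c => hp ((c.trans (dvd_prod_of_mem f (mem_univ i))).mul_right _)
    exact ⟨fun c => a (Int.natCast_dvd.1 ((Int.natCast_dvd_natCast.2 c).mul_right _)),
      fun c => a (Int.natCast_dvd.1 (c.mul_left _))⟩
  · refine hp ((Dvd.dvd.trans ?_ (dvd_prod_of_mem g (mem_univ (i, j)))).mul_left _)
    simp only [g, if_neg hij]
    exact Int.natCast_dvd.1 hd

end Pool.Agent.MP_39a890_nt.KT
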