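import Pool.Agent.MP_39a890_nt.kt.Spec3

/-! Divisor sums over boxes of coefficients. -/

set_option autoImplicit false

noncomputable section

namespace Pool.Agent.MP_39a890_nt.KT

open Finset

namespace DV1

theorem fib {α β : Type} [DecidableEq β] {s : Finset α} {t : Finset β} {φ : α → β}
    (hφ : ∀ a ∈ s, φ a ∈ t) {f w : β → ℝ} (hf : ∀ b, 0 ≤ f b)
    (hw : ∀ b ∈ t, ((s.filter fun a => φ a = b).card : ℝ) ≤ w b) :
    ∑ a ∈ s, f (φ a) ≤ ∑ b ∈ t, w b * f b := by
  rw [← sum_fiberwise_of_maps_to hφ]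
  refine sum_le_sum fun b hb => ?_
  rw [sum_congr rfl (g := fun _ => f b) fun a ha => by rw [(mem_filter.1 ha).2], sum_const,
    nsmul_eq_mul]
  exact mul_le_mul_of_nonneg_right (hw b hb) (hf b)

theorem nn (g : ℤ) : 0 ≤ dv g := Nat.cast_nonneg _

theorem isum {m : ℕ} (X : ℕ) :
    ∑ g ∈ Icc (-(X : ℤ)) X, dv g ^ (m + 1) ≤ 2 * ∑ n ∈ Icc 1 X, (n.divisors.card : ℝ) ^ (m + 1) := by
  have h := fib (s := Icc (-(X : ℤ)) X) (t := Icc 0 X) (φ := Int.natAbs)
    (f := fun n : ℕ => (n.divisors.card : ℝ) ^ (m + 1)) (w := fun _ => 2)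
    (fun a ha => by rw [mem_Icc] at ha ⊢; omega) (fun b => by positivity) (fun b _ => by
      have : ((Icc (-(X : ℤ)) X).filter fun a => a.natAbs = b) ⊆ {(b : ℤ), -(b : ℤ)} := fun a ha => by
        have := (mem_filter.1 ha).2
        simp only [mem_insert, mem_singleton]
        omega
      exact_mod_cast (card_le_card this).trans card_le_two)
  refine h.trans (le_of_eq ?_)
  rw [← mul_sum, ← insert_Icc_add_one_left_eq_Icc (Nat.zero_le X), sum_insert (by simp)]
  simp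

theorem prod {A H : ℕ} {f : ℤ → ℝ} (hf : ∀ g, 0 ≤ f g) :
    ∑ z ∈ PP (Ioc 1 A) H, f ((z.1 : ℤ) * z.2) ≤
      ∑ g ∈ Icc (-((A * H : ℕ) : ℤ)) (A * H : ℕ), dv g * f g := by
  refine fib (φ := fun z : ℕ × ℤ => (z.1 : ℤ) * z.2) (fun z hz => ?_) hf (fun g _ => ?_)
  · simp only [PP, mem_product, mem_Ioc, mem_erase, mem_Icc] at hz
    obtain ⟨⟨a1, a2⟩, -, b1, b2⟩ := hz
    have a3 : (z.1 : ℤ) ≤ A := by exact_mod_cast a2
    have a4 : (0 : ℤ) ≤ z.1 := Int.natCast_nonneg _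
    have h0 : (0 : ℤ) ≤ H := Int.natCast_nonneg _
    rw [mem_Icc]
    push_cast
    constructor <;> nlinarith
  · unfold dv
    rw [Nat.cast_le]
    refine card_le_card_of_injOn (fun z => z.1) (fun z hz => ?_) fun z hz w hw e => ?_
    · simp only [coe_filter, PP, mem_product, mem_Ioc, mem_erase, Set.mem_ofPred_eq] at hz
      obtain ⟨⟨⟨a1, -⟩, b0, -⟩, rfl⟩ := hz
      simp only [mem_coe, Nat.mem_divisors, Int.natAbs_mul, Int.natAbs_natCast]
      exact ⟨Dvd.intro _ rfl, Nat.mul_ne_zero (by omega) (Int.natAbs_ne_zero.2 b0)⟩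
    · simp only [coe_filter, PP, mem_product, mem_Ioc, Set.mem_ofPred_eq] at hz hw
      have e' : z.1 = w.1 := e
      refine Prod.ext e' (mul_left_cancel₀ (a := (z.1 : ℤ)) ?_ ?_)
      · have := hz.1.1.1
        omega
      · rw [hz.2, e', hw.2]

theorem am {x y z : ℝ} {m : ℕ} (hx : 0 ≤ x) (hy : 0 ≤ y) (hz : 0 ≤ z) :
    x * (y * z ^ m) ≤ x ^ (m + 2) + y ^ (m + 2) + z ^ (m + 2) := by
  have key : ∀ u : ℝ, x ≤ u → y ≤ u → z ≤ u → x * (y * z ^ m) ≤ u ^ (m + 2) := fun u a b c => by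
    have := hx.trans a
    calc x * (y * z ^ m) ≤ u * (u * u ^ m) := by gcongr
      _ = _ := by ring
  have p1 := pow_nonneg hx (m + 2)
  have p2 := pow_nonneg hy (m + 2)
  have p3 := pow_nonneg hz (m + 2)
  rcases le_total x y with a | a <;> rcases le_total y z with b | b <;>
    rcases le_total x z with c | c <;>
    first
      | linarith [key x le_rfl a c]
      | linarith [key y a le_rfl b]
      | linarith [key z c b le_rfl]
      | linarith [key z (a.trans b) b le_rfl]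
      | linarith [key x le_rfl a (b.trans a)]

end DV1

open DV1 in
theorem dv1 : DV1Stmt := by
  intro m _
  obtain ⟨K, hK⟩ := Pool.Agent.MP_678834_nt.HL9.dv (m + 2)
  refine ⟨K, 36, by norm_num, fun A H hA hH => ?_⟩
  obtain ⟨S, hS⟩ : ∃ S, S = ∑ g ∈ Icc (-((2 * A * H : ℕ) : ℤ)) (2 * A * H : ℕ), dv g ^ (m + 2) :=
    ⟨_, rfl⟩
  have S1 : S ≤ 4 * ((A : ℝ) * H) * (1 + Real.log (2 * A * H)) ^ K := by
    have := hK (2 * A * H)
    push_cast at this
    rw [hS]
    refine (isum (m := m + 1) _).trans ?_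
    linarith
  have S0 : 0 ≤ S := hS ▸ sum_nonneg fun g _ => pow_nonneg (nn g) _
  have AH : (1 : ℝ) ≤ (A : ℝ) * H := by exact_mod_cast Nat.mul_pos hA hH
  have L0 : 0 ≤ (1 + Real.log (2 * A * H)) ^ K :=
    pow_nonneg (add_nonneg zero_le_one (Real.log_nonneg (by linarith))) _
  obtain ⟨J, hJ⟩ : ∃ J, J = Icc (-((A * H : ℕ) : ℤ)) (A * H : ℕ) := ⟨_, rfl⟩
  have sh : ∀ g ∈ J, ∑ g' ∈ J, dv (g - g') ^ (m + 2) ≤ S := fun g hg => by
    rw [hS, ← sum_image (f := fun h => dv h ^ (m + 2)) (g := fun g' => g - g')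
      fun a _ b _ e => sub_right_injective e]
    refine sum_le_sum_of_subset_of_nonneg (fun h hh => ?_) fun h _ _ => pow_nonneg (nn h) _
    obtain ⟨g', hg', rfl⟩ := mem_image.1 hh
    rw [hJ, mem_Icc] at hg hg'
    rw [mem_Icc, mul_assoc]
    omega
  have J1 : ∑ g ∈ J, dv g ^ (m + 2) ≤ S := by
    rw [hS]
    refine sum_le_sum_of_subset_of_nonneg (fun h hh => ?_) fun h _ _ => pow_nonneg (nn h) _
    rw [hJ, mem_Icc] at hh
    rw [mem_Icc, mul_assoc]
    omega
  have Jc : (J.card : ℝ) ≤ 3 * ((A : ℝ) * H) := by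
    have : J.card = 2 * (A * H) + 1 := by
      rw [hJ, Int.card_Icc]
      omega
    rw [this]
    push_cast
    linarith
  constructor
  · refine (prod (f := fun g => dv g ^ m) fun g => pow_nonneg (nn g) _).trans ?_
    rw [← hJ]
    refine le_trans (sum_le_sum fun g _ => ?_) (J1.trans (S1.trans ?_))
    · rw [← pow_succ']
      unfold dv
      exact_mod_cast (Nat.eq_zero_or_pos g.natAbs.divisors.card).elim (fun h => by simp [h])
        fun h => Nat.pow_le_pow_right h (by omega)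
    · gcongr
      norm_num
  · have e : ∑ z ∈ PP (Ioc 1 A) H, ∑ w ∈ PP (Ioc 1 A) H, dv (dt z w) ^ m =
        ∑ u ∈ PP (Ioc 1 A) H, ∑ v ∈ PP (Ioc 1 A) H,
          dv ((u.1 : ℤ) * u.2 - (v.1 : ℤ) * v.2) ^ m := by
      simp only [PP, sum_product, dt]
      refine sum_congr rfl fun a _ => ?_
      rw [sum_comm]
      refine Eq.trans (sum_congr rfl fun a' _ => sum_comm) ?_
      rw [sum_comm]
    rw [e]
    calc _ ≤ ∑ u ∈ PP (Ioc 1 A) H, ∑ g' ∈ J, dv g' * dv ((u.1 : ℤ) * u.2 - g') ^ m :=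
          sum_le_sum fun u _ => hJ ▸ prod (f := fun g' => dv ((u.1 : ℤ) * u.2 - g') ^ m)
            fun g => pow_nonneg (nn _) _
      _ ≤ ∑ g ∈ J, dv g * ∑ g' ∈ J, dv g' * dv (g - g') ^ m :=
          hJ ▸ prod (f := fun g => ∑ g' ∈ Icc (-((A * H : ℕ) : ℤ)) (A * H : ℕ),
            dv g' * dv (g - g') ^ m)
            fun g => sum_nonneg fun g' _ => mul_nonneg (nn _) (pow_nonneg (nn _) _)
      _ ≤ ∑ g ∈ J, ∑ g' ∈ J, (dv g ^ (m + 2) + dv g' ^ (m + 2) + dv (g - g') ^ (m + 2)) :=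
          sum_le_sum fun g _ => by
            rw [mul_sum]
            exact sum_le_sum fun g' _ => am (nn _) (nn _) (nn _)
      _ ≤ J.card * S + J.card * S + J.card * S := by
          simp only [sum_add_distrib, sum_const, nsmul_eq_mul, ← mul_sum]
          have := sum_le_card_nsmul _ _ _ sh
          rw [nsmul_eq_mul] at this
          gcongr
      _ ≤ 3 * (3 * ((A : ℝ) * H) * (4 * ((A : ℝ) * H) * (1 + Real.log (2 * A * H)) ^ K)) := by
          have : J.card * S ≤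
              3 * ((A : ℝ) * H) * (4 * ((A : ℝ) * H) * (1 + Real.log (2 * A * H)) ^ K) := by
            gcongr
          linarith
      _ = _ := by ring

end Pool.Agent.MP_39a890_nt.KT

end
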