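import Pool.Agent.MP_39a890_nt.kt.Spec3

/-! Project KT: the mean number of divisors of the discriminant. -/

set_option autoImplicit false

noncomputable section

namespace Pool.Agent.MP_39a890_nt.KT

open Finset

namespace DVA

theorem dv_nn (a : ℤ) : 0 ≤ dv a := Nat.cast_nonneg _

theorem dv_mul (a b : ℤ) : dv (a * b) ≤ dv a * dv b := by
  rw [dv, Int.natAbs_mul, Nat.divisors_mul, dv, dv]
  exact_mod_cast card_mul_le

theorem dv_prod {ι : Type} (s : Finset ι) (g : ι → ℤ) : dv (∏ i ∈ s, g i) ≤ ∏ i ∈ s, dv (g i) := by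
  classical
  induction s using Finset.induction_on with
  | empty => simp [dv]
  | insert i s hi ih =>
    rw [prod_insert hi, prod_insert hi]
    exact (dv_mul _ _).trans (mul_le_mul_of_nonneg_left ih (dv_nn _))

theorem prod_le {ι κ : Type} (s : Finset ι) (t : Finset κ) (f : ι → ℝ) (g : κ → ℝ)
    (hf : ∀ i, 0 ≤ f i) (hg : ∀ j, 0 ≤ g j) : (∏ i ∈ s, f i) * ∏ j ∈ t, g j ≤
      1 + ∑ i ∈ s, f i ^ (#s + #t + 1) + ∑ j ∈ t, g j ^ (#s + #t + 1) := by
  have a : 0 ≤ ∑ i ∈ s, f i ^ (#s + #t + 1) := sum_nonneg fun i _ => pow_nonneg (hf i) _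
  have b : 0 ≤ ∑ j ∈ t, g j ^ (#s + #t + 1) := sum_nonneg fun j _ => pow_nonneg (hg j) _
  obtain ⟨M, M0, hM⟩ : ∃ M : ℝ, 0 ≤ M ∧ M ^ (#s + #t + 1) =
      1 + ∑ i ∈ s, f i ^ (#s + #t + 1) + ∑ j ∈ t, g j ^ (#s + #t + 1) :=
    ⟨_, Real.rpow_nonneg (by linarith) _, Real.rpow_inv_natCast_pow (by linarith) (by omega)⟩
  have key : ∀ z : ℝ, z ^ (#s + #t + 1) ≤ M ^ (#s + #t + 1) → z ≤ M := fun z =>
    le_of_pow_le_pow_left₀ (by omega) M0
  have M1 : 1 ≤ M := key 1 (by rw [hM, one_pow]; linarith)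
  rw [← hM]
  calc _ ≤ M ^ #s * M ^ #t := by
        rw [← prod_const, ← prod_const]
        refine mul_le_mul (prod_le_prod (fun i _ => hf i) fun i hi => key _ ?_)
          (prod_le_prod (fun j _ => hg j) fun j hj => key _ ?_) (prod_nonneg fun j _ => hg j)
          (prod_nonneg fun _ _ => M0)
        · linarith [single_le_sum (f := fun i => f i ^ (#s + #t + 1))
            (fun i _ => pow_nonneg (hf i) _) hi]
        · linarith [single_le_sum (f := fun j => g j ^ (#s + #t + 1))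
            (fun j _ => pow_nonneg (hg j) _) hj]
    _ ≤ _ := by
        rw [← pow_add]
        exact pow_le_pow_right₀ M1 (by omega)

variable {α β : Type} [DecidableEq α] [DecidableEq β] {k : ℕ} {P : Finset α} {B : ℝ}

theorem fib (hB : (#P : ℝ) ≤ B) (B0 : 0 < B) (T : Finset (Fin k)) (v : Fin k → α)
    (S : Finset (Fin k → α)) (hS : ∀ x ∈ S, (∀ l, x l ∈ P) ∧ ∀ l ∈ T, x l = v l) :
    (#S : ℝ) ≤ B ^ k / B ^ #T := by
  have h1 := card_le_card (s := S) (t := Fintype.piFinset fun l => if l ∈ T then {v l} else P)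
    fun x hx => Fintype.mem_piFinset.2 fun l => by
      split_ifs with h
      exacts [mem_singleton.2 ((hS x hx).2 l h), (hS x hx).1 l]
  rw [Fintype.card_piFinset] at h1
  rw [le_div_iff₀ (by positivity)]
  calc (#S : ℝ) * B ^ #T ≤ (∏ l, (#(if l ∈ T then {v l} else P) : ℝ)) *
        ∏ l, if l ∈ T then B else 1 := by
        rw [prod_ite_mem, univ_inter, prod_const]
        gcongr
        exact_mod_cast h1
    _ ≤ ∏ _l : Fin k, B := by
        rw [← prod_mul_distrib]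
        refine prod_le_prod (fun l _ => by positivity) fun l _ => ?_
        split_ifs <;> simp [hB]
    _ = _ := by simp

theorem marg {γ : Type} (S : Finset γ) (t : Finset β) (π : γ → β) (F : β → ℝ) {c : ℝ}
    (h : ∀ x ∈ S, π x ∈ t) (hF : ∀ y, 0 ≤ F y) (hc : ∀ y, (#{x ∈ S | π x = y} : ℝ) ≤ c) :
    ∑ x ∈ S, F (π x) ≤ c * ∑ y ∈ t, F y := by
  rw [← sum_fiberwise_of_maps_to h, mul_sum]
  refine sum_le_sum fun y _ => ?_
  rw [sum_congr rfl fun x hx => congrArg F (mem_filter.1 hx).2, sum_const, nsmul_eq_mul]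
  exact mul_le_mul_of_nonneg_right (hc y) (hF y)

theorem marg1 (hB : (#P : ℝ) ≤ B) (B0 : 0 < B) (i : Fin k) (f : α → ℝ) (hf : ∀ z, 0 ≤ f z) :
    ∑ x ∈ Fintype.piFinset fun _ : Fin k => P, f (x i) ≤ B ^ k / B ^ 1 * ∑ z ∈ P, f z :=
  marg _ P (fun x => x i) f (fun _ hx => Fintype.mem_piFinset.1 hx i) hf fun z =>
    fib hB B0 {i} (fun _ => z) _ fun x hx => ⟨Fintype.mem_piFinset.1 (mem_filter.1 hx).1,
      fun _ hl => mem_singleton.1 hl ▸ (mem_filter.1 hx).2⟩

theorem marg2 (hB : (#P : ℝ) ≤ B) (B0 : 0 < B) {i j : Fin k} (hij : i ≠ j) (f : α → α → ℝ)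
    (hf : ∀ z w, 0 ≤ f z w) : ∑ x ∈ Fintype.piFinset fun _ : Fin k => P, f (x i) (x j) ≤
      B ^ k / B ^ 2 * ∑ z ∈ P, ∑ w ∈ P, f z w := by
  rw [← sum_product', ← card_pair hij]
  refine marg _ (P ×ˢ P) (fun x => (x i, x j)) (fun y => f y.1 y.2) (fun _ hx => mem_product.2
    ⟨Fintype.mem_piFinset.1 hx i, Fintype.mem_piFinset.1 hx j⟩) (fun _ => hf _ _) fun y =>
    fib hB B0 {i, j} (fun l => if l = i then y.1 else y.2) _ fun x hx =>
      ⟨Fintype.mem_piFinset.1 (mem_filter.1 hx).1, fun l hl => ?_⟩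
  obtain ⟨-, rfl⟩ := mem_filter.1 hx
  rcases mem_insert.1 hl with rfl | hl
  · rw [if_pos rfl]
  · rw [mem_singleton.1 hl, if_neg hij.symm]

end DVA

open DVA in
theorem dva : DV1Stmt → DVAStmt := by
  intro h k
  obtain ⟨K, C, C0, hC⟩ := h (#(univ : Finset (Fin k)) + #(univ : Finset (Fin k)).offDiag + 1)
    (by omega)
  refine ⟨K, 2 ^ k * (1 + k * C + #(univ : Finset (Fin k)).offDiag * C), by positivity,
    fun A H hA hH => ?_⟩
  obtain ⟨c1, c2⟩ := hC A H hA hH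
  have a1 : (1 : ℝ) ≤ A * H := by exact_mod_cast Nat.mul_pos hA hH
  have l1 : 1 ≤ (1 + Real.log (2 * A * H)) ^ K :=
    one_le_pow₀ (le_add_of_nonneg_right (Real.log_nonneg (by linarith)))
  have hB : (#(PP (Ioc 1 A) H) : ℝ) ≤ 2 * (A * H) := by
    rw [PP, card_product, card_erase_of_mem (by simp), Nat.card_Ioc, Int.card_Icc]
    have : (A - 1) * (((H : ℤ) + 1 - -H).toNat - 1) ≤ A * (2 * H) :=
      Nat.mul_le_mul (by omega) (by omega)
    exact_mod_cast this.trans_eq (by ring)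
  generalize (1 + Real.log (2 * A * H)) ^ K = L at c1 c2 l1 ⊢
  generalize (A : ℝ) * H = X at c1 c2 a1 hB ⊢
  have B0 : 0 < 2 * X := by linarith
  refine (sum_le_sum fun x _ => ((dv_mul _ _).trans (mul_le_mul (dv_prod _ _) (dv_prod _ _)
    (dv_nn _) (prod_nonneg fun _ _ => dv_nn _))).trans (prod_le _ _ _ _ (fun _ => dv_nn _)
      fun _ => dv_nn _)).trans ?_
  generalize #(univ : Finset (Fin k)) + #(univ : Finset (Fin k)).offDiag + 1 = m at c1 c2 ⊢
  rw [sum_add_distrib, sum_add_distrib, sum_comm, sum_comm (t := univ.offDiag), sum_const,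
    nsmul_eq_mul, mul_one]
  have e0 := fib hB B0 ∅ (fun _ => (0, 0)) (Fintype.piFinset fun _ : Fin k => PP (Ioc 1 A) H)
    fun x hx => ⟨Fintype.mem_piFinset.1 hx, by simp⟩
  rw [card_empty, pow_zero, div_one] at e0
  have e1 := sum_le_card_nsmul univ _ ((2 * X) ^ k * (C * L)) fun (i : Fin k) _ =>
    (marg1 hB B0 i (fun z => dv ((z.1 : ℤ) * z.2) ^ m) fun _ => pow_nonneg (dv_nn _) _).trans
      ((mul_le_mul_of_nonneg_left c1 (by positivity)).trans (by
        rw [div_mul_eq_mul_div, div_le_iff₀ (by positivity)]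
        nlinarith [show 0 ≤ (2 * X) ^ k * (C * X * L) by positivity]))
  have e2 := sum_le_card_nsmul univ.offDiag _ ((2 * X) ^ k * (C * L))
    fun (ij : Fin k × Fin k) hij => (marg2 hB B0 (mem_offDiag.1 hij).2.2
      (fun z w => dv (dt z w) ^ m) fun _ _ => pow_nonneg (dv_nn _) _).trans
      ((mul_le_mul_of_nonneg_left c2 (by positivity)).trans (by
        rw [div_mul_eq_mul_div, div_le_iff₀ (by positivity)]
        nlinarith [show 0 ≤ (2 * X) ^ k * (C * X ^ 2 * L) by positivity]))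
  rw [card_univ, Fintype.card_fin, nsmul_eq_mul] at e1
  rw [nsmul_eq_mul] at e2
  have e3 := le_mul_of_one_le_right (show 0 ≤ (2 * X) ^ k by positivity) l1
  refine (add_le_add (add_le_add (e0.trans e3) e1) e2).trans_eq ?_
  ring

end Pool.Agent.MP_39a890_nt.KT
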