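import Mathlib.Topology.Algebra.InfiniteSum.Real
import Mathlib.Data.Nat.Prime.Basic
import Mathlib.Algebra.BigOperators.Fin

/-! The singular series of the system of linear forms `n, a₁ n + b₁, …, a_k n + b_k`. -/

open Finset

namespace Pool.Agent.MP_39a890_nt.KT

/-- The number of residues `n` modulo `p` for which `p` divides `n ∏ (a_i n + b_i)`, where
`x i = (a_i, b_i)`. -/
def rootCount {k : ℕ} (x : Fin k → ℕ × ℤ) (p : ℕ) : ℕ :=
  ((range p).filter fun n : ℕ => (p : ℤ) ∣ n * ∏ i, (((x i).1 : ℤ) * n + (x i).2)).card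

/-- The Hardy-Littlewood singular series of the `k + 1` forms `n, a_i n + b_i`. -/
noncomputable def singSeries {k : ℕ} (x : Fin k → ℕ × ℤ) : ℝ :=
  ∏' p : Nat.Primes, (1 - (rootCount x p : ℝ) / (p : ℕ)) / (1 - 1 / ((p : ℕ) : ℝ)) ^ (k + 1)

end Pool.Agent.MP_39a890_nt.KT
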