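import Pool.Agent.MP_39a890_nt.kt.Spec

/-! Project KT, row EB: the bound for the weighted Euler product. -/

set_option autoImplicit false

noncomputable section

namespace Pool.Agent.MP_39a890_nt.KT

open Finset
open Pool.Agent.MP_678834_nt Pool.Agent.MP_678834_nt.HL9 Pool.Agent.MP_39a890_nt.MS

namespace EB

theorem gen {c u x : ℝ} (hc : 0 ≤ c) (hx : 2 ≤ x) (h : u ≤ c / (x - 1) ^ 2) :
    √x * u ≤ 4 * c * x ^ (-(3 / 2) : ℝ) := by
  have h0 : 0 < √x := Real.sqrt_pos.2 (by linarith)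
  have h1 : √x * √x = x := Real.mul_self_sqrt (by linarith)
  have h2 : 0 < x - 1 := by linarith
  rw [Sng.pow32 (by linarith), mul_one_div, le_div_iff₀ (by positivity)]
  rw [le_div_iff₀ (by positivity)] at h
  have h3 : √x * u * (x * √x) = u * x ^ 2 := by linear_combination (u * x) * h1
  rw [h3]
  by_cases h4 : 0 ≤ u
  · have : x ^ 2 ≤ 4 * (x - 1) ^ 2 := by nlinarith
    nlinarith [mul_le_mul_of_nonneg_left this h4]
  · nlinarith [mul_nonneg (neg_nonneg.2 (not_le.1 h4).le) (sq_nonneg x)]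

theorem div {c u x : ℝ} (hx : 2 ≤ x) (h0 : 0 ≤ u) (h : u ≤ c / (x - 1)) :
    √x * u * √x ≤ 2 * c := by
  have h1 : √x * √x = x := Real.mul_self_sqrt (by linarith)
  rw [le_div_iff₀ (by linarith)] at h
  have h3 : √x * u * √x = u * x := by linear_combination u * h1
  rw [h3]
  nlinarith

end EB

theorem eb : EBStmt := by
  intro c E
  let z : ℕ := ⌈(4 * c * (E + 1)) ^ 2⌉₊
  refine ⟨Real.exp (∑' n : ℕ, 4 * c * (n : ℝ) ^ (-(3 / 2) : ℝ) + z * (2 * c)),
    fun L Δ u hL hΔ hE h V hV => ?_⟩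
  have hc : 0 ≤ c := by
    have := h 2 Nat.prime_two
    norm_num at this
    exact this.1.trans this.2.1
  have hE1 : (0 : ℝ) < E + 1 := by positivity
  have key : ∀ p ∈ V, √p * u p ≤ 4 * c * (p : ℝ) ^ (-(3 / 2) : ℝ) +
      (if p ∈ range z then 2 * c else 0) +
        if p ∈ Δ.primeFactors then Real.log p / (E + 1) else 0 := fun p hp => by
    have pp := hV p hp
    have p2 : (2 : ℝ) ≤ p := by exact_mod_cast pp.two_le
    obtain ⟨a, b, d⟩ := h p pp
    have l : 0 ≤ Real.log p / (E + 1) := div_nonneg (Real.log_natCast_nonneg p) hE1.le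
    have t : 0 ≤ 4 * c * (p : ℝ) ^ (-(3 / 2) : ℝ) := by positivity
    by_cases q : p ∣ Δ
    · rw [if_pos (Nat.mem_primeFactors.2 ⟨pp, q, hΔ.ne'⟩)]
      have e := EB.div p2 a b
      have s0 : 0 ≤ √p * u p := by positivity
      split_ifs with w
      · have : 1 ≤ √p := Real.one_le_sqrt.2 (by linarith)
        nlinarith [mul_le_mul_of_nonneg_left this s0]
      · have w1 : 4 * c * (E + 1) ≤ √p := Real.le_sqrt_of_sq_le
          ((Nat.le_ceil _).trans (Nat.cast_le.2 (not_lt.1 (mt mem_range.2 w))))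
        have w2 : 1 / 2 ≤ Real.log p :=
          le_trans (by linarith [Real.log_two_gt_d9]) (Real.log_le_log two_pos p2)
        have w3 : √p * u p ≤ Real.log p / (E + 1) := by
          rw [le_div_iff₀ hE1]
          have s1 : 0 < √p := Real.sqrt_pos.2 (by linarith)
          refine le_trans (le_of_mul_le_mul_right ?_ s1) w2
          nlinarith [mul_le_mul_of_nonneg_right e hE1.le]
        linarith
    · have := EB.gen hc p2 (d q)
      split_ifs <;> linarith
  have s1 : ∑ p ∈ V, 4 * c * (p : ℝ) ^ (-(3 / 2) : ℝ) ≤ ∑' n : ℕ, 4 * c * (n : ℝ) ^ (-(3 / 2) : ℝ) :=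
    (Sng.summ (4 * c)).sum_le_tsum V fun n _ => by positivity
  have s2 : ∑ p ∈ V, (if p ∈ range z then 2 * c else 0) ≤ z * (2 * c) := by
    rw [sum_ite_mem, sum_const, nsmul_eq_mul]
    refine mul_le_mul_of_nonneg_right ?_ (by positivity)
    exact_mod_cast (card_le_card inter_subset_right).trans (card_range z).le
  have l1 : 0 ≤ Real.log L := Real.log_nonneg (by linarith)
  have s3 : ∑ p ∈ V, (if p ∈ Δ.primeFactors then Real.log p / (E + 1) else 0) ≤ Real.log L := by
    rw [sum_ite_mem, ← sum_div, div_le_iff₀ hE1]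
    have a : ∑ p ∈ V ∩ Δ.primeFactors, Real.log p ≤ ∑ p ∈ Δ.primeFactors, Real.log p :=
      sum_le_sum_of_subset_of_nonneg inter_subset_right fun p _ _ => Real.log_natCast_nonneg p
    have b : ∑ p ∈ Δ.primeFactors, Real.log p = Real.log ((∏ p ∈ Δ.primeFactors, p : ℕ) : ℝ) := by
      rw [Nat.cast_prod, Real.log_prod fun p hp => by
        exact_mod_cast (Nat.prime_of_mem_primeFactors hp).ne_zero]
    have d : Real.log ((∏ p ∈ Δ.primeFactors, p : ℕ) : ℝ) ≤ Real.log (L ^ E) :=
      Real.log_le_log (by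
        exact_mod_cast prod_pos fun p hp => (Nat.prime_of_mem_primeFactors hp).pos)
        (le_trans (by exact_mod_cast Nat.le_of_dvd hΔ (Nat.prod_primeFactors_dvd Δ)) hE)
    rw [Real.log_pow] at d
    nlinarith
  calc ∏ p ∈ V, (1 + √p * u p) ≤ ∏ p ∈ V, Real.exp (√p * u p) :=
        prod_le_prod (fun p hp => by have := (h p (hV p hp)).1; positivity)
          fun p _ => by linarith [Real.add_one_le_exp (√p * u p)]
    _ = Real.exp (∑ p ∈ V, √p * u p) := (Real.exp_sum _ _).symm
    _ ≤ Real.exp (∑' n : ℕ, 4 * c * (n : ℝ) ^ (-(3 / 2) : ℝ) + z * (2 * c) + Real.log L) := by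
        refine Real.exp_le_exp.2 ((sum_le_sum key).trans ?_)
        rw [sum_add_distrib, sum_add_distrib]
        linarith
    _ = _ := by rw [Real.exp_add, Real.exp_log (by linarith)]

end Pool.Agent.MP_39a890_nt.KT

end
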