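import Pool.Agent.MP_39a890_nt.kt.Spec

/-! Project KT, row EXP: truncation of an Euler product expanded over tuples of sets. -/

set_option autoImplicit false

noncomputable section

namespace Pool.Agent.MP_39a890_nt.KT

open Finset

namespace EXP

theorem expand {k : ℕ} (h : ℕ → Finset (Fin k) → ℝ) (U : Finset ℕ) :
    ∏ p ∈ U, ∑ S : Finset (Fin k), h p S =
      ∑ T ∈ Fintype.piFinset fun _ : Fin k => U.powerset, ∏ p ∈ U, h p (Sp T p) := by
  classical
  rw [prod_sum]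
  symm
  refine sum_nbij' (fun T => fun p _ => Sp T p)
    (fun g => fun i => U.filter fun p => ∃ hp : p ∈ U, i ∈ g p hp) ?_ ?_ ?_ ?_ ?_
  · intro T _
    simp
  · intro g _
    simp
  · intro T hT
    funext i
    have h1 : T i ⊆ U := mem_powerset.1 (Fintype.mem_piFinset.1 hT i)
    ext p
    simp only [Sp, mem_filter, mem_univ, true_and, exists_prop]
    exact ⟨fun q => q.2.2, fun q => ⟨h1 q, h1 q, q⟩⟩
  · intro g _
    funext p hp
    ext i
    simp only [Sp, mem_filter, mem_univ, true_and]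
    exact ⟨fun q => q.2.2, fun q => ⟨hp, hp, q⟩⟩
  · intro T _
    exact (prod_attach U fun p => h p (Sp T p)).symm

/-- the weight -/
def w {k : ℕ} (p : ℕ) (S : Finset (Fin k)) : ℝ := if S = ∅ then 1 else Real.sqrt p

theorem one_le_w {k : ℕ} {p : ℕ} (hp : 1 ≤ p) (S : Finset (Fin k)) : 1 ≤ w p S := by
  unfold w
  split_ifs
  · exact le_rfl
  · exact Real.one_le_sqrt.2 (by exact_mod_cast hp)

theorem big {k : ℕ} (U : Finset ℕ) (T : Fin k → Finset ℕ) (i : Fin k) (q : ℝ)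
    (hU : ∀ p ∈ U, 1 ≤ p) (hT : T i ⊆ U) (hq : q ≤ (∏ p ∈ T i, p : ℕ)) :
    Real.sqrt q ≤ ∏ p ∈ U, w p (Sp T p) := by
  have h1 : ∏ p ∈ T i, w p (Sp T p) ≤ ∏ p ∈ U, w p (Sp T p) :=
    prod_le_prod_of_subset_of_one_le hT (fun p hp => zero_le_one.trans (one_le_w (hU p (hT hp)) _))
      fun p hp _ => one_le_w (hU p hp) _
  refine le_trans ?_ h1
  have h2 : ∀ p ∈ T i, w p (Sp T p) ^ 2 = p := fun p hp => by
    have : Sp T p ≠ ∅ := ne_empty_of_mem (a := i) (by simp [Sp, hp])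
    rw [w, if_neg this, Real.sq_sqrt (Nat.cast_nonneg p)]
  refine Real.sqrt_le_iff.2 ⟨prod_nonneg fun p hp =>
    zero_le_one.trans (one_le_w (hU p (hT hp)) _), ?_⟩
  rw [← prod_pow, prod_congr rfl h2]
  simpa using hq

end EXP

theorem ex : EXPStmt := by
  classical
  intro k t U Q q hq hQ hU
  have hs : 0 < Real.sqrt q := Real.sqrt_pos.2 hq
  have hsub : (Fintype.piFinset fun i => TS U (Q i)) ⊆
      Fintype.piFinset fun _ : Fin k => U.powerset :=
    Fintype.piFinset_subset _ _ fun i => filter_subset _ _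
  have e1 : ∏ p ∈ U, (1 + Real.sqrt p *
      ∑ S ∈ (univ : Finset (Finset (Fin k))).erase ∅, |t p S|) =
      ∏ p ∈ U, ∑ S : Finset (Fin k), EXP.w p S * |t p S| := by
    refine prod_congr rfl fun p hp => ?_
    rw [← add_sum_erase _ _ (mem_univ ∅), (hU p hp).2, mul_sum]
    congr 1
    · simp [EXP.w]
    · exact sum_congr rfl fun S hS => by rw [EXP.w, if_neg (ne_of_mem_erase hS)]
  rw [e1, EXP.expand, EXP.expand, box, ← sum_sdiff hsub, add_sub_cancel_right,
    le_div_iff₀ hs]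
  have h0 : ∀ T : Fin k → Finset ℕ, 0 ≤ ∏ p ∈ U, EXP.w p (Sp T p) * |t p (Sp T p)| :=
    fun T => prod_nonneg fun p hp =>
      mul_nonneg (zero_le_one.trans (EXP.one_le_w (hU p hp).1 _)) (abs_nonneg _)
  refine le_trans ?_ (sum_le_sum_of_subset_of_nonneg
    (sdiff_subset (t := Fintype.piFinset fun i => TS U (Q i))) fun T _ _ => h0 T)
  refine (mul_le_mul_of_nonneg_right (abs_sum_le_sum_abs _ _) hs.le).trans ?_
  rw [sum_mul]
  refine sum_le_sum fun T hT => ?_
  obtain ⟨h1, h2⟩ := mem_sdiff.1 hT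
  rw [Fintype.mem_piFinset] at h1 h2
  obtain ⟨i, hi⟩ := not_forall.1 h2
  have h3 : Q i < ∏ p ∈ T i, p := by
    by_contra h4
    exact hi (mem_filter.2 ⟨h1 i, not_lt.1 h4⟩)
  have h5 := EXP.big U T i q (fun p hp => (hU p hp).1) (mem_powerset.1 (h1 i))
    ((hQ i).trans (by exact_mod_cast h3.le))
  rw [abs_prod, prod_mul_distrib, mul_comm]
  exact mul_le_mul_of_nonneg_right h5 (prod_nonneg fun _ _ => abs_nonneg _)

end Pool.Agent.MP_39a890_nt.KT
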