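import Pool.Agent.MP_39a890_nt.kt.Spec4

/-! Project KS, row FIN4: real `x` and the relative form. -/

set_option autoImplicit false

noncomputable section

namespace Pool.Agent.MP_39a890_nt.KT

open Finset Filter
open scoped ArithmeticFunction.vonMangoldt

namespace FIN4

theorem large (a b ε : ℝ) (hε : 0 < ε) (m : ℕ) : ∃ x₀ : ℝ, ∀ x : ℝ, x₀ ≤ x → a ≤ x ∧
    b ≤ Real.log x ∧ 2 * Real.log x ^ m ≤ x ∧ 2 ≤ (x / 2) ^ ε := by
  have h1 := eventually_ge_atTop a
  have h2 := Real.tendsto_log_atTop.eventually_ge_atTop b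
  have h3 := (Real.isLittleO_pow_log_id_atTop (n := m)).bound (show (0 : ℝ) < 1 / 2 by norm_num)
  have h4 := ((tendsto_rpow_atTop hε).comp
    (tendsto_id.atTop_div_const (show (0 : ℝ) < 2 by norm_num))).eventually_ge_atTop 2
  obtain ⟨x₀, h⟩ := eventually_atTop.1 (h1.and (h2.and (h3.and (h4.and (eventually_ge_atTop 0)))))
  refine ⟨x₀, fun x hx => ?_⟩
  obtain ⟨a1, a2, a3, a4, a5⟩ := h x hx
  refine ⟨a1, a2, ?_, a4⟩
  rw [id, Real.norm_eq_abs, Real.norm_eq_abs, abs_of_nonneg a5] at a3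
  linarith [le_abs_self (Real.log x ^ m)]

theorem ii (m : ℕ) {a b : ℝ} (ha : 2 ≤ a) (hb : 2 ≤ b) :
    IntervalIntegrable (fun t : ℝ => 1 / Real.log t ^ m) MeasureTheory.volume a b := by
  refine ContinuousOn.intervalIntegrable fun t ht => ?_
  have t2 : 2 ≤ t := (le_min ha hb).trans ht.1
  refine ContinuousAt.continuousWithinAt ?_
  exact continuousAt_const.div ((Real.continuousAt_log (by linarith)).pow m)
    (pow_ne_zero _ (Real.log_pos (by linarith)).ne')

theorem tail (m : ℕ) {a b : ℝ} (ha : 2 ≤ a) (hl : 1 ≤ Real.log a) (hab : a ≤ b) (hb : b ≤ a + 1) :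
    |(∫ t in (2 : ℝ)..b, 1 / Real.log t ^ m) - ∫ t in (2 : ℝ)..a, 1 / Real.log t ^ m| ≤ 1 := by
  rw [intervalIntegral.integral_interval_sub_left (ii m le_rfl (ha.trans hab)) (ii m le_rfl ha)]
  have h := intervalIntegral.norm_integral_le_of_norm_le_const (a := a) (b := b) (C := 1)
    (f := fun t : ℝ => 1 / Real.log t ^ m) fun t ht => by
      rw [Set.uIoc_of_le hab] at ht
      have h1 : 1 ≤ Real.log t := hl.trans (Real.log_le_log (by linarith) ht.1.le)
      have h2 : 1 ≤ Real.log t ^ m := one_le_pow₀ h1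
      rw [Real.norm_eq_abs, abs_of_nonneg (by positivity), div_le_one (by linarith)]
      exact h2
  rw [Real.norm_eq_abs, one_mul, abs_of_nonneg (sub_nonneg.2 hab)] at h
  linarith

theorem shift {x N ε : ℝ} (hε : 0 < ε) (h0 : 0 < N) (h1 : N ≤ x) (h2 : x / 2 ≤ N)
    (h3 : 2 ≤ (x / 2) ^ (ε / 2)) : x ^ (1 - ε) ≤ N ^ (1 - ε / 2) := by
  have x0 : 0 < x := h0.trans_le h1
  have a1 : x ^ (-ε) ≤ N ^ (-ε) := Real.rpow_le_rpow_of_nonpos h0 h1 (by linarith)
  have a2 : 2 ≤ N ^ (ε / 2) := h3.trans (Real.rpow_le_rpow (by positivity) h2 (by positivity))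
  have e1 : x ^ (1 - ε) = x * x ^ (-ε) := by
    rw [sub_eq_add_neg, Real.rpow_add x0, Real.rpow_one]
  have e2 : N ^ (1 - ε / 2) = N ^ (ε / 2) * N * N ^ (-ε) := by
    rw [show 1 - ε / 2 = ε / 2 + 1 + -ε by ring, Real.rpow_add h0, Real.rpow_add h0, Real.rpow_one]
  rw [e1, e2]
  refine mul_le_mul ?_ a1 (by positivity) (by positivity)
  nlinarith

theorem inv_pow_le {l L : ℝ} (h0 : 0 < L) (h : L / 2 ≤ l) (a : ℝ) (ha : 0 ≤ a) (n : ℕ) :
    a / l ^ n ≤ 2 ^ n * a / L ^ n := by
  have e : 2 ^ n * a / L ^ n = a / (L / 2) ^ n := by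
    rw [div_pow]
    field_simp
  rw [e]
  exact div_le_div_of_nonneg_left ha (by positivity) (pow_le_pow_left₀ (by positivity) h n)

end FIN4

open FIN4 in
theorem fin4 : LOWStmt → UNK4Stmt → CNT4Stmt → LIStmt → FIN4Stmt := by
  intro low unk cnt li k ε hε A
  obtain ⟨s0, c, c0, hc⟩ := low k
  obtain ⟨K', N₁, h1⟩ := cnt (ε / 2) (by positivity) k (A + k + 3)
  obtain ⟨C₁, N₂, C0, h2⟩ := unk (ε / 2) (by positivity) k (K' + A)
  obtain ⟨C₂, x₂, h3⟩ := li (k + 1)
  obtain ⟨x₀, h0⟩ := large (|N₁| + |N₂| + |x₂| + 4) (2 * 2 ^ (A + k + 3)) (ε / 2) (by positivity)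
    (A + k + 2 + (k + 2))
  refine ⟨2 ^ A * C₁ + (1 / c + |C₂|), x₀, fun x H u hx hH hu => ?_⟩
  obtain ⟨b1, b2, b3, b4⟩ := h0 x hx
  have p1 := abs_nonneg N₁
  have p2 := abs_nonneg N₂
  have p3 := abs_nonneg x₂
  have x0 : 0 < x := by linarith
  have n1 : (⌊x⌋₊ : ℝ) ≤ x := Nat.floor_le x0.le
  have n2 : x < ⌊x⌋₊ + 1 := Nat.lt_floor_add_one x
  generalize ⌊x⌋₊ = N at n1 n2 ⊢
  have n0 : (0 : ℝ) < N := by linarith
  have n3 : x / 2 ≤ N := by linarith
  have L2 : 2 ≤ Real.log x := by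
    have : (1 : ℝ) ≤ 2 ^ (A + k + 3) := one_le_pow₀ (by norm_num)
    linarith
  have l1 : Real.log N ≤ Real.log x := Real.log_le_log n0 n1
  have l2 : Real.log x - 1 ≤ Real.log N := by
    have a := Real.log_le_log (by positivity) n3
    rw [Real.log_div x0.ne' two_ne_zero] at a
    linarith [Real.log_two_lt_d9]
  have l3 : Real.log x / 2 ≤ Real.log N := by linarith
  have l4 : 1 ≤ Real.log N := by linarith
  have L0 : 0 < Real.log x := by linarith
  have sft := shift hε n0 n1 n3 b4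
  have hH' : (N : ℝ) ^ (1 / 9 + ε / 2) ≤ H :=
    ((Real.rpow_le_rpow n0.le n1 (by positivity)).trans
      (Real.rpow_le_rpow_of_exponent_le (by linarith) (by linarith))).trans hH
  obtain ⟨Ex, e1, e2⟩ := h2 N H u (by linarith [le_abs_self N₂]) hH' fun i => (hu i).trans sft
  refine ⟨Ex, ?_, fun d hd hd' => ?_⟩
  · have a0 : 0 ≤ C₁ * (H : ℝ) ^ k := by positivity
    have a1 : C₁ * (H : ℝ) ^ k / Real.log N ^ (K' + A) ≤ C₁ * (H : ℝ) ^ k / Real.log N ^ A :=
      div_le_div_of_nonneg_left a0 (by positivity) (pow_le_pow_right₀ l4 (Nat.le_add_left _ _))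
    refine e1.trans (a1.trans ((inv_pow_le L0 l3 _ a0 A).trans ?_))
    refine div_le_div_of_nonneg_right ?_ (by positivity)
    rw [← mul_assoc]
    refine mul_le_mul_of_nonneg_right (le_add_of_nonneg_right (by positivity)) (by positivity)
  obtain ⟨f1, f2⟩ := e2 d hd hd'
  have dd : ∀ i, ((|d i| : ℤ) : ℝ) ≤ (N : ℝ) ^ (1 - ε / 2) := fun i => by
    refine le_trans ?_ ((hu i).trans sft)
    have a := mem_Ioc.1 (Fintype.mem_piFinset.1 hd i)
    have b : |d i| ≤ |u i| + H := by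
      have := le_abs_self (u i)
      have := neg_abs_le (u i)
      rw [abs_le]
      constructor <;> omega
    exact_mod_cast b
  have g1 := h1 N d _ (by linarith [le_abs_self N₁]) (s0 _) f1 dd fun y hy => (f2 y hy).trans
    (div_le_div_of_nonneg_left n0.le (by positivity) (pow_le_pow_right₀ l4 (Nat.le_add_right _ _)))
  have g2 := tail (k + 1) (a := N) (b := x) (by linarith) l4 n1 n2.le
  have g4 := h3 x (by linarith [le_abs_self x₂])
  have hs := s0 (sh d)
  have hcs : (∀ p : ℕ, p.Prime → rootCount (sh d) p < p) → c ≤ singSeries (sh d) :=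
    hc _ fun i => by simpa [sh] using isCoprime_one_left
  generalize singSeries (sh d) = s at *
  generalize (∫ t in (2 : ℝ)..x, 1 / Real.log t ^ (k + 1)) = I at *
  generalize (∫ t in (2 : ℝ)..(N : ℝ), 1 / Real.log t ^ (k + 1)) = J at *
  generalize (pit d N : ℝ) = P at *
  have L1 : 1 ≤ Real.log x := by linarith
  have t1 : (N : ℝ) / Real.log N ^ (A + k + 3) ≤ x / Real.log x ^ (A + k + 2) / 2 := by
    refine (div_le_div_of_nonneg_right n1 (by positivity)).trans
      ((inv_pow_le L0 l3 _ x0.le _).trans ?_)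
    have e : Real.log x ^ (A + k + 3) = Real.log x ^ (A + k + 2) * Real.log x := pow_succ _ _
    rw [div_div, div_le_div_iff₀ (by positivity) (by positivity), e]
    have := mul_le_mul_of_nonneg_left b2
      (show 0 ≤ x * Real.log x ^ (A + k + 2) by positivity)
    linarith
  have t2 : s ≤ x / Real.log x ^ (A + k + 2) / 2 := by
    refine f1.trans ((pow_le_pow_left₀ (by linarith) l1 _).trans ?_)
    rw [div_div, le_div_iff₀ (by positivity)]
    rw [pow_add (Real.log x) (A + k + 2)] at b3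
    linarith
  have t3 : |P - s * I| ≤ x / Real.log x ^ (A + k + 2) := by
    have a : |s * (I - J)| ≤ s := by
      rw [abs_mul, abs_of_nonneg hs]
      exact mul_le_of_le_one_right hs g2
    have b := abs_sub (P - s * J) (s * (I - J))
    rw [show P - s * J - s * (I - J) = P - s * I by ring] at b
    linarith
  refine ⟨t3.trans (div_le_div_of_nonneg_left x0.le (by positivity)
    (pow_le_pow_right₀ L1 (by omega))), fun hp => ?_⟩
  have cs := hcs hp
  have sp : 0 < s := c0.trans_le cs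
  have t4 : |P - s * I| ≤ x / Real.log x ^ (k + 1 + 1) := t3.trans
    (div_le_div_of_nonneg_left x0.le (by positivity) (pow_le_pow_right₀ L1 (by omega)))
  have t5 : |(P - s * I) * (Real.log x ^ (k + 1) / (s * x))| ≤ 1 / c / Real.log x := by
    rw [abs_mul, abs_of_nonneg (show 0 ≤ Real.log x ^ (k + 1) / (s * x) by positivity)]
    refine (mul_le_mul_of_nonneg_right t4 (by positivity)).trans ?_
    have e : x / Real.log x ^ (k + 1 + 1) * (Real.log x ^ (k + 1) / (s * x)) =
        1 / s / Real.log x := by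
      rw [pow_succ (Real.log x) (k + 1)]
      field_simp
    rw [e]
    exact div_le_div_of_nonneg_right (one_div_le_one_div_of_le c0 cs) L0.le
  have e : P * Real.log x ^ (k + 1) / (s * x) - 1 =
      (P - s * I) * (Real.log x ^ (k + 1) / (s * x)) + (I * Real.log x ^ (k + 1) / x - 1) := by
    field_simp
    ring
  rw [e]
  refine (abs_add_le _ _).trans ((add_le_add t5 g4).trans ?_)
  rw [← add_div]
  refine div_le_div_of_nonneg_right ?_ L0.le
  have : 0 ≤ 2 ^ A * C₁ := by positivity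
  linarith [le_abs_self C₂]

end Pool.Agent.MP_39a890_nt.KT
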