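import Pool.Agent.MP_39a890_nt.kt.Spec

/-! Project KT, module FNK: from the weighted sums to the count of prime tuples. -/

set_option autoImplicit false

namespace Pool.Agent.MP_39a890_nt.KT

open Finset
open Pool.Agent.MP_39a890_nt.MS

theorem fnk : LOWStmt → CNKStmt → ∀ F, Fam F → UNKFor F → FNKFor F := by
  intro low cnk F hF unk k K
  obtain ⟨C0, h0⟩ := unk k K
  refine ⟨C0 + 1, fun D => ?_⟩
  obtain ⟨C1, N1, hC1, h1⟩ := h0 D
  obtain ⟨c, hc, hlow⟩ := (low k).2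
  obtain ⟨C2, N2, h2⟩ := cnk k D C1 c hc
  refine ⟨max C1 C2, max (max N1 N2) (Real.exp 2 + 3), fun N A H hN hA hH hD => ?_⟩
  have e0 := Real.exp_pos 2
  have n3 : Real.exp 2 + 3 ≤ N := (le_max_right _ _).trans hN
  have n12 : max N1 N2 ≤ N := (le_max_left _ _).trans hN
  have hL : 2 ≤ Real.log N := (Real.le_log_iff_exp_le (by linarith)).2 (by linarith)
  have p1 : Real.log N ^ C0 ≤ Real.log N ^ (C0 + 1) :=
    pow_le_pow_right₀ (by linarith) (Nat.le_succ _)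
  have p2 : 2 ≤ Real.log N ^ (C0 + 1) :=
    hL.trans (le_self_pow₀ (by linarith) (Nat.succ_ne_zero _))
  have a0 : (0 : ℝ) ≤ A := Nat.cast_nonneg _
  obtain ⟨Ex, e1, e2⟩ := h1 N A H ((le_max_left _ _).trans n12) (p1.trans hA)
    ((mul_le_mul_of_nonneg_left p1 a0).trans hH) hD
  refine ⟨Ex, e1.trans (by gcongr; exact le_max_left _ _), fun x hx hi hp hE y y1 y2 => ?_⟩
  have hN3 : 3 ≤ N := by exact_mod_cast (by linarith : (3 : ℝ) ≤ N)
  have l0 : 0 ≤ Real.log (Real.log N) := Real.log_nonneg (by linarith)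
  refine (h2 N y x _ ((le_max_right _ _).trans n12) (hlow x (fun i => (hi i).2.2) hp) y1 y2
    (fun i => ?_) (e2 x hx (fun i => ⟨hF.anti _ _ _ _ (Nat.le_succ _) hN3 (hi i).1, (hi i).2⟩)
      hE y y1 y2)).trans (by gcongr; exact le_max_right _ _)
  obtain ⟨b1, b2⟩ := mem_Ioc.1 (hF.sub _ _ _ (hi i).1)
  have b3 : ((x i).1 : ℝ) ≤ 2 * A := by exact_mod_cast b2
  have b4 : |((x i).2 : ℝ)| ≤ H := by exact_mod_cast (hi i).2.1
  exact ⟨by omega, by nlinarith [mul_le_mul_of_nonneg_left p2 a0], b4.trans hD⟩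

end Pool.Agent.MP_39a890_nt.KT
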