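import Pool.Agent.MP_39a890_nt.kt.Spec4

/-! Project KS: the sign of the shifts, and the case of pairs. -/

set_option autoImplicit false

noncomputable section

namespace Pool.Agent.MP_39a890_nt.KT

open Finset Filter
open Pool.Agent.MP_678834_nt Pool.Agent.MP_678834_nt.HL9 Pool.Agent.MP_39a890_nt.MS

def FIN5Stmt : Prop := ∀ (k : ℕ) (ε : ℝ), 0 < ε → ∀ A : ℕ, ∃ C x₀ : ℝ,
  ∀ (x : ℝ) (H : ℕ) (u : Fin k → ℤ), x₀ ≤ x → x ^ (1 / 9 + ε) ≤ (H : ℝ) →
    (∀ i, ((|u i| + H : ℤ) : ℝ) ≤ x ^ (1 - ε)) →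
    ∃ Ex : Finset (Fin k → ℤ), (Ex.card : ℝ) ≤ C * (H : ℝ) ^ k / Real.log x ^ A ∧
      ∀ d : Fin k → ℤ, (∀ i, u i < d i ∧ d i ≤ u i + H) → d ∉ Ex →
        |(((Finset.Icc 1 ⌊x⌋₊).filter fun p : ℕ =>
              p.Prime ∧ ∀ i, ((p : ℤ) - d i).toNat.Prime).card : ℝ) -
            singSeries (fun i => (1, -d i)) * ∫ t in (2 : ℝ)..x, 1 / Real.log t ^ (k + 1)| ≤
          x / Real.log x ^ A ∧
        ((∀ p : ℕ, p.Prime → rootCount (fun i => (1, -d i)) p < p) →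
          |(((Finset.Icc 1 ⌊x⌋₊).filter fun p : ℕ =>
              p.Prime ∧ ∀ i, ((p : ℤ) - d i).toNat.Prime).card : ℝ) *
            Real.log x ^ (k + 1) / (singSeries (fun i => (1, -d i)) * x) - 1| ≤ C / Real.log x)

theorem flip (h : FIN4Stmt) : FIN5Stmt := by
  classical
  intro k ε hε A
  obtain ⟨C, x₀, h⟩ := h k (ε / 2) (by positivity) A
  obtain ⟨x₁, h1⟩ := eventually_atTop.1 ((ev_rpow (δ := ε / 2) (by positivity) 3).and
    ((eventually_ge_atTop x₀).and (eventually_ge_atTop (1 : ℝ))))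
  refine ⟨C, x₁, fun x H u hx hH hu => ?_⟩
  obtain ⟨e1, e2, e3⟩ := h1 x hx
  have H1 : (1 : ℝ) ≤ H := (Real.one_le_rpow e3 (by positivity)).trans hH
  obtain ⟨Ex, c1, c2⟩ := h x H (fun i => -u i - H - 1) e2
    ((Real.rpow_le_rpow_of_exponent_le e3 (by linarith)).trans hH) fun i => by
      have a1 : |(-u i - H - 1 : ℤ)| + H ≤ 3 * (|u i| + H) := by
        have H2 : (1 : ℤ) ≤ H := by exact_mod_cast H1
        have := abs_nonneg (u i)
        have b : |(-u i - H - 1 : ℤ)| ≤ |u i| + H + 1 :=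
          abs_le.2 ⟨by linarith [le_abs_self (u i)], by linarith [neg_abs_le (u i)]⟩
        linarith
      have a2 : ((|(-u i - H - 1 : ℤ)| + H : ℤ) : ℝ) ≤ 3 * ((|u i| + H : ℤ) : ℝ) := by
        exact_mod_cast a1
      have a3 : x ^ (1 - ε / 2) = x ^ (ε / 2) * x ^ (1 - ε) := by
        rw [← Real.rpow_add (by linarith)]
        congr 1
        ring
      refine a2.trans ?_
      rw [a3]
      exact mul_le_mul e1 (hu i) (by exact_mod_cast (by positivity : (0 : ℤ) ≤ |u i| + H))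
        (by positivity)
  refine ⟨Ex.image fun d => -d, le_trans (by exact_mod_cast card_image_le) c1,
    fun d hd hE => ?_⟩
  have := c2 (-d) (Fintype.mem_piFinset.2 fun i => mem_Ioc.2 ⟨by
      have := (hd i).2
      simp only [Pi.neg_apply]
      omega, by
      have := (hd i).1
      simp only [Pi.neg_apply]
      omega⟩) fun hm => hE (mem_image.2 ⟨-d, hm, neg_neg d⟩)
  simp only [pit, Pi.neg_apply, ← sub_eq_add_neg] at this
  exact this

/-- the case of pairs, in the form of the earlier hand-in -/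
theorem pairs (h : FIN5Stmt) (sg : SG1Stmt) : ∀ ε : ℝ, 0 < ε → ∀ A : ℕ, ∃ C x₀ : ℝ,
    ∀ (x : ℝ) (h₀ H : ℕ), x₀ ≤ x →
    x ^ (1 / 9 + ε) ≤ (H : ℝ) → ((h₀ + H : ℕ) : ℝ) ≤ x ^ (1 - ε) →
    ∃ Ex : Finset ℕ, (Ex.card : ℝ) ≤ C * H / Real.log x ^ A ∧
      ∀ d ∈ Finset.Ioc h₀ (h₀ + H), d ∉ Ex →
        |(((Finset.Icc 1 ⌊x⌋₊).filter fun p : ℕ => p.Prime ∧ (p - d).Prime).card : ℝ) -
            sing d * ∫ t in (2 : ℝ)..x, 1 / Real.log t ^ 2| ≤ x / Real.log x ^ A ∧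
        (Even d →
          |(((Finset.Icc 1 ⌊x⌋₊).filter fun p : ℕ => p.Prime ∧ (p - d).Prime).card : ℝ) *
            Real.log x ^ 2 / (sing d * x) - 1| ≤ C / Real.log x) := by
  classical
  intro ε hε A
  obtain ⟨C, x₀, h⟩ := h 1 ε hε A
  refine ⟨C, x₀, fun x h₀ H hx hH hu => ?_⟩
  obtain ⟨Ex, c1, c2⟩ := h x H (fun _ => h₀) hx hH fun _ => by
    rw [abs_of_nonneg (Int.natCast_nonneg _)]
    exact_mod_cast hu
  rw [pow_one] at c1
  refine ⟨Ex.image fun d => (d 0).toNat, le_trans (by exact_mod_cast card_image_le) c1,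
    fun d hd hE => ?_⟩
  obtain ⟨d1, d2⟩ := mem_Ioc.1 hd
  obtain ⟨c3, c4⟩ := c2 (fun _ => d) (fun _ => ⟨by omega, by omega⟩)
    fun hm => hE (mem_image.2 ⟨_, hm, by simp⟩)
  obtain ⟨s1, s2⟩ := sg (-d) (by omega)
  have s3 : (sh fun _ : Fin 1 => (-d : ℤ)) = fun _ => (1, -(d : ℤ)) := rfl
  rw [s3] at s1 s2
  rw [s1] at c3 c4
  rw [s2] at c4
  have s4 : ∀ p : ℕ, ((p : ℤ) - d).toNat = p - d := fun p => by omega
  simp only [s4, forall_const, Int.natAbs_neg, Int.natAbs_natCast, even_neg,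
    Int.even_coe_nat] at c3 c4
  exact ⟨c3, c4⟩

end Pool.Agent.MP_39a890_nt.KT
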