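import Pool.Agent.MP_39a890_nt.kt.Spec

/-! Project KT, row LAM: the major arc model as a sum over sets of primes. -/

set_option autoImplicit false

noncomputable section

namespace Pool.Agent.MP_39a890_nt.KT

open Finset
open Pool.Agent.MP_678834_nt Pool.Agent.MP_678834_nt.HL9 Pool.Agent.MP_39a890_nt.MS

namespace LAM

theorem prime_mem {Q y p : ℕ} {T : Finset ℕ} (hT : T ∈ TS y.primesBelow Q) (hp : p ∈ T) :
    p.Prime :=
  Nat.prime_of_mem_primesBelow (mem_powerset.1 (mem_filter.1 hT).1 hp)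

theorem inj (Q y : ℕ) :
    Set.InjOn (fun T : Finset ℕ => ∏ p ∈ T, p) (TS y.primesBelow Q : Set (Finset ℕ)) :=
  fun T hT T' hT' e => by
    have h1 := Nat.primeFactors_prod (s := T) fun p hp => prime_mem (mem_coe.1 hT) hp
    have h2 := Nat.primeFactors_prod (s := T') fun p hp => prime_mem (mem_coe.1 hT') hp
    simp only at e
    rw [← h1, ← h2, e]

theorem mem {Q y : ℕ} {T : Finset ℕ} (hT : T ∈ TS y.primesBelow Q) : ∏ p ∈ T, p ∈ Icc 1 Q :=
  mem_Icc.2 ⟨prod_pos fun _ hp => (prime_mem hT hp).pos, (mem_filter.1 hT).2⟩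

theorem abs_gl {p : ℕ} (hp : p.Prime) (m : ℤ) : |gl p m| ≤ 1 := by
  have h : (2 : ℝ) ≤ p := by exact_mod_cast hp.two_le
  unfold gl
  split_ifs
  · simp
  · rw [abs_of_nonneg (div_nonneg zero_le_one (by linarith)), div_le_one (by linarith)]
    linarith

end LAM

theorem lam : LAMStmt := by
  intro Q y m hy
  have e : ∀ T ∈ TS y.primesBelow Q, ((∏ p ∈ T, gl p m : ℝ) : ℂ) =
      (rho (∏ p ∈ T, p) : ℂ) * ram (∏ p ∈ T, p) m := fun T hT => by
    have hT' : ∀ p ∈ T, p.Prime := fun p hp => LAM.prime_mem hT hp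
    rw [Sng.ram_prod T hT', Sng.rho_prod T hT']
    push_cast
    rw [← prod_mul_distrib]
    refine prod_congr rfl fun p hp => ?_
    have h1 : (p : ℂ) - 1 ≠ 0 := sub_ne_zero.2 (by exact_mod_cast (hT' p hp).ne_one)
    simp only [gl, Int.natCast_dvd_natCast]
    split_ifs <;> push_cast <;> field_simp
  have h1 : lamS Q m = ((∑ T ∈ TS y.primesBelow Q, ∏ p ∈ T, gl p m : ℝ) : ℂ) := by
    rw [Complex.ofReal_sum, sum_congr rfl e, lamS,
      ← sum_image (f := fun r => (rho r : ℂ) * ram r m) (g := fun T : Finset ℕ => ∏ p ∈ T, p)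
        (LAM.inj Q y)]
    refine (sum_subset (fun r hr => ?_) fun r hr hn => ?_).symm
    · obtain ⟨T, hT, rfl⟩ := mem_image.1 hr
      exact LAM.mem hT
    · have : ¬ Squarefree r := fun hs => hn (mem_image.2 ⟨r.primeFactors, mem_filter.2
        ⟨mem_powerset.2 fun p hp => Nat.mem_primesBelow.2 ⟨lt_of_le_of_lt
          ((Nat.le_of_mem_primeFactors hp).trans (mem_Icc.1 hr).2) hy,
          Nat.prime_of_mem_primeFactors hp⟩,
          (Nat.prod_primeFactors_of_squarefree hs).le.trans (mem_Icc.1 hr).2⟩,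
        Nat.prod_primeFactors_of_squarefree hs⟩)
      simp [rho, ArithmeticFunction.moebius_eq_zero_of_not_squarefree this]
  have h2 : (TS y.primesBelow Q).card ≤ Q := by
    have := card_le_card_of_injOn (t := Icc 1 Q) (fun T : Finset ℕ => ∏ p ∈ T, p)
      (fun T hT => mem_coe.2 (LAM.mem (mem_coe.1 hT))) (LAM.inj Q y)
    simpa using this
  refine ⟨h1, h2, ?_⟩
  rw [h1, Complex.norm_real, Real.norm_eq_abs]
  refine (abs_sum_le_sum_abs _ _).trans ((sum_le_card_nsmul _ _ 1 fun T hT => ?_).trans ?_)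
  · rw [abs_prod]
    exact prod_le_one (fun _ _ => abs_nonneg _) fun p hp => LAM.abs_gl (LAM.prime_mem hT hp) _
  · rw [nsmul_eq_mul, mul_one]
    exact_mod_cast h2

end Pool.Agent.MP_39a890_nt.KT
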