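import Pool.Agent.MP_39a890_nt.kt.Spec4

/-! Project KS: row LI, the size of the logarithmic integrals. -/

set_option autoImplicit false

noncomputable section

namespace Pool.Agent.MP_39a890_nt.KT

namespace LI

theorem intg (n : ℕ) {a b : ℝ} (ha : 1 < a) (hb : 1 < b) :
    IntervalIntegrable (fun t => 1 / Real.log t ^ n) MeasureTheory.volume a b := by
  refine ContinuousOn.intervalIntegrable fun t ht => ContinuousAt.continuousWithinAt ?_
  have h : 1 < t := (lt_min ha hb).trans_le ht.1
  exact continuousAt_const.div ((Real.continuousAt_log (by linarith)).pow n)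
    (pow_pos (Real.log_pos h) n).ne'

theorem le_const (n : ℕ) {a b c : ℝ} (ha : 1 < a) (hab : a ≤ b) (hc : 1 / Real.log a ≤ c) :
    ∫ t in a..b, 1 / Real.log t ^ n ≤ b * c ^ n := by
  have h0 := Real.log_pos ha
  have hc0 : 0 ≤ c := le_trans (by positivity) hc
  have := intervalIntegral.integral_mono_on hab (intg n ha (ha.trans_le hab))
    (intervalIntegrable_const (c := c ^ n)) fun t ht => by
      rw [← one_div_pow]
      have h1 := Real.log_le_log (by linarith) ht.1
      exact pow_le_pow_left₀ (div_nonneg zero_le_one (by linarith))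
        ((one_div_le_one_div_of_le h0 h1).trans hc) n
  rw [intervalIntegral.integral_const, smul_eq_mul] at this
  exact this.trans (mul_le_mul_of_nonneg_right (by linarith) (pow_nonneg hc0 n))

theorem parts (m : ℕ) {x : ℝ} (hx : 2 ≤ x) :
    (∫ t in (2 : ℝ)..x, 1 / Real.log t ^ m) - m * ∫ t in (2 : ℝ)..x, 1 / Real.log t ^ (m + 1) =
      x / Real.log x ^ m - 2 / Real.log 2 ^ m := by
  have h1 : (1 : ℝ) < x := by linarith
  rw [← intervalIntegral.integral_const_mul, ← intervalIntegral.integral_sub
    (intg m one_lt_two h1) ((intg (m + 1) one_lt_two h1).const_mul _)]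
  refine intervalIntegral.integral_eq_sub_of_hasDerivAt (f := fun t => t / Real.log t ^ m)
    (fun t ht => ?_) ((intg m one_lt_two h1).sub ((intg (m + 1) one_lt_two h1).const_mul _))
  have h : 1 < t := (lt_min one_lt_two h1).trans_le ht.1
  have h0 : t ≠ 0 := by linarith
  have hl := (Real.log_pos h).ne'
  refine ((hasDerivAt_id' t).fun_div ((Real.hasDerivAt_log h0).fun_pow m)
    (pow_ne_zero m hl)).congr_deriv ?_
  cases m with
  | zero => simp
  | succ k =>
    rw [Nat.add_sub_cancel]
    field_simp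
    ring

theorem ev (n : ℕ) : ∀ᶠ x : ℝ in Filter.atTop, Real.log x ^ n ≤ Real.sqrt x := by
  have := (isLittleO_log_rpow_rpow_atTop (s := 1 / 2) (n : ℝ) (by norm_num)).bound one_pos
  filter_upwards [this, Filter.eventually_ge_atTop 1] with x h hx
  have h0 := Real.log_nonneg hx
  rw [one_mul, Real.rpow_natCast, ← Real.sqrt_eq_rpow, Real.norm_of_nonneg (by positivity),
    Real.norm_of_nonneg (by positivity)] at h
  exact h

end LI

theorem li : LIStmt := by
  intro m
  obtain ⟨x₀, h⟩ := Filter.eventually_atTop.1 ((LI.ev (m + 1)).and (Filter.eventually_ge_atTop 4))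
  refine ⟨2 ^ (m + 1) + m * 2 ^ (m + 2), x₀, fun x hx => ?_⟩
  obtain ⟨h1, h4⟩ := h x hx
  have x0 : 0 < x := by linarith
  have hL : 0 < Real.log x := Real.log_pos (by linarith)
  have s2 : 2 ≤ Real.sqrt x := Real.le_sqrt_of_sq_le (by linarith)
  have ss := Real.mul_self_sqrt x0.le
  have sx : Real.sqrt x ≤ x := by nlinarith
  have l2 : 1 / Real.log 2 ≤ 2 := by
    have := Real.log_two_gt_d9
    rw [div_le_iff₀ (by linarith)]
    linarith
  have hP : 0 < Real.log x ^ (m + 1) := pow_pos hL _
  have a1 : Real.sqrt x ≤ x / Real.log x ^ (m + 1) := by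
    rw [le_div_iff₀ hP]
    nlinarith
  have b1 := LI.le_const (m + 1) one_lt_two s2 l2
  have b2 := LI.le_const (m + 1) (a := Real.sqrt x) (c := 2 / Real.log x) (by linarith) sx
    (by rw [Real.log_sqrt x0.le, one_div_div])
  have b3 := intervalIntegral.integral_add_adjacent_intervals
    (LI.intg (m + 1) one_lt_two (show 1 < Real.sqrt x by linarith))
    (LI.intg (m + 1) (show 1 < Real.sqrt x by linarith) (show 1 < x by linarith))
  have b0 : 0 ≤ ∫ t in (2 : ℝ)..x, 1 / Real.log t ^ (m + 1) :=
    intervalIntegral.integral_nonneg (by linarith) fun t ht => by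
      have := Real.log_nonneg (show 1 ≤ t by linarith [ht.1])
      positivity
  have p := LI.parts m (show 2 ≤ x by linarith)
  have c0 : 0 ≤ 2 / Real.log 2 ^ m := by
    have := Real.log_pos one_lt_two
    positivity
  have c1 : 2 / Real.log 2 ^ m ≤ 2 ^ (m + 1) := by
    have := pow_le_pow_left₀ (by have := Real.log_pos one_lt_two; positivity) l2 m
    rw [one_div_pow] at this
    rw [pow_succ', div_eq_mul_one_div]
    linarith
  rw [div_pow, mul_div_left_comm] at b2
  set I := ∫ t in (2 : ℝ)..x, 1 / Real.log t ^ m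
  set J := ∫ t in (2 : ℝ)..x, 1 / Real.log t ^ (m + 1)
  set W := x / Real.log x ^ (m + 1) with hW
  have t0 : (0 : ℝ) < 2 ^ (m + 1) := by positivity
  have hJ : J ≤ 2 ^ (m + 2) * W := by
    rw [pow_succ _ (m + 1)]
    nlinarith
  have hm : (0 : ℝ) ≤ m := Nat.cast_nonneg m
  have k : |I - x / Real.log x ^ m| ≤ (2 ^ (m + 1) + m * 2 ^ (m + 2)) * W := by
    have := mul_le_mul_of_nonneg_left hJ hm
    have := mul_nonneg hm b0
    have : 2 ^ (m + 1) ≤ 2 ^ (m + 1) * W := le_mul_of_one_le_right t0.le (by linarith)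
    rw [abs_le]
    constructor <;> nlinarith
  have e : I * Real.log x ^ m / x - 1 = (I - x / Real.log x ^ m) * (Real.log x ^ m / x) := by
    field_simp
  rw [e, abs_mul, abs_of_pos (show 0 < Real.log x ^ m / x by positivity)]
  refine (mul_le_mul_of_nonneg_right k (by positivity)).trans (le_of_eq ?_)
  rw [hW]
  field_simp
  ring

end Pool.Agent.MP_39a890_nt.KT
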