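import Pool.Agent.MP_39a890_nt.kt.Spec

/-! Row LOC1: the local averages sum to the local factor of the singular series. -/

set_option autoImplicit false

noncomputable section

namespace Pool.Agent.MP_39a890_nt.KT

open Finset

namespace LOC1

theorem pt {k : ℕ} (m : Fin k → ℤ) {p n : ℕ} (hp : p.Prime) (hn : n ∈ Ico 1 p) :
    ∑ S : Finset (Fin k), ∏ i ∈ S, gl p (m i) =
      if (p : ℤ) ∣ n * ∏ i, m i then 0 else ((p : ℝ) / ((p : ℝ) - 1)) ^ k := by
  have hP : Prime (p : ℤ) := Nat.prime_iff_prime_int.1 hp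
  have h1 : (1 : ℝ) < p := by exact_mod_cast hp.one_lt
  have h2 : (p : ℝ) - 1 ≠ 0 := by linarith
  have h3 : ¬ (p : ℤ) ∣ n := fun h => by
    have := mem_Ico.1 hn
    have := Nat.le_of_dvd this.1 (Int.natCast_dvd_natCast.1 h)
    omega
  rw [← powerset_univ, ← prod_one_add]
  split_ifs with h
  · obtain ⟨i, -, hi⟩ := (hP.dvd_finsetProd_iff _).1 ((hP.dvd_or_dvd h).resolve_left h3)
    exact prod_eq_zero (mem_univ i) (by simp [gl, hi])
  · refine (prod_congr rfl fun i _ => ?_).trans ((prod_const _).trans (by simp; rfl))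
    rw [gl, if_neg fun hi => h ((hi.trans (dvd_prod_of_mem _ (mem_univ i))).mul_left _)]
    field_simp
    ring

end LOC1

theorem loc1 : LOC1Stmt := by
  intro k x p hp
  have h1 : (1 : ℝ) < p := by exact_mod_cast hp.one_lt
  have h2 : (p : ℝ) - 1 ≠ 0 := by linarith
  have h0 : (p : ℝ) ≠ 0 := by linarith
  constructor
  · simp only [tp, prod_empty, sum_const, Nat.card_Ico, nsmul_eq_mul, mul_one]
    rw [Nat.cast_sub hp.one_le, Nat.cast_one, div_self h2]
  · have e : ∑ n ∈ range p, (if (p : ℤ) ∣ n * ∏ i, (((x i).1 : ℤ) * n + (x i).2) then (0 : ℝ) else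
        ((p : ℝ) / ((p : ℝ) - 1)) ^ k) = (p - rootCount x p) * ((p : ℝ) / ((p : ℝ) - 1)) ^ k := by
      have c := card_filter_add_card_filter_not (s := range p)
        fun n : ℕ => (p : ℤ) ∣ n * ∏ i, (((x i).1 : ℤ) * n + (x i).2)
      rw [card_range] at c
      rw [sum_ite, sum_const_zero, zero_add, sum_const, nsmul_eq_mul, rootCount]
      congr 1
      exact eq_sub_of_add_eq' (by exact_mod_cast c)
    rw [range_eq_Ico, sum_eq_sum_Ico_succ_bot hp.pos, if_pos (by simp), zero_add, zero_add] at e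
    simp only [tp]
    rw [← sum_div, sum_comm, sum_congr rfl fun (n : ℕ) hn =>
      LOC1.pt (fun i => ((x i).1 : ℤ) * n + (x i).2) hp hn, e, bt,
      show 1 - 1 / (p : ℝ) = ((p : ℝ) - 1) / p by field_simp]
    simp only [div_pow, pow_succ]
    field_simp

end Pool.Agent.MP_39a890_nt.KT
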