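import Pool.Agent.MP_39a890_nt.kt.Spec

/-! Project KT: bounds for the local averages. -/

set_option autoImplicit false

noncomputable section

namespace Pool.Agent.MP_39a890_nt.KT

open Finset

namespace LOC2

variable {p : ℕ} (hp : p.Prime)
include hp

theorem one_le : (1 : ℝ) ≤ (p : ℝ) - 1 := by
  have : (2 : ℝ) ≤ p := by exact_mod_cast hp.two_le
  linarith

theorem card_Ico' : (#(Ico 1 p) : ℝ) = (p : ℝ) - 1 := by
  rw [Nat.card_Ico, Nat.cast_sub hp.one_le, Nat.cast_one]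

theorem uniq {a b : ℤ} (h : IsCoprime a b) :
    #((Ico 1 p).filter fun n : ℕ => (p : ℤ) ∣ a * n + b) ≤ 1 := by
  refine card_le_one.2 fun n hn m hm => ?_
  simp only [mem_filter, mem_Ico] at hn hm
  have h1 : (p : ℤ) ∣ a * (n - m) := by
    have := dvd_sub hn.2 hm.2
    rwa [show a * n + b - (a * m + b) = a * (n - m) by ring] at this
  rcases (Nat.prime_iff_prime_int.1 hp).dvd_or_dvd h1 with h2 | h2
  · exact absurd (h.isUnit_of_dvd' h2 ((dvd_add_right (h2.mul_right _)).1 hn.2))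
      (Nat.prime_iff_prime_int.1 hp).not_isUnit
  · have := Int.eq_zero_of_abs_lt_dvd h2 (abs_lt.2 ⟨by omega, by omega⟩)
    omega

theorem ex {a : ℕ} {b : ℤ} (ha : ¬p ∣ a) (hb : ¬(p : ℤ) ∣ b) :
    ∃ n ∈ Ico 1 p, (p : ℤ) ∣ a * n + b := by
  have := Fact.mk hp
  have h1 : (a : ZMod p) ≠ 0 := fun e => ha ((ZMod.natCast_eq_zero_iff a p).1 e)
  have h2 : (b : ZMod p) ≠ 0 := fun e => hb ((ZMod.intCast_zmod_eq_zero_iff_dvd b p).1 e)
  refine ⟨(-(b : ZMod p) / a).val, mem_Ico.2 ⟨Nat.pos_of_ne_zero ((ZMod.val_ne_zero _).2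
    (div_ne_zero (neg_ne_zero.2 h2) h1)), ZMod.val_lt _⟩,
    (ZMod.intCast_zmod_eq_zero_iff_dvd _ p).1 ?_⟩
  push_cast
  rw [ZMod.natCast_zmod_val]
  field_simp
  ring

theorem gl_not {m : ℤ} (h : ¬(p : ℤ) ∣ m) : |gl p m| = 1 / ((p : ℝ) - 1) := by
  have := one_le hp
  rw [gl, if_neg h, abs_of_nonneg (by positivity)]

theorem gl_le (m : ℤ) : |gl p m| ≤ 1 := by
  by_cases h : (p : ℤ) ∣ m
  · simp [gl, h]
  · rw [gl_not hp h]
    exact div_le_one_of_le₀ (one_le hp) (by linarith [one_le hp])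

theorem prod_le {ι : Type} {S T : Finset ι} (m : ι → ℤ) (hT : T ⊆ S)
    (h : ∀ i ∈ T, ¬(p : ℤ) ∣ m i) : |∏ i ∈ S, gl p (m i)| ≤ (1 / ((p : ℝ) - 1)) ^ #T := by
  rw [abs_prod, ← prod_const, ← prod_congr rfl fun i hi => gl_not hp (h i hi)]
  exact prod_le_prod_of_subset_of_le_one hT (fun _ _ => abs_nonneg _) fun _ _ _ => gl_le hp _

theorem sum_le {k : ℕ} {x : Fin k → ℕ × ℤ} (hx : ∀ i, IsCoprime ((x i).1 : ℤ) (x i).2)
    (g : ℕ → ℝ) {α β : ℝ} (h0 : 0 ≤ α) (h0' : 0 ≤ β) (h1 : ∀ n, |g n| ≤ β)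
    (h2 : ∀ n : ℕ, (∀ i, ¬(p : ℤ) ∣ ((x i).1 : ℤ) * n + (x i).2) → |g n| ≤ α) :
    |∑ n ∈ Ico 1 p, g n| ≤ ((p : ℝ) - 1) * α + k * β := by
  have c : #((Ico 1 p).filter fun n : ℕ => ∃ i, (p : ℤ) ∣ ((x i).1 : ℤ) * n + (x i).2) ≤ k := by
    refine le_trans (card_le_card (t := univ.biUnion fun i =>
      (Ico 1 p).filter fun n : ℕ => (p : ℤ) ∣ ((x i).1 : ℤ) * n + (x i).2) fun n hn => ?_)
      ((card_biUnion_le_card_mul _ _ 1 fun i _ => uniq hp (hx i)).trans (by simp))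
    obtain ⟨a, i, b⟩ := mem_filter.1 hn
    exact mem_biUnion.2 ⟨i, mem_univ _, mem_filter.2 ⟨a, b⟩⟩
  calc _ ≤ ∑ n ∈ Ico 1 p, (α + if ∃ i, (p : ℤ) ∣ ((x i).1 : ℤ) * n + (x i).2 then β else 0) := by
        refine (abs_sum_le_sum_abs _ _).trans (sum_le_sum fun n _ => ?_)
        split_ifs with h
        · linarith [h1 n]
        · linarith [h2 n (not_exists.1 h)]
    _ ≤ _ := by
        rw [sum_add_distrib, ← sum_filter, sum_const, sum_const, nsmul_eq_mul, nsmul_eq_mul,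
          card_Ico' hp]
        gcongr

theorem single {a : ℕ} {b : ℤ} (h : IsCoprime (a : ℤ) b) (ha : ¬p ∣ a) (hb : ¬(p : ℤ) ∣ b) :
    ∑ n ∈ Ico 1 p, gl p (a * n + b) = -(1 / ((p : ℝ) - 1)) := by
  have c : #((Ico 1 p).filter fun n : ℕ => (p : ℤ) ∣ a * n + b) = 1 :=
    le_antisymm (uniq hp h) (card_pos.2 ((ex hp ha hb).imp fun n hn => mem_filter.2 hn))
  have e : ∀ m : ℤ, gl p m = 1 / ((p : ℝ) - 1) -
      if (p : ℤ) ∣ m then 1 + 1 / ((p : ℝ) - 1) else 0 := fun m => by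
    rw [gl]
    split_ifs <;> ring
  have := one_le hp
  simp only [e]
  rw [sum_sub_distrib, ← sum_filter, sum_const, sum_const, c, nsmul_eq_mul, card_Ico' hp,
    mul_one_div_cancel (by linarith), one_smul]
  ring

end LOC2

open LOC2 in
theorem loc2 : LOC2Stmt := by
  intro k x p S hp hS hx
  have d := one_le hp
  have d0 : (0 : ℝ) < (p : ℝ) - 1 := by linarith
  obtain ⟨i, hi⟩ := nonempty_iff_ne_empty.2 hS
  rw [tp, abs_div, abs_of_pos d0]
  refine ⟨div_le_div_of_nonneg_right ?_ d0.le, fun hG => ?_⟩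
  · refine (sum_le hp hx _ (α := 1 / ((p : ℝ) - 1)) (by positivity) zero_le_one
      (fun n => (prod_le hp _ (empty_subset S) (by simp)).trans_eq (pow_zero _))
      fun n hn => (prod_le hp _ (singleton_subset_iff.2 hi) fun j _ => hn j).trans_eq
        (pow_one _)).trans_eq ?_
    field_simp
    ring
  · rw [sq, ← div_div]
    refine div_le_div_of_nonneg_right ?_ d0.le
    by_cases h : ∃ j ∈ S, j ≠ i
    · obtain ⟨j, hj, hne⟩ := h
      refine (sum_le hp hx _ (α := (1 / ((p : ℝ) - 1)) ^ 2) (β := 1 / ((p : ℝ) - 1))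
        (by positivity) (by positivity) (fun n => ?_) fun n hn => (prod_le hp _
          (insert_subset hj (singleton_subset_iff.2 hi)) fun l _ => hn l).trans_eq
            (by rw [card_pair hne])).trans_eq ?_
      · obtain ⟨l, hl, h⟩ : ∃ l ∈ S, ¬(p : ℤ) ∣ ((x l).1 : ℤ) * n + (x l).2 := by
          by_contra hc
          push Not at hc
          refine hG.2 j i hne ?_
          have := dvd_sub ((hc i hi).mul_left (x j).1) ((hc j hj).mul_left (x i).1)
          rwa [show ((x j).1 : ℤ) * ((x i).1 * n + (x i).2) - (x i).1 * ((x j).1 * n + (x j).2) =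
            (x j).1 * (x i).2 - (x i).1 * (x j).2 by ring] at this
        exact (prod_le hp _ (singleton_subset_iff.2 hl) (by simpa using h)).trans_eq (pow_one _)
      · field_simp
        ring
    · obtain rfl : S = {i} := eq_singleton_iff_unique_mem.2 ⟨hi, fun j hj =>
        by_contra fun e => h ⟨j, hj, e⟩⟩
      simp only [prod_singleton]
      rw [single hp (hx i) (hG.1 i).1 (hG.1 i).2, abs_neg, abs_of_nonneg (by positivity)]
      gcongr
      linarith [Nat.cast_nonneg (α := ℝ) k]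

end Pool.Agent.MP_39a890_nt.KT
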