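import Pool.Agent.MP_39a890_nt.kt.Spec

/-! Project KT: a lower bound for the singular series. -/

set_option autoImplicit false

noncomputable section

namespace Pool.Agent.MP_39a890_nt.KT

open Finset

namespace LOW

theorem root_le {k : ℕ} (x : Fin k → ℕ × ℤ) {p : ℕ} (hp : p.Prime)
    (hx : ∀ i, IsCoprime ((x i).1 : ℤ) (x i).2) : rootCount x p ≤ k + 1 := by
  have hq := Nat.prime_iff_prime_int.1 hp
  have h1 : ∀ i, ((range p).filter fun n : ℕ => (p : ℤ) ∣ ((x i).1 : ℤ) * n + (x i).2).card ≤ 1 :=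
    fun i => card_le_one.2 fun n hn m hm => by
      simp only [mem_filter, mem_range] at hn hm
      have h2 : (p : ℤ) ∣ ((x i).1 : ℤ) * ((n : ℤ) - m) := by
        rw [mul_sub, ← add_sub_add_right_eq_sub _ _ (x i).2]
        exact dvd_sub hn.2 hm.2
      rcases hq.dvd_or_dvd h2 with h | h
      · exact (hq.not_isUnit ((hx i).isUnit_of_dvd' h
          ((dvd_add_right (h.mul_right _)).1 hn.2))).elim
      · have := Int.eq_zero_of_abs_lt_dvd h (by rw [abs_lt]; omega)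
        omega
  refine (card_le_card (t := insert 0 (univ.biUnion fun i => (range p).filter fun n : ℕ =>
    (p : ℤ) ∣ ((x i).1 : ℤ) * n + (x i).2)) fun n hn => ?_).trans ((card_insert_le _ _).trans
      (Nat.succ_le_succ ((card_biUnion_le_card_mul _ _ 1 fun i _ => h1 i).trans (by simp))))
  simp only [mem_filter, mem_insert, mem_biUnion, mem_univ, true_and] at hn ⊢
  rcases hq.dvd_or_dvd hn.2 with h | h
  · exact Or.inl (Nat.eq_zero_of_dvd_of_lt (by exact_mod_cast h) (mem_range.1 hn.1))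
  · obtain ⟨i, -, hi⟩ := (hq.dvd_finsetProd_iff _).1 h
    exact Or.inr ⟨i, hn.1, hi⟩

theorem fac_ge {m ν p : ℕ} (hp : 2 ≤ p) (hm : 1 ≤ m) (h1 : ν < p) (h2 : ν ≤ m) :
    Real.exp (-(8 * (m : ℝ) ^ 3 * (1 / (p : ℝ) ^ 2))) ≤ (1 - (ν : ℝ) / p) / (1 - 1 / (p : ℝ)) ^ m := by
  have p2 : (2 : ℝ) ≤ p := by exact_mod_cast hp
  have m1 : (1 : ℝ) ≤ m := by exact_mod_cast hm
  have p0 : (0 : ℝ) < p := by linarith
  have h3 : 0 < 1 - 1 / (p : ℝ) := by
    rw [sub_pos, div_lt_one p0]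
    linarith
  have h4 : (ν : ℝ) + 1 ≤ p := by exact_mod_cast h1
  have h5 : (ν : ℝ) ≤ m := by exact_mod_cast h2
  have h6 : 1 / (p : ℝ) ≤ 1 - ν / p := by
    rw [le_sub_iff_add_le, ← add_div, div_le_one p0]
    linarith
  have h7 : (1 + m * (1 / (p : ℝ))) * (1 - 1 / (p : ℝ)) ^ m ≤ 1 := by
    refine (mul_le_mul_of_nonneg_right (one_add_mul_le_pow (le_trans (by norm_num)
      (one_div_pos.2 p0).le) m) (by positivity)).trans ?_
    rw [← mul_pow]
    exact pow_le_one₀ (by positivity) (by nlinarith [sq_nonneg (1 / (p : ℝ))])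
  have h8 : (1 - (ν : ℝ) / p) * (1 + m * (1 / (p : ℝ))) ≤
      (1 - (ν : ℝ) / p) / (1 - 1 / (p : ℝ)) ^ m := by
    rw [le_div_iff₀ (by positivity), mul_assoc]
    exact mul_le_of_le_one_right ((one_div_pos.2 p0).le.trans h6) h7
  refine le_trans ?_ h8
  rw [Real.exp_neg, inv_le_iff_one_le_mul₀ (Real.exp_pos _)]
  have h9 := Real.add_one_le_exp (8 * (m : ℝ) ^ 3 * (1 / (p : ℝ) ^ 2))
  have h10 : 0 ≤ m * (1 / (p : ℝ)) := by positivity
  rcases le_total (p : ℝ) (2 * m) with h | h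
  · have a1 : (p : ℝ) ≤ 8 * (m : ℝ) ^ 3 * (1 / (p : ℝ) ^ 2) := by
      rw [mul_one_div, le_div_iff₀ (by positivity)]
      nlinarith [pow_le_pow_left₀ p0.le h 3]
    calc (1 : ℝ) = 1 / p * 1 * p := by field_simp
      _ ≤ _ := by
        gcongr
        · exact mul_nonneg ((one_div_pos.2 p0).le.trans h6) (by linarith)
        · exact (one_div_pos.2 p0).le.trans h6
        · linarith
        · linarith
  · set t := m * (1 / (p : ℝ)) with ht
    have a1 : t ≤ 1 / 2 := by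
      rw [ht, mul_one_div, div_le_iff₀ p0]
      linarith
    have a2 : (ν : ℝ) / p ≤ t := by
      rw [ht, mul_one_div]
      gcongr
    have a3 : 8 * (m : ℝ) ^ 3 * (1 / (p : ℝ) ^ 2) = 8 * m * t ^ 2 := by
      rw [ht]
      ring
    rw [a3] at h9 ⊢
    have a4 : t ^ 2 ≤ 1 / 4 := by nlinarith
    calc (1 : ℝ) ≤ (1 - t) * (1 + t) * (1 + 2 * t ^ 2) := by nlinarith [sq_nonneg t]
      _ ≤ _ := by
        gcongr
        · exact mul_nonneg (by linarith) (by linarith)
        · nlinarith [sq_nonneg t]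

end LOW

open LOW in
theorem low : LOWStmt := by
  intro k
  refine ⟨fun x => tprod_nonneg fun p => ?_, ?_⟩
  · have p2 : (2 : ℝ) ≤ (p : ℕ) := by exact_mod_cast p.2.two_le
    have h1 : (rootCount x p : ℝ) ≤ (p : ℕ) := by
      exact_mod_cast (card_filter_le _ _).trans (card_range _).le
    exact div_nonneg (sub_nonneg.2 (div_le_one_of_le₀ h1 (by linarith)))
      (pow_nonneg (sub_nonneg.2 (div_le_one_of_le₀ (by linarith) (by linarith))) _)
  have hs : Summable fun p : Nat.Primes => 8 * ((k + 1 : ℕ) : ℝ) ^ 3 * (1 / ((p : ℕ) : ℝ) ^ 2) :=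
    ((Real.summable_one_div_nat_pow.2 one_lt_two).comp_injective Subtype.val_injective).mul_left _
  refine ⟨Real.exp (-∑' p : Nat.Primes, 8 * ((k + 1 : ℕ) : ℝ) ^ 3 * (1 / ((p : ℕ) : ℝ) ^ 2)),
    Real.exp_pos _, fun x hx hp => ?_⟩
  unfold singSeries
  by_cases hm : Multipliable fun p : Nat.Primes =>
    (1 - (rootCount x p : ℝ) / (p : ℕ)) / (1 - 1 / ((p : ℕ) : ℝ)) ^ (k + 1)
  · refine ge_of_tendsto' hm.hasProd fun V => ?_
    refine le_trans ?_ (prod_le_prod (fun _ _ => (Real.exp_pos _).le) fun p _ =>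
      fac_ge p.2.two_le k.succ_pos (hp p p.2) (root_le x p.2 hx))
    rw [← Real.exp_sum, sum_neg_distrib]
    exact Real.exp_le_exp.2 (neg_le_neg (hs.sum_le_tsum V fun _ _ => by positivity))
  · rw [tprod_eq_one_of_not_multipliable hm]
    exact Real.exp_le_one_iff.2 (neg_nonpos.2 (tsum_nonneg fun _ => by positivity))

end Pool.Agent.MP_39a890_nt.KT

end
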