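import Pool.Agent.MP_39a890_nt.kt.Spec

/-! Project KT, row MTK: the product of major arc models against the von Mangoldt function. -/

set_option autoImplicit false

noncomputable section

namespace Pool.Agent.MP_39a890_nt.KT

open Finset
open scoped ArithmeticFunction.vonMangoldt
open Pool.Agent.MP_678834_nt Pool.Agent.MP_678834_nt.HL9 Pool.Agent.MP_39a890_nt.MS

namespace MTK

theorem gl_abs {p : ℕ} (hp : p.Prime) (m : ℤ) : |gl p m| ≤ 1 := by
  have h2 : (2 : ℝ) ≤ p := by exact_mod_cast hp.two_le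
  unfold gl
  split_ifs
  · simp
  · rw [abs_of_nonneg (div_nonneg zero_le_one (by linarith)), div_le_one (by linarith)]
    linarith

theorem gl_per {p q : ℕ} (h : p ∣ q) (a b : ℤ) (n : ℕ) :
    gl p (a * ((n + q : ℕ) : ℤ) + b) = gl p (a * n + b) := by
  have h1 : (p : ℤ) ∣ a * q := Dvd.dvd.mul_left (by exact_mod_cast h) a
  have h2 : a * ((n + q : ℕ) : ℤ) + b = (a * n + b) + a * q := by push_cast; ring
  simp only [gl, h2, dvd_add_left h1]

theorem expand {k : ℕ} {R : Type*} [CommMonoid R] (T : Fin k → Finset ℕ) (g : ℕ → Fin k → R) :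
    ∏ i, ∏ p ∈ T i, g p i = ∏ p ∈ univ.biUnion T, ∏ i ∈ Sp T p, g p i :=
  prod_comm' fun i p => by
    simp only [Sp, mem_univ, true_and, mem_filter, mem_biUnion]
    exact ⟨fun h => ⟨h, i, h⟩, fun h => h.1⟩

theorem prod_le {k : ℕ} (T : Fin k → Finset ℕ) :
    ∏ p ∈ univ.biUnion T, p ≤ ∏ i, ∏ p ∈ T i, p := by
  rw [expand T fun p _ => p]
  refine prod_le_prod' fun p hp => ?_
  obtain ⟨i, -, hi⟩ := mem_biUnion.1 hp
  rw [prod_const]
  exact Nat.le_self_pow (card_pos.2 ⟨i, by simp [Sp, hi]⟩).ne' p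

theorem one (crt : CRTStmt) (loc1 : LOC1Stmt) {k N M : ℕ} {X W : ℝ}
    (H : ∀ (m : ℕ) (f : ℕ → ℝ), 1 ≤ m → (m : ℝ) ≤ X → (∀ n, f (n + m) = f n) →
      (∀ n, |f n| ≤ 1) → |∑ n ∈ Ioc N M, Λ n * f n - ((M : ℝ) - N) *
        ((∑ c ∈ (range m).filter (fun c => c.Coprime m), f c) / m.totient)| ≤ W)
    (x : Fin k → ℕ × ℤ) {U : Finset ℕ} (hU : ∀ p ∈ U, p.Prime) {Q : Fin k → ℕ}
    (hQ : ((∏ i, Q i : ℕ) : ℝ) ≤ X) {T : Fin k → Finset ℕ} (hT : ∀ i, T i ∈ TS U (Q i)) :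
    |∑ n ∈ Ioc N M, Λ n * ∏ i, ∏ p ∈ T i, gl p (((x i).1 : ℤ) * n + (x i).2) -
      (∏ p ∈ U, tp x p (Sp T p)) * ((M : ℝ) - N)| ≤ W := by
  have hsub : univ.biUnion T ⊆ U :=
    biUnion_subset.2 fun i _ => mem_powerset.1 (mem_filter.1 (hT i)).1
  have hpr : ∀ p ∈ univ.biUnion T, p.Prime := fun p hp => hU p (hsub hp)
  set f : ℕ → ℕ → ℝ := fun p n => ∏ i ∈ Sp T p, gl p (((x i).1 : ℤ) * n + (x i).2) with hf
  have hper : ∀ p q n, p ∣ q → f p (n + q) = f p n := fun p q n h =>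
    prod_congr rfl fun i _ => gl_per h _ _ n
  have h1 := H (∏ p ∈ univ.biUnion T, p) (fun n => ∏ p ∈ univ.biUnion T, f p n)
    (prod_pos fun p hp => (hpr p hp).pos)
    (le_trans (by
      exact_mod_cast (prod_le T).trans (prod_le_prod' fun i _ => (mem_filter.1 (hT i)).2)) hQ)
    (fun n => prod_congr rfl fun p hp => hper p _ n (dvd_prod_of_mem _ hp))
    (fun n => by
      rw [abs_prod]
      refine prod_le_one (fun _ _ => abs_nonneg _) fun p hp => ?_
      rw [hf, abs_prod]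
      exact prod_le_one (fun _ _ => abs_nonneg _) fun i _ => gl_abs (hpr p hp) _)
  rw [crt _ f hpr fun p _ n => hper p p n dvd_rfl] at h1
  have h2 : ∏ p ∈ U, tp x p (Sp T p) = ∏ p ∈ univ.biUnion T, tp x p (Sp T p) := by
    refine (prod_subset hsub fun p hp hn => ?_).symm
    have : Sp T p = ∅ := filter_eq_empty_iff.2 fun i _ hi => hn (mem_biUnion.2 ⟨i, mem_univ _, hi⟩)
    rw [this, (loc1 k x p (hU p hp)).1]
  rw [h2, mul_comm _ ((M : ℝ) - N)]
  simp only [expand T]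
  exact h1

end MTK

theorem mtk : LAMStmt → SWPStmt → CRTStmt → LOC1Stmt → MTKStmt := fun lam swp crt loc1 k K B => by
  obtain ⟨C, N₀, hC⟩ := swp (K + B * k) (B * k)
  refine ⟨|C|, max N₀ 3, fun N M y Q x hN hM hM2 hQ hx => ?_⟩
  have hN0 : N₀ ≤ N := (le_max_left _ _).trans hN
  have hN3 : (3 : ℝ) ≤ N := (le_max_right _ _).trans hN
  have hL : 0 < Real.log N := Real.log_pos (by linarith)
  have hQ' : ((∏ i, Q i : ℕ) : ℝ) ≤ Real.log N ^ (B * k) := by
    rw [Nat.cast_prod, pow_mul]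
    refine (prod_le_prod (fun _ _ => Nat.cast_nonneg _) fun i _ => (hQ i).1).trans (le_of_eq ?_)
    simp
  have key : ∑ n ∈ Ioc N M, ((Λ n : ℝ) : ℂ) * ∏ i, lamS (Q i) (fv (x i) n) -
      ((box (tp x) y.primesBelow Q * ((M : ℝ) - N) : ℝ) : ℂ) =
      ((∑ T ∈ Fintype.piFinset fun i => TS y.primesBelow (Q i),
        (∑ n ∈ Ioc N M, Λ n * ∏ i, ∏ p ∈ T i, gl p (((x i).1 : ℤ) * n + (x i).2) -
          (∏ p ∈ y.primesBelow, tp x p (Sp T p)) * ((M : ℝ) - N)) : ℝ) : ℂ) := by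
    rw [sum_sub_distrib, ← sum_mul, sum_comm, Complex.ofReal_sub, Complex.ofReal_sum]
    congr 1
    refine sum_congr rfl fun n hn => ?_
    rw [← mul_sum, ← prod_univ_sum (fun i => TS y.primesBelow (Q i))
      fun i T => ∏ p ∈ T, gl p (((x i).1 : ℤ) * n + (x i).2), Complex.ofReal_mul,
      Complex.ofReal_prod]
    congr 1
    refine prod_congr rfl fun i _ => ?_
    have h1 : (N : ℤ) < n := by exact_mod_cast (mem_Ioc.1 hn).1
    have h2 : (1 : ℤ) ≤ (x i).1 := by exact_mod_cast (hx i).1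
    have h3 := (abs_le.1 (hx i).2).1
    have h4 : ((fv (x i) n : ℕ) : ℤ) = ((x i).1 : ℤ) * n + (x i).2 :=
      Int.toNat_of_nonneg (by nlinarith [Int.natCast_nonneg N])
    rw [(lam (Q i) y _ (hQ i).2).1, h4]
  rw [key, Complex.norm_real, Real.norm_eq_abs]
  refine (abs_sum_le_sum_abs _ _).trans ((sum_le_card_nsmul _ _
    (|C| * N / Real.log N ^ (K + B * k)) fun T hT => ?_).trans ?_)
  · refine MTK.one crt loc1 (fun m f h1 h2 h3 h4 => (hC N M m f hN0 hM hM2 h1 h2 h3 h4).trans ?_) x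
      (fun p hp => Nat.prime_of_mem_primesBelow hp) hQ' (Fintype.mem_piFinset.1 hT)
    gcongr
    exact le_abs_self C
  · have h1 : ((Fintype.piFinset fun i => TS y.primesBelow (Q i)).card : ℝ) ≤
        Real.log N ^ (B * k) := by
      refine le_trans ?_ hQ'
      rw [Fintype.card_piFinset]
      exact_mod_cast prod_le_prod' fun i _ => (lam (Q i) y 0 (hQ i).2).2.1
    rw [nsmul_eq_mul]
    calc _ ≤ Real.log N ^ (B * k) * (|C| * N / Real.log N ^ (K + B * k)) := by gcongr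
      _ = _ := by rw [pow_add]; field_simp

end Pool.Agent.MP_39a890_nt.KT
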