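import Pool.Agent.MP_39a890_nt.kt.Spec3

/-! Project KS: tuples of shifts in short windows. Definitions and statements of the modules. -/

set_option autoImplicit false

noncomputable section

namespace Pool.Agent.MP_39a890_nt.KT

open Finset
open scoped ArithmeticFunction.vonMangoldt
open Pool.Agent.MP_678834_nt Pool.Agent.MP_678834_nt.HL9 Pool.Agent.MP_39a890_nt.MS

/-- the forms `n + d i` -/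
def sh {k : ℕ} (d : Fin k → ℤ) : Fin k → ℕ × ℤ := fun i => (1, d i)

/-- a product of windows -/
def wn {k : ℕ} (u : Fin k → ℤ) (H : ℕ) : Finset (Fin k → ℤ) :=
  Fintype.piFinset fun i => Ioc (u i) (u i + H)

/-- the number of prime factors up to `z` -/
def om (z : ℝ) (g : ℤ) : ℕ := (g.natAbs.primeFactors.filter fun p : ℕ => (p : ℝ) ≤ z).card

/-- the number of prime tuples -/
def pit {k : ℕ} (d : Fin k → ℤ) (N : ℕ) : ℕ :=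
  ((Icc 1 N).filter fun p : ℕ => p.Prime ∧ ∀ i, ((p : ℤ) + d i).toNat.Prime).card

open Classical in
def CHSStmt : Prop := ∀ ε : ℝ, 0 < ε → ∀ J K : ℕ, ∃ B₁ : ℕ, ∀ B : ℕ, B₁ ≤ B →
  ∃ C N₀ : ℝ, 0 ≤ C ∧ ∀ (N H Q : ℕ) (u : ℤ) (β : ℕ → ℂ), N₀ ≤ N → Real.log N ^ B ≤ Q →
    (Q : ℝ) ≤ 2 * Real.log N ^ B → (N : ℝ) ^ (1 / 9 + ε) ≤ H → 4 * (|u| + H) ≤ N →
    (∀ n ∈ Ioc N (2 * N), ‖β n‖ ≤ Real.log N ^ J) →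
    (((Ioc u (u + H)).filter fun d : ℤ => N / Real.log N ^ K <
      ‖∑ n ∈ Ioc N (2 * N), β n * (((Λ (fv (1, d) n) : ℝ) : ℂ) - lamS Q (fv (1, d) n))‖).card : ℝ) ≤
      C * H / Real.log N ^ K

open Classical in
def TLSStmt : Prop := ∀ ε : ℝ, 0 < ε → ∀ k J K B₀ : ℕ,
  ∃ (B : Fin k → ℕ) (C N₀ : ℝ), 0 ≤ C ∧ (∀ i, B₀ ≤ B i) ∧
    ∀ (N H : ℕ) (Q : Fin k → ℕ) (u : Fin k → ℤ) (β : ℕ → ℂ), N₀ ≤ N →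
    (∀ i, Real.log N ^ B i ≤ Q i ∧ (Q i : ℝ) ≤ 2 * Real.log N ^ B i) →
    (N : ℝ) ^ (1 / 9 + ε) ≤ H → (∀ i, 4 * (|u i| + H) ≤ N) →
    (∀ n ∈ Ioc N (2 * N), ‖β n‖ ≤ Real.log N ^ J) →
    (((wn u H).filter fun d => k * (N / Real.log N ^ K) < ‖∑ n ∈ Ioc N (2 * N), β n *
        (∏ i, ((Λ (fv (sh d i) n) : ℝ) : ℂ) - ∏ i, lamS (Q i) (fv (sh d i) n))‖).card : ℝ) ≤
      C * (H : ℝ) ^ k / Real.log N ^ K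

def SER4Stmt : Prop := ∀ k E : ℕ, ∃ C : ℝ, 0 ≤ C ∧ ∀ (L q : ℝ) (y : ℕ) (Q : Fin k → ℕ)
  (d : Fin k → ℤ), 1 ≤ L → 0 < q → q ≤ y → (∀ i, q ≤ Q i) → Function.Injective d →
  (∀ i, d i ≠ 0) → Real.log (dl (sh d)).natAbs ≤ E * L →
    |singSeries (sh d) - box (tp (sh d)) y.primesBelow Q| ≤
      C * 2 ^ om (L ^ 2) (dl (sh d)) / Real.sqrt q

open Classical in
def OMGStmt : Prop := ∀ K : ℕ, ∃ (J : ℕ) (C N₀ : ℝ), 0 ≤ C ∧ ∀ (N H : ℕ) (v : ℤ), N₀ ≤ N →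
  (N : ℝ) ^ (1 / 9 : ℝ) ≤ H →
    (((Ioc v (v + H)).filter fun g : ℤ =>
      g = 0 ∨ Real.log N ^ J < 2 ^ om (Real.log N ^ 2) g).card : ℝ) ≤ C * H / Real.log N ^ K

open Classical in
def OMTStmt : Prop := ∀ k K : ℕ, ∃ (J : ℕ) (C N₀ : ℝ), 0 ≤ C ∧
  ∀ (N H : ℕ) (u : Fin k → ℤ), N₀ ≤ N → (N : ℝ) ^ (1 / 9 : ℝ) ≤ H →
    (((wn u H).filter fun d => ¬ (Function.Injective d ∧ (∀ i, d i ≠ 0) ∧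
      2 ^ om (Real.log N ^ 2) (dl (sh d)) ≤ Real.log N ^ J)).card : ℝ) ≤
      C * (H : ℝ) ^ k / Real.log N ^ K

def KSStmt : Prop := ∀ ε : ℝ, 0 < ε → ∀ k K : ℕ, ∃ C N₀ : ℝ, 0 ≤ C ∧
  ∀ (N M H : ℕ) (u : Fin k → ℤ), N₀ ≤ (N : ℝ) → N ≤ M → M ≤ 2 * N →
    (N : ℝ) ^ (1 / 9 + ε) ≤ H → (∀ i, 4 * (|u i| + H) ≤ N) →
    ∃ Ex : Finset (Fin k → ℤ), (Ex.card : ℝ) ≤ C * (H : ℝ) ^ k / Real.log N ^ K ∧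
      ∀ d ∈ wn u H, d ∉ Ex →
        |∑ n ∈ Ioc N M, Λ n * ∏ i, Λ (fv (sh d i) n) - singSeries (sh d) * ((M : ℝ) - N)| ≤
          N / Real.log N ^ K

def UNK4Stmt : Prop := ∀ ε : ℝ, 0 < ε → ∀ k K : ℕ, ∃ C N₀ : ℝ, 0 ≤ C ∧
  ∀ (N H : ℕ) (u : Fin k → ℤ), N₀ ≤ (N : ℝ) → (N : ℝ) ^ (1 / 9 + ε) ≤ H →
    (∀ i, ((|u i| + H : ℤ) : ℝ) ≤ (N : ℝ) ^ (1 - ε)) →
    ∃ Ex : Finset (Fin k → ℤ), (Ex.card : ℝ) ≤ C * (H : ℝ) ^ k / Real.log N ^ K ∧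
      ∀ d ∈ wn u H, d ∉ Ex → singSeries (sh d) ≤ Real.log N ^ (k + 2) ∧ ∀ y : ℕ, y ≤ N →
        |∑ n ∈ Icc 1 y, Λ n * ∏ i, Λ (fv (sh d i) n) - singSeries (sh d) * y| ≤
          N / Real.log N ^ K

def CNT4Stmt : Prop := ∀ ε : ℝ, 0 < ε → ∀ k K : ℕ, ∃ (K' : ℕ) (N₀ : ℝ),
  ∀ (N : ℕ) (d : Fin k → ℤ) (s : ℝ), N₀ ≤ (N : ℝ) → 0 ≤ s → s ≤ Real.log N ^ (k + 2) →
    (∀ i, ((|d i| : ℤ) : ℝ) ≤ (N : ℝ) ^ (1 - ε)) →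
    (∀ y : ℕ, y ≤ N → |∑ n ∈ Icc 1 y, Λ n * ∏ i, Λ (fv (sh d i) n) - s * y| ≤
      N / Real.log N ^ K') →
    |(pit d N : ℝ) - s * ∫ t in (2 : ℝ)..N, 1 / Real.log t ^ (k + 1)| ≤ N / Real.log N ^ K

def LIStmt : Prop := ∀ m : ℕ, ∃ C x₀ : ℝ, ∀ x : ℝ, x₀ ≤ x →
  |(∫ t in (2 : ℝ)..x, 1 / Real.log t ^ m) * Real.log x ^ m / x - 1| ≤ C / Real.log x

def FIN4Stmt : Prop := ∀ (k : ℕ) (ε : ℝ), 0 < ε → ∀ A : ℕ, ∃ C x₀ : ℝ,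
  ∀ (x : ℝ) (H : ℕ) (u : Fin k → ℤ), x₀ ≤ x → x ^ (1 / 9 + ε) ≤ (H : ℝ) →
    (∀ i, ((|u i| + H : ℤ) : ℝ) ≤ x ^ (1 - ε)) →
    ∃ Ex : Finset (Fin k → ℤ), (Ex.card : ℝ) ≤ C * (H : ℝ) ^ k / Real.log x ^ A ∧
      ∀ d ∈ wn u H, d ∉ Ex →
        |(pit d ⌊x⌋₊ : ℝ) - singSeries (sh d) * ∫ t in (2 : ℝ)..x, 1 / Real.log t ^ (k + 1)| ≤
          x / Real.log x ^ A ∧
        ((∀ p : ℕ, p.Prime → rootCount (sh d) p < p) →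
          |(pit d ⌊x⌋₊ : ℝ) * Real.log x ^ (k + 1) / (singSeries (sh d) * x) - 1| ≤
            C / Real.log x)

def SG1Stmt : Prop := ∀ d : ℤ, d ≠ 0 →
  singSeries (sh fun _ : Fin 1 => d) = sing d.natAbs ∧
    ((∀ p : ℕ, p.Prime → rootCount (sh fun _ : Fin 1 => d) p < p) ↔ Even d)

theorem ks_chain (chs : CHSStmt) (tls : CHSStmt → TLSStmt) (ser : SER4Stmt) (omg : OMGStmt)
    (omt : OMGStmt → OMTStmt) (mtk : MTKStmt)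
    (asm : MTKStmt → TLSStmt → SER4Stmt → OMTStmt → KSStmt) (low : LOWStmt)
    (unk : LOWStmt → KSStmt → UNK4Stmt) (cnt : CNT4Stmt) (li : LIStmt)
    (fin : LOWStmt → UNK4Stmt → CNT4Stmt → LIStmt → FIN4Stmt) : FIN4Stmt :=
  fin low (unk low (asm mtk (tls chs) ser (omt omg))) cnt li

end Pool.Agent.MP_39a890_nt.KT
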