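import Mathlib.Data.Int.CardIntervalMod
import Pool.Agent.MP_39a890_nt.kt.Spec4

/-! Row OMG: integers with many small prime factors in short windows. -/

set_option autoImplicit false

noncomputable section

namespace Pool.Agent.MP_39a890_nt.KT

open Finset Filter

namespace OMG

theorem mult {m : ℕ} (hm : 0 < m) (v : ℤ) (H : ℕ) :
    (((Ioc v (v + H)).filter fun g : ℤ => (m : ℤ) ∣ g).card : ℝ) ≤ H * (1 / (m : ℝ)) + 1 := by
  have m0 : (0 : ℚ) < m := by exact_mod_cast hm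
  have h := Int.Ioc_filter_dvd_card v (v + H) (r := m) (by exact_mod_cast hm)
  have k : (((Ioc v (v + H)).filter fun g : ℤ => (m : ℤ) ∣ g).card : ℚ) ≤ H * (1 / (m : ℚ)) + 1 := by
    have e : (((Ioc v (v + H)).filter fun g : ℤ => (m : ℤ) ∣ g).card : ℚ) =
        ((max (⌊((v + H : ℤ) : ℚ) / ((m : ℤ) : ℚ)⌋ - ⌊(v : ℚ) / ((m : ℤ) : ℚ)⌋) 0 : ℤ) : ℚ) := by
      rw [← h, Int.cast_natCast]
    rw [e]
    push_cast
    refine max_le ?_ (by positivity)
    have a := Int.floor_le (((v : ℚ) + H) / m)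
    have b := Int.lt_floor_add_one ((v : ℚ) / m)
    rw [add_div] at a ⊢
    rw [mul_one_div]
    linarith
  have k' := (Rat.cast_le (K := ℝ)).2 k
  push_cast at k'
  exact k'

theorem sym (U : Finset ℕ) (r : ℕ) : ∑ T ∈ powersetCard r U, 1 / ((∏ p ∈ T, p : ℕ) : ℝ) ≤
    Real.exp (3 * ∑ p ∈ U, 1 / (p : ℝ) - r) := by
  have e : ∀ T ∈ powersetCard r U, 1 / ((∏ p ∈ T, p : ℕ) : ℝ) ≤
      Real.exp (-r) * ∏ p ∈ T, 3 * (1 / (p : ℝ)) := fun T hT => by
    rw [prod_mul_distrib, prod_const, (mem_powersetCard.1 hT).2, prod_div_distrib, prod_const_one,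
      Nat.cast_prod, ← mul_assoc]
    refine le_mul_of_one_le_left (by positivity) ?_
    rw [Real.exp_neg, ← Real.exp_one_pow, le_inv_mul_iff₀ (by positivity), mul_one]
    exact pow_le_pow_left₀ (Real.exp_pos 1).le (by linarith [Real.exp_one_lt_d9]) r
  refine (sum_le_sum e).trans ?_
  rw [← mul_sum, sub_eq_neg_add, Real.exp_add, mul_sum U]
  refine mul_le_mul_of_nonneg_left (le_trans ?_
    (Real.prod_one_add_le_exp_sum U fun p => by positivity)) (Real.exp_pos _).le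
  rw [prod_one_add]
  exact sum_le_sum_of_subset_of_nonneg (fun T hT => mem_powerset.2 (mem_powersetCard.1 hT).1)
    fun T _ _ => prod_nonneg fun p _ => by positivity

theorem count {z : ℝ} (hz : 1 ≤ z) (r : ℕ) (v : ℤ) (H : ℕ) (P : ℤ → Prop) [DecidablePred P]
    (hP : ∀ g, P g → g = 0 ∨ r ≤ om z g) : (((Ioc v (v + H)).filter P).card : ℝ) ≤
      1 + (H * Real.exp (3 * (1 + Real.log z) - r) + z ^ r) := by
  set U := (Icc 1 ⌊z⌋₊).filter Nat.Prime with hU
  have z0 : 0 ≤ z := by linarith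
  have sub : (Ioc v (v + H)).filter P ⊆ insert 0 ((powersetCard r U).biUnion fun T =>
      (Ioc v (v + H)).filter fun g : ℤ => ((∏ p ∈ T, p : ℕ) : ℤ) ∣ g) := fun g hg => by
    obtain ⟨g1, g2⟩ := mem_filter.1 hg
    refine mem_insert.2 ((hP g g2).imp_right fun h => ?_)
    obtain ⟨T, t1, t2⟩ := exists_subset_card_eq h
    have t3 : ∀ p ∈ T, p.Prime ∧ p ∣ g.natAbs ∧ (p : ℝ) ≤ z := fun p hp =>
      have k := mem_filter.1 (t1 hp)
      ⟨Nat.prime_of_mem_primeFactors k.1, Nat.dvd_of_mem_primeFactors k.1, k.2⟩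
    refine mem_biUnion.2 ⟨T, mem_powersetCard.2 ⟨fun p hp => mem_filter.2
      ⟨mem_Icc.2 ⟨(t3 p hp).1.one_le, Nat.le_floor (t3 p hp).2.2⟩, (t3 p hp).1⟩, t2⟩,
      mem_filter.2 ⟨g1, Int.natCast_dvd.2 ?_⟩⟩
    exact prod_primes_dvd _ (fun p hp => (t3 p hp).1.prime) fun p hp => (t3 p hp).2.1
  have c1 : ((Ioc v (v + H)).filter P).card ≤ 1 + ∑ T ∈ powersetCard r U,
      ((Ioc v (v + H)).filter fun g : ℤ => ((∏ p ∈ T, p : ℕ) : ℤ) ∣ g).card :=
    (card_le_card sub).trans ((card_insert_le _ _).trans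
      (by rw [add_comm]; exact Nat.add_le_add_left card_biUnion_le 1))
  have c2 : ∑ p ∈ U, 1 / (p : ℝ) ≤ 1 + Real.log z := by
    have a := harmonic_le_one_add_log ⌊z⌋₊
    rw [harmonic_eq_sum_Icc] at a
    push_cast at a
    have f : (0 : ℝ) < ⌊z⌋₊ := by exact_mod_cast Nat.floor_pos.2 hz
    have b := Real.log_le_log f (Nat.floor_le z0)
    have c : ∑ p ∈ U, 1 / (p : ℝ) ≤ ∑ p ∈ Icc 1 ⌊z⌋₊, 1 / (p : ℝ) :=
      sum_le_sum_of_subset_of_nonneg (filter_subset _ _) fun _ _ _ => by positivity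
    simp only [one_div] at c ⊢
    linarith
  have c3 : ((powersetCard r U).card : ℝ) ≤ z ^ r := by
    have a : (U.card : ℝ) ≤ z := by
      refine le_trans ?_ (Nat.floor_le z0)
      exact_mod_cast (card_filter_le _ _).trans (by simp)
    rw [card_powersetCard]
    refine le_trans ?_ (pow_le_pow_left₀ (Nat.cast_nonneg _) a r)
    exact_mod_cast Nat.choose_le_pow _ _
  refine le_trans (Nat.cast_le.2 c1) ?_
  rw [Nat.cast_add, Nat.cast_one, Nat.cast_sum]
  refine add_le_add_right ((sum_le_sum fun T hT => mult (prod_pos fun p hp =>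
    (mem_filter.1 ((mem_powersetCard.1 hT).1 hp)).2.pos) v H).trans ?_) _
  rw [sum_add_distrib, ← mul_sum, sum_const, nsmul_eq_mul, mul_one]
  refine add_le_add (mul_le_mul_of_nonneg_left ((sym U r).trans (Real.exp_le_exp.2 ?_))
    (Nat.cast_nonneg _)) c3
  linarith

end OMG

theorem omg : OMGStmt := by
  intro K
  have K0 : (0 : ℝ) ≤ K := Nat.cast_nonneg K
  obtain ⟨L₀, hL⟩ := eventually_atTop.1 (((Real.isLittleO_pow_log_id_atTop (n := 2)).bound
    (c := 1 / (9 * (3 * K + 14))) (by positivity)).and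
      ((Real.tendsto_log_atTop.eventually_ge_atTop 1).and (eventually_ge_atTop 1)))
  refine ⟨K + 7, Real.exp 3 + 2, Real.exp L₀, by positivity, fun N H v hN hH => ?_⟩
  have N0 : (0 : ℝ) < N := (Real.exp_pos _).trans_le hN
  obtain ⟨a1, a2, a3⟩ := hL (Real.log N) ((Real.le_log_iff_exp_le N0).2 hN)
  rw [Real.rpow_def_of_pos N0] at hH
  generalize Real.log N = L at *
  have L0 : 0 < L := by linarith
  have eL : ∀ n : ℕ, L ^ n = Real.exp (n * Real.log L) := fun n => by
    rw [Real.exp_nat_mul, Real.exp_log L0]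
  rw [id, Real.norm_of_nonneg (sq_nonneg _), Real.norm_of_nonneg L0.le, one_div,
    le_inv_mul_iff₀ (by positivity)] at a1
  set r := ⌈((K : ℝ) + 6) * Real.log L⌉₊ with hr
  have r1 : ((K : ℝ) + 6) * Real.log L ≤ r := Nat.le_ceil _
  have r2 : (r : ℝ) ≤ (K + 7) * Real.log L := by
    have := Nat.ceil_lt_add_one (a := ((K : ℝ) + 6) * Real.log L) (by positivity)
    linarith
  have key : ∀ g : ℤ, L ^ (K + 7) < 2 ^ om (L ^ 2) g → r ≤ om (L ^ 2) g := fun g h => by
    have b : (2 : ℝ) ^ om (L ^ 2) g ≤ Real.exp (om (L ^ 2) g) := by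
      rw [← Real.exp_one_pow]
      exact pow_le_pow_left₀ zero_le_two (by linarith [Real.exp_one_gt_d9]) _
    rw [eL] at h
    have c := Real.exp_lt_exp.1 (h.trans_le b)
    push_cast at c
    exact_mod_cast r2.trans c.le
  refine (OMG.count (z := L ^ 2) (one_le_pow₀ a3) r v H _ fun g hg =>
    hg.imp_right (key g)).trans ?_
  · rw [Real.log_pow, ← pow_mul, eL (2 * r), le_div_iff₀ (by positivity), eL K]
    push_cast
    set l := Real.log L with hl
    have b1 : Real.exp (3 * (1 + 2 * l) - r) * Real.exp (K * l) ≤ Real.exp 3 := by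
      rw [← Real.exp_add]
      exact Real.exp_le_exp.2 (by linarith)
    have b2 : Real.exp (2 * r * l) * Real.exp (K * l) ≤ H := by
      rw [← Real.exp_add]
      refine le_trans (Real.exp_le_exp.2 ?_) hH
      nlinarith [mul_le_mul_of_nonneg_right r2 (by linarith : 0 ≤ l),
        mul_nonneg (mul_nonneg K0 (by linarith : 0 ≤ l)) (by linarith : 0 ≤ l - 1)]
    have b3 : Real.exp (K * l) ≤ Real.exp (2 * r * l) * Real.exp (K * l) :=
      le_mul_of_one_le_left (Real.exp_pos _).le (Real.one_le_exp (by positivity))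
    have b4 := mul_le_mul_of_nonneg_left b1 (Nat.cast_nonneg (α := ℝ) H)
    nlinarith

end Pool.Agent.MP_39a890_nt.KT
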