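import Pool.Agent.MP_39a890_nt.kt.Spec4

/-! Project KS: few tuples have a discriminant with many small prime factors. -/

set_option autoImplicit false

noncomputable section

namespace Pool.Agent.MP_39a890_nt.KT

open Finset

namespace OMT

theorem om_mul (z : ℝ) (a b : ℤ) : om z (a * b) ≤ om z a + om z b := by
  refine le_trans (card_le_card fun p hp => ?_) (card_union_le _ _)
  obtain ⟨h1, h2⟩ := mem_filter.1 hp
  obtain ⟨h3, h4, h5⟩ := Nat.mem_primeFactors.1 h1
  rw [Int.natAbs_mul] at h4 h5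
  exact mem_union.2 (((Nat.Prime.dvd_mul h3).1 h4).imp
    (fun h => mem_filter.2 ⟨Nat.mem_primeFactors.2 ⟨h3, h, left_ne_zero_of_mul h5⟩, h2⟩)
    fun h => mem_filter.2 ⟨Nat.mem_primeFactors.2 ⟨h3, h, right_ne_zero_of_mul h5⟩, h2⟩)

theorem pw_mul (z : ℝ) (a b : ℤ) : (2 : ℝ) ^ om z (a * b) ≤ 2 ^ om z a * 2 ^ om z b := by
  rw [← pow_add]
  exact pow_le_pow_right₀ one_le_two (om_mul z a b)

theorem pw_prod {ι : Type} (z B : ℝ) (s : Finset ι) (g : ι → ℤ)
    (h : ∀ i ∈ s, (2 : ℝ) ^ om z (g i) ≤ B) : (2 : ℝ) ^ om z (∏ i ∈ s, g i) ≤ B ^ #s := by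
  classical
  induction s using Finset.induction_on with
  | empty => simp [om]
  | insert i s hi ih =>
    rw [prod_insert hi, card_insert_of_notMem hi, pow_succ']
    have a := h i (mem_insert_self _ _)
    exact (pw_mul _ _ _).trans (mul_le_mul a (ih fun j hj => h j (mem_insert_of_mem hj))
      (by positivity) (le_trans (by positivity) a))

theorem marg {k H : ℕ} (u : Fin k → ℤ) (j : Fin k) (c : (Fin k → ℤ) → ℤ)
    (hc : ∀ d t, c (Function.update d j t) = c d) (P : ℤ → Prop) [DecidablePred P] {B : ℝ}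
    (hB : ∀ v : ℤ, (#{g ∈ Ioc v (v + H) | P g} : ℝ) ≤ B) :
    (#{d ∈ wn u H | P (d j - c d)} : ℝ) * H ≤ (H : ℝ) ^ k * B := by
  have e := card_eq_sum_card_fiberwise (s := {d ∈ wn u H | P (d j - c d)} ×ˢ Ioc (u j) (u j + H))
    (t := wn u H) (f := fun x => Function.update x.1 j x.2) fun x hx => by
      obtain ⟨h1, h2⟩ := mem_product.1 hx
      refine Fintype.mem_piFinset.2 fun l => ?_
      by_cases q : l = j
      · subst q
        simpa using h2
      · simpa [q] using Fintype.mem_piFinset.1 (mem_filter.1 h1).1 l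
  have w : (#(wn u H) : ℝ) = (H : ℝ) ^ k := by simp [wn, Fintype.card_piFinset, Int.card_Ioc]
  rw [card_product, Int.card_Ioc, add_sub_cancel_left, Int.toNat_natCast] at e
  rw [← Nat.cast_mul, e, Nat.cast_sum, ← w, ← nsmul_eq_mul]
  refine sum_le_card_nsmul _ _ _ fun y _ => le_trans ?_ (hB (u j - c y))
  refine Nat.cast_le.2 (card_le_card_of_injOn (fun x => x.1 j - c y) (fun x hx => ?_) ?_)
  · obtain ⟨h1, rfl⟩ := mem_filter.1 hx
    obtain ⟨h2, h3⟩ := mem_filter.1 (mem_product.1 h1).1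
    have := mem_Ioc.1 (Fintype.mem_piFinset.1 h2 j)
    rw [hc]
    exact mem_filter.2 ⟨mem_Ioc.2 ⟨by beta_reduce; omega, by beta_reduce; omega⟩, h3⟩
  · intro x hx x' hx' q
    have a := (mem_filter.1 hx).2.trans (mem_filter.1 hx').2.symm
    refine Prod.ext (funext fun l => ?_) (by simpa using congrFun a j)
    by_cases r : l = j
    · subst r
      exact sub_left_injective q
    · simpa [r] using congrFun a l

end OMT

open OMT in
theorem omt : OMGStmt → OMTStmt := by
  classical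
  intro h k K
  obtain ⟨J, C, N₀, C0, hC⟩ := h K
  refine ⟨J * (k + #(univ : Finset (Fin k)).offDiag), (k + #(univ : Finset (Fin k)).offDiag) * C,
    max N₀ 1, by positivity, fun N H u hN hH => ?_⟩
  have H0 : (0 : ℝ) < H :=
    (Real.rpow_pos_of_pos (one_pos.trans_le ((le_max_right _ _).trans hN)) _).trans_le hH
  have b := fun v => hC N H v ((le_max_left _ _).trans hN) hH
  generalize Real.log N = L at b ⊢
  have key : ∀ (j : Fin k) (c : (Fin k → ℤ) → ℤ), (∀ d t, c (Function.update d j t) = c d) →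
      (#{d ∈ wn u H | d j - c d = 0 ∨ L ^ J < 2 ^ om (L ^ 2) (d j - c d)} : ℝ) ≤
        C * (H : ℝ) ^ k / L ^ K := fun j c hc =>
    le_of_mul_le_mul_right ((marg u j c hc _ b).trans_eq (by ring)) H0
  have s1 := sum_le_card_nsmul univ _ _ fun (j : Fin k) _ => key j (fun _ => 0) fun _ _ => rfl
  have s2 := sum_le_card_nsmul univ.offDiag _ _ fun (ij : Fin k × Fin k) hij =>
    key ij.2 (fun d => d ij.1) fun _ _ => Function.update_of_ne (mem_offDiag.1 hij).2.2 _ _
  rw [card_univ, Fintype.card_fin, nsmul_eq_mul, ← Nat.cast_sum] at s1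
  rw [nsmul_eq_mul, ← Nat.cast_sum] at s2
  refine le_trans ?_ ((add_le_add s1 s2).trans_eq (by ring))
  rw [← Nat.cast_add]
  refine Nat.cast_le.2 (le_trans (card_le_card fun d hd => ?_) ((card_union_le _ _).trans
    (add_le_add card_biUnion_le card_biUnion_le)))
  obtain ⟨h1, h2⟩ := mem_filter.1 hd
  by_contra q
  simp only [mem_union, mem_biUnion, mem_filter, h1, true_and, mem_univ, not_or, not_exists,
    not_and, not_lt, sub_zero] at q
  obtain ⟨q1, q2⟩ := q
  refine h2 ⟨fun i j e => by_contra fun r => (q2 (i, j) (mem_offDiag.2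
    ⟨mem_univ _, mem_univ _, r⟩)).1 (sub_eq_zero.2 e.symm), fun i => (q1 i).1, ?_⟩
  rw [dl, pow_mul, pow_add]
  refine (pw_mul _ _ _).trans (mul_le_mul ((pw_prod _ (L ^ J) _ _ fun i _ => ?_).trans_eq (by simp))
    (pw_prod _ _ _ _ fun ij hij => ?_) (by positivity) ?_)
  · simpa [sh] using (q1 i).2
  · simpa [sh, dt] using (q2 ij hij).2
  · rcases Nat.eq_zero_or_pos k with rfl | hk
    · simp
    · exact pow_nonneg (le_trans (by positivity) (q1 ⟨0, hk⟩).2) _

end Pool.Agent.MP_39a890_nt.KT
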