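import Pool.Agent.MP_39a890_nt.kt.Spec

/-! Project KT: the tail of an Euler product. -/

set_option autoImplicit false

noncomputable section

namespace Pool.Agent.MP_39a890_nt.KT

open Finset

namespace RAN

variable {ι : Type} {b v s : ι → ℝ} {M r : ℝ}

lemma tail (hr : 0 < r) (hb : ∀ i, |b i - 1| ≤ v i) (hs : ∀ i, 1 ≤ s i) (W : Finset ι)
    (hW : ∀ i ∈ W, r ≤ s i) : 1 + r * |∏ i ∈ W, b i - 1| ≤ ∏ i ∈ W, (1 + s i * v i) := by
  classical
  induction W using Finset.induction_on with
  | empty => simp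
  | insert i W hi ih =>
    rw [prod_insert hi, prod_insert hi]
    have h1 := ih fun j hj => hW j (mem_insert_of_mem hj)
    have h2 := hW i (mem_insert_self _ _)
    have h3 := (abs_nonneg _).trans (hb i)
    have h4 := hs i
    generalize ∏ i ∈ W, b i = x at *
    have h5 : |b i * x - 1| ≤ v i * (1 + |x - 1|) + |x - 1| := by
      rw [show b i * x - 1 = (b i - 1) * (1 + (x - 1)) + (x - 1) by ring]
      refine (abs_add_le _ _).trans (add_le_add ?_ le_rfl)
      rw [abs_mul]
      exact mul_le_mul (hb i) ((abs_add_le _ _).trans_eq (by rw [abs_one])) (abs_nonneg _) h3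
    have h6 := abs_nonneg (x - 1)
    generalize |x - 1| = d at *
    refine le_trans ?_ (mul_le_mul_of_nonneg_left h1 (by positivity))
    have h7 := mul_le_mul_of_nonneg_left h5 hr.le
    have h8 := mul_le_mul_of_nonneg_right h2 h3
    have h9 := mul_le_mul_of_nonneg_right h4 (by positivity : 0 ≤ v i * (r * d))
    linarith

lemma key (hr : 0 < r) (hb : ∀ i, |b i - 1| ≤ v i) (hs : ∀ i, 1 ≤ s i)
    (hM : ∀ V : Finset ι, ∏ i ∈ V, (1 + s i * v i) ≤ M) (U : Finset ι) (hU : ∀ i ∉ U, r ≤ s i) :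
    |∏' i, b i - ∏ i ∈ U, b i| ≤ M / r := by
  classical
  have v0 : ∀ i, 0 ≤ v i := fun i => (abs_nonneg _).trans (hb i)
  have v1 : ∀ i, v i ≤ s i * v i := fun i => le_mul_of_one_le_left (v0 i) (hs i)
  have h1 : ∀ V : Finset ι, 1 + ∑ i ∈ V, v i ≤ ∏ i ∈ V, (1 + s i * v i) := fun V => by
    induction V using Finset.induction_on with
    | empty => simp
    | insert i V hi ih =>
      rw [sum_insert hi, prod_insert hi]
      have := sum_nonneg fun j (_ : j ∈ V) => v0 j
      nlinarith [v0 i, v1 i]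
  have h2 : Summable fun i => b i - 1 :=
    (summable_of_sum_le (c := M) v0 fun V => by linarith [h1 V, hM V]).of_norm_bounded hb
  have h3 : Multipliable b := by simpa using Real.multipliable_one_add_of_summable h2
  refine le_of_tendsto ((Filter.Tendsto.sub_const h3.hasProd _).abs)
    ((Filter.eventually_ge_atTop U).mono fun V hV => ?_)
  have h4 := tail hr hb hs (V \ U) fun i hi => hU i (mem_sdiff.1 hi).2
  have h5 : |∏ i ∈ U, b i| ≤ ∏ i ∈ U, (1 + s i * v i) := by
    rw [abs_prod]
    refine prod_le_prod (fun _ _ => abs_nonneg _) fun i _ => ?_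
    have := abs_add_le 1 (b i - 1)
    rw [abs_one, add_sub_cancel] at this
    linarith [hb i, v1 i]
  have h6 := hM V
  rw [← prod_sdiff hV] at h6 ⊢
  rw [← sub_one_mul, abs_mul, le_div_iff₀ hr, mul_comm, ← mul_assoc]
  exact (mul_le_mul (by linarith) h5 (abs_nonneg _) (le_trans (by positivity) h4)).trans h6

end RAN

theorem ran : RANStmt := by
  intro β u M y hy hb hM
  rw [← prod_subtype_of_mem β fun p hp => Nat.prime_of_mem_primesBelow hp]
  refine RAN.key (ι := Nat.Primes) (v := fun p => u p) (s := fun p => Real.sqrt (p : ℕ))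
    (Real.sqrt_pos.2 (by exact_mod_cast hy)) (fun p => hb p p.2)
    (fun p => Real.one_le_sqrt.2 (by exact_mod_cast p.2.one_le)) (fun V => ?_) _ fun p hp => ?_
  · let e : Nat.Primes ↪ ℕ := ⟨fun p => p, Nat.Primes.coe_nat_injective⟩
    refine (prod_map V e fun p => 1 + Real.sqrt p * u p).symm.trans_le (hM _ fun p hp => ?_)
    obtain ⟨q, -, rfl⟩ := mem_map.1 hp
    exact q.2
  · refine Real.sqrt_le_sqrt (Nat.cast_le.2 (not_lt.1 fun k => hp ?_))
    exact mem_subtype.2 (Nat.mem_primesBelow.2 ⟨k, p.2⟩)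

end Pool.Agent.MP_39a890_nt.KT
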