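import Pool.Agent.MP_39a890_nt.kt.Spec

/-! Project KT, row SER: the singular series against its truncation. -/

set_option autoImplicit false

noncomputable section

namespace Pool.Agent.MP_39a890_nt.KT

open Finset

namespace SER

theorem sum_le {k : ℕ} (f : Finset (Fin k) → ℝ) (b : ℝ) (hb : 0 ≤ b)
    (h : ∀ S, S ≠ ∅ → f S ≤ b) :
    ∑ S ∈ (univ : Finset (Finset (Fin k))).erase ∅, f S ≤ 2 ^ k * b := by
  refine (sum_le_card_nsmul _ _ b fun S hS => h S (ne_of_mem_erase hS)).trans ?_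
  rw [nsmul_eq_mul]
  refine mul_le_mul_of_nonneg_right ?_ hb
  have h1 : ((univ : Finset (Finset (Fin k))).erase ∅).card ≤ 2 ^ k :=
    card_erase_le.trans (by simp)
  exact_mod_cast h1

end SER

theorem ser : LOC1Stmt → LOC2Stmt → EXPStmt → RANStmt → EBStmt → DELStmt → SERStmt := by
  intro loc1 loc2 ex ran eb del k D
  obtain ⟨C, hC⟩ := eb (2 ^ k * (k + 1)) ((2 * D + 1) * (k + k ^ 2))
  refine ⟨2 * C, fun L q Z y Q x hL hq hy hZ hQ hx hc => ?_⟩
  obtain ⟨Δ, h0, h1, h2⟩ := del k Z x hx hc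
  have hΔ : (Δ : ℝ) ≤ L ^ ((2 * D + 1) * (k + k ^ 2)) := by
    have h3 : (Δ : ℝ) ≤ (2 * (Z : ℝ) ^ 2) ^ (k + k ^ 2) := by exact_mod_cast h1
    refine h3.trans ?_
    rw [pow_mul]
    refine pow_le_pow_left₀ (by positivity) ?_ _
    have h4 : (Z : ℝ) ^ 2 ≤ (L ^ D) ^ 2 := pow_le_pow_left₀ (by positivity) hZ 2
    have h5 : (0 : ℝ) ≤ (L ^ D) ^ 2 := by positivity
    rw [pow_succ L, mul_comm 2 D, pow_mul]
    nlinarith
  let u : ℕ → ℝ := fun p => ∑ S ∈ (univ : Finset (Finset (Fin k))).erase ∅, |tp x p S|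
  have hM := hC L Δ u hL h0 hΔ fun p hp => by
    have h3 : (0 : ℝ) ≤ (p : ℝ) - 1 := by
      have : (1 : ℝ) ≤ p := by exact_mod_cast hp.one_le
      linarith
    refine ⟨sum_nonneg fun _ _ => abs_nonneg _, ?_, fun h => ?_⟩
    · rw [mul_div_assoc]
      exact SER.sum_le _ _ (by positivity) fun S hS =>
        (loc2 k x p S hp hS fun i => (hc i).2.2.2).1
    · rw [mul_div_assoc]
      exact SER.sum_le _ _ (by positivity) fun S hS =>
        (loc2 k x p S hp hS fun i => (hc i).2.2.2).2 (h2 p hp h)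
  have hy1 : 1 ≤ y := by
    have : (0 : ℝ) < y := hq.trans_le hy
    exact_mod_cast this
  have hU : ∀ p ∈ y.primesBelow, p.Prime := fun p hp => Nat.prime_of_mem_primesBelow hp
  have hR := ran (bt x) u (C * L) y hy1 (fun p hp => by
    rw [← (loc1 k x p hp).2, ← add_sum_erase _ _ (mem_univ ∅), (loc1 k x p hp).1,
      add_sub_cancel_left]
    exact abs_sum_le_sum_abs _ _) hM
  have hE := ex k (tp x) y.primesBelow Q q hq hQ fun p hp =>
    ⟨(hU p hp).one_le, (loc1 k x p (hU p hp)).1⟩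
  rw [prod_congr rfl fun p hp => (loc1 k x p (hU p hp)).2] at hE
  have hM0 : 0 ≤ C * L := by
    have := hM ∅ (by simp)
    rw [prod_empty] at this
    linarith
  have hs : 0 < Real.sqrt q := Real.sqrt_pos.2 hq
  have h3 : C * L / Real.sqrt y ≤ C * L / Real.sqrt q :=
    div_le_div_of_nonneg_left hM0 hs (Real.sqrt_le_sqrt hy)
  have h4 := hE.trans (div_le_div_of_nonneg_right (hM _ hU) hs.le)
  have h5 : singSeries x = ∏' p : Nat.Primes, bt x p := rfl
  rw [h5]
  refine (abs_sub_le _ (∏ p ∈ y.primesBelow, bt x p) _).trans ?_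
  have h6 : 2 * C * L / Real.sqrt q = C * L / Real.sqrt q + C * L / Real.sqrt q := by ring
  rw [h6]
  exact add_le_add (hR.trans h3) h4

end Pool.Agent.MP_39a890_nt.KT
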