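import Pool.Agent.MP_39a890_nt.kt.Spec3
import Pool.Agent.MP_39a890_nt.kt.SER
import Pool.Agent.MP_39a890_nt.kt.EB
import Pool.Agent.MP_39a890_nt.kt.DEL
import Pool.Agent.MP_39a890_nt.kt.LOC1
import Pool.Agent.MP_39a890_nt.kt.LOC2
import Pool.Agent.MP_39a890_nt.kt.EXP
import Pool.Agent.MP_39a890_nt.kt.RAN

/-! Project KT, row SER3: the singular series against its truncation, by the divisor function. -/

set_option autoImplicit false

noncomputable section

namespace Pool.Agent.MP_39a890_nt.KT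

open Finset
open Pool.Agent.MP_678834_nt Pool.Agent.MP_678834_nt.HL9 Pool.Agent.MP_39a890_nt.MS

namespace SER3

theorem bd (c : ℝ) (hc : 0 ≤ c) : ∃ C : ℝ, 0 ≤ C ∧ ∀ (Δ : ℕ) (u : ℕ → ℝ), Δ ≠ 0 →
    (∀ p : ℕ, p.Prime → 0 ≤ u p ∧ u p ≤ c / ((p : ℝ) - 1) ∧
      (¬ p ∣ Δ → u p ≤ c / ((p : ℝ) - 1) ^ 2)) →
    ∀ V : Finset ℕ, (∀ p ∈ V, p.Prime) → ∏ p ∈ V, (1 + √p * u p) ≤ C * Δ.divisors.card := by
  let z : ℕ := ⌈(4 * c) ^ 2⌉₊
  refine ⟨Real.exp (∑' n : ℕ, 4 * c * (n : ℝ) ^ (-(3 / 2) : ℝ) + z * (2 * c)), (Real.exp_pos _).le,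
    fun Δ u hΔ h V hV => ?_⟩
  have l : 1 / 2 ≤ Real.log 2 := by linarith [Real.log_two_gt_d9]
  have key : ∀ p ∈ V, √p * u p ≤ 4 * c * (p : ℝ) ^ (-(3 / 2) : ℝ) +
      (if p ∈ range z then 2 * c else 0) +
        if p ∈ Δ.primeFactors then Real.log 2 else 0 := fun p hp => by
    have pp := hV p hp
    have p2 : (2 : ℝ) ≤ p := by exact_mod_cast pp.two_le
    obtain ⟨a, b, d⟩ := h p pp
    have t : 0 ≤ 4 * c * (p : ℝ) ^ (-(3 / 2) : ℝ) := by positivity
    by_cases q : p ∣ Δ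
    · rw [if_pos (Nat.mem_primeFactors.2 ⟨pp, q, hΔ⟩)]
      have e := EB.div p2 a b
      have s0 : 0 ≤ √p * u p := by positivity
      split_ifs with w
      · have : 1 ≤ √p := Real.one_le_sqrt.2 (by linarith)
        nlinarith [mul_le_mul_of_nonneg_left this s0]
      · have w1 : 4 * c ≤ √p := Real.le_sqrt_of_sq_le
          ((Nat.le_ceil _).trans (Nat.cast_le.2 (not_lt.1 (mt mem_range.2 w))))
        have w3 : √p * u p ≤ 1 / 2 :=
          le_of_mul_le_mul_right (by linarith) (Real.sqrt_pos.2 (by linarith : (0 : ℝ) < p))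
        linarith
    · have := EB.gen hc p2 (d q)
      split_ifs <;> linarith
  have s1 : ∑ p ∈ V, 4 * c * (p : ℝ) ^ (-(3 / 2) : ℝ) ≤ ∑' n : ℕ, 4 * c * (n : ℝ) ^ (-(3 / 2) : ℝ) :=
    (Sng.summ (4 * c)).sum_le_tsum V fun n _ => by positivity
  have s2 : ∑ p ∈ V, (if p ∈ range z then 2 * c else 0) ≤ z * (2 * c) := by
    rw [sum_ite_mem, sum_const, nsmul_eq_mul]
    refine mul_le_mul_of_nonneg_right ?_ (by positivity)
    exact_mod_cast (card_le_card inter_subset_right).trans (card_range z).le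
  have s4 : 2 ^ (V ∩ Δ.primeFactors).card ≤ Δ.divisors.card := by
    rw [Nat.card_divisors hΔ]
    refine (Nat.pow_le_pow_right two_pos (card_le_card inter_subset_right)).trans
      (pow_card_le_prod _ _ _ fun p hp => ?_)
    have := (Nat.prime_of_mem_primeFactors hp).factorization_pos_of_dvd hΔ
      (Nat.dvd_of_mem_primeFactors hp)
    omega
  calc ∏ p ∈ V, (1 + √p * u p) ≤ ∏ p ∈ V, Real.exp (√p * u p) :=
        prod_le_prod (fun p hp => by have := (h p (hV p hp)).1; positivity)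
          fun p _ => by linarith [Real.add_one_le_exp (√p * u p)]
    _ = Real.exp (∑ p ∈ V, √p * u p) := (Real.exp_sum _ _).symm
    _ ≤ Real.exp (∑' n : ℕ, 4 * c * (n : ℝ) ^ (-(3 / 2) : ℝ) + z * (2 * c) +
          (V ∩ Δ.primeFactors).card * Real.log 2) := by
        refine Real.exp_le_exp.2 ((sum_le_sum key).trans ?_)
        rw [sum_add_distrib, sum_add_distrib, sum_ite_mem V Δ.primeFactors, sum_const,
          nsmul_eq_mul]
        linarith
    _ ≤ _ := by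
        rw [Real.exp_add, Real.exp_nat_mul, Real.exp_log two_pos]
        exact mul_le_mul_of_nonneg_left (by exact_mod_cast s4) (Real.exp_pos _).le

theorem gen {k : ℕ} {x : Fin k → ℕ × ℤ} {p : ℕ} (hp : ¬ p ∣ (dl x).natAbs) : Gen x p := by
  rw [← Int.natCast_dvd] at hp
  refine ⟨fun i => ?_, fun i j hij hd => hp ((hd.trans (dvd_prod_of_mem
    (fun ij : Fin k × Fin k => dt (x ij.1) (x ij.2))
    (mem_offDiag.2 ⟨mem_univ i, mem_univ j, hij⟩ : (i, j) ∈ _))).mul_left _)⟩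
  have a : ¬ (p : ℤ) ∣ ((x i).1 : ℤ) * (x i).2 := fun c => hp ((c.trans (dvd_prod_of_mem
    (fun i => ((x i).1 : ℤ) * (x i).2) (mem_univ i))).mul_right _)
  exact ⟨fun c => a ((Int.natCast_dvd_natCast.2 c).mul_right _), fun c => a (c.mul_left _)⟩

end SER3

theorem ser3 : SER3Stmt := by
  intro k
  obtain ⟨C, C0, hC⟩ := SER3.bd (2 ^ k * (k + 1)) (by positivity)
  refine ⟨2 * C, by positivity, fun q y Q x hq hy hQ hx hc => ?_⟩
  have h0 : (dl x).natAbs ≠ 0 := Int.natAbs_ne_zero.2 (mul_ne_zero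
    (prod_ne_zero_iff.2 fun i _ =>
      mul_ne_zero (by have := (hc i).1; omega) (DEL.b_ne (hc i).1 (hc i).2))
    (prod_ne_zero_iff.2 fun e he z => (mem_offDiag.1 he).2.2
      (hx (DEL.det_ne (hc e.1).1 (hc e.1).2 (hc e.2).2 z))))
  let u : ℕ → ℝ := fun p => ∑ S ∈ (univ : Finset (Finset (Fin k))).erase ∅, |tp x p S|
  have hM := hC _ u h0 fun p hp => by
    have h3 : (0 : ℝ) ≤ (p : ℝ) - 1 := by
      have : (1 : ℝ) ≤ p := by exact_mod_cast hp.one_le
      linarith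
    refine ⟨sum_nonneg fun _ _ => abs_nonneg _, ?_, fun h => ?_⟩
    · rw [mul_div_assoc]
      exact SER.sum_le _ _ (by positivity) fun S hS => (loc2 k x p S hp hS fun i => (hc i).2).1
    · rw [mul_div_assoc]
      exact SER.sum_le _ _ (by positivity) fun S hS =>
        (loc2 k x p S hp hS fun i => (hc i).2).2 (SER3.gen h)
  have hy1 : 1 ≤ y := by
    have : (0 : ℝ) < y := hq.trans_le hy
    exact_mod_cast this
  have hU : ∀ p ∈ y.primesBelow, p.Prime := fun p hp => Nat.prime_of_mem_primesBelow hp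
  have hR := ran (bt x) u (C * dv (dl x)) y hy1 (fun p hp => by
    rw [← (loc1 k x p hp).2, ← add_sum_erase _ _ (mem_univ ∅), (loc1 k x p hp).1,
      add_sub_cancel_left]
    exact abs_sum_le_sum_abs _ _) hM
  have hE := ex k (tp x) y.primesBelow Q q hq hQ fun p hp =>
    ⟨(hU p hp).one_le, (loc1 k x p (hU p hp)).1⟩
  rw [prod_congr rfl fun p hp => (loc1 k x p (hU p hp)).2] at hE
  have hs : 0 < Real.sqrt q := Real.sqrt_pos.2 hq
  have h3 : C * dv (dl x) / Real.sqrt y ≤ C * dv (dl x) / Real.sqrt q :=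
    div_le_div_of_nonneg_left (mul_nonneg C0 (Nat.cast_nonneg _)) hs (Real.sqrt_le_sqrt hy)
  have h4 : _ ≤ C * dv (dl x) / Real.sqrt q :=
    hE.trans (div_le_div_of_nonneg_right (hM _ hU) hs.le)
  refine (abs_sub_le _ (∏ p ∈ y.primesBelow, bt x p) _).trans ?_
  rw [mul_assoc, mul_div_assoc 2, two_mul]
  exact add_le_add (hR.trans h3) h4

end Pool.Agent.MP_39a890_nt.KT
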