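import Pool.Agent.MP_39a890_nt.kt.Spec4
import Pool.Agent.MP_39a890_nt.kt.SER3

/-! Project KS, row SER4: the singular series against its truncation, by the small prime factors. -/

set_option autoImplicit false

noncomputable section

namespace Pool.Agent.MP_39a890_nt.KT

open Finset
open Pool.Agent.MP_678834_nt Pool.Agent.MP_678834_nt.HL9 Pool.Agent.MP_39a890_nt.MS

namespace SER4

theorem card_le {Δ : ℕ} (hΔ : Δ ≠ 0) : (Δ.primeFactors.card : ℝ) * Real.log 2 ≤ Real.log Δ := by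
  have h : 2 ^ Δ.primeFactors.card ≤ Δ :=
    (pow_card_le_prod _ _ _ fun p hp => (Nat.prime_of_mem_primeFactors hp).two_le).trans
      (Nat.le_of_dvd (Nat.pos_of_ne_zero hΔ) (Nat.prod_primeFactors_dvd Δ))
  rw [← Real.log_pow]
  exact Real.log_le_log (by positivity) (by exact_mod_cast h)

theorem bd (c : ℝ) (hc : 0 ≤ c) (E : ℕ) : ∃ C : ℝ, 0 ≤ C ∧ ∀ (L : ℝ) (Δ : ℕ) (u : ℕ → ℝ), 1 ≤ L →
    Δ ≠ 0 → Real.log Δ ≤ E * L →
    (∀ p : ℕ, p.Prime → 0 ≤ u p ∧ u p ≤ c / ((p : ℝ) - 1) ∧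
      (¬ p ∣ Δ → u p ≤ c / ((p : ℝ) - 1) ^ 2)) →
    ∀ V : Finset ℕ, (∀ p ∈ V, p.Prime) → ∏ p ∈ V, (1 + √p * u p) ≤
      C * 2 ^ (Δ.primeFactors.filter fun p : ℕ => (p : ℝ) ≤ L ^ 2).card := by
  let z : ℕ := ⌈(4 * c) ^ 2⌉₊
  refine ⟨Real.exp (∑' n : ℕ, 4 * c * (n : ℝ) ^ (-(3 / 2) : ℝ) + z * (2 * c) + 4 * c * E),
    (Real.exp_pos _).le, fun L Δ u hL hΔ hE h V hV => ?_⟩
  set F := Δ.primeFactors.filter fun p : ℕ => (p : ℝ) ≤ L ^ 2 with hF
  have l : 1 / 2 ≤ Real.log 2 := by linarith [Real.log_two_gt_d9]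
  have L0 : 0 < L := by linarith
  have cL : 0 ≤ 2 * c / L := by positivity
  have key : ∀ p ∈ V, √p * u p ≤ 4 * c * (p : ℝ) ^ (-(3 / 2) : ℝ) +
      (if p ∈ range z then 2 * c else 0) + (if p ∈ Δ.primeFactors then 2 * c / L else 0) +
        if p ∈ F then Real.log 2 else 0 := fun p hp => by
    have pp := hV p hp
    have p2 : (2 : ℝ) ≤ p := by exact_mod_cast pp.two_le
    obtain ⟨a, b, d⟩ := h p pp
    have t : 0 ≤ 4 * c * (p : ℝ) ^ (-(3 / 2) : ℝ) := by positivity
    by_cases q : p ∣ Δ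
    · have m := Nat.mem_primeFactors.2 ⟨pp, q, hΔ⟩
      rw [if_pos m]
      have e := EB.div p2 a b
      have s0 : 0 ≤ √p * u p := by positivity
      by_cases r : p ∈ F
      · rw [if_pos r]
        split_ifs with w
        · have : 1 ≤ √p := Real.one_le_sqrt.2 (by linarith)
          nlinarith [mul_le_mul_of_nonneg_left this s0]
        · have w1 : 4 * c ≤ √p := Real.le_sqrt_of_sq_le
            ((Nat.le_ceil _).trans (Nat.cast_le.2 (not_lt.1 (mt mem_range.2 w))))
          have w3 : √p * u p ≤ 1 / 2 :=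
            le_of_mul_le_mul_right (by linarith) (Real.sqrt_pos.2 (by linarith : (0 : ℝ) < p))
          linarith
      · rw [if_neg r]
        have w1 : L ≤ √p := Real.le_sqrt_of_sq_le (not_le.1 fun k => r (mem_filter.2 ⟨m, k⟩)).le
        have w2 : √p * u p ≤ 2 * c / L :=
          (le_div_iff₀ L0).2 ((mul_le_mul_of_nonneg_left w1 s0).trans e)
        split_ifs <;> linarith
    · have := EB.gen hc p2 (d q)
      split_ifs <;> linarith
  have s1 : ∑ p ∈ V, 4 * c * (p : ℝ) ^ (-(3 / 2) : ℝ) ≤ ∑' n : ℕ, 4 * c * (n : ℝ) ^ (-(3 / 2) : ℝ) :=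
    (Sng.summ (4 * c)).sum_le_tsum V fun n _ => by positivity
  have s2 : ∑ p ∈ V, (if p ∈ range z then 2 * c else 0) ≤ z * (2 * c) := by
    rw [sum_ite_mem, sum_const, nsmul_eq_mul]
    refine mul_le_mul_of_nonneg_right ?_ (by positivity)
    exact_mod_cast (card_le_card inter_subset_right).trans (card_range z).le
  have s3 : ∑ p ∈ V, (if p ∈ Δ.primeFactors then 2 * c / L else 0) ≤ 4 * c * E := by
    rw [sum_ite_mem, sum_const, nsmul_eq_mul]
    have a : ((V ∩ Δ.primeFactors).card : ℝ) ≤ Δ.primeFactors.card := by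
      exact_mod_cast card_le_card inter_subset_right
    have b : (Δ.primeFactors.card : ℝ) ≤ 2 * (E * L) := by
      have := card_le hΔ
      nlinarith [Nat.cast_nonneg (α := ℝ) Δ.primeFactors.card]
    refine (mul_le_mul_of_nonneg_right (a.trans b) cL).trans (le_of_eq ?_)
    field_simp
    ring
  have s4 : (2 : ℝ) ^ (V ∩ F).card ≤ 2 ^ F.card :=
    pow_le_pow_right₀ one_le_two (card_le_card inter_subset_right)
  calc ∏ p ∈ V, (1 + √p * u p) ≤ ∏ p ∈ V, Real.exp (√p * u p) :=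
        prod_le_prod (fun p hp => by have := (h p (hV p hp)).1; positivity)
          fun p _ => by linarith [Real.add_one_le_exp (√p * u p)]
    _ = Real.exp (∑ p ∈ V, √p * u p) := (Real.exp_sum _ _).symm
    _ ≤ Real.exp (∑' n : ℕ, 4 * c * (n : ℝ) ^ (-(3 / 2) : ℝ) + z * (2 * c) + 4 * c * E +
          (V ∩ F).card * Real.log 2) := by
        refine Real.exp_le_exp.2 ((sum_le_sum key).trans ?_)
        rw [sum_add_distrib, sum_add_distrib, sum_add_distrib, sum_ite_mem V F, sum_const,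
          nsmul_eq_mul]
        linarith
    _ ≤ _ := by
        rw [Real.exp_add, Real.exp_nat_mul, Real.exp_log two_pos]
        exact mul_le_mul_of_nonneg_left s4 (Real.exp_pos _).le

end SER4

theorem ser4 : SER4Stmt := by
  intro k E
  obtain ⟨C, C0, hC⟩ := SER4.bd (2 ^ k * (k + 1)) (by positivity) E
  refine ⟨2 * C, by positivity, fun L q y Q d hL hq hy hQ hx hd hE => ?_⟩
  have h0 : (dl (sh d)).natAbs ≠ 0 := Int.natAbs_ne_zero.2 (mul_ne_zero
    (prod_ne_zero_iff.2 fun i _ => by simpa [sh] using hd i)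
    (prod_ne_zero_iff.2 fun e he z => (mem_offDiag.1 he).2.2 (hx (by
      simp only [dt, sh, Nat.cast_one, one_mul] at z
      linarith))))
  have hc : ∀ i, IsCoprime (((sh d i).1 : ℕ) : ℤ) (sh d i).2 := fun i => by
    simpa [sh] using isCoprime_one_left
  rw [om]
  generalize sh d = x at h0 hc hE
  let u : ℕ → ℝ := fun p => ∑ S ∈ (univ : Finset (Finset (Fin k))).erase ∅, |tp x p S|
  have hM := hC L _ u hL h0 hE fun p hp => by
    have h3 : (0 : ℝ) ≤ (p : ℝ) - 1 := by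
      have : (1 : ℝ) ≤ p := by exact_mod_cast hp.one_le
      linarith
    refine ⟨sum_nonneg fun _ _ => abs_nonneg _, ?_, fun h => ?_⟩
    · rw [mul_div_assoc]
      exact SER.sum_le _ _ (by positivity) fun S hS => (loc2 k x p S hp hS hc).1
    · rw [mul_div_assoc]
      exact SER.sum_le _ _ (by positivity) fun S hS => (loc2 k x p S hp hS hc).2 (SER3.gen h)
  generalize ((dl x).natAbs.primeFactors.filter fun p : ℕ => (p : ℝ) ≤ L ^ 2).card = m at hM
  have hy1 : 1 ≤ y := by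
    have : (0 : ℝ) < y := hq.trans_le hy
    exact_mod_cast this
  have hU : ∀ p ∈ y.primesBelow, p.Prime := fun p hp => Nat.prime_of_mem_primesBelow hp
  have hR := ran (bt x) u (C * 2 ^ m) y hy1 (fun p hp => by
    rw [← (loc1 k x p hp).2, ← add_sum_erase _ _ (mem_univ ∅), (loc1 k x p hp).1,
      add_sub_cancel_left]
    exact abs_sum_le_sum_abs _ _) hM
  have hE := ex k (tp x) y.primesBelow Q q hq hQ fun p hp =>
    ⟨(hU p hp).one_le, (loc1 k x p (hU p hp)).1⟩
  rw [prod_congr rfl fun p hp => (loc1 k x p (hU p hp)).2] at hE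
  have hs : 0 < Real.sqrt q := Real.sqrt_pos.2 hq
  have h3 : C * 2 ^ m / Real.sqrt y ≤ C * 2 ^ m / Real.sqrt q :=
    div_le_div_of_nonneg_left (by positivity) hs (Real.sqrt_le_sqrt hy)
  have h4 : _ ≤ C * 2 ^ m / Real.sqrt q :=
    hE.trans (div_le_div_of_nonneg_right (hM _ hU) hs.le)
  refine (abs_sub_le _ (∏ p ∈ y.primesBelow, bt x p) _).trans ?_
  rw [mul_assoc, mul_div_assoc 2, two_mul]
  exact add_le_add (hR.trans h3) h4

end Pool.Agent.MP_39a890_nt.KT
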