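import Pool.Agent.MP_39a890_nt.kt.Spec

/-! Project KT, row SWP: Siegel-Walfisz for periodic functions. -/

set_option autoImplicit false

noncomputable section

namespace Pool.Agent.MP_39a890_nt.KT

open Finset Filter
open scoped ArithmeticFunction.vonMangoldt
open Pool.Agent.MP_678834_nt Pool.Agent.MP_678834_nt.HL9 Pool.Agent.MP_39a890_nt.MS
open Pool.Agent.MP_db1c88_nt Pool.Agent.MP_db1c88_nt.z94

namespace SWP

/-- the character coefficients of a function on the residues -/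
def gam {q : ℕ} (f : ℕ → ℝ) (χ : DirichletCharacter ℂ q) : ℂ :=
  (∑ b ∈ (range q).filter (fun b => Nat.Coprime b q), χ (b : ZMod q)⁻¹ * (f b : ℂ)) /
    (q.totient : ℂ)

theorem norm_gam_le {q : ℕ} (hq : 1 ≤ q) {f : ℕ → ℝ} (hf : ∀ n, |f n| ≤ 1)
    (χ : DirichletCharacter ℂ q) : ‖gam f χ‖ ≤ 1 := by
  have h0 : (0 : ℝ) < q.totient := by exact_mod_cast Nat.totient_pos.2 hq
  rw [gam, norm_div, Complex.norm_natCast, div_le_one h0, ← tools2.card_cop]
  refine (norm_sum_le _ _).trans ?_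
  rw [card_eq_sum_ones]
  push_cast
  refine sum_le_sum fun b _ => ?_
  rw [norm_mul, Complex.norm_real, Real.norm_eq_abs]
  exact mul_le_one₀ (χ.norm_le_one _) (abs_nonneg _) (hf b)

theorem gam_one {q : ℕ} (f : ℕ → ℝ) : gam f (1 : DirichletCharacter ℂ q) =
    (((∑ c ∈ (range q).filter (fun c => c.Coprime q), f c) / q.totient : ℝ) : ℂ) := by
  have h : ∑ b ∈ (range q).filter (fun b => Nat.Coprime b q),
      (1 : DirichletCharacter ℂ q) (b : ZMod q)⁻¹ * (f b : ℂ) =
      ∑ c ∈ (range q).filter (fun c => c.Coprime q), (f c : ℂ) := by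
    refine sum_congr rfl fun b hb => ?_
    have hu : IsUnit (b : ZMod q) := (ZMod.isUnit_iff_coprime b q).2 (mem_filter.1 hb).2
    have hu' : IsUnit (b : ZMod q)⁻¹ :=
      IsUnit.of_mul_eq_one _ (ZMod.inv_mul_of_unit _ hu)
    rw [MulChar.one_apply hu', one_mul]
  rw [gam, h]
  push_cast
  rfl

theorem per_mod {q : ℕ} {f : ℕ → ℝ} (hp : ∀ n, f (n + q) = f n) (n : ℕ) : f (n % q) = f n :=
  Function.Periodic.map_mod_nat (f := f) (a := q) hp n

theorem sum_gam {q : ℕ} (hq : 1 ≤ q) {f : ℕ → ℝ} (hp : ∀ n, f (n + q) = f n) {n : ℕ}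
    (hn : n.Coprime q) : ∑ χ : DirichletCharacter ℂ q, gam f χ * χ n = (f n : ℂ) := by
  have : NeZero q := ⟨by omega⟩
  have h0 : (q.totient : ℂ) ≠ 0 := by exact_mod_cast (Nat.totient_pos.2 hq).ne'
  have h1 : ∀ χ : DirichletCharacter ℂ q, gam f χ * χ n =
      ∑ b ∈ (range q).filter (fun b => Nat.Coprime b q),
        χ (b : ZMod q)⁻¹ * χ n * ((f b : ℂ) / (q.totient : ℂ)) := fun χ => by
    rw [gam, sum_div, sum_mul]
    exact sum_congr rfl fun b _ => by ring
  rw [sum_congr rfl fun χ _ => h1 χ, sum_comm, sum_eq_single (n % q)]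
  · rw [← sum_mul, DirichletCharacter.sum_char_inv_mul_char_eq ℂ
      (by rw [ZMod.natCast_mod]; exact (ZMod.isUnit_iff_coprime n q).2 hn),
      if_pos (ZMod.natCast_mod n q), mul_div_cancel₀ _ h0, per_mod hp]
  · intro b hb hne
    obtain ⟨h2, h3⟩ := mem_filter.1 hb
    rw [← sum_mul, DirichletCharacter.sum_char_inv_mul_char_eq ℂ
      ((ZMod.isUnit_iff_coprime b q).2 h3), if_neg, zero_mul]
    intro h4
    rw [ZMod.natCast_eq_natCast_iff', Nat.mod_eq_of_lt (mem_range.1 h2)] at h4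
    exact hne h4
  · intro h
    refine absurd (mem_filter.2 ⟨mem_range.2 (Nat.mod_lt _ hq), ?_⟩) h
    exact (ZMod.coprime_mod_iff_coprime n q).2 hn

theorem ident {q : ℕ} (hq : 1 ≤ q) {f : ℕ → ℝ} (hp : ∀ n, f (n + q) = f n) (n : ℕ) :
    (Λ n : ℂ) * (f n : ℂ) - gam f (1 : DirichletCharacter ℂ q) =
      ∑ χ : DirichletCharacter ℂ q, gam f χ * lc χ n +
        if n.Coprime q then 0 else (Λ n : ℂ) * (f n : ℂ) := by
  have : NeZero q := ⟨by omega⟩
  have h1 : ∑ χ : DirichletCharacter ℂ q, gam f χ * lc χ n =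
      Λ n * ∑ χ : DirichletCharacter ℂ q, gam f χ * χ n -
        gam f (1 : DirichletCharacter ℂ q) := by
    rw [mul_sum]
    simp only [lc, mul_sub, sum_sub_distrib, mul_ite, mul_one, mul_zero, sum_ite_eq',
      mem_univ, if_true]
    refine congrArg (fun z => z - gam f (1 : DirichletCharacter ℂ q)) ?_
    exact sum_congr rfl fun χ _ => by ring
  rw [h1]
  split_ifs with h
  · rw [sum_gam hq hp h, add_zero]
  · have h2 : ∀ χ : DirichletCharacter ℂ q, χ n = 0 := fun χ =>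
      χ.map_nonunit fun hu => h ((ZMod.isUnit_iff_coprime n q).1 hu)
    simp only [h2, mul_zero, sum_const_zero]
    ring

end SWP

theorem swp : SWPStmt := fun A B => by
  obtain ⟨C, y₀, hC⟩ := PW.pw (A + B) B
  obtain ⟨X₀, hX₀⟩ := eventually_atTop.1 ((ev_log 1).and ((eventually_ge_atTop y₀).and
    ((eventually_ge_atTop 1).and (ev_log_pow one_pos (A + B + 1) 2))))
  refine ⟨3 * |C| + 1, X₀, fun X X' r f hX h1 h2 hr hrB hp hf => ?_⟩
  obtain ⟨hL, hy, hX1, hP⟩ := hX₀ X hX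
  rw [Real.rpow_one] at hP
  obtain ⟨hcard, hnc, -⟩ := chr r 1 hr (by simp)
  set L := Real.log X with hLdef
  have hL0 : 0 < L := by linarith
  have h1' : (X : ℝ) ≤ X' := by exact_mod_cast h1
  have h2' : (X' : ℝ) ≤ 2 * X := by exact_mod_cast h2
  have hLL : L ≤ Real.log X' := Real.log_le_log (by linarith) h1'
  have hLL' : Real.log X' ≤ 2 * L := by
    have := Real.log_le_log (by linarith) h2'
    rw [Real.log_mul (by norm_num) (by linarith)] at this
    linarith [Real.log_two_lt_d9]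
  have e0 : ((∑ n ∈ Ioc X X', Λ n * f n - ((X' : ℝ) - X) *
      ((∑ c ∈ (range r).filter (fun c => c.Coprime r), f c) / r.totient) : ℝ) : ℂ) =
      ∑ n ∈ Ioc X X', (Λ n : ℂ) * (f n : ℂ) -
        SWP.gam f (1 : DirichletCharacter ℂ r) * ((X' : ℂ) - X) := by
    rw [SWP.gam_one]
    push_cast
    ring
  have e1 : ∑ n ∈ Ioc X X', (Λ n : ℂ) * (f n : ℂ) -
        SWP.gam f (1 : DirichletCharacter ℂ r) * ((X' : ℂ) - X) =
      ∑ χ : DirichletCharacter ℂ r, SWP.gam f χ * ∑ n ∈ Ioc X X', lc χ n +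
        ∑ n ∈ Ioc X X', if n.Coprime r then 0 else (Λ n : ℂ) * (f n : ℂ) := by
    have : SWP.gam f (1 : DirichletCharacter ℂ r) * ((X' : ℂ) - X) =
        ∑ _n ∈ Ioc X X', SWP.gam f (1 : DirichletCharacter ℂ r) := by
      rw [sum_const, Nat.card_Ioc, nsmul_eq_mul, Nat.cast_sub h1, mul_comm]
    rw [this, ← sum_sub_distrib, sum_congr rfl fun n _ => SWP.ident hr hp n, sum_add_distrib,
      sum_comm]
    simp only [mul_sum]
  have e2 : ∀ χ : DirichletCharacter ℂ r, ‖SWP.gam f χ * ∑ n ∈ Ioc X X', lc χ n‖ ≤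
      3 * |C| * X / L ^ (A + B) := fun χ => by
    have e3 : ∀ y : ℕ, DP (Icc 1 y) (lc χ) 0 = ∑ n ∈ Ioc 0 y, lc χ n := fun y => by
      simp [DP, ei, ← Icc_add_one_left_eq_Ioc]
    have e4 : ∑ n ∈ Ioc X X', lc χ n = DP (Icc 1 X') (lc χ) 0 - DP (Icc 1 X) (lc χ) 0 := by
      rw [e3, e3, ← sum_Ioc_consecutive _ (Nat.zero_le X) h1]; ring
    have b1 := hC X 0 r χ hy hr hrB (by simp)
    have b2 := hC X' 0 r χ (hy.trans h1') hr (hrB.trans (pow_le_pow_left₀ hL0.le hLL B)) (by simp)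
    rw [Nat.floor_natCast] at b1 b2
    have b3 : C * X / L ^ (A + B) ≤ |C| * X / L ^ (A + B) := by
      gcongr; exact le_abs_self C
    have b4 : C * X' / Real.log X' ^ (A + B) ≤ |C| * (2 * X) / L ^ (A + B) := by
      gcongr; exact le_abs_self C
    rw [norm_mul, e4]
    refine (mul_le_of_le_one_left (norm_nonneg _) (SWP.norm_gam_le hr hf χ)).trans
      ((norm_sub_le _ _).trans ?_)
    have : 3 * |C| * X / L ^ (A + B) = |C| * (2 * X) / L ^ (A + B) + |C| * X / L ^ (A + B) := by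
      ring
    linarith
  have e5 : ‖∑ n ∈ Ioc X X', if n.Coprime r then 0 else (Λ n : ℂ) * (f n : ℂ)‖ ≤
      X / L ^ A := by
    refine (norm_sum_le _ _).trans ?_
    calc ∑ n ∈ Ioc X X', ‖if n.Coprime r then 0 else (Λ n : ℂ) * (f n : ℂ)‖
        ≤ ∑ n ∈ (Ioc X X').filter (fun n => ¬ n.Coprime r), Λ n := by
          rw [sum_filter]
          refine sum_le_sum fun n _ => ?_
          by_cases h : n.Coprime r
          · simp [h]
          · rw [if_neg h, if_pos h, norm_mul, Complex.norm_real, Complex.norm_real,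
              Real.norm_of_nonneg ArithmeticFunction.vonMangoldt_nonneg, Real.norm_eq_abs]
            exact mul_le_of_le_one_right ArithmeticFunction.vonMangoldt_nonneg (hf n)
      _ ≤ ∑ n ∈ (Icc 1 X').filter (fun n => ¬ n.Coprime r), Λ n := by
          refine sum_le_sum_of_subset_of_nonneg (filter_subset_filter _ fun n hn => ?_)
            fun _ _ _ => ArithmeticFunction.vonMangoldt_nonneg
          have := mem_Ioc.1 hn
          exact mem_Icc.2 ⟨by omega, this.2⟩
      _ ≤ r * Real.log X' := hnc X'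
      _ ≤ L ^ B * (2 * L) := by gcongr
      _ ≤ X / L ^ A := by
          rw [le_div_iff₀ (by positivity)]
          refine le_trans (le_of_eq ?_) hP
          ring
  rw [← Real.norm_eq_abs, ← Complex.norm_real, e0, e1]
  refine (norm_add_le _ _).trans ?_
  have e6 : ‖∑ χ : DirichletCharacter ℂ r, SWP.gam f χ * ∑ n ∈ Ioc X X', lc χ n‖ ≤
      3 * |C| * X / L ^ A := by
    refine (norm_sum_le _ _).trans ((sum_le_card_nsmul _ _ _ fun χ _ => e2 χ).trans ?_)
    rw [nsmul_eq_mul, card_univ]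
    have : (Fintype.card (DirichletCharacter ℂ r) : ℝ) ≤ L ^ B :=
      le_trans (by exact_mod_cast hcard) hrB
    calc (Fintype.card (DirichletCharacter ℂ r) : ℝ) * (3 * |C| * X / L ^ (A + B))
        ≤ L ^ B * (3 * |C| * X / L ^ (A + B)) := by gcongr
      _ = 3 * |C| * X / L ^ A := by rw [pow_add]; field_simp
  have : (3 * |C| + 1) * X / L ^ A = 3 * |C| * X / L ^ A + X / L ^ A := by ring
  linarith

end Pool.Agent.MP_39a890_nt.KT
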