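import Pool.Agent.MP_39a890_nt.kt.Defs
import Pool.Agent.MP_39a890_nt.ms.Spec2

/-! Project KT: prime values of systems of linear forms on average over coefficients of
polylogarithmic size. Definitions and the statements of the modules. -/

set_option autoImplicit false

noncomputable section

namespace Pool.Agent.MP_39a890_nt.KT

open Finset
open scoped ArithmeticFunction.vonMangoldt
open Pool.Agent.MP_678834_nt Pool.Agent.MP_678834_nt.HL9 Pool.Agent.MP_39a890_nt.MS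

/-- the value of a form -/
def fv (x : ℕ × ℤ) (n : ℕ) : ℕ := ((x.1 : ℤ) * n + x.2).toNat

/-- the local factor of the major arc model -/
def gl (p : ℕ) (m : ℤ) : ℝ := if (p : ℤ) ∣ m then -1 else 1 / ((p : ℝ) - 1)

/-- sets of primes below `y` with product at most `Q` -/
def TS (U : Finset ℕ) (Q : ℕ) : Finset (Finset ℕ) := U.powerset.filter fun T => ∏ p ∈ T, p ≤ Q

/-- the indices whose set contains `p` -/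
def Sp {k : ℕ} (T : Fin k → Finset ℕ) (p : ℕ) : Finset (Fin k) := univ.filter fun i => p ∈ T i

/-- local averages -/
def tp {k : ℕ} (x : Fin k → ℕ × ℤ) (p : ℕ) (S : Finset (Fin k)) : ℝ :=
  (∑ n ∈ Ico 1 p, ∏ i ∈ S, gl p (((x i).1 : ℤ) * n + (x i).2)) / ((p : ℝ) - 1)

/-- the local factor of the singular series -/
def bt {k : ℕ} (x : Fin k → ℕ × ℤ) (p : ℕ) : ℝ :=
  (1 - (rootCount x p : ℝ) / p) / (1 - 1 / (p : ℝ)) ^ (k + 1)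

/-- the truncated singular series -/
def box {k : ℕ} (t : ℕ → Finset (Fin k) → ℝ) (U : Finset ℕ) (Q : Fin k → ℕ) : ℝ :=
  ∑ T ∈ Fintype.piFinset fun i => TS U (Q i), ∏ p ∈ U, t p (Sp T p)

/-- the pairs of coefficients -/
def PP (𝒜 : Finset ℕ) (H : ℕ) : Finset (ℕ × ℤ) := 𝒜 ×ˢ (Icc (-(H : ℤ)) H).erase 0

/-- generic primes -/
def Gen {k : ℕ} (x : Fin k → ℕ × ℤ) (p : ℕ) : Prop :=
  (∀ i, ¬ p ∣ (x i).1 ∧ ¬ (p : ℤ) ∣ (x i).2) ∧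
    ∀ i j, i ≠ j → ¬ (p : ℤ) ∣ ((x i).1 : ℤ) * (x j).2 - ((x j).1 : ℤ) * (x i).2

def LAMStmt : Prop := ∀ Q y m : ℕ, Q < y →
  lamS Q m = ((∑ T ∈ TS y.primesBelow Q, ∏ p ∈ T, gl p m : ℝ) : ℂ) ∧
    (TS y.primesBelow Q).card ≤ Q ∧ ‖lamS Q m‖ ≤ Q

def SWPStmt : Prop := ∀ K B : ℕ, ∃ C N₀ : ℝ, ∀ (N M m : ℕ) (f : ℕ → ℝ), N₀ ≤ N → N ≤ M →
  M ≤ 2 * N → 1 ≤ m →
  (m : ℝ) ≤ Real.log N ^ B → (∀ n, f (n + m) = f n) → (∀ n, |f n| ≤ 1) →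
    |∑ n ∈ Ioc N M, Λ n * f n -
      ((M : ℝ) - N) * ((∑ c ∈ (range m).filter (fun c => c.Coprime m), f c) / m.totient)| ≤
      C * N / Real.log N ^ K

def CRTStmt : Prop := ∀ (U : Finset ℕ) (f : ℕ → ℕ → ℝ), (∀ p ∈ U, p.Prime) →
  (∀ p ∈ U, ∀ n, f p (n + p) = f p n) →
    (∑ c ∈ (range (∏ p ∈ U, p)).filter (fun c => c.Coprime (∏ p ∈ U, p)), ∏ p ∈ U, f p c) /
      ((∏ p ∈ U, p).totient : ℝ) = ∏ p ∈ U, (∑ n ∈ Ico 1 p, f p n) / ((p : ℝ) - 1)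

def MTKStmt : Prop := ∀ k K B : ℕ, ∃ C N₀ : ℝ,
  ∀ (N M y : ℕ) (Q : Fin k → ℕ) (x : Fin k → ℕ × ℤ), N₀ ≤ N → N ≤ M → M ≤ 2 * N →
    (∀ i, (Q i : ℝ) ≤ Real.log N ^ B ∧ Q i < y) → (∀ i, 1 ≤ (x i).1 ∧ |(x i).2| ≤ N) →
    ‖∑ n ∈ Ioc N M, ((Λ n : ℝ) : ℂ) * ∏ i, lamS (Q i) (fv (x i) n) -
      ((box (tp x) y.primesBelow Q * ((M : ℝ) - N) : ℝ) : ℂ)‖ ≤ C * N / Real.log N ^ K

def LOC1Stmt : Prop := ∀ (k : ℕ) (x : Fin k → ℕ × ℤ) (p : ℕ), p.Prime →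
  tp x p ∅ = 1 ∧ ∑ S : Finset (Fin k), tp x p S = bt x p

def LOC2Stmt : Prop := ∀ (k : ℕ) (x : Fin k → ℕ × ℤ) (p : ℕ) (S : Finset (Fin k)), p.Prime →
  S ≠ ∅ → (∀ i, IsCoprime ((x i).1 : ℤ) (x i).2) →
    |tp x p S| ≤ (k + 1) / ((p : ℝ) - 1) ∧ (Gen x p → |tp x p S| ≤ (k + 1) / ((p : ℝ) - 1) ^ 2)

def EXPStmt : Prop := ∀ (k : ℕ) (t : ℕ → Finset (Fin k) → ℝ) (U : Finset ℕ) (Q : Fin k → ℕ)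
  (q : ℝ), 0 < q → (∀ i, q ≤ Q i) → (∀ p ∈ U, 1 ≤ p ∧ t p ∅ = 1) →
    |∏ p ∈ U, ∑ S : Finset (Fin k), t p S - box t U Q| ≤
      (∏ p ∈ U, (1 + Real.sqrt p * ∑ S ∈ (univ : Finset (Finset (Fin k))).erase ∅, |t p S|)) /
        Real.sqrt q

def RANStmt : Prop := ∀ (β u : ℕ → ℝ) (M : ℝ) (y : ℕ), 1 ≤ y →
  (∀ p : ℕ, p.Prime → |β p - 1| ≤ u p) →
  (∀ V : Finset ℕ, (∀ p ∈ V, p.Prime) → ∏ p ∈ V, (1 + Real.sqrt p * u p) ≤ M) →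
    |∏' p : Nat.Primes, β p - ∏ p ∈ y.primesBelow, β p| ≤ M / Real.sqrt y

def EBStmt : Prop := ∀ (c : ℝ) (E : ℕ), ∃ C : ℝ, ∀ (L : ℝ) (Δ : ℕ) (u : ℕ → ℝ), 3 ≤ L → 0 < Δ →
  (Δ : ℝ) ≤ L ^ E → (∀ p : ℕ, p.Prime → 0 ≤ u p ∧ u p ≤ c / ((p : ℝ) - 1) ∧
    (¬ p ∣ Δ → u p ≤ c / ((p : ℝ) - 1) ^ 2)) →
  ∀ V : Finset ℕ, (∀ p ∈ V, p.Prime) → ∏ p ∈ V, (1 + Real.sqrt p * u p) ≤ C * L

def DELStmt : Prop := ∀ (k Z : ℕ) (x : Fin k → ℕ × ℤ), Function.Injective x →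
  (∀ i, 2 ≤ (x i).1 ∧ (x i).1 ≤ Z ∧ |(x i).2| ≤ Z ∧ IsCoprime ((x i).1 : ℤ) (x i).2) →
    ∃ Δ : ℕ, 0 < Δ ∧ Δ ≤ (2 * Z ^ 2) ^ (k + k ^ 2) ∧ ∀ p : ℕ, p.Prime → ¬ p ∣ Δ → Gen x p

/-- the singular series against its truncation -/
def SERStmt : Prop := ∀ k D : ℕ, ∃ C : ℝ, ∀ (L q : ℝ) (Z y : ℕ) (Q : Fin k → ℕ)
  (x : Fin k → ℕ × ℤ), 3 ≤ L → 0 < q → q ≤ y → (Z : ℝ) ≤ L ^ D → (∀ i, q ≤ Q i) →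
  Function.Injective x →
  (∀ i, 2 ≤ (x i).1 ∧ (x i).1 ≤ Z ∧ |(x i).2| ≤ Z ∧ IsCoprime ((x i).1 : ℤ) (x i).2) →
    |singSeries x - box (tp x) y.primesBelow Q| ≤ C * L / Real.sqrt q

open Classical in
def CHBFor (F : ℕ → ℕ → ℕ → Finset ℕ) : Prop := ∀ J K : ℕ, ∃ B₁ : ℕ, ∀ B : ℕ, B₁ ≤ B →
  ∃ (C₀ : ℕ) (C N₀ : ℝ), 0 ≤ C ∧ ∀ (N A H Q : ℕ) (β : ℕ → ℂ), N₀ ≤ N → Real.log N ^ B ≤ Q →
    (Q : ℝ) ≤ Real.log N ^ (B + 1) → Real.log N ^ C₀ ≤ A → A * Real.log N ^ C₀ ≤ H →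
    8 * H ≤ N → (∀ n ∈ Ioc N (2 * N), ‖β n‖ ≤ Real.log N ^ J) →
    (((PP (F C₀ N A) H).filter fun z => N / Real.log N ^ K <
      ‖∑ n ∈ Ioc N (2 * N), β n * (((Λ (fv z n) : ℝ) : ℂ) - lamS Q (fv z n))‖).card : ℝ) ≤
      C * (A * H) / Real.log N ^ K

open Classical in
def TELFor (F : ℕ → ℕ → ℕ → Finset ℕ) : Prop := ∀ k J K B₀ : ℕ,
  ∃ (B : Fin k → ℕ) (C₀ : ℕ) (C N₀ : ℝ), 0 ≤ C ∧ (∀ i, B₀ ≤ B i) ∧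
    ∀ (N A H : ℕ) (Q : Fin k → ℕ) (β : ℕ → ℂ), N₀ ≤ N →
    (∀ i, Real.log N ^ B i ≤ Q i ∧ (Q i : ℝ) ≤ Real.log N ^ (B i + 1)) →
    Real.log N ^ C₀ ≤ A → A * Real.log N ^ C₀ ≤ H → 8 * H ≤ N →
    (∀ n ∈ Ioc N (2 * N), ‖β n‖ ≤ Real.log N ^ J) →
    (((Fintype.piFinset fun _ : Fin k => PP (F C₀ N A) H).filter fun x =>
      k * (N / Real.log N ^ K) < ‖∑ n ∈ Ioc N (2 * N), β n *
        (∏ i, ((Λ (fv (x i) n) : ℝ) : ℂ) - ∏ i, lamS (Q i) (fv (x i) n))‖).card : ℝ) ≤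
      C * ((A : ℝ) * H) ^ k / Real.log N ^ K

def KTFor (F : ℕ → ℕ → ℕ → Finset ℕ) : Prop := ∀ k K : ℕ, ∃ C₀ : ℕ, ∀ D : ℕ, ∃ C N₀ : ℝ, 0 ≤ C ∧
  ∀ N M A H : ℕ, N₀ ≤ (N : ℝ) → N ≤ M → M ≤ 2 * N → Real.log N ^ C₀ ≤ (A : ℝ) →
    (A : ℝ) * Real.log N ^ C₀ ≤ H → (H : ℝ) ≤ Real.log N ^ D →
    ∃ Ex : Finset (Fin k → ℕ × ℤ), (Ex.card : ℝ) ≤ C * ((A : ℝ) * H) ^ k / Real.log N ^ K ∧
      ∀ x : Fin k → ℕ × ℤ, Function.Injective x →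
        (∀ i, (x i).1 ∈ F C₀ N A ∧ |(x i).2| ≤ H ∧ IsCoprime ((x i).1 : ℤ) (x i).2) → x ∉ Ex →
        |∑ n ∈ Ioc N M, Λ n * ∏ i, Λ (fv (x i) n) - singSeries x * ((M : ℝ) - N)| ≤
          N / Real.log N ^ K

def LOWStmt : Prop := ∀ k : ℕ, (∀ x : Fin k → ℕ × ℤ, 0 ≤ singSeries x) ∧
  ∃ c : ℝ, 0 < c ∧ ∀ x : Fin k → ℕ × ℤ, (∀ i, IsCoprime ((x i).1 : ℤ) (x i).2) →
    (∀ p : ℕ, p.Prime → rootCount x p < p) → c ≤ singSeries x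

def UNKFor (F : ℕ → ℕ → ℕ → Finset ℕ) : Prop := ∀ k K : ℕ, ∃ C₀ : ℕ, ∀ D : ℕ, ∃ C N₀ : ℝ, 0 ≤ C ∧
  ∀ N A H : ℕ, N₀ ≤ (N : ℝ) → Real.log N ^ C₀ ≤ (A : ℝ) →
    (A : ℝ) * Real.log N ^ C₀ ≤ H → (H : ℝ) ≤ Real.log N ^ D →
    ∃ Ex : Finset (Fin k → ℕ × ℤ), (Ex.card : ℝ) ≤ C * ((A : ℝ) * H) ^ k / Real.log N ^ K ∧
      ∀ x : Fin k → ℕ × ℤ, Function.Injective x →
        (∀ i, (x i).1 ∈ F C₀ N A ∧ |(x i).2| ≤ H ∧ IsCoprime ((x i).1 : ℤ) (x i).2) → x ∉ Ex →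
        ∀ y : ℕ, N / Real.log N ^ (D + 1) ≤ (y : ℝ) → y ≤ N →
        |∑ n ∈ Icc 1 y, Λ n * ∏ i, Λ (fv (x i) n) - singSeries x * y| ≤
          C * (1 + singSeries x) * y / Real.log N ^ 2

def CNKStmt : Prop := ∀ (k D : ℕ) (C₁ c : ℝ), 0 < c → ∃ C N₀ : ℝ,
  ∀ (N y : ℕ) (x : Fin k → ℕ × ℤ) (s : ℝ), N₀ ≤ (N : ℝ) → c ≤ s →
    N / Real.log N ^ (D + 1) ≤ (y : ℝ) → y ≤ N →
    (∀ i, 1 ≤ (x i).1 ∧ ((x i).1 : ℝ) ≤ Real.log N ^ D ∧ |((x i).2 : ℝ)| ≤ Real.log N ^ D) →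
    |∑ n ∈ Icc 1 y, Λ n * ∏ i, Λ (fv (x i) n) - s * y| ≤ C₁ * (1 + s) * y / Real.log N ^ 2 →
    |(((Icc 1 y).filter fun q : ℕ => q.Prime ∧ ∀ i, (fv (x i) q).Prime).card : ℝ) *
      Real.log N ^ (k + 1) / (s * y) - 1| ≤ C * Real.log (Real.log N) / Real.log N

def FNKFor (F : ℕ → ℕ → ℕ → Finset ℕ) : Prop := ∀ k K : ℕ, ∃ C₀ : ℕ, ∀ D : ℕ, ∃ C N₀ : ℝ,
  ∀ N A H : ℕ, N₀ ≤ (N : ℝ) → Real.log N ^ C₀ ≤ (A : ℝ) →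
    (A : ℝ) * Real.log N ^ C₀ ≤ H → (H : ℝ) ≤ Real.log N ^ D →
    ∃ Ex : Finset (Fin k → ℕ × ℤ), (Ex.card : ℝ) ≤ C * ((A : ℝ) * H) ^ k / Real.log N ^ K ∧
      ∀ x : Fin k → ℕ × ℤ, Function.Injective x →
        (∀ i, (x i).1 ∈ F C₀ N A ∧ |(x i).2| ≤ H ∧ IsCoprime ((x i).1 : ℤ) (x i).2) →
        (∀ p : ℕ, p.Prime → rootCount x p < p) → x ∉ Ex →
        ∀ y : ℕ, N / Real.log N ^ (D + 1) ≤ (y : ℝ) → y ≤ N →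
        |(((Icc 1 y).filter fun q : ℕ => q.Prime ∧ ∀ i, (fv (x i) q).Prime).card : ℝ) *
          Real.log N ^ (k + 1) / (singSeries x * y) - 1| ≤ C * Real.log (Real.log N) / Real.log N

theorem kt_chain (lam : LAMStmt) (swp : SWPStmt) (crt : CRTStmt)
    (mtk : LAMStmt → SWPStmt → CRTStmt → LOC1Stmt → MTKStmt) (loc1 : LOC1Stmt) (loc2 : LOC2Stmt)
    (ex : EXPStmt) (ran : RANStmt) (eb : EBStmt) (del : DELStmt)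
    (ser : LOC1Stmt → LOC2Stmt → EXPStmt → RANStmt → EBStmt → DELStmt → SERStmt)
    (chb : ∀ F, Fam F → TII2For F → CHBFor F) (tel : LAMStmt → ∀ F, Fam F → CHBFor F → TELFor F)
    (asm : MTKStmt → SERStmt → ∀ F, Fam F → TELFor F → KTFor F) (low : LOWStmt)
    (unk : LOWStmt → ∀ F, Fam F → Mono F → KTFor F → UNKFor F) (cnk : CNKStmt)
    (fnk : LOWStmt → CNKStmt → ∀ F, Fam F → UNKFor F → FNKFor F)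
    (F : ℕ → ℕ → ℕ → Finset ℕ) (hF : Fam F) (hM : Mono F) (h : TII2For F) : FNKFor F :=
  fnk low cnk F hF (unk low F hF hM (asm (mtk lam swp crt loc1) (ser loc1 loc2 ex ran eb del) F hF
    (tel lam F hF (chb F hF h))))

end Pool.Agent.MP_39a890_nt.KT
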