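import Pool.Agent.MP_39a890_nt.kt.Box

/-! Project KT, third part: the full range of heights. -/

set_option autoImplicit false

noncomputable section

namespace Pool.Agent.MP_39a890_nt.KT

open Finset
open scoped ArithmeticFunction.vonMangoldt
open Pool.Agent.MP_678834_nt Pool.Agent.MP_678834_nt.HL9 Pool.Agent.MP_39a890_nt.MS

/-- the number of divisors of the absolute value -/
def dv (g : ℤ) : ℝ := (g.natAbs.divisors.card : ℝ)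

/-- the determinant of two forms -/
def dt (z w : ℕ × ℤ) : ℤ := (z.1 : ℤ) * w.2 - (w.1 : ℤ) * z.2

/-- the discriminant of a system of forms -/
def dl {k : ℕ} (x : Fin k → ℕ × ℤ) : ℤ :=
  (∏ i, ((x i).1 : ℤ) * (x i).2) * ∏ ij ∈ (univ : Finset (Fin k)).offDiag, dt (x ij.1) (x ij.2)

def SER3Stmt : Prop := ∀ k : ℕ, ∃ C : ℝ, 0 ≤ C ∧ ∀ (q : ℝ) (y : ℕ) (Q : Fin k → ℕ)
  (x : Fin k → ℕ × ℤ), 0 < q → q ≤ y → (∀ i, q ≤ Q i) → Function.Injective x →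
  (∀ i, 2 ≤ (x i).1 ∧ IsCoprime ((x i).1 : ℤ) (x i).2) →
    |singSeries x - box (tp x) y.primesBelow Q| ≤ C * dv (dl x) / Real.sqrt q

def DV1Stmt : Prop := ∀ m : ℕ, 1 ≤ m → ∃ (K : ℕ) (C : ℝ), 0 ≤ C ∧ ∀ A H : ℕ, 1 ≤ A → 1 ≤ H →
  ∑ z ∈ PP (Ioc 1 A) H, dv ((z.1 : ℤ) * z.2) ^ m ≤
      C * (A * H) * (1 + Real.log (2 * A * H)) ^ K ∧
    ∑ z ∈ PP (Ioc 1 A) H, ∑ w ∈ PP (Ioc 1 A) H, dv (dt z w) ^ m ≤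
      C * ((A : ℝ) * H) ^ 2 * (1 + Real.log (2 * A * H)) ^ K

def DVAStmt : Prop := ∀ k : ℕ, ∃ (K : ℕ) (C : ℝ), 0 ≤ C ∧ ∀ A H : ℕ, 1 ≤ A → 1 ≤ H →
  ∑ x ∈ Fintype.piFinset fun _ : Fin k => PP (Ioc 1 A) H, dv (dl x) ≤
    C * ((A : ℝ) * H) ^ k * (1 + Real.log (2 * A * H)) ^ K

def KT3For (F : ℕ → ℕ → ℕ → Finset ℕ) : Prop := ∀ k K : ℕ, ∃ (C₀ : ℕ) (C N₀ : ℝ), 0 ≤ C ∧
  ∀ N M A H : ℕ, N₀ ≤ (N : ℝ) → N ≤ M → M ≤ 2 * N → Real.log N ^ C₀ ≤ (A : ℝ) →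
    (A : ℝ) * Real.log N ^ C₀ ≤ H → 8 * H ≤ N →
    ∃ Ex : Finset (Fin k → ℕ × ℤ), (Ex.card : ℝ) ≤ C * ((A : ℝ) * H) ^ k / Real.log N ^ K ∧
      ∀ x : Fin k → ℕ × ℤ, Function.Injective x →
        (∀ i, (x i).1 ∈ F C₀ N A ∧ |(x i).2| ≤ H ∧ IsCoprime ((x i).1 : ℤ) (x i).2) → x ∉ Ex →
        |∑ n ∈ Ioc N M, Λ n * ∏ i, Λ (fv (x i) n) - singSeries x * ((M : ℝ) - N)| ≤
          N / Real.log N ^ K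

def UNK3For (F : ℕ → ℕ → ℕ → Finset ℕ) : Prop := ∀ k K : ℕ, ∃ (C₀ : ℕ) (C N₀ : ℝ), 0 ≤ C ∧
  ∀ N A H : ℕ, N₀ ≤ (N : ℝ) → Real.log N ^ C₀ ≤ (A : ℝ) →
    (A : ℝ) * Real.log N ^ C₀ ≤ H → (H : ℝ) * Real.log N ^ C₀ ≤ N →
    ∃ Ex : Finset (Fin k → ℕ × ℤ), (Ex.card : ℝ) ≤ C * ((A : ℝ) * H) ^ k / Real.log N ^ K ∧
      ∀ x : Fin k → ℕ × ℤ, Function.Injective x →
        (∀ i, (x i).1 ∈ F C₀ N A ∧ |(x i).2| ≤ H ∧ IsCoprime ((x i).1 : ℤ) (x i).2) → x ∉ Ex →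
        ∀ y : ℕ, N / Real.log N ^ K ≤ (y : ℝ) → y ≤ N →
        |∑ n ∈ Icc 1 y, Λ n * ∏ i, Λ (fv (x i) n) - singSeries x * y| ≤
          C * (1 + singSeries x) * y / Real.log N ^ 2

def CNK3Stmt : Prop := ∀ (k D : ℕ) (C₁ c : ℝ), 0 < c → ∃ C N₀ : ℝ,
  ∀ (N y : ℕ) (x : Fin k → ℕ × ℤ) (s : ℝ), N₀ ≤ (N : ℝ) → c ≤ s →
    N / Real.log N ^ D ≤ (y : ℝ) → y ≤ N →
    (∀ i, 1 ≤ (x i).1 ∧ ((x i).1 : ℝ) * Real.log N ^ (2 * (k + D) + 12) ≤ N ∧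
      |((x i).2 : ℝ)| * Real.log N ^ (k + D + 6) ≤ N) →
    |∑ n ∈ Icc 1 y, Λ n * ∏ i, Λ (fv (x i) n) - s * y| ≤ C₁ * (1 + s) * y / Real.log N ^ 2 →
    |(((Icc 1 y).filter fun q : ℕ => q.Prime ∧ ∀ i, (fv (x i) q).Prime).card : ℝ) *
      (Real.log N * ∏ i, Real.log ((x i).1 * N)) / (s * y) - 1| ≤
      C * Real.log (Real.log N) / Real.log N

def FNK3For (F : ℕ → ℕ → ℕ → Finset ℕ) : Prop := ∀ k K : ℕ, ∃ (C₀ : ℕ) (C N₀ : ℝ),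
  ∀ N A H : ℕ, N₀ ≤ (N : ℝ) → Real.log N ^ C₀ ≤ (A : ℝ) →
    (A : ℝ) * Real.log N ^ C₀ ≤ H → (H : ℝ) * Real.log N ^ C₀ ≤ N →
    ∃ Ex : Finset (Fin k → ℕ × ℤ), (Ex.card : ℝ) ≤ C * ((A : ℝ) * H) ^ k / Real.log N ^ K ∧
      ∀ x : Fin k → ℕ × ℤ, Function.Injective x →
        (∀ i, (x i).1 ∈ F C₀ N A ∧ |(x i).2| ≤ H ∧ IsCoprime ((x i).1 : ℤ) (x i).2) →
        (∀ p : ℕ, p.Prime → rootCount x p < p) → x ∉ Ex →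
        ∀ y : ℕ, N / Real.log N ^ K ≤ (y : ℝ) → y ≤ N →
        |(((Icc 1 y).filter fun q : ℕ => q.Prime ∧ ∀ i, (fv (x i) q).Prime).card : ℝ) *
          (Real.log N * ∏ i, Real.log ((x i).1 * N)) / (singSeries x * y) - 1| ≤
          C * Real.log (Real.log N) / Real.log N

theorem kt3_chain (mtk : MTKStmt) (ser : SER3Stmt) (dv1 : DV1Stmt) (dva : DV1Stmt → DVAStmt)
    (asm : MTKStmt → SER3Stmt → DVAStmt → ∀ F, Fam2 F → TELFor F → KT3For F) (low : LOWStmt)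
    (unk : LOWStmt → ∀ F, Fam2 F → Mono F → KT3For F → UNK3For F) (cnk : CNK3Stmt)
    (fnk : LOWStmt → CNK3Stmt → ∀ F, Fam2 F → UNK3For F → FNK3For F)
    (F : ℕ → ℕ → ℕ → Finset ℕ) (hF : Fam2 F) (hM : Mono F) (h : TELFor F) : FNK3For F :=
  fnk low cnk F hF (unk low F hF hM (asm mtk ser (dva dv1) F hF h))

end Pool.Agent.MP_39a890_nt.KT
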