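import Pool.Agent.MP_39a890_nt.kt.Spec

/-! Project KT, module TEL: replacing the von Mangoldt functions one at a time. -/

set_option autoImplicit false

noncomputable section

namespace Pool.Agent.MP_39a890_nt.KT

open Finset Filter
open scoped ArithmeticFunction.vonMangoldt
open Pool.Agent.MP_678834_nt Pool.Agent.MP_678834_nt.HL9 Pool.Agent.MP_39a890_nt.MS

namespace TEL

open Classical in
theorem count {α : Type} {k : ℕ} (P : Finset α) (bad : (Fin (k + 1) → α) → Prop)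
    (b1 b2 : α → (Fin k → α) → Prop) {u v : ℝ}
    (h : ∀ z ∈ P, ∀ w, bad (Fin.cons z w) → b1 z w ∨ b2 z w)
    (h1 : ∀ z ∈ P, (((Fintype.piFinset fun _ : Fin k => P).filter fun w => b1 z w).card : ℝ) ≤ u)
    (h2 : ∀ w ∈ Fintype.piFinset fun _ : Fin k => P, ((P.filter fun z => b2 z w).card : ℝ) ≤ v) :
    (((Fintype.piFinset fun _ : Fin (k + 1) => P).filter bad).card : ℝ) ≤
      P.card * u + (P.card : ℝ) ^ k * v := by
  set W := Fintype.piFinset fun _ : Fin k => P with hW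
  have e1 : ((Fintype.piFinset fun _ : Fin (k + 1) => P).filter bad).card ≤
      (((P ×ˢ W).filter fun y => b1 y.1 y.2) ∪ (P ×ˢ W).filter fun y => b2 y.1 y.2).card := by
    refine card_le_card_of_injOn (fun x => (x 0, Fin.tail x)) (fun x hx => ?_) fun x _ y _ hxy => ?_
    · obtain ⟨h3, h4⟩ := mem_filter.1 (mem_coe.1 hx)
      rw [Fintype.mem_piFinset] at h3
      have h5 : (x 0, Fin.tail x) ∈ P ×ˢ W :=
        mem_product.2 ⟨h3 0, Fintype.mem_piFinset.2 fun i => h3 i.succ⟩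
      rw [← Fin.cons_self_tail x] at h4
      rcases h _ (h3 0) _ h4 with h6 | h6
      · exact mem_coe.2 (mem_union_left _ (mem_filter.2 ⟨h5, h6⟩))
      · exact mem_coe.2 (mem_union_right _ (mem_filter.2 ⟨h5, h6⟩))
    · obtain ⟨h3, h4⟩ := Prod.mk.inj hxy
      rw [← Fin.cons_self_tail x, ← Fin.cons_self_tail y, h3, h4]
  have e2 : (((P ×ˢ W).filter fun y => b1 y.1 y.2).card : ℝ) ≤ P.card * u := by
    rw [card_filter, sum_product, Nat.cast_sum, ← nsmul_eq_mul]
    refine sum_le_card_nsmul _ _ _ fun z hz => ?_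
    rw [← card_filter]
    exact h1 z hz
  have e3 : (((P ×ˢ W).filter fun y => b2 y.1 y.2).card : ℝ) ≤ (P.card : ℝ) ^ k * v := by
    have e : (W.card : ℝ) = (P.card : ℝ) ^ k := by
      rw [hW, Fintype.card_piFinset]; simp
    rw [card_filter, sum_product_right, Nat.cast_sum, ← e, ← nsmul_eq_mul]
    refine sum_le_card_nsmul _ _ _ fun w hw => ?_
    rw [← card_filter]
    exact h2 w hw
  have e4 : (((Fintype.piFinset fun _ : Fin (k + 1) => P).filter bad).card : ℝ) ≤
      ((P ×ˢ W).filter fun y => b1 y.1 y.2).card + ((P ×ˢ W).filter fun y => b2 y.1 y.2).card := by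
    exact_mod_cast e1.trans (card_union_le _ _)
  linarith

theorem card_PP {𝒜 : Finset ℕ} {A : ℕ} (h : 𝒜 ⊆ Ioc A (2 * A)) (H : ℕ) :
    ((PP 𝒜 H).card : ℝ) ≤ 2 * (A * H) := by
  have h1 : 𝒜.card ≤ A := (card_le_card h).trans (by rw [Nat.card_Ioc]; omega)
  have h2 : ((Icc (-(H : ℤ)) H).erase 0).card = 2 * H := by
    rw [card_erase_of_mem (by simp), Int.card_Icc]
    omega
  have h3 : (PP 𝒜 H).card ≤ 2 * (A * H) := by
    rw [PP, card_product, h2]
    nlinarith
  exact_mod_cast h3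

theorem PP_mono {𝒜 𝒜' : Finset ℕ} (h : 𝒜 ⊆ 𝒜') (H : ℕ) : PP 𝒜 H ⊆ PP 𝒜' H :=
  product_subset_product_left h

theorem lam_le {𝒜 : Finset ℕ} {N A H n : ℕ} (h : 𝒜 ⊆ Ioc A (2 * A)) (hA : A ≤ H) (hH : 8 * H ≤ N)
    (hL : 3 ≤ Real.log N) {z : ℕ × ℤ} (hz : z ∈ PP 𝒜 H) (hn : n ∈ Ioc N (2 * N)) :
    ‖((Λ (fv z n) : ℝ) : ℂ)‖ ≤ Real.log N ^ 2 := by
  obtain ⟨h1, h2⟩ := mem_product.1 hz
  have h3 := (mem_Ioc.1 (h h1)).2
  have h4 := (mem_Icc.1 (mem_of_mem_erase h2)).2
  obtain ⟨h5, h6⟩ := mem_Ioc.1 hn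
  have h7 : fv z n ≤ N ^ 2 := by
    have h8 : z.1 * n ≤ 2 * A * (2 * N) := Nat.mul_le_mul h3 h6
    have h9 : ((z.1 : ℤ) * n + z.2) ≤ ((N ^ 2 : ℕ) : ℤ) := by
      have a1 : (z.1 : ℤ) * n ≤ 2 * A * (2 * N) := by exact_mod_cast h8
      have a2 : (A : ℤ) ≤ H := by exact_mod_cast hA
      have a3 : 8 * (H : ℤ) ≤ N := by exact_mod_cast hH
      have a4 : (0 : ℤ) ≤ H := Int.natCast_nonneg _
      have a5 : (0 : ℤ) ≤ A := Int.natCast_nonneg _
      have a6 : (1 : ℤ) ≤ N := by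
        have : 1 ≤ N := by
          rcases Nat.eq_zero_or_pos N with rfl | h0
          · norm_num at hL
          · exact h0
        exact_mod_cast this
      push_cast
      nlinarith
    unfold fv
    omega
  rw [Complex.norm_real, Real.norm_of_nonneg ArithmeticFunction.vonMangoldt_nonneg]
  refine ArithmeticFunction.vonMangoldt_le_log.trans ?_
  have h10 : Real.log (fv z n) ≤ 2 * Real.log N := by
    rcases Nat.eq_zero_or_pos (fv z n) with h0 | h0
    · rw [h0]; simp; linarith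
    · rw [show 2 * Real.log N = Real.log ((N : ℝ) ^ 2) by rw [Real.log_pow]; norm_num]
      exact Real.log_le_log (by exact_mod_cast h0) (by exact_mod_cast h7)
  nlinarith

end TEL

open TEL in
theorem tel : LAMStmt → ∀ F, Fam F → CHBFor F → TELFor F := by
  classical
  intro lam F hF chb k
  induction k with
  | zero =>
    intro J K B₀
    refine ⟨fun i => i.elim0, 0, 0, 0, le_rfl, fun i => i.elim0,
      fun N A H Q β _ _ _ _ _ _ => ?_⟩
    simp
  | succ k ih =>
    intro J K B₀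
    obtain ⟨B, C₁, D₁, N₁, hD₁, hB, ih⟩ := ih (J + 2) K B₀
    obtain ⟨B₁, chb⟩ := chb (J + ∑ i, (B i + 1)) K
    obtain ⟨C₂, D₂, N₂, hD₂, chb⟩ := chb (max B₁ B₀) (le_max_left _ _)
    obtain ⟨N₀, hN₀⟩ := eventually_atTop.1 ((ev_log 3).and ((eventually_ge_atTop N₁).and
      ((eventually_ge_atTop N₂).and (eventually_ge_atTop (3 : ℝ)))))
    refine ⟨Fin.cons (max B₁ B₀) B, max C₁ C₂, 2 * D₁ + 2 ^ k * D₂, N₀, by positivity,
      fun i => Fin.cases (le_max_right _ _) (fun j => hB j) i,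
      fun N A H Q β hN hQ hA hH h8 hβ => ?_⟩
    obtain ⟨hL, n1, n2, n3⟩ := hN₀ N hN
    have N3 : 3 ≤ N := by exact_mod_cast n3
    set L := Real.log N with hLdef
    have L1 : 1 ≤ L := by linarith
    have m : ∀ c ≤ max C₁ C₂, L ^ c ≤ A ∧ A * L ^ c ≤ H := fun c hc =>
      ⟨(pow_le_pow_right₀ L1 hc).trans hA, (mul_le_mul_of_nonneg_left (pow_le_pow_right₀ L1 hc)
        (Nat.cast_nonneg _)).trans hH⟩
    have AH : A ≤ H := by
      have := (m 0 (Nat.zero_le _)).2
      rw [pow_zero, mul_one] at this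
      exact_mod_cast this
    have s0 := hF.sub (max C₁ C₂) N A
    have s1 := PP_mono (hF.anti _ _ N A (le_max_left C₁ C₂) N3) H
    have s2 := PP_mono (hF.anti _ _ N A (le_max_right C₁ C₂) N3) H
    set P := PP (F (max C₁ C₂) N A) H with hP
    have cP : (P.card : ℝ) ≤ 2 * (A * H) := card_PP s0 H
    have key := count P (fun x : Fin (k + 1) → ℕ × ℤ =>
        ((k + 1 : ℕ) : ℝ) * (N / L ^ K) < ‖∑ n ∈ Ioc N (2 * N), β n *
          (∏ i, ((Λ (fv (x i) n) : ℝ) : ℂ) - ∏ i, lamS (Q i) (fv (x i) n))‖)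
      (fun z w => k * (N / L ^ K) < ‖∑ n ∈ Ioc N (2 * N), β n * ((Λ (fv z n) : ℝ) : ℂ) *
          (∏ i, ((Λ (fv (w i) n) : ℝ) : ℂ) - ∏ i, lamS (Q i.succ) (fv (w i) n))‖)
      (fun z w => N / L ^ K < ‖∑ n ∈ Ioc N (2 * N), β n * (∏ i, lamS (Q i.succ) (fv (w i) n)) *
          (((Λ (fv z n) : ℝ) : ℂ) - lamS (Q 0) (fv z n))‖)
      (u := D₁ * ((A : ℝ) * H) ^ k / L ^ K) (v := D₂ * (A * H) / L ^ K)
      (fun z _ w hb => by
        by_contra hc
        rw [not_or, not_lt, not_lt] at hc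
        refine absurd hb (not_lt.2 ?_)
        refine le_trans (le_of_eq ?_) ((norm_add_le _ _).trans ((add_le_add hc.1 hc.2).trans
          (le_of_eq (by push_cast; ring))))
        rw [← sum_add_distrib]
        refine congrArg _ (sum_congr rfl fun n _ => ?_)
        simp only [Fin.prod_univ_succ, Fin.cons_zero, Fin.cons_succ]
        ring)
      (fun z hz => by
        refine le_trans ?_ (ih N A H (fun i => Q i.succ) (fun n => β n * ((Λ (fv z n) : ℝ) : ℂ)) n1
          (fun i => hQ i.succ) (m _ (le_max_left _ _)).1 (m _ (le_max_left _ _)).2 h8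
          fun n hn => ?_)
        · exact_mod_cast card_le_card (filter_subset_filter _
            (Fintype.piFinset_subset _ _ fun _ => s1))
        · rw [norm_mul, pow_add]
          exact mul_le_mul (hβ n hn) (lam_le s0 AH h8 hL hz hn) (norm_nonneg _) (by positivity))
      (fun w _ => by
        refine le_trans ?_ (chb N A H (Q 0) (fun n => β n * ∏ i, lamS (Q i.succ) (fv (w i) n)) n2
          (hQ 0).1 (hQ 0).2 (m _ (le_max_right _ _)).1 (m _ (le_max_right _ _)).2 h8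
          fun n hn => ?_)
        · exact_mod_cast card_le_card (filter_subset_filter _ s2)
        · rw [norm_mul, pow_add, norm_prod, ← prod_pow_eq_pow_sum]
          refine mul_le_mul (hβ n hn) (prod_le_prod (fun _ _ => norm_nonneg _) fun i _ => ?_)
            (by positivity) (by positivity)
          exact (lam _ _ _ (Nat.lt_succ_self _)).2.2.trans (hQ i.succ).2)
    refine key.trans ?_
    calc (P.card : ℝ) * (D₁ * ((A : ℝ) * H) ^ k / L ^ K) + (P.card : ℝ) ^ k * (D₂ * (A * H) / L ^ K)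
        ≤ 2 * (A * H) * (D₁ * ((A : ℝ) * H) ^ k / L ^ K) +
          (2 * (A * H)) ^ k * (D₂ * (A * H) / L ^ K) := by gcongr
      _ = _ := by rw [mul_pow 2]; ring

end Pool.Agent.MP_39a890_nt.KT
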