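import Pool.Agent.MP_39a890_nt.kt.Spec4
import Pool.Agent.MP_39a890_nt.kt.LAM

/-! Project KS, module TLS: replacing the von Mangoldt functions one at a time, in windows. -/

set_option autoImplicit false

noncomputable section

namespace Pool.Agent.MP_39a890_nt.KT

open Finset Filter
open scoped ArithmeticFunction.vonMangoldt
open Pool.Agent.MP_678834_nt Pool.Agent.MP_678834_nt.HL9 Pool.Agent.MP_39a890_nt.MS

namespace TLS

open Classical in
theorem count {α : Type} {k : ℕ} (P : Fin (k + 1) → Finset α) (H : ℕ) (hP : ∀ i, (P i).card = H)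
    (bad : (Fin (k + 1) → α) → Prop)
    (b1 b2 : α → (Fin k → α) → Prop) {u v : ℝ}
    (h : ∀ z ∈ P 0, ∀ w, bad (Fin.cons z w) → b1 z w ∨ b2 z w)
    (h1 : ∀ z ∈ P 0,
      (((Fintype.piFinset fun i : Fin k => P i.succ).filter fun w => b1 z w).card : ℝ) ≤ u)
    (h2 : ∀ w ∈ Fintype.piFinset fun i : Fin k => P i.succ,
      (((P 0).filter fun z => b2 z w).card : ℝ) ≤ v) :
    (((Fintype.piFinset P).filter bad).card : ℝ) ≤ H * u + (H : ℝ) ^ k * v := by
  set W := Fintype.piFinset fun i : Fin k => P i.succ with hW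
  have e1 : ((Fintype.piFinset P).filter bad).card ≤
      (((P 0 ×ˢ W).filter fun y => b1 y.1 y.2) ∪
        (P 0 ×ˢ W).filter fun y => b2 y.1 y.2).card := by
    refine card_le_card_of_injOn (fun x => (x 0, Fin.tail x)) (fun x hx => ?_) fun x _ y _ hxy => ?_
    · obtain ⟨h3, h4⟩ := mem_filter.1 (mem_coe.1 hx)
      rw [Fintype.mem_piFinset] at h3
      have h5 : (x 0, Fin.tail x) ∈ P 0 ×ˢ W :=
        mem_product.2 ⟨h3 0, Fintype.mem_piFinset.2 fun i => h3 i.succ⟩
      rw [← Fin.cons_self_tail x] at h4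
      rcases h _ (h3 0) _ h4 with h6 | h6
      · exact mem_coe.2 (mem_union_left _ (mem_filter.2 ⟨h5, h6⟩))
      · exact mem_coe.2 (mem_union_right _ (mem_filter.2 ⟨h5, h6⟩))
    · obtain ⟨h3, h4⟩ := Prod.mk.inj hxy
      rw [← Fin.cons_self_tail x, ← Fin.cons_self_tail y, h3, h4]
  have e2 : (((P 0 ×ˢ W).filter fun y => b1 y.1 y.2).card : ℝ) ≤ H * u := by
    rw [card_filter, sum_product, Nat.cast_sum, ← nsmul_eq_mul, ← hP 0]
    refine sum_le_card_nsmul _ _ _ fun z hz => ?_
    rw [← card_filter]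
    exact h1 z hz
  have e3 : (((P 0 ×ˢ W).filter fun y => b2 y.1 y.2).card : ℝ) ≤ (H : ℝ) ^ k * v := by
    have e : (W.card : ℝ) = (H : ℝ) ^ k := by
      rw [hW, Fintype.card_piFinset]; simp [hP]
    rw [card_filter, sum_product_right, Nat.cast_sum, ← e, ← nsmul_eq_mul]
    refine sum_le_card_nsmul _ _ _ fun w hw => ?_
    rw [← card_filter]
    exact h2 w hw
  have e4 : (((Fintype.piFinset P).filter bad).card : ℝ) ≤
      ((P 0 ×ˢ W).filter fun y => b1 y.1 y.2).card +
        ((P 0 ×ˢ W).filter fun y => b2 y.1 y.2).card := by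
    exact_mod_cast e1.trans (card_union_le _ _)
  linarith

theorem lam_le {N H n : ℕ} {u z : ℤ} (hH : 4 * (|u| + H) ≤ N)
    (hL : 3 ≤ Real.log N) (hN : 3 ≤ N) (hz : z ∈ Ioc u (u + H)) (hn : n ∈ Ioc N (2 * N)) :
    ‖((Λ (fv (1, z) n) : ℝ) : ℂ)‖ ≤ Real.log N ^ 2 := by
  have h4 := (mem_Ioc.1 hz).2
  obtain ⟨h5, h6⟩ := mem_Ioc.1 hn
  have h7 : fv (1, z) n ≤ N ^ 2 := by
    have h8 : 3 * N ≤ N ^ 2 := by nlinarith
    have h9 := le_abs_self u
    have h10 := abs_nonneg u
    have h11 : fv (1, z) n ≤ 3 * N := by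
      simp only [fv, Nat.cast_one, one_mul]
      omega
    exact h11.trans h8
  rw [Complex.norm_real, Real.norm_of_nonneg ArithmeticFunction.vonMangoldt_nonneg]
  refine ArithmeticFunction.vonMangoldt_le_log.trans ?_
  have h10 : Real.log (fv (1, z) n) ≤ 2 * Real.log N := by
    rcases Nat.eq_zero_or_pos (fv (1, z) n) with h0 | h0
    · rw [h0]; simp; linarith
    · rw [show 2 * Real.log N = Real.log ((N : ℝ) ^ 2) by rw [Real.log_pow]; norm_num]
      exact Real.log_le_log (by exact_mod_cast h0) (by exact_mod_cast h7)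
  nlinarith

end TLS

open TLS in
theorem tls : CHSStmt → TLSStmt := by
  classical
  intro chs ε hε k
  induction k with
  | zero =>
    intro J K B₀
    refine ⟨fun i => i.elim0, 0, 0, le_rfl, fun i => i.elim0,
      fun N H Q u β _ _ _ _ _ => ?_⟩
    simp
  | succ k ih =>
    intro J K B₀
    obtain ⟨B, D₁, N₁, hD₁, hB, ih⟩ := ih (J + 2) K B₀
    obtain ⟨B₁, chb⟩ := chs ε hε (J + ∑ i, (B i + 1)) K
    obtain ⟨D₂, N₂, hD₂, chb⟩ := chb (max B₁ B₀) (le_max_left _ _)
    obtain ⟨N₀, hN₀⟩ := eventually_atTop.1 ((ev_log 3).and ((eventually_ge_atTop N₁).and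
      ((eventually_ge_atTop N₂).and (eventually_ge_atTop (3 : ℝ)))))
    refine ⟨Fin.cons (max B₁ B₀) B, D₁ + D₂, N₀, by positivity,
      fun i => Fin.cases (le_max_right _ _) (fun j => hB j) i,
      fun N H Q u β hN hQ hH h8 hβ => ?_⟩
    obtain ⟨hL, n1, n2, n3⟩ := hN₀ N hN
    have N3 : 3 ≤ N := by exact_mod_cast n3
    set L := Real.log N with hLdef
    have L1 : 1 ≤ L := by linarith
    have key := count (fun i => Ioc (u i) (u i + H)) H (fun i => by simp)
      (fun d : Fin (k + 1) → ℤ =>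
        ((k + 1 : ℕ) : ℝ) * (N / L ^ K) < ‖∑ n ∈ Ioc N (2 * N), β n *
          (∏ i, ((Λ (fv (sh d i) n) : ℝ) : ℂ) - ∏ i, lamS (Q i) (fv (sh d i) n))‖)
      (fun z w => k * (N / L ^ K) < ‖∑ n ∈ Ioc N (2 * N), β n * ((Λ (fv (1, z) n) : ℝ) : ℂ) *
          (∏ i, ((Λ (fv (sh w i) n) : ℝ) : ℂ) - ∏ i, lamS (Q i.succ) (fv (sh w i) n))‖)
      (fun z w => N / L ^ K < ‖∑ n ∈ Ioc N (2 * N), β n * (∏ i, lamS (Q i.succ) (fv (sh w i) n)) *
          (((Λ (fv (1, z) n) : ℝ) : ℂ) - lamS (Q 0) (fv (1, z) n))‖)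
      (u := D₁ * (H : ℝ) ^ k / L ^ K) (v := D₂ * H / L ^ K)
      (fun z _ w hb => by
        by_contra hc
        rw [not_or, not_lt, not_lt] at hc
        refine absurd hb (not_lt.2 ?_)
        refine le_trans (le_of_eq ?_) ((norm_add_le _ _).trans ((add_le_add hc.1 hc.2).trans
          (le_of_eq (by push_cast; ring))))
        rw [← sum_add_distrib]
        refine congrArg _ (sum_congr rfl fun n _ => ?_)
        simp only [sh, Fin.prod_univ_succ, Fin.cons_zero, Fin.cons_succ]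
        ring)
      (fun z hz => by
        refine le_trans (le_of_eq ?_) (ih N H (fun i => Q i.succ) (fun i => u i.succ)
          (fun n => β n * ((Λ (fv (1, z) n) : ℝ) : ℂ)) n1
          (fun i => hQ i.succ) hH (fun i => h8 i.succ) fun n hn => ?_)
        · congr
        · rw [norm_mul, pow_add]
          exact mul_le_mul (hβ n hn) (lam_le (h8 0) hL N3 hz hn) (norm_nonneg _) (by positivity))
      (fun w _ => by
        refine le_trans (le_of_eq ?_) (chb N H (Q 0) (u 0)
          (fun n => β n * ∏ i, lamS (Q i.succ) (fv (sh w i) n)) n2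
          (hQ 0).1 (hQ 0).2 hH (h8 0) fun n hn => ?_)
        · congr
        · rw [norm_mul, pow_add, norm_prod, ← prod_pow_eq_pow_sum]
          refine mul_le_mul (hβ n hn) (prod_le_prod (fun _ _ => norm_nonneg _) fun i _ => ?_)
            (by positivity) (by positivity)
          refine (lam _ _ _ (Nat.lt_succ_self _)).2.2.trans ((hQ i.succ).2.trans ?_)
          rw [Fin.cons_succ, pow_succ, mul_comm]
          exact mul_le_mul_of_nonneg_left (by linarith) (by positivity))
    refine le_trans (le_of_eq ?_) (key.trans (le_of_eq (by ring)))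
    congr

end Pool.Agent.MP_39a890_nt.KT
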