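import Pool.Agent.MP_39a890_nt.kt.Spec

/-! Uniformity in the end point for systems of forms. -/

set_option autoImplicit false

noncomputable section

namespace Pool.Agent.MP_39a890_nt.KT

open Finset Filter
open scoped ArithmeticFunction.vonMangoldt
open Pool.Agent.MP_678834_nt Pool.Agent.MP_678834_nt.HL9 Pool.Agent.MP_39a890_nt.MS

namespace UNK

theorem lam_le {m : ℕ} {z : ℝ} (hz : 1 ≤ z) (h : (m : ℝ) ≤ z) : Λ m ≤ Real.log z := by
  rcases Nat.eq_zero_or_pos m with rfl | h0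
  · simpa using Real.log_nonneg hz
  · exact ArithmeticFunction.vonMangoldt_le_log.trans (Real.log_le_log (by exact_mod_cast h0) h)

theorem fv_le {z : ℕ × ℤ} {n H : ℕ} {N W : ℝ} (hN : 1 ≤ N) (hn : (n : ℝ) ≤ N)
    (ha : (z.1 : ℝ) ≤ 2 * W) (hb : z.2 ≤ H) (hH : (H : ℝ) ≤ W) (hW : 3 * W ≤ N) :
    Λ (fv z n) ≤ 2 * Real.log N := by
  have m1 : fv z n ≤ z.1 * n + H := by
    unfold fv
    rw [Int.toNat_le]
    push_cast
    linarith
  have W0 : 0 ≤ W := le_trans (Nat.cast_nonneg H) hH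
  have m2 : (z.1 : ℝ) * n ≤ 2 * W * N := by gcongr
  have m3 : (fv z n : ℝ) ≤ N ^ 2 := by
    calc (fv z n : ℝ) ≤ z.1 * n + H := by exact_mod_cast m1
      _ ≤ 3 * W * N := by nlinarith
      _ ≤ _ := by rw [sq]; gcongr
  have m4 := lam_le (one_le_pow₀ hN) m3
  rwa [Real.log_pow, Nat.cast_ofNat] at m4

theorem j_le {j N : ℕ} (a : 2 ^ j ≤ N) : j ≤ ⌊2 * Real.log N⌋₊ := by
  have b := Real.log_le_log (by positivity) (show (2 : ℝ) ^ j ≤ N by exact_mod_cast a)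
  rw [Real.log_pow] at b
  refine Nat.le_floor ?_
  nlinarith [Real.log_two_gt_d9, (Nat.cast_nonneg j : (0 : ℝ) ≤ j)]

theorem fin {a b c u s : ℝ} (_ha : 0 ≤ a) (hc : 0 ≤ c) (hb : 0 ≤ b) (hu : 0 ≤ u) (hs : 0 ≤ s) :
    b * (4 * u) + s * (4 * u) + 2 * (4 * u) + s * u ≤ (c + (4 * b + 8)) * (1 + s) * u := by
  have h1 : 0 ≤ s * u := by positivity
  have h2 : 0 ≤ c * (1 + s) * u := by positivity
  have h3 : 0 ≤ b * (s * u) := by positivity
  nlinarith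

theorem full {g : ℕ → ℝ} {s e : ℝ} {W j : ℕ}
    (h : ∀ l < j, |∑ n ∈ Ioc (W * 2 ^ l) (W * 2 ^ (l + 1)), g n -
      s * (((W * 2 ^ (l + 1) : ℕ) : ℝ) - (W * 2 ^ l : ℕ))| ≤ e * (W * 2 ^ l : ℕ)) :
    |∑ n ∈ Ioc W (W * 2 ^ j), g n - s * (((W * 2 ^ j : ℕ) : ℝ) - W)| ≤
      e * (((W * 2 ^ j : ℕ) : ℝ) - W) := by
  induction j with
  | zero => simp
  | succ j ih =>
    have a := ih (fun l hl => h l (by omega))
    have b := h j (by omega)
    rw [← sum_Ioc_consecutive g (Nat.le_mul_of_pos_right W (Nat.two_pow_pos j))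
      (show W * 2 ^ j ≤ W * 2 ^ (j + 1) from
        Nat.mul_le_mul_left W (Nat.pow_le_pow_right two_pos j.le_succ))]
    have c : ((W * 2 ^ (j + 1) : ℕ) : ℝ) = 2 * (W * 2 ^ j : ℕ) := by push_cast; ring
    rw [c] at b ⊢
    rw [abs_le] at a b ⊢
    constructor <;> linarith [a.1, a.2, b.1, b.2]

theorem part {g : ℕ → ℝ} {s e : ℝ} {u v y w : ℕ} (hg : ∀ n, 0 ≤ g n) (hs : 0 ≤ s) (h1 : u ≤ v)
    (h2 : v ≤ y) (h3 : y ≤ w) (a : |∑ n ∈ Ioc u v, g n - s * ((v : ℝ) - u)| ≤ e)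
    (b : |∑ n ∈ Ioc u w, g n - s * ((w : ℝ) - u)| ≤ e) :
    |∑ n ∈ Ioc u y, g n - s * ((y : ℝ) - u)| ≤ e + s * ((w : ℝ) - v) := by
  have c1 : ∑ n ∈ Ioc u v, g n ≤ ∑ n ∈ Ioc u y, g n :=
    sum_le_sum_of_subset_of_nonneg (Ioc_subset_Ioc_right h2) fun n _ _ => hg n
  have c2 : ∑ n ∈ Ioc u y, g n ≤ ∑ n ∈ Ioc u w, g n :=
    sum_le_sum_of_subset_of_nonneg (Ioc_subset_Ioc_right h3) fun n _ _ => hg n
  have d1 : s * (v : ℝ) ≤ s * y := by gcongr
  have d2 : s * (y : ℝ) ≤ s * w := by gcongr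
  have _ := h1
  rw [abs_le] at a b ⊢
  constructor <;> linarith [a.1, a.2, b.1, b.2]

theorem asm {g : ℕ → ℝ} {s e B : ℝ} {R T y : ℕ} (hg : ∀ n, 0 ≤ g n) (hs : 0 ≤ s) (he : 0 ≤ e)
    (hR : 0 < R) (hT : 0 < T) (hy : R * T ≤ y) (hB : ∀ n ≤ y, g n ≤ B)
    (h : ∀ j i, R * T * 2 ^ j ≤ y → i ≤ R →
      |∑ n ∈ Ioc (R * T * 2 ^ j) ((R + i) * (T * 2 ^ j)), g n -
        s * ((((R + i) * (T * 2 ^ j) : ℕ) : ℝ) - (R * T * 2 ^ j : ℕ))| ≤ e * (R * T * 2 ^ j : ℕ)) :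
    |∑ n ∈ Ioc 0 y, g n - s * y| ≤ (R * T : ℕ) * (B + s) + 2 * (e * y) + s * (y / R) := by
  have W0 : 0 < R * T := Nat.mul_pos hR hT
  obtain ⟨j, hj⟩ : ∃ j, j = Nat.log 2 (y / (R * T)) := ⟨_, rfl⟩
  have q0 : y / (R * T) ≠ 0 := (Nat.div_pos hy W0).ne'
  have j1 : R * T * 2 ^ j ≤ y := by
    rw [mul_comm, ← Nat.le_div_iff_mul_le W0, hj]
    exact Nat.pow_log_le_self 2 q0
  have j2 : y < R * T * 2 ^ (j + 1) := by
    rw [mul_comm, ← Nat.div_lt_iff_lt_mul W0, hj]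
    exact Nat.lt_pow_succ_log_self one_lt_two _
  have T0 : 0 < T * 2 ^ j := Nat.mul_pos hT (Nat.two_pow_pos j)
  have i1 : R ≤ y / (T * 2 ^ j) := by
    rw [Nat.le_div_iff_mul_le T0, ← mul_assoc]
    exact j1
  have i2 : y / (T * 2 ^ j) < 2 * R := by
    rw [Nat.div_lt_iff_lt_mul T0]
    exact j2.trans_eq (by ring)
  obtain ⟨i, hi⟩ := Nat.exists_eq_add_of_le i1
  have k1 : (R + i) * (T * 2 ^ j) ≤ y := hi ▸ Nat.div_mul_le_self y _
  have k2 : y ≤ (R + (i + 1)) * (T * 2 ^ j) := by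
    have := Nat.lt_div_mul_add (a := y) T0
    rw [hi] at this
    exact this.le.trans_eq (by ring)
  have p := part hg hs (u := R * T * 2 ^ j) (by nlinarith) k1 k2 (h j i j1 (by omega))
    (h j (i + 1) j1 (by omega))
  have f := full (g := g) (s := s) (e := e) (W := R * T) (j := j) (fun l hl => by
    have := h l R (le_trans (Nat.mul_le_mul_left _ (Nat.pow_le_pow_right two_pos hl.le)) j1) le_rfl
    rwa [show (R + R) * (T * 2 ^ l) = R * T * 2 ^ (l + 1) by ring] at this)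
  have z1 : 0 ≤ ∑ n ∈ Ioc 0 (R * T), g n := sum_nonneg fun n _ => hg n
  have z2 : ∑ n ∈ Ioc 0 (R * T), g n ≤ (R * T : ℕ) * B := by
    refine (sum_le_card_nsmul _ _ B fun n hn => hB n ((mem_Ioc.1 hn).2.trans hy)).trans ?_
    rw [nsmul_eq_mul, Nat.card_Ioc, Nat.sub_zero]
  have B0 : 0 ≤ B := (hg 0).trans (hB 0 (Nat.zero_le _))
  rw [← sum_Ioc_consecutive g (Nat.zero_le _) j1,
    ← sum_Ioc_consecutive g (Nat.zero_le _) (Nat.le_mul_of_pos_right (R * T) (Nat.two_pow_pos j))]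
  have m1 : ((R * T * 2 ^ j : ℕ) : ℝ) ≤ y := by exact_mod_cast j1
  have m2 : e * ((R * T * 2 ^ j : ℕ) : ℝ) ≤ e * y := by gcongr
  have m3 : (((R + (i + 1)) * (T * 2 ^ j) : ℕ) : ℝ) - ((R + i) * (T * 2 ^ j) : ℕ) ≤ y / R := by
    rw [le_div_iff₀ (by exact_mod_cast hR)]
    refine le_trans (le_of_eq ?_) m1
    push_cast
    ring
  have m4 := mul_le_mul_of_nonneg_left m3 hs
  have m5 : 0 ≤ e * ((R * T : ℕ) : ℝ) := by positivity
  have m6 : 0 ≤ s * ((R * T : ℕ) : ℝ) := by positivity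
  have m7 : 0 ≤ ((R * T : ℕ) : ℝ) * B := by positivity
  rw [abs_le] at p f ⊢
  constructor <;> nlinarith [p.1, p.2, f.1, f.2]

end UNK

open UNK in
theorem unk : LOWStmt → ∀ F, Fam F → Mono F → KTFor F → UNKFor F := by
  classical
  intro low F hF hM hK k K
  obtain ⟨C₀, h⟩ := hK k (K + 3)
  refine ⟨C₀, fun D => ?_⟩
  obtain ⟨C, N₀, hC, h⟩ := h (2 * D)
  obtain ⟨x₀, hx₀⟩ := eventually_atTop.1 ((ev_log_pow one_pos (2 * (D + k + 6)) 1).and
    ((ev_log 4).and ((eventually_ge_atTop 9).and (eventually_ge_atTop (max N₀ 3 ^ 2)))))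
  refine ⟨9 * 2 ^ (K + 3) * C + (4 * 2 ^ k + 8), x₀, by positivity, fun N A H hN h1 h2 h3 => ?_⟩
  obtain ⟨e1, hL, x9, e2⟩ := hx₀ N hN
  rw [one_mul, Real.rpow_one] at e1
  set L := Real.log N with hLx
  have L1 : 1 ≤ L := by linarith
  have L0 : 0 < L := by linarith
  have x0 : (0 : ℝ) < N := by linarith
  have AH : (A : ℝ) ≤ H := le_trans (le_mul_of_one_le_right (by positivity) (one_le_pow₀ L1)) h2
  obtain ⟨W, hW⟩ : ∃ W, W = (N : ℝ) / L ^ (D + k + 6) := ⟨_, rfl⟩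
  have W0 : 0 < W := by rw [hW]; positivity
  have xW : (N : ℝ) = W * L ^ (D + k + 6) := by rw [hW]; field_simp
  have LW : L ^ (D + k + 6) ≤ W := by
    rw [hW, le_div_iff₀ (by positivity), ← pow_add, ← two_mul]
    exact e1
  have W2 : (N : ℝ) ≤ W ^ 2 := by
    rw [sq]
    exact xW.le.trans (by gcongr)
  have WN : max N₀ 3 ≤ W := le_of_pow_le_pow_left₀ two_ne_zero W0.le (e2.trans W2)
  have W1 : 3 ≤ W := (le_max_right _ _).trans WN
  obtain ⟨T, hT⟩ : ∃ T, T = ⌈W⌉₊ := ⟨_, rfl⟩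
  have T1 : W ≤ T := hT ▸ Nat.le_ceil W
  have T2 : (T : ℝ) ≤ 2 * W := by linarith [hT ▸ Nat.ceil_lt_add_one W0.le]
  have T0 : 0 < T := by exact_mod_cast W0.trans_le T1
  have u1 : (1 : ℝ) ≤ L ^ 2 := one_le_pow₀ L1
  obtain ⟨R, hR⟩ : ∃ R, R = ⌈L ^ 2⌉₊ := ⟨_, rfl⟩
  have R1 : L ^ 2 ≤ R := hR ▸ Nat.le_ceil _
  have R2 : (R : ℝ) ≤ 2 * L ^ 2 := by
    linarith [hR ▸ Nat.ceil_lt_add_one (show 0 ≤ L ^ 2 by positivity)]
  have R0 : 0 < R := by exact_mod_cast (show (0 : ℝ) < R by linarith)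
  have blk : ∀ z : ℕ × ℕ, ∃ Ex : Finset (Fin k → ℕ × ℤ),
      (Ex.card : ℝ) ≤ 2 ^ (K + 3) * C * ((A : ℝ) * H) ^ k / L ^ (K + 3) ∧
      (R * T * 2 ^ z.1 ≤ N → z.2 ≤ R → ∀ x : Fin k → ℕ × ℤ, Function.Injective x →
        (∀ i, (x i).1 ∈ F C₀ N A ∧ |(x i).2| ≤ H ∧ IsCoprime ((x i).1 : ℤ) (x i).2) → x ∉ Ex →
        |∑ n ∈ Ioc (R * T * 2 ^ z.1) ((R + z.2) * (T * 2 ^ z.1)), Λ n * ∏ i, Λ (fv (x i) n) -
          singSeries x * ((((R + z.2) * (T * 2 ^ z.1) : ℕ) : ℝ) - (R * T * 2 ^ z.1 : ℕ))| ≤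
          4 / L ^ 2 * (R * T * 2 ^ z.1 : ℕ)) := by
    rintro ⟨j, i⟩
    by_cases hl : R * T * 2 ^ j ≤ N ∧ i ≤ R
    swap
    · exact ⟨∅, by simp only [card_empty, Nat.cast_zero]; positivity,
        fun a b => (hl ⟨a, b⟩).elim⟩
    have n0 : T ≤ R * T * 2 ^ j :=
      (Nat.le_mul_of_pos_left T R0).trans (Nat.le_mul_of_pos_right _ (Nat.two_pow_pos j))
    have n1 : W ≤ (R * T * 2 ^ j : ℕ) := T1.trans (by exact_mod_cast n0)
    have n3 : ((R * T * 2 ^ j : ℕ) : ℝ) ≤ N := by exact_mod_cast hl.1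
    have n4 : 3 ≤ R * T * 2 ^ j := by exact_mod_cast W1.trans n1
    have g1 : Real.log (R * T * 2 ^ j : ℕ) ≤ L := Real.log_le_log (W0.trans_le n1) n3
    have g2 : L / 2 ≤ Real.log (R * T * 2 ^ j : ℕ) := by
      have := Real.log_le_log x0 (W2.trans (pow_le_pow_left₀ W0.le n1 2))
      rw [Real.log_pow] at this
      push_cast at this ⊢
      linarith
    have g0 : 0 < L / 2 := by positivity
    have g3 : Real.log (R * T * 2 ^ j : ℕ) ^ C₀ ≤ L ^ C₀ :=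
      pow_le_pow_left₀ (g0.le.trans g2) g1 _
    have g4 : L ^ D ≤ Real.log (R * T * 2 ^ j : ℕ) ^ (2 * D) := by
      rw [pow_mul]
      refine pow_le_pow_left₀ L0.le (le_trans ?_ (pow_le_pow_left₀ g0.le g2 2)) _
      nlinarith
    obtain ⟨Ex, c1, c2⟩ := h (R * T * 2 ^ j) ((R + i) * (T * 2 ^ j)) A H
      ((le_max_left _ _).trans (WN.trans n1)) (by nlinarith [Nat.zero_le (i * (T * 2 ^ j))])
      ((Nat.mul_le_mul_right _ (show R + i ≤ 2 * R by omega)).trans_eq (by ring))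
      (g3.trans h1) (le_trans (by gcongr) h2) (h3.trans g4)
    refine ⟨Ex, c1.trans ?_, fun _ _ x hx hc hn => ?_⟩
    · calc _ ≤ C * ((A : ℝ) * H) ^ k / (L / 2) ^ (K + 3) := by gcongr
        _ = _ := by rw [div_pow]; field_simp
    · refine (c2 x hx (fun i => ⟨hM _ _ _ _ n4 hl.1 (hc i).1, (hc i).2⟩) hn).trans ?_
      have : (L / 2) ^ 2 ≤ Real.log (R * T * 2 ^ j : ℕ) ^ (K + 3) :=
        (pow_le_pow_right₀ (by linarith) (by omega)).trans (pow_le_pow_left₀ g0.le g2 _)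
      calc _ ≤ ((R * T * 2 ^ j : ℕ) : ℝ) / (L / 2) ^ 2 := by gcongr
        _ = _ := by field_simp; norm_num
  choose Ex hEx using blk
  obtain ⟨J, hJ⟩ : ∃ J, J = ⌊2 * L⌋₊ := ⟨_, rfl⟩
  have J1 : (J : ℝ) ≤ 2 * L := hJ ▸ Nat.floor_le (by positivity)
  refine ⟨(range (J + 1) ×ˢ range (R + 1)).biUnion Ex, ?_, fun x hx hc hn y y1 y2 => ?_⟩
  · calc (((range (J + 1) ×ˢ range (R + 1)).biUnion Ex).card : ℝ)
          ≤ ∑ l ∈ range (J + 1) ×ˢ range (R + 1), ((Ex l).card : ℝ) := by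
          exact_mod_cast card_biUnion_le
      _ ≤ (range (J + 1) ×ˢ range (R + 1)).card •
            (2 ^ (K + 3) * C * ((A : ℝ) * H) ^ k / L ^ (K + 3)) :=
          sum_le_card_nsmul _ _ _ fun l _ => (hEx l).1
      _ ≤ (3 * L * (3 * L ^ 2)) * (2 ^ (K + 3) * C * ((A : ℝ) * H) ^ k / L ^ (K + 3)) := by
          rw [nsmul_eq_mul, card_product, card_range, card_range]
          push_cast
          gcongr <;> linarith
      _ = 9 * 2 ^ (K + 3) * C * ((A : ℝ) * H) ^ k / L ^ K := by rw [pow_add L]; field_simp; ring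
      _ ≤ _ := by
          gcongr
          exact le_add_of_nonneg_right (by positivity)
  · have s0 := (low k).1 x
    have yW : W * L ^ (k + 5) ≤ y := by
      refine le_trans (le_of_eq ?_) y1
      rw [xW]
      field_simp
      ring
    have RT : ((R * T : ℕ) : ℝ) ≤ 4 * (W * L ^ 2) := by
      push_cast
      calc (R : ℝ) * T ≤ 2 * L ^ 2 * (2 * W) := by gcongr
        _ = _ := by ring
    have RT2 : ((R * T : ℕ) : ℝ) * L ^ (k + 1) ≤ 4 * (y / L ^ 2) := by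
      rw [← mul_div_assoc, le_div_iff₀ (by positivity)]
      calc _ ≤ 4 * (W * L ^ 2) * L ^ (k + 1) * L ^ 2 := by gcongr
        _ = 4 * (W * L ^ (k + 5)) := by ring
        _ ≤ _ := by gcongr
    have RT3 : ((R * T : ℕ) : ℝ) ≤ 4 * (y / L ^ 2) :=
      le_trans (le_mul_of_one_le_right (by positivity) (one_le_pow₀ L1)) RT2
    have y0 : (0 : ℝ) ≤ y := by positivity
    have RT4 : R * T ≤ y := by
      have : 4 * ((y : ℝ) / L ^ 2) ≤ y := by
        rw [← mul_div_assoc, div_le_iff₀ (by positivity)]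
        nlinarith [mul_nonneg y0 (show 0 ≤ L ^ 2 - 4 by nlinarith)]
      exact_mod_cast RT3.trans this
    have HW : (H : ℝ) ≤ W := h3.trans ((pow_le_pow_right₀ L1 (by omega)).trans LW)
    have W3 : 3 * W ≤ N := by
      rw [xW, mul_comm]
      gcongr
      exact le_trans (by linarith) (le_self_pow₀ L1 (by omega))
    have t := asm (g := fun n => Λ n * ∏ i, Λ (fv (x i) n)) (s := singSeries x) (e := 4 / L ^ 2)
      (B := L * (2 * L) ^ k) (R := R) (T := T) (y := y)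
      (fun n => mul_nonneg ArithmeticFunction.vonMangoldt_nonneg
        (prod_nonneg fun i _ => ArithmeticFunction.vonMangoldt_nonneg)) s0 (by positivity) R0 T0 RT4
      (fun n hn => by
        have m2 : (n : ℝ) ≤ N := by exact_mod_cast hn.trans y2
        refine mul_le_mul (lam_le (by linarith) m2) ?_
          (prod_nonneg fun i _ => ArithmeticFunction.vonMangoldt_nonneg) L0.le
        refine (prod_le_prod (g := fun _ => 2 * L)
          (fun i _ => ArithmeticFunction.vonMangoldt_nonneg) fun i _ => ?_).trans (by simp)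
        have a3 : ((x i).1 : ℝ) ≤ 2 * A := by
          exact_mod_cast (mem_Ioc.1 (hF.sub _ _ _ (hc i).1)).2
        exact fv_le (W := W) (by linarith) m2 (by linarith) ((le_abs_self _).trans (hc i).2.1) HW W3)
      (fun j i j1 i1 => (hEx (j, i)).2 (j1.trans y2) i1 x hx hc fun k' => hn (mem_biUnion.2
        ⟨(j, i), mem_product.2 ⟨mem_range.2 (Nat.lt_succ_of_le (hJ ▸ j_le
          ((Nat.le_mul_of_pos_left _ (Nat.mul_pos R0 T0)).trans (j1.trans y2)))),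
          mem_range.2 (Nat.lt_succ_of_le i1)⟩, k'⟩))
    rw [show Icc 1 y = Ioc 0 y from rfl]
    refine t.trans ?_
    have v1 : (y : ℝ) / R ≤ y / L ^ 2 := by gcongr
    have v2 : ((R * T : ℕ) : ℝ) * (L * (2 * L) ^ k) ≤ 2 ^ k * (4 * (y / L ^ 2)) :=
      le_trans (le_of_eq (by rw [mul_pow]; ring))
        (mul_le_mul_of_nonneg_left RT2 (show (0 : ℝ) ≤ 2 ^ k by positivity))
    have v3 := mul_le_mul_of_nonneg_left RT3 s0
    have v4 := mul_le_mul_of_nonneg_left v1 s0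
    have v5 : (0 : ℝ) ≤ y / L ^ 2 := by positivity
    rw [mul_div_assoc, show 4 / L ^ 2 * (y : ℝ) = 4 * (y / L ^ 2) by ring]
    refine le_trans ?_ (fin le_rfl (by positivity) (by positivity) v5 s0)
    linarith

end Pool.Agent.MP_39a890_nt.KT

end
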