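import Pool.Agent.MP_39a890_nt.kt.Box
import Pool.Agent.MP_39a890_nt.kt.UNK
import Pool.Agent.MP_39a890_nt.kt.CNK
import Pool.Agent.MP_39a890_nt.kt.CHB
import Pool.Agent.MP_39a890_nt.kt.CRT
import Pool.Agent.MP_39a890_nt.kt.DEL
import Pool.Agent.MP_39a890_nt.kt.EB
import Pool.Agent.MP_39a890_nt.kt.EXP
import Pool.Agent.MP_39a890_nt.kt.LAM
import Pool.Agent.MP_39a890_nt.kt.LOC1
import Pool.Agent.MP_39a890_nt.kt.LOC2
import Pool.Agent.MP_39a890_nt.kt.LOW
import Pool.Agent.MP_39a890_nt.kt.MTK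
import Pool.Agent.MP_39a890_nt.kt.RAN
import Pool.Agent.MP_39a890_nt.kt.SER
import Pool.Agent.MP_39a890_nt.kt.SWP
import Pool.Agent.MP_39a890_nt.ms.All
import Pool.Agent.MP_39a890_nt.ms.TII2

/-! Project KT: the assembly. -/

set_option autoImplicit false

noncomputable section

namespace Pool.Agent.MP_39a890_nt.KT

open Finset Filter
open scoped ArithmeticFunction.vonMangoldt
open Pool.Agent.MP_678834_nt Pool.Agent.MP_678834_nt.HL9 Pool.Agent.MP_39a890_nt.MS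

open UNK in
theorem unk2 : LOWStmt → ∀ F, Fam2 F → Mono F → KTFor F → UNKFor F := by
  classical
  intro low F hF hM hK k K
  obtain ⟨C₀, h⟩ := hK k (K + 3)
  refine ⟨C₀, fun D => ?_⟩
  obtain ⟨C, N₀, hC, h⟩ := h (2 * D)
  obtain ⟨x₀, hx₀⟩ := eventually_atTop.1 ((ev_log_pow one_pos (2 * (D + k + 6)) 1).and
    ((ev_log 4).and ((eventually_ge_atTop 9).and (eventually_ge_atTop (max N₀ 3 ^ 2)))))
  refine ⟨9 * 2 ^ (K + 3) * C + (4 * 2 ^ k + 8), x₀, by positivity, fun N A H hN h1 h2 h3 => ?_⟩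
  obtain ⟨e1, hL, x9, e2⟩ := hx₀ N hN
  rw [one_mul, Real.rpow_one] at e1
  set L := Real.log N with hLx
  have L1 : 1 ≤ L := by linarith
  have L0 : 0 < L := by linarith
  have x0 : (0 : ℝ) < N := by linarith
  have AH : (A : ℝ) ≤ H := le_trans (le_mul_of_one_le_right (by positivity) (one_le_pow₀ L1)) h2
  obtain ⟨W, hW⟩ : ∃ W, W = (N : ℝ) / L ^ (D + k + 6) := ⟨_, rfl⟩
  have W0 : 0 < W := by rw [hW]; positivity
  have xW : (N : ℝ) = W * L ^ (D + k + 6) := by rw [hW]; field_simp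
  have LW : L ^ (D + k + 6) ≤ W := by
    rw [hW, le_div_iff₀ (by positivity), ← pow_add, ← two_mul]
    exact e1
  have W2 : (N : ℝ) ≤ W ^ 2 := by
    rw [sq]
    exact xW.le.trans (by gcongr)
  have WN : max N₀ 3 ≤ W := le_of_pow_le_pow_left₀ two_ne_zero W0.le (e2.trans W2)
  have W1 : 3 ≤ W := (le_max_right _ _).trans WN
  obtain ⟨T, hT⟩ : ∃ T, T = ⌈W⌉₊ := ⟨_, rfl⟩
  have T1 : W ≤ T := hT ▸ Nat.le_ceil W
  have T2 : (T : ℝ) ≤ 2 * W := by linarith [hT ▸ Nat.ceil_lt_add_one W0.le]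
  have T0 : 0 < T := by exact_mod_cast W0.trans_le T1
  have u1 : (1 : ℝ) ≤ L ^ 2 := one_le_pow₀ L1
  obtain ⟨R, hR⟩ : ∃ R, R = ⌈L ^ 2⌉₊ := ⟨_, rfl⟩
  have R1 : L ^ 2 ≤ R := hR ▸ Nat.le_ceil _
  have R2 : (R : ℝ) ≤ 2 * L ^ 2 := by
    linarith [hR ▸ Nat.ceil_lt_add_one (show 0 ≤ L ^ 2 by positivity)]
  have R0 : 0 < R := by exact_mod_cast (show (0 : ℝ) < R by linarith)
  have blk : ∀ z : ℕ × ℕ, ∃ Ex : Finset (Fin k → ℕ × ℤ),
      (Ex.card : ℝ) ≤ 2 ^ (K + 3) * C * ((A : ℝ) * H) ^ k / L ^ (K + 3) ∧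
      (R * T * 2 ^ z.1 ≤ N → z.2 ≤ R → ∀ x : Fin k → ℕ × ℤ, Function.Injective x →
        (∀ i, (x i).1 ∈ F C₀ N A ∧ |(x i).2| ≤ H ∧ IsCoprime ((x i).1 : ℤ) (x i).2) → x ∉ Ex →
        |∑ n ∈ Ioc (R * T * 2 ^ z.1) ((R + z.2) * (T * 2 ^ z.1)), Λ n * ∏ i, Λ (fv (x i) n) -
          singSeries x * ((((R + z.2) * (T * 2 ^ z.1) : ℕ) : ℝ) - (R * T * 2 ^ z.1 : ℕ))| ≤
          4 / L ^ 2 * (R * T * 2 ^ z.1 : ℕ)) := by
    rintro ⟨j, i⟩
    by_cases hl : R * T * 2 ^ j ≤ N ∧ i ≤ R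
    swap
    · exact ⟨∅, by simp only [card_empty, Nat.cast_zero]; positivity,
        fun a b => (hl ⟨a, b⟩).elim⟩
    have n0 : T ≤ R * T * 2 ^ j :=
      (Nat.le_mul_of_pos_left T R0).trans (Nat.le_mul_of_pos_right _ (Nat.two_pow_pos j))
    have n1 : W ≤ (R * T * 2 ^ j : ℕ) := T1.trans (by exact_mod_cast n0)
    have n3 : ((R * T * 2 ^ j : ℕ) : ℝ) ≤ N := by exact_mod_cast hl.1
    have n4 : 3 ≤ R * T * 2 ^ j := by exact_mod_cast W1.trans n1
    have g1 : Real.log (R * T * 2 ^ j : ℕ) ≤ L := Real.log_le_log (W0.trans_le n1) n3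
    have g2 : L / 2 ≤ Real.log (R * T * 2 ^ j : ℕ) := by
      have := Real.log_le_log x0 (W2.trans (pow_le_pow_left₀ W0.le n1 2))
      rw [Real.log_pow] at this
      push_cast at this ⊢
      linarith
    have g0 : 0 < L / 2 := by positivity
    have g3 : Real.log (R * T * 2 ^ j : ℕ) ^ C₀ ≤ L ^ C₀ :=
      pow_le_pow_left₀ (g0.le.trans g2) g1 _
    have g4 : L ^ D ≤ Real.log (R * T * 2 ^ j : ℕ) ^ (2 * D) := by
      rw [pow_mul]
      refine pow_le_pow_left₀ L0.le (le_trans ?_ (pow_le_pow_left₀ g0.le g2 2)) _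
      nlinarith
    obtain ⟨Ex, c1, c2⟩ := h (R * T * 2 ^ j) ((R + i) * (T * 2 ^ j)) A H
      ((le_max_left _ _).trans (WN.trans n1)) (by nlinarith [Nat.zero_le (i * (T * 2 ^ j))])
      ((Nat.mul_le_mul_right _ (show R + i ≤ 2 * R by omega)).trans_eq (by ring))
      (g3.trans h1) (le_trans (by gcongr) h2) (h3.trans g4)
    refine ⟨Ex, c1.trans ?_, fun _ _ x hx hc hn => ?_⟩
    · calc _ ≤ C * ((A : ℝ) * H) ^ k / (L / 2) ^ (K + 3) := by gcongr
        _ = _ := by rw [div_pow]; field_simp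
    · refine (c2 x hx (fun i => ⟨hM _ _ _ _ n4 hl.1 (hc i).1, (hc i).2⟩) hn).trans ?_
      have : (L / 2) ^ 2 ≤ Real.log (R * T * 2 ^ j : ℕ) ^ (K + 3) :=
        (pow_le_pow_right₀ (by linarith) (by omega)).trans (pow_le_pow_left₀ g0.le g2 _)
      calc _ ≤ ((R * T * 2 ^ j : ℕ) : ℝ) / (L / 2) ^ 2 := by gcongr
        _ = _ := by field_simp; norm_num
  choose Ex hEx using blk
  obtain ⟨J, hJ⟩ : ∃ J, J = ⌊2 * L⌋₊ := ⟨_, rfl⟩
  have J1 : (J : ℝ) ≤ 2 * L := hJ ▸ Nat.floor_le (by positivity)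
  refine ⟨(range (J + 1) ×ˢ range (R + 1)).biUnion Ex, ?_, fun x hx hc hn y y1 y2 => ?_⟩
  · calc (((range (J + 1) ×ˢ range (R + 1)).biUnion Ex).card : ℝ)
          ≤ ∑ l ∈ range (J + 1) ×ˢ range (R + 1), ((Ex l).card : ℝ) := by
          exact_mod_cast card_biUnion_le
      _ ≤ (range (J + 1) ×ˢ range (R + 1)).card •
            (2 ^ (K + 3) * C * ((A : ℝ) * H) ^ k / L ^ (K + 3)) :=
          sum_le_card_nsmul _ _ _ fun l _ => (hEx l).1
      _ ≤ (3 * L * (3 * L ^ 2)) * (2 ^ (K + 3) * C * ((A : ℝ) * H) ^ k / L ^ (K + 3)) := by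
          rw [nsmul_eq_mul, card_product, card_range, card_range]
          push_cast
          gcongr <;> linarith
      _ = 9 * 2 ^ (K + 3) * C * ((A : ℝ) * H) ^ k / L ^ K := by rw [pow_add L]; field_simp; ring
      _ ≤ _ := by
          gcongr
          exact le_add_of_nonneg_right (by positivity)
  · have s0 := (low k).1 x
    have yW : W * L ^ (k + 5) ≤ y := by
      refine le_trans (le_of_eq ?_) y1
      rw [xW]
      field_simp
      ring
    have RT : ((R * T : ℕ) : ℝ) ≤ 4 * (W * L ^ 2) := by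
      push_cast
      calc (R : ℝ) * T ≤ 2 * L ^ 2 * (2 * W) := by gcongr
        _ = _ := by ring
    have RT2 : ((R * T : ℕ) : ℝ) * L ^ (k + 1) ≤ 4 * (y / L ^ 2) := by
      rw [← mul_div_assoc, le_div_iff₀ (by positivity)]
      calc _ ≤ 4 * (W * L ^ 2) * L ^ (k + 1) * L ^ 2 := by gcongr
        _ = 4 * (W * L ^ (k + 5)) := by ring
        _ ≤ _ := by gcongr
    have RT3 : ((R * T : ℕ) : ℝ) ≤ 4 * (y / L ^ 2) :=
      le_trans (le_mul_of_one_le_right (by positivity) (one_le_pow₀ L1)) RT2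
    have y0 : (0 : ℝ) ≤ y := by positivity
    have RT4 : R * T ≤ y := by
      have : 4 * ((y : ℝ) / L ^ 2) ≤ y := by
        rw [← mul_div_assoc, div_le_iff₀ (by positivity)]
        nlinarith [mul_nonneg y0 (show 0 ≤ L ^ 2 - 4 by nlinarith)]
      exact_mod_cast RT3.trans this
    have HW : (H : ℝ) ≤ W := h3.trans ((pow_le_pow_right₀ L1 (by omega)).trans LW)
    have W3 : 3 * W ≤ N := by
      rw [xW, mul_comm]
      gcongr
      exact le_trans (by linarith) (le_self_pow₀ L1 (by omega))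
    have t := UNK.asm (g := fun n => Λ n * ∏ i, Λ (fv (x i) n)) (s := singSeries x) (e := 4 / L ^ 2)
      (B := L * (2 * L) ^ k) (R := R) (T := T) (y := y)
      (fun n => mul_nonneg ArithmeticFunction.vonMangoldt_nonneg
        (prod_nonneg fun i _ => ArithmeticFunction.vonMangoldt_nonneg)) s0 (by positivity) R0 T0 RT4
      (fun n hn => by
        have m2 : (n : ℝ) ≤ N := by exact_mod_cast hn.trans y2
        refine mul_le_mul (lam_le (by linarith) m2) ?_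
          (prod_nonneg fun i _ => ArithmeticFunction.vonMangoldt_nonneg) L0.le
        refine (prod_le_prod (g := fun _ => 2 * L)
          (fun i _ => ArithmeticFunction.vonMangoldt_nonneg) fun i _ => ?_).trans (by simp)
        have a3 : ((x i).1 : ℝ) ≤ 2 * A := by
          exact_mod_cast (mem_Ioc.1 (hF.sub _ _ _ (hc i).1)).2.trans (by omega : A ≤ 2 * A)
        exact fv_le (W := W) (by linarith) m2 (by linarith) ((le_abs_self _).trans (hc i).2.1) HW W3)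
      (fun j i j1 i1 => (hEx (j, i)).2 (j1.trans y2) i1 x hx hc fun k' => hn (mem_biUnion.2
        ⟨(j, i), mem_product.2 ⟨mem_range.2 (Nat.lt_succ_of_le (hJ ▸ j_le
          ((Nat.le_mul_of_pos_left _ (Nat.mul_pos R0 T0)).trans (j1.trans y2)))),
          mem_range.2 (Nat.lt_succ_of_le i1)⟩, k'⟩))
    rw [show Icc 1 y = Ioc 0 y from rfl]
    refine t.trans ?_
    have v1 : (y : ℝ) / R ≤ y / L ^ 2 := by gcongr
    have v2 : ((R * T : ℕ) : ℝ) * (L * (2 * L) ^ k) ≤ 2 ^ k * (4 * (y / L ^ 2)) :=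
      le_trans (le_of_eq (by rw [mul_pow]; ring))
        (mul_le_mul_of_nonneg_left RT2 (show (0 : ℝ) ≤ 2 ^ k by positivity))
    have v3 := mul_le_mul_of_nonneg_left RT3 s0
    have v4 := mul_le_mul_of_nonneg_left v1 s0
    have v5 : (0 : ℝ) ≤ y / L ^ 2 := by positivity
    rw [mul_div_assoc, show 4 / L ^ 2 * (y : ℝ) = 4 * (y / L ^ 2) by ring]
    refine le_trans ?_ (fin le_rfl (by positivity) (by positivity) v5 s0)
    linarith

theorem tel_bx : TELFor bx :=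
  tel2 lam bx fam_bx (chb_bx (chb gd fam_gd (tii2 gd fam_gd tii_gd)))

theorem fnk_bx : FNKFor bx :=
  fnk2 low cnk bx fam_bx (unk2 low bx fam_bx mono_bx
    (asm2 (mtk lam swp crt loc1) (ser loc1 loc2 ex ran eb del) bx fam_bx tel_bx))

end Pool.Agent.MP_39a890_nt.KT
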