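import Pool.Agent.MP_39a890_nt.kt.Top
import Pool.Agent.MP_39a890_nt.kt.SER3
import Pool.Agent.MP_39a890_nt.kt.DV1
import Pool.Agent.MP_39a890_nt.kt.DVA
import Pool.Agent.MP_39a890_nt.kt.ASM3
import Pool.Agent.MP_39a890_nt.kt.UNK3
import Pool.Agent.MP_39a890_nt.kt.CNK3
import Pool.Agent.MP_39a890_nt.kt.FNK3

/-! Project KT: the assembly for the full range of heights. -/

set_option autoImplicit false

namespace Pool.Agent.MP_39a890_nt.KT

theorem fnk3_bx : FNK3For bx :=
  kt3_chain (mtk lam swp crt loc1) ser3 dv1 dva asm3 low unk3 cnk3 fnk3 bx fam_bx mono_bx tel_bx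

end Pool.Agent.MP_39a890_nt.KT
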