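import Pool.Agent.MP_39a890_nt.kt.Spec4
import Pool.Agent.MP_39a890_nt.kt.UNK

/-! Uniformity in the end point, for tuples of shifts in short windows. -/

set_option autoImplicit false

noncomputable section

namespace Pool.Agent.MP_39a890_nt.KT

open Finset Filter
open scoped ArithmeticFunction.vonMangoldt
open Pool.Agent.MP_678834_nt Pool.Agent.MP_678834_nt.HL9 Pool.Agent.MP_39a890_nt.MS

open UNK in
theorem unk4 : LOWStmt → KSStmt → UNK4Stmt := by
  classical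
  intro low hK ε ε0 k K
  obtain ⟨m, hm⟩ : ∃ m, m = K + k + 4 := ⟨_, rfl⟩
  obtain ⟨C, N₀, hC, h⟩ := hK ε ε0 k (K + m + 1)
  obtain ⟨x₀, hx₀⟩ := eventually_atTop.1 ((ev_log_pow one_pos (2 * (2 * m + 1)) 1).and
    ((ev_log_pow ε0 (2 * m + 1) 4).and ((ev_log (8 * 2 ^ (K + m + 1))).and
      ((ev_log (2 ^ k + 1)).and ((eventually_ge_atTop 9).and
        (eventually_ge_atTop (max N₀ 3 ^ 2)))))))
  refine ⟨9 * 2 ^ (K + m + 1) * C, x₀, by positivity, fun N H u hN h1 h2 => ?_⟩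
  obtain ⟨e1, e3, hL, hL', x9, e2⟩ := hx₀ N hN
  rw [one_mul, Real.rpow_one] at e1
  set L := Real.log N with hLx
  have L8 : 8 ≤ L := le_trans (le_mul_of_one_le_right (by norm_num) (one_le_pow₀ one_le_two)) hL
  have L1 : 1 ≤ L := by linarith
  have L0 : 0 < L := by linarith
  have x0 : (0 : ℝ) < N := by linarith
  obtain ⟨W, hW⟩ : ∃ W, W = (N : ℝ) / L ^ (2 * m + 1) := ⟨_, rfl⟩
  have W0 : 0 < W := by rw [hW]; positivity
  have xW : (N : ℝ) = W * L ^ (2 * m + 1) := by rw [hW]; field_simp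
  have LW : L ^ (2 * m + 1) ≤ W := by
    rw [hW, le_div_iff₀ (by positivity), ← pow_add, ← two_mul]
    exact e1
  have H4 : ∀ i, 4 * ((|u i| + H : ℤ) : ℝ) ≤ W := fun i => by
    rw [hW, le_div_iff₀ (by positivity)]
    calc _ ≤ 4 * (N : ℝ) ^ (1 - ε) * L ^ (2 * m + 1) := by have := h2 i; gcongr
      _ = (N : ℝ) ^ (1 - ε) * (4 * L ^ (2 * m + 1)) := by ring
      _ ≤ (N : ℝ) ^ (1 - ε) * (N : ℝ) ^ ε := by gcongr
      _ = _ := by rw [← Real.rpow_add x0, sub_add_cancel, Real.rpow_one]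
  have W2 : (N : ℝ) ≤ W ^ 2 := by
    rw [sq]
    exact xW.le.trans (by gcongr)
  have WN : max N₀ 3 ≤ W := le_of_pow_le_pow_left₀ two_ne_zero W0.le (e2.trans W2)
  have W1 : 3 ≤ W := (le_max_right _ _).trans WN
  obtain ⟨T, hT⟩ : ∃ T, T = ⌈W⌉₊ := ⟨_, rfl⟩
  have T1 : W ≤ T := hT ▸ Nat.le_ceil W
  have T2 : (T : ℝ) ≤ 2 * W := by linarith [hT ▸ Nat.ceil_lt_add_one W0.le]
  have T0 : 0 < T := by exact_mod_cast W0.trans_le T1
  have u1 : (1 : ℝ) ≤ L ^ m := one_le_pow₀ L1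
  obtain ⟨R, hR⟩ : ∃ R, R = ⌈L ^ m⌉₊ := ⟨_, rfl⟩
  have R1 : L ^ m ≤ R := hR ▸ Nat.le_ceil _
  have R2 : (R : ℝ) ≤ 2 * L ^ m := by
    linarith [hR ▸ Nat.ceil_lt_add_one (show 0 ≤ L ^ m by positivity)]
  have R0 : 0 < R := by exact_mod_cast (show (0 : ℝ) < R by linarith)
  have blk : ∀ z : ℕ × ℕ, ∃ Ex : Finset (Fin k → ℤ),
      (Ex.card : ℝ) ≤ 2 ^ (K + m + 1) * C * (H : ℝ) ^ k / L ^ (K + m + 1) ∧
      (R * T * 2 ^ z.1 ≤ N → z.2 ≤ R → ∀ d ∈ wn u H, d ∉ Ex →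
        |∑ n ∈ Ioc (R * T * 2 ^ z.1) ((R + z.2) * (T * 2 ^ z.1)), Λ n * ∏ i, Λ (fv (sh d i) n) -
          singSeries (sh d) * ((((R + z.2) * (T * 2 ^ z.1) : ℕ) : ℝ) - (R * T * 2 ^ z.1 : ℕ))| ≤
          1 / (8 * L ^ K) * (R * T * 2 ^ z.1 : ℕ)) := by
    rintro ⟨j, i⟩
    by_cases hl : R * T * 2 ^ j ≤ N ∧ i ≤ R
    swap
    · exact ⟨∅, by simp only [card_empty, Nat.cast_zero]; positivity,
        fun a b => (hl ⟨a, b⟩).elim⟩
    have n0 : T ≤ R * T * 2 ^ j :=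
      (Nat.le_mul_of_pos_left T R0).trans (Nat.le_mul_of_pos_right _ (Nat.two_pow_pos j))
    have n1 : W ≤ (R * T * 2 ^ j : ℕ) := T1.trans (by exact_mod_cast n0)
    have n3 : ((R * T * 2 ^ j : ℕ) : ℝ) ≤ N := by exact_mod_cast hl.1
    have g2 : L / 2 ≤ Real.log (R * T * 2 ^ j : ℕ) := by
      have := Real.log_le_log x0 (W2.trans (pow_le_pow_left₀ W0.le n1 2))
      rw [Real.log_pow] at this
      push_cast at this ⊢
      linarith
    have g0 : 0 < L / 2 := by positivity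
    obtain ⟨Ex, c1, c2⟩ := h (R * T * 2 ^ j) ((R + i) * (T * 2 ^ j)) H u
      ((le_max_left _ _).trans (WN.trans n1)) (by nlinarith [Nat.zero_le (i * (T * 2 ^ j))])
      ((Nat.mul_le_mul_right _ (show R + i ≤ 2 * R by omega)).trans_eq (by ring))
      (le_trans (Real.rpow_le_rpow (Nat.cast_nonneg _) n3 (by positivity)) h1)
      (fun l => by exact_mod_cast (H4 l).trans n1)
    refine ⟨Ex, c1.trans ?_, fun _ _ d hd hn => ?_⟩
    · calc _ ≤ C * (H : ℝ) ^ k / (L / 2) ^ (K + m + 1) := by gcongr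
        _ = _ := by rw [div_pow]; field_simp
    · refine (c2 d hd hn).trans ?_
      have : 8 * L ^ K ≤ Real.log (R * T * 2 ^ j : ℕ) ^ (K + m + 1) := by
        refine le_trans ?_ (pow_le_pow_left₀ g0.le g2 _)
        rw [div_pow, le_div_iff₀ (by positivity)]
        calc _ = L ^ K * 1 * (8 * 2 ^ (K + m + 1)) := by ring
          _ ≤ L ^ K * L ^ m * L := by gcongr
          _ = _ := by ring
      calc _ ≤ ((R * T * 2 ^ j : ℕ) : ℝ) / (8 * L ^ K) := by gcongr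
        _ = _ := by ring
  choose Ex hEx using blk
  obtain ⟨J, hJ⟩ : ∃ J, J = ⌊2 * L⌋₊ := ⟨_, rfl⟩
  have J1 : (J : ℝ) ≤ 2 * L := hJ ▸ Nat.floor_le (by positivity)
  refine ⟨(range (J + 1) ×ˢ range (R + 1)).biUnion Ex, ?_, fun d hd hn => ?_⟩
  · calc (((range (J + 1) ×ˢ range (R + 1)).biUnion Ex).card : ℝ)
          ≤ ∑ l ∈ range (J + 1) ×ˢ range (R + 1), ((Ex l).card : ℝ) := by
          exact_mod_cast card_biUnion_le
      _ ≤ (range (J + 1) ×ˢ range (R + 1)).card •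
            (2 ^ (K + m + 1) * C * (H : ℝ) ^ k / L ^ (K + m + 1)) :=
          sum_le_card_nsmul _ _ _ fun l _ => (hEx l).1
      _ ≤ (3 * L * (3 * L ^ m)) * (2 ^ (K + m + 1) * C * (H : ℝ) ^ k / L ^ (K + m + 1)) := by
          rw [nsmul_eq_mul, card_product, card_range, card_range]
          push_cast
          gcongr <;> linarith
      _ = _ := by rw [pow_succ L, pow_add L]; field_simp; ring
  have s0 := (low k).1 (sh d)
  have RT : ((R * T : ℕ) : ℝ) ≤ 4 * (W * L ^ m) := by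
    push_cast
    calc (R : ℝ) * T ≤ 2 * L ^ m * (2 * W) := by gcongr
      _ = _ := by ring
  have RT1 : (R + R) * (T * 2 ^ 0) ≤ N := by
    have a : 8 * (W * L ^ m) ≤ N := by
      rw [xW]
      calc _ = W * (L ^ m * 1 * 8) := by ring
        _ ≤ W * (L ^ m * L ^ m * L) := by gcongr
        _ = _ := by ring
    have b : (((R + R) * (T * 2 ^ 0) : ℕ) : ℝ) = 2 * (R * T : ℕ) := by push_cast; ring
    exact_mod_cast (b.trans_le (by linarith) : _ ≤ (N : ℝ))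
  have W3 : 3 * W ≤ N := by
    rw [xW, mul_comm]
    gcongr
    exact le_trans (by linarith) (le_self_pow₀ L1 (by omega))
  have g0 : ∀ n, 0 ≤ Λ n * ∏ i, Λ (fv (sh d i) n) := fun n =>
    mul_nonneg ArithmeticFunction.vonMangoldt_nonneg
      (prod_nonneg fun i _ => ArithmeticFunction.vonMangoldt_nonneg)
  have gB : ∀ n ≤ N, Λ n * ∏ i, Λ (fv (sh d i) n) ≤ L * (2 * L) ^ k := fun n hn => by
    have m2 : (n : ℝ) ≤ N := by exact_mod_cast hn
    refine mul_le_mul (lam_le (by linarith) m2) ?_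
      (prod_nonneg fun i _ => ArithmeticFunction.vonMangoldt_nonneg) L0.le
    refine (prod_le_prod (g := fun _ => 2 * L)
      (fun i _ => ArithmeticFunction.vonMangoldt_nonneg) fun i _ => ?_).trans (by simp)
    have a1 : (0 : ℤ) ≤ |u i| + H := by positivity
    have a2 : (((|u i| + H).toNat : ℕ) : ℝ) = ((|u i| + H : ℤ) : ℝ) := by
      rw [← Int.cast_natCast, Int.toNat_of_nonneg a1]
    have a3 : (0 : ℝ) ≤ ((|u i| + H : ℤ) : ℝ) := Int.cast_nonneg a1
    have a4 := (mem_Ioc.1 (Fintype.mem_piFinset.1 hd i)).2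
    refine fv_le (W := W) (H := (|u i| + H).toNat) (by linarith) m2 ?_ ?_
      (by linarith [H4 i]) W3
    · simp only [sh, Nat.cast_one]
      linarith
    · rw [Int.toNat_of_nonneg a1]
      exact a4.trans (by linarith [le_abs_self (u i)])
  have bl := fun j i (j1 : R * T * 2 ^ j ≤ N) (i1 : i ≤ R) => (hEx (j, i)).2 j1 i1 d hd
    fun k' => hn (mem_biUnion.2 ⟨(j, i), mem_product.2 ⟨mem_range.2 (Nat.lt_succ_of_le (hJ ▸ j_le
      ((Nat.le_mul_of_pos_left _ (Nat.mul_pos R0 T0)).trans j1))),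
      mem_range.2 (Nat.lt_succ_of_le i1)⟩, k'⟩)
  have LK : (1 : ℝ) ≤ L ^ K := one_le_pow₀ L1
  have B1 : L * (2 * L) ^ k + 1 ≤ L ^ (k + 2) := by
    have : (1 : ℝ) ≤ L ^ (k + 1) := one_le_pow₀ L1
    calc _ ≤ (2 ^ k + 1) * L ^ (k + 1) := by rw [mul_pow, add_mul, pow_succ L] at *; nlinarith
      _ ≤ L * L ^ (k + 1) := by gcongr
      _ = _ := by ring
  have s1 : singSeries (sh d) ≤ L ^ (k + 2) := by
    have b0 : R * T * 2 ^ 0 ≤ (R + R) * (T * 2 ^ 0) := by nlinarith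
    have b1 := (abs_le.1 (bl 0 R (b0.trans RT1) le_rfl)).1
    have b2 := sum_le_card_nsmul (Ioc (R * T * 2 ^ 0) ((R + R) * (T * 2 ^ 0))) _ _
      fun n hn => gB n ((mem_Ioc.1 hn).2.trans RT1)
    rw [nsmul_eq_mul, Nat.card_Ioc, Nat.cast_sub b0] at b2
    have b3 : (((R + R) * (T * 2 ^ 0) : ℕ) : ℝ) - (R * T * 2 ^ 0 : ℕ) = (R * T * 2 ^ 0 : ℕ) := by
      push_cast
      ring
    have b4 : (0 : ℝ) < (R * T * 2 ^ 0 : ℕ) := by positivity
    have b5 : 1 / (8 * L ^ K) ≤ 1 := (div_le_one (by positivity)).2 (by linarith)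
    have b6 := mul_le_mul_of_nonneg_right b5 b4.le
    simp only [b3] at b1 b2
    refine le_trans (le_of_mul_le_mul_right ?_ b4) B1
    have b7 := b1.trans (sub_le_sub_right b2 _)
    generalize ((R * T * 2 ^ 0 : ℕ) : ℝ) = X at b6 b7 ⊢
    generalize 1 / (8 * L ^ K) = e at b6 b7
    generalize L * (2 * L) ^ k = B at b7 ⊢
    linarith
  refine ⟨s1, fun y hy => ?_⟩
  have y1 : (y : ℝ) ≤ N := by exact_mod_cast hy
  have q0 : 0 ≤ (N : ℝ) / L ^ K := by positivity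
  have v1 : ((R * T : ℕ) : ℝ) * (L * (2 * L) ^ k + singSeries (sh d)) ≤ N / L ^ K / 4 := by
    rw [div_div, le_div_iff₀ (by positivity), xW]
    calc _ ≤ 4 * (W * L ^ m) * (2 * L ^ (k + 2)) * (L ^ K * 4) := by
          gcongr
          linarith
      _ = W * L ^ m * L ^ (K + k + 2) * (8 * 4 * 1) := by ring
      _ ≤ W * L ^ m * L ^ (K + k + 2) * (L * L * L) := by
          gcongr
          linarith
      _ = _ := by rw [hm]; ring
  rw [show Icc 1 y = Ioc 0 y from rfl]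
  rcases le_or_gt (R * T) y with c | c
  · refine (UNK.asm (e := 1 / (8 * L ^ K)) g0 s0 (by positivity) R0 T0 c
      (fun n hn => gB n (hn.trans hy)) fun j i j1 i1 => bl j i (j1.trans hy) i1).trans ?_
    have v2 : 2 * (1 / (8 * L ^ K) * (y : ℝ)) ≤ N / L ^ K / 4 := by
      calc _ ≤ 2 * (1 / (8 * L ^ K) * (N : ℝ)) := by gcongr
        _ = _ := by field_simp; norm_num
    have v3 : singSeries (sh d) * ((y : ℝ) / R) ≤ N / L ^ K / 4 := by
      calc _ ≤ L ^ (k + 2) * ((N : ℝ) / L ^ m) := by gcongr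
        _ = N / L ^ K / (L * L) := by rw [hm]; field_simp; ring
        _ ≤ _ := by
          gcongr
          nlinarith
    linarith
  · have z1 := sum_nonneg fun n (_ : n ∈ Ioc 0 y) => g0 n
    have z2 := sum_le_card_nsmul (Ioc 0 y) _ _ fun n hn => gB n ((mem_Ioc.1 hn).2.trans hy)
    rw [nsmul_eq_mul, Nat.card_Ioc, Nat.sub_zero] at z2
    have z3 : (y : ℝ) * (L * (2 * L) ^ k + singSeries (sh d)) ≤
        (R * T : ℕ) * (L * (2 * L) ^ k + singSeries (sh d)) := by gcongr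
    have z4 : 0 ≤ singSeries (sh d) * y := by positivity
    have z5 : 0 ≤ (y : ℝ) * (L * (2 * L) ^ k) := by positivity
    exact abs_le.2 ⟨by linarith, by linarith⟩

end Pool.Agent.MP_39a890_nt.KT
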