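import Pool.Agent.MP_39a890_nt.kt.MTK
import Pool.Agent.MP_39a890_nt.kt.LAM
import Pool.Agent.MP_39a890_nt.kt.SWP
import Pool.Agent.MP_39a890_nt.kt.CRT
import Pool.Agent.MP_39a890_nt.kt.LOC1
import Pool.Agent.MP_39a890_nt.kt.LOW
import Pool.Agent.MP_39a890_nt.kt.Flip
import Pool.Agent.MP_39a890_nt.kt.CHS
import Pool.Agent.MP_39a890_nt.kt.TLS
import Pool.Agent.MP_39a890_nt.kt.SER4
import Pool.Agent.MP_39a890_nt.kt.OMG
import Pool.Agent.MP_39a890_nt.kt.OMT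
import Pool.Agent.MP_39a890_nt.kt.ASM4
import Pool.Agent.MP_39a890_nt.kt.UNK4
import Pool.Agent.MP_39a890_nt.kt.CNT4
import Pool.Agent.MP_39a890_nt.kt.LI
import Pool.Agent.MP_39a890_nt.kt.FIN4

/-! Project KS: the assembly. -/

set_option autoImplicit false

namespace Pool.Agent.MP_39a890_nt.KT

theorem fin5 : FIN5Stmt :=
  flip (ks_chain chs tls ser4 omg omt (mtk lam swp crt loc1) asm4 low unk4 cnt4 li fin4)

end Pool.Agent.MP_39a890_nt.KT
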